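import Pool.Agent.EGH2.LexDefs

/-!
# Arithmetic of `sg`, `tau`, `mu`
-/

set_option autoImplicit false

namespace Pool.Agent.EGH2

theorem sg_zero (s : ℕ → ℕ) : sg s 0 = 0 := by simp [sg]

theorem sg_succ (s : ℕ → ℕ) (t : ℕ) : sg s (t + 1) = sg s t + s t := by
  simp [sg, Finset.sum_range_succ]

theorem sg_shift (s : ℕ → ℕ) (t : ℕ) : sg s (t + 1) = s 0 + sg (fun i => s (i + 1)) t := by
  simp [sg, Finset.sum_range_succ', add_comm]

theorem sg_mono (s : ℕ → ℕ) : Monotone (sg s) := by
  apply monotone_nat_of_le_succ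
  intro t
  rw [sg_succ]
  omega

theorem tau_le (s : ℕ → ℕ) (c e : ℕ) : tau s c e ≤ c := Nat.findGreatest_le c

theorem sg_tau_le (s : ℕ → ℕ) (c e : ℕ) : sg s (tau s c e) ≤ e := by
  have := Nat.findGreatest_spec (P := fun u => sg s u ≤ e) (Nat.zero_le c) (by simp [sg_zero])
  exact this

theorem le_tau {s : ℕ → ℕ} {c e t : ℕ} (h : sg s t ≤ e) (ht : t ≤ c) : t ≤ tau s c e :=
  Nat.le_findGreatest ht h

theorem lt_sg_of_tau_lt {s : ℕ → ℕ} {c e t : ℕ} (h : tau s c e < t) (ht : t ≤ c) : e < sg s t := by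
  by_contra hc
  have := le_tau (s := s) (c := c) (e := e) (by omega) ht
  omega

theorem tau_eq {s : ℕ → ℕ} {c e t : ℕ} (h : sg s t ≤ e) (ht : t ≤ c)
    (h2 : t = c ∨ e < sg s (t + 1)) : tau s c e = t := by
  apply le_antisymm _ (le_tau h ht)
  by_contra hc
  push Not at hc
  rcases h2 with h2 | h2
  · have := tau_le s c e
    omega
  · have h3 := sg_mono s (show t + 1 ≤ tau s c e by omega)
    have h4 := sg_tau_le s c e
    omega

theorem tau_zero (s : ℕ → ℕ) (e : ℕ) : tau s 0 e = 0 := Nat.le_zero.1 (tau_le s 0 e)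

theorem tau_shift {s : ℕ → ℕ} {n d : ℕ} (h : s 0 ≤ d) :
    tau s (n + 1) d = tau (fun i => s (i + 1)) n (d - s 0) + 1 := by
  set t := tau (fun i => s (i + 1)) n (d - s 0) with ht
  apply tau_eq
  · rw [sg_shift]
    have := sg_tau_le (fun i => s (i + 1)) n (d - s 0)
    rw [← ht] at this
    omega
  · have := tau_le (fun i => s (i + 1)) n (d - s 0)
    omega
  · rcases Nat.lt_or_ge t n with h1 | h1
    · right
      rw [sg_shift]
      have := lt_sg_of_tau_lt (s := fun i => s (i + 1)) (c := n) (e := d - s 0) (t := t + 1)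
        (by omega) (by omega)
      omega
    · left
      have := tau_le (fun i => s (i + 1)) n (d - s 0)
      omega

theorem tau_add_le {s : ℕ → ℕ} (hs : Monotone s) (n d j : ℕ) :
    tau s n (d + j) ≤ tau s n d + j := by
  set t := tau s n d with ht
  rcases Nat.lt_or_ge t n with h1 | h1
  · have h2 : d < sg s (t + 1) := lt_sg_of_tau_lt (c := n) (by omega) (by omega)
    have h3 : sg s t ≤ d := sg_tau_le s n d
    have h4 : 1 ≤ s t := by
      rw [sg_succ] at h2
      omega
    have h5 : ∀ i, sg s (t + 1) + i ≤ sg s (t + 1 + i) := by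
      intro i
      induction i with
      | zero => simp
      | succ i ih =>
        have h6 : s t ≤ s (t + 1 + i) := hs (by omega)
        have h7 : sg s (t + 1 + (i + 1)) = sg s (t + 1 + i) + s (t + 1 + i) := sg_succ s (t + 1 + i)
        rw [h7]
        omega
    by_contra hc
    push Not at hc
    have h8 := sg_mono s (show t + 1 + j ≤ tau s n (d + j) by omega)
    have h9 := sg_tau_le s n (d + j)
    have h10 := h5 j
    omega
  · have := tau_le s n (d + j)
    omega

theorem tau_of_lt {s : ℕ → ℕ} {n d j : ℕ} (h : d + j < sg s (tau s n d + 1)) :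
    tau s n (d + j) = tau s n d := by
  apply tau_eq
  · have := sg_tau_le s n d
    omega
  · exact tau_le s n d
  · right
    exact h

theorem mu_shift {s : ℕ → ℕ} {n d : ℕ} (h : s 0 ≤ d) :
    mu (n + 1) s d = mu n (fun i => s (i + 1)) (d - s 0) + 2 := by
  unfold mu
  rw [tau_shift h]
  set t := tau (fun i => s (i + 1)) n (d - s 0) with ht
  rw [sg_shift s t, sg_shift s (t + 1)]
  have e1 : (s 0 + sg (fun i => s (i + 1)) t = d) ↔ (sg (fun i => s (i + 1)) t = d - s 0) := by
    omega
  have e2 : (d + 1 = s 0 + sg (fun i => s (i + 1)) (t + 1)) ↔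
      (d - s 0 + 1 = sg (fun i => s (i + 1)) (t + 1)) := by
    omega
  have e3 : (t + 1 + 1 < n + 1) ↔ (t + 1 < n) := by omega
  by_cases c1 : sg (fun i => s (i + 1)) t = d - s 0
  · rw [if_pos (e1.2 c1), if_pos c1]
    ring
  · rw [if_neg (fun h => c1 (e1.1 h)), if_neg c1]
    by_cases c3 : t + 1 < n
    · rw [if_pos (e3.2 c3), if_pos c3]
      ring
    · rw [if_neg (fun h => c3 (e3.1 h)), if_neg c3]
      by_cases c2 : d - s 0 + 1 = sg (fun i => s (i + 1)) (t + 1)
      · rw [if_pos (e2.2 c2), if_pos c2]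
        ring
      · rw [if_neg (fun h => c2 (e2.1 h)), if_neg c2]
        ring

end Pool.Agent.EGH2
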