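import Pool.Agent.EGH2.Fin2

/-!
# The final statements
-/

set_option autoImplicit false

namespace Pool.Agent.EGH2

open MvPolynomial

/-- from the data of the problem to a complete intersection with extended degrees -/
theorem mkCI {k : Type} [Field k] {n c : ℕ} {D : Fin c → ℕ} (hD : ∀ t, 1 ≤ D t)
    {f : Fin c → MvPolynomial (Fin n) k} (hfD : ∀ t, (f t).IsHomogeneous (D t))
    (hreg : RingTheory.Sequence.IsRegular (MvPolynomial (Fin n) k) (List.ofFn f)) (B : ℕ) :
    CI (sx D B) f := by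
  refine ⟨fun i => ?_, wreg_of_isRegular f hreg⟩
  rw [sx_lt hD]
  exact hfD i

theorem final_form {k : Type} [Field k] {n c : ℕ} (hc : c ≤ n) {D : Fin c → ℕ}
    (hD : ∀ t, 1 ≤ D t) (J : Ideal (MvPolynomial (Fin n) k))
    (f : Fin c → MvPolynomial (Fin n) k) (hfJ : ∀ t, f t ∈ J)
    (hfD : ∀ t, (f t).IsHomogeneous (D t))
    (hreg : RingTheory.Sequence.IsRegular (MvPolynomial (Fin n) k) (List.ofFn f))
    (d a : ℕ) (ha : hd J d = hd (Ideal.span (Set.range f)) d + a) (B E : ℕ) (hB : d + 1 ≤ B)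
    (hcnt : ∀ m ∈ stdF n n (sx D B) d, (geF n n (sx D B) d m).card = a →
      ∑ w ∈ geF n n (sx D B) d m, upc n n (sx D B) w
        ≤ qd (pI f c) (S1 k n * Je J d) + E) :
    ∃ L : Ideal (MvPolynomial (Fin n) k),
      (∃ M : Set (Fin n →₀ ℕ), L = Ideal.span ((fun w => monomial w (1 : k)) '' M)) ∧
      (∀ u v : Fin n →₀ ℕ, ∑ t, u t = ∑ t, v t →
          (∃ t, (∀ i, i < t → v i = u i) ∧ v t < u t) →
          monomial v (1 : k) ∈ L → monomial u (1 : k) ∈ L) ∧
      hd (L + Ideal.span (Set.range fun t : Fin c => X (Fin.castLE hc t) ^ D t)) d = hd J d ∧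
      hd (L + Ideal.span (Set.range fun t : Fin c => X (Fin.castLE hc t) ^ D t)) (d + 1)
        ≤ hd J (d + 1) + E := by
  rcases Nat.eq_zero_or_pos n with hn | hn
  · subst hn
    have hc0 : c = 0 := by omega
    subst hc0
    obtain ⟨M, hM⟩ := zero_vars J
    refine ⟨J, ⟨M, hM⟩, ?_, ?_, ?_⟩
    · intro u v _ _ hv
      have : u = v := Subsingleton.elim _ _
      rw [this]
      exact hv
    · have h1 : Ideal.span (Set.range fun t : Fin 0 =>
          (X (Fin.castLE hc t) ^ D t : MvPolynomial (Fin 0) k)) = ⊥ := by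
        rw [Ideal.span_eq_bot]
        rintro _ ⟨t, _⟩
        exact t.elim0
      rw [h1, Ideal.add_eq_sup, sup_bot_eq]
    · have h1 : Ideal.span (Set.range fun t : Fin 0 =>
          (X (Fin.castLE hc t) ^ D t : MvPolynomial (Fin 0) k)) = ⊥ := by
        rw [Ideal.span_eq_bot]
        rintro _ ⟨t, _⟩
        exact t.elim0
      rw [h1, Ideal.add_eq_sup, sup_bot_eq]
      exact Nat.le_add_right _ _
  · have hf : CI (sx D B) f := mkCI hD hfD hreg B
    have hbig : ∀ i, c ≤ i → d + 1 ≤ sx D B i := fun i hi => hB.trans (sx_ge B i hi)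
    rw [← pI_eq_range] at ha
    have h1 := exists_lex hc hn hf hbig hfJ ha E hcnt
    simp only [sx_lt hD] at h1
    exact h1

/-- defect at most two -/
theorem defect_two {k : Type} [Field k] {n c : ℕ} (hc : c ≤ n) {D : Fin c → ℕ}
    (hD : ∀ t, 1 ≤ D t) (hmono : Monotone D) (J : Ideal (MvPolynomial (Fin n) k))
    (f : Fin c → MvPolynomial (Fin n) k) (hfJ : ∀ t, f t ∈ J)
    (hfD : ∀ t, (f t).IsHomogeneous (D t))
    (hreg : RingTheory.Sequence.IsRegular (MvPolynomial (Fin n) k) (List.ofFn f))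
    (d : ℕ) (ha : hd J d ≤ hd (Ideal.span (Set.range f)) d + 2) :
    ∃ L : Ideal (MvPolynomial (Fin n) k),
      (∃ M : Set (Fin n →₀ ℕ), L = Ideal.span ((fun w => monomial w (1 : k)) '' M)) ∧
      (∀ u v : Fin n →₀ ℕ, ∑ t, u t = ∑ t, v t →
          (∃ t, (∀ i, i < t → v i = u i) ∧ v t < u t) →
          monomial v (1 : k) ∈ L → monomial u (1 : k) ∈ L) ∧
      hd (L + Ideal.span (Set.range fun t : Fin c => X (Fin.castLE hc t) ^ D t)) d = hd J d ∧
      hd (L + Ideal.span (Set.range fun t : Fin c => X (Fin.castLE hc t) ^ D t)) (d + 1)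
        ≤ hd J (d + 1) := by
  have hIJ : pI f c ≤ J := pI_le fun i _ => hfJ i
  have h0 := qd_Je hIJ d
  rw [pI_eq_range] at h0
  obtain ⟨a, ha'⟩ : ∃ a, hd J d = hd (Ideal.span (Set.range f)) d + a :=
    ⟨qd (Ideal.span (Set.range f)) (Je J d), by omega⟩
  have ha2 : a ≤ 2 := by omega
  have h1 := final_form hc hD J f hfJ hfD hreg d a ha' (d + 1) 0 le_rfl
    (finA hc (sx_mono hmono _) (mkCI hD hfD hreg _)
      (fun i hi => sx_ge _ i hi) hfJ (by rw [pI_eq_range]; exact ha') ha2)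
  simpa using h1

/-- the window theorem -/
theorem window {k : Type} [Field k] {n c : ℕ} (hc : c ≤ n) {D : Fin c → ℕ}
    (hD : ∀ t, 1 ≤ D t) (hmono : Monotone D) (J : Ideal (MvPolynomial (Fin n) k))
    (f : Fin c → MvPolynomial (Fin n) k) (hfJ : ∀ t, f t ∈ J)
    (hfD : ∀ t, (f t).IsHomogeneous (D t))
    (hreg : RingTheory.Sequence.IsRegular (MvPolynomial (Fin n) k) (List.ofFn f))
    (d a : ℕ) (ha : hd J d = hd (Ideal.span (Set.range f)) d + a)
    (t : ℕ) (htc : t ≤ c) (hat : t + a ≤ n) (h1 : ∑ i : Fin c with i.val < t, (D i - 1) < d)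
    (h2 : t < c → d < ∑ i : Fin c with i.val < t + 1, (D i - 1))
    (h3 : t < c → d + a ≤ (∑ i : Fin c with i.val < t + 1, (D i - 1)) + 1) :
    ∃ L : Ideal (MvPolynomial (Fin n) k),
      (∃ M : Set (Fin n →₀ ℕ), L = Ideal.span ((fun w => monomial w (1 : k)) '' M)) ∧
      (∀ u v : Fin n →₀ ℕ, ∑ t, u t = ∑ t, v t →
          (∃ t, (∀ i, i < t → v i = u i) ∧ v t < u t) →
          monomial v (1 : k) ∈ L → monomial u (1 : k) ∈ L) ∧
      hd (L + Ideal.span (Set.range fun t : Fin c => X (Fin.castLE hc t) ^ D t)) d = hd J d ∧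
      hd (L + Ideal.span (Set.range fun t : Fin c => X (Fin.castLE hc t) ^ D t)) (d + 1)
        ≤ hd J (d + 1) := by
  set B := d + 1 + a with hB
  have e1 : sg (sx D B) t < d := by
    rw [sg_sx D B t htc]
    exact h1
  have e2 : d < sg (sx D B) (t + 1) := by
    rcases Nat.lt_or_ge t c with h | h
    · rw [sg_sx D B (t + 1) h]
      exact h2 h
    · have := sx_ge (D := D) B t h
      rw [sg_succ]
      omega
  have e3 : d + a ≤ sg (sx D B) (t + 1) + 1 := by
    rcases Nat.lt_or_ge t c with h | h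
    · rw [sg_sx D B (t + 1) h]
      exact h3 h
    · have := sx_ge (D := D) B t h
      rw [sg_succ]
      omega
  have h4 := final_form hc hD J f hfJ hfD hreg d a ha B 0 (by omega)
    (finB hc (sx_mono hmono _) (mkCI hD hfD hreg _)
      (fun i hi => le_trans (by omega) (sx_ge _ i hi)) hfJ (by rw [pI_eq_range]; exact ha)
      (by omega) e1 e2 e3)
  simpa using h4

/-- all defects, up to `a (a - 1)` -/
theorem all_defects {k : Type} [Field k] {n c : ℕ} (hc : c ≤ n) {D : Fin c → ℕ}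
    (hD : ∀ t, 1 ≤ D t) (hmono : Monotone D) (J : Ideal (MvPolynomial (Fin n) k))
    (f : Fin c → MvPolynomial (Fin n) k) (hfJ : ∀ t, f t ∈ J)
    (hfD : ∀ t, (f t).IsHomogeneous (D t))
    (hreg : RingTheory.Sequence.IsRegular (MvPolynomial (Fin n) k) (List.ofFn f))
    (d a : ℕ) (ha : hd J d = hd (Ideal.span (Set.range f)) d + a) :
    ∃ L : Ideal (MvPolynomial (Fin n) k),
      (∃ M : Set (Fin n →₀ ℕ), L = Ideal.span ((fun w => monomial w (1 : k)) '' M)) ∧
      (∀ u v : Fin n →₀ ℕ, ∑ t, u t = ∑ t, v t →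
          (∃ t, (∀ i, i < t → v i = u i) ∧ v t < u t) →
          monomial v (1 : k) ∈ L → monomial u (1 : k) ∈ L) ∧
      hd (L + Ideal.span (Set.range fun t : Fin c => X (Fin.castLE hc t) ^ D t)) d = hd J d ∧
      hd (L + Ideal.span (Set.range fun t : Fin c => X (Fin.castLE hc t) ^ D t)) (d + 1)
        ≤ hd J (d + 1) + a * (a - 1) :=
  final_form hc hD J f hfJ hfD hreg d a ha (d + 1) (a * (a - 1)) le_rfl
    (finC hc (sx_mono hmono _) (mkCI hD hfD hreg _)
      (fun i hi => sx_ge _ i hi) hfJ (by rw [pI_eq_range]; exact ha))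

end Pool.Agent.EGH2
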