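import Pool.Agent.EGH2.Depth

/-!
# Prime avoidance: complete intersections in quotients, extension of complete intersections

* `avoid_step` PROOF: `R = S ⧸ pI y l` (Noetherian).  If `R` is trivial take `w = 0`.  The zero divisors of `R`
  are the union of the finitely many associated primes (`biUnion_associatedPrimes_eq_zero_divisors`,
  `associatedPrimes.finite`).  For each associated prime `Q = ann [r]`, `[r] ≠ 0`, the subspace `W_Q = {w ∈ W | [w] ∈ Q}`
  is proper by `hW`.  A vector space over an infinite field is not a finite union of proper subspaces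
  (`Subspace.biUnion_ne_univ_of_top_notMem` or similar), so some `w ∈ W` is in no `Q`: `w` is a nonzerodivisor.
* `extend_CI` PROOF: induction on `n - c`: if `c < n`, take `avoid_step` with `W = S_{s c + 1}`; `hW` is
  `forms_ann`.  Then `Fin.snoc f w : Fin (c+1) → S` is a `CI`; continue (recursion; the first `c` members are
  unchanged).
-/

set_option autoImplicit false

namespace Pool.Agent.EGH2

open MvPolynomial

theorem avoid_step {K : Type} [Field K] [Infinite K] {n l : ℕ}
    (y : Fin l → MvPolynomial (Fin n) K)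
    (W : Submodule K (MvPolynomial (Fin n) K))
    (hW : ∀ r, (∀ w ∈ W, w * r ∈ pI y l) → r ∈ pI y l) :
    ∃ w ∈ W, ∀ g, w * g ∈ pI y l → g ∈ pI y l := by
  classical
  by_contra hcon
  push Not at hcon
  have hfin : (associatedPrimes (MvPolynomial (Fin n) K ⧸ pI y l)
      (MvPolynomial (Fin n) K ⧸ pI y l)).Finite := associatedPrimes.finite _ _
  have hft : Finite (associatedPrimes (MvPolynomial (Fin n) K ⧸ pI y l)
      (MvPolynomial (Fin n) K ⧸ pI y l)) := hfin.to_subtype
  let p : associatedPrimes (MvPolynomial (Fin n) K ⧸ pI y l)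
      (MvPolynomial (Fin n) K ⧸ pI y l) → Submodule K W := fun P =>
    (Submodule.restrictScalars K (Ideal.comap (Ideal.Quotient.mk (pI y l)) P.1)).comap W.subtype
  have hp : ∀ P (w : W), w ∈ p P ↔ Ideal.Quotient.mk (pI y l) (w : MvPolynomial (Fin n) K) ∈ P.1 :=
    fun P w => Iff.rfl
  have hcov : ⋃ P, (p P : Set W) = Set.univ := by
    rw [Set.eq_univ_iff_forall]
    intro w
    obtain ⟨g, hg1, hg2⟩ := hcon w w.2
    have hz : Ideal.Quotient.mk (pI y l) (w : MvPolynomial (Fin n) K) ∈
        ⋃ p ∈ associatedPrimes (MvPolynomial (Fin n) K ⧸ pI y l)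
          (MvPolynomial (Fin n) K ⧸ pI y l), (p : Set (MvPolynomial (Fin n) K ⧸ pI y l)) := by
      rw [biUnion_associatedPrimes_eq_zero_divisors]
      refine ⟨Ideal.Quotient.mk (pI y l) g, ?_, ?_⟩
      · rw [Ne, Ideal.Quotient.eq_zero_iff_mem]
        exact hg2
      · rw [smul_eq_mul, ← map_mul, Ideal.Quotient.eq_zero_iff_mem]
        exact hg1
    obtain ⟨P, hP, hPw⟩ := Set.mem_iUnion₂.1 hz
    exact Set.mem_iUnion.2 ⟨⟨P, hP⟩, (hp ⟨P, hP⟩ w).2 hPw⟩
  obtain ⟨P, hP⟩ := Subspace.exists_eq_top_of_iUnion_eq_univ hcov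
  obtain ⟨hpr, x, hx⟩ := isAssociatedPrime_iff.1 P.2
  obtain ⟨r, rfl⟩ := Ideal.Quotient.mk_surjective x
  have hr : r ∈ pI y l := by
    apply hW
    intro w hw
    have h1 : (⟨w, hw⟩ : W) ∈ p P := by rw [hP]; trivial
    rw [hp, hx, Submodule.mem_colon_singleton, Submodule.mem_bot, smul_eq_mul, ← map_mul,
      Ideal.Quotient.eq_zero_iff_mem] at h1
    exact h1
  apply hpr.ne_top
  rw [hx, Ideal.Quotient.eq_zero_iff_mem.2 hr]
  rw [Ideal.eq_top_iff_one, Submodule.mem_colon_singleton, Submodule.mem_bot, smul_zero]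

theorem Avoid1_pI_snoc {A : Type} [CommRing A] {c : ℕ} (f : Fin c → A) (w : A) {k : ℕ}
    (hk : k ≤ c) : pI (Fin.snoc f w : Fin (c + 1) → A) k = pI f k := by
  unfold pI
  congr 1
  ext g
  constructor
  · rintro ⟨i, hi, rfl⟩
    refine ⟨⟨i.val, by omega⟩, hi, ?_⟩
    have : i = Fin.castSucc ⟨i.val, by omega⟩ := by ext; rfl
    conv_rhs => rw [this]
    rw [Fin.snoc_castSucc]
  · rintro ⟨i, hi, rfl⟩
    exact ⟨Fin.castSucc i, hi, by rw [Fin.snoc_castSucc]⟩

theorem Avoid1_extend {K : Type} [Field K] [Infinite K] {n : ℕ} {s : ℕ → ℕ} :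
    ∀ k c : ℕ, ∀ hc : c ≤ n, n = c + k → ∀ f : Fin c → MvPolynomial (Fin n) K, CI s f →
      ∃ F : Fin n → MvPolynomial (Fin n) K, CI s F ∧ ∀ i : Fin c, F (Fin.castLE hc i) = f i := by
  intro k
  induction k with
  | zero =>
    intro c hc hn f hf
    obtain rfl : c = n := by omega
    exact ⟨f, hf, fun i => rfl⟩
  | succ k ih =>
    intro c hc hn f hf
    have hlt : c < n := by omega
    obtain ⟨w, hw1, hw2⟩ := avoid_step f (homogeneousSubmodule (Fin n) K (s c + 1))
      (fun r hr => forms_ann f hf.reg hlt (s c + 1) r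
        (fun w hw => hr w ((mem_homogeneousSubmodule _ _).2 hw)))
    have hCI : CI s (Fin.snoc f w : Fin (c + 1) → MvPolynomial (Fin n) K) := by
      constructor
      · intro i
        induction i using Fin.lastCases with
        | last =>
          rw [Fin.snoc_last]
          exact (mem_homogeneousSubmodule _ _).1 hw1
        | cast i =>
          rw [Fin.snoc_castSucc]
          exact hf.hom i
      · intro i g hg
        induction i using Fin.lastCases with
        | last =>
          rw [Fin.snoc_last, Fin.val_last, Avoid1_pI_snoc f w le_rfl] at hg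
          rw [Fin.val_last, Avoid1_pI_snoc f w le_rfl]
          exact hw2 g hg
        | cast i =>
          rw [Fin.snoc_castSucc, Fin.val_castSucc, Avoid1_pI_snoc f w i.isLt.le] at hg
          rw [Fin.val_castSucc, Avoid1_pI_snoc f w i.isLt.le]
          exact hf.reg i g hg
    obtain ⟨F, hF, hFi⟩ := ih (c + 1) hlt (by omega) _ hCI
    refine ⟨F, hF, fun i => ?_⟩
    have h1 := hFi (Fin.castSucc i)
    rw [Fin.snoc_castSucc] at h1
    exact h1

theorem extend_CI {K : Type} [Field K] [Infinite K] {n c : ℕ} (hc : c ≤ n) {s : ℕ → ℕ}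
    (f : Fin c → MvPolynomial (Fin n) K) (hf : CI s f) :
    ∃ F : Fin n → MvPolynomial (Fin n) K, CI s F ∧ ∀ i : Fin c, F (Fin.castLE hc i) = f i :=
  Avoid1_extend (n - c) c hc (by omega) f hf

end Pool.Agent.EGH2
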