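import Pool.Agent.EGH2.E01b

/-!
# Base change

PROOF.  For a `K`-linear map `t : L → K` let `t_* : MvPolynomial (Fin n) L → MvPolynomial (Fin n) K` be the
coefficientwise map (`Finsupp.mapRange`; it is `K`-linear and `t_* (map g * h) = g * t_* h`).
(1) `t_* (pI F k) ⊆ pI f k`.
(2) if `h : MvPolynomial (Fin n) L` satisfies `t_* h ∈ pI f k` for all `t`, then `h ∈ pI F k`: take a
`K`-basis `b` of `L`; `h = ∑_α C (b α) * map (t_α h)` with the coordinate functionals `t_α` (finitely many
nonzero terms).
* `CI`: if `F i * h ∈ pI F i` then `f i * t_* h = t_* (F i * h) ∈ pI f i`, so `t_* h ∈ pI f i` for all `t`,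
  so `h ∈ pI F i`.
* `qd` of `VL`: classes of `v_1, …, v_a ∈ V` independent modulo `pI f c` stay independent modulo `pI F c` (if
  `∑ c_k map v_k ∈ pI F c`, apply `t_*`: `∑ t (c_k) v_k ∈ pI f c`, so `t (c_k) = 0` for all `t`); and a family of
  `V` spanning `V` modulo `pI f c` spans `VL` modulo `pI F c`.
* `S1 L n * VL` is the `L`-span of `map (S1 K n * V)`, so a family spanning `S1 K n * V` modulo `pI f c` spans it
  modulo `pI F c`.
-/

set_option autoImplicit false

namespace Pool.Agent.EGH2

open MvPolynomial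

section BC

variable {K L : Type} [Field K] [Field L] [Algebra K L] {n : ℕ}

/-- coefficientwise application of a `K`-linear functional -/
noncomputable def BC_tau (t : L →ₗ[K] K) (h : MvPolynomial (Fin n) L) : MvPolynomial (Fin n) K :=
  ∑ m ∈ h.support, monomial m (t (coeff m h))

theorem BC_coeff (t : L →ₗ[K] K) (h : MvPolynomial (Fin n) L) (m : Fin n →₀ ℕ) :
    coeff m (BC_tau t h) = t (coeff m h) := by
  classical
  unfold BC_tau
  rw [coeff_sum]
  simp only [coeff_monomial]
  rw [Finset.sum_ite_eq']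
  split_ifs with hm
  · rfl
  · rw [notMem_support_iff.1 hm, map_zero]

theorem BC_add (t : L →ₗ[K] K) (h h' : MvPolynomial (Fin n) L) :
    BC_tau t (h + h') = BC_tau t h + BC_tau t h' := by
  ext m
  rw [coeff_add, BC_coeff, BC_coeff, BC_coeff, coeff_add, map_add]

theorem BC_zero (t : L →ₗ[K] K) : BC_tau t (0 : MvPolynomial (Fin n) L) = 0 := by
  ext m
  rw [BC_coeff, coeff_zero, coeff_zero, map_zero]

theorem BC_sum (t : L →ₗ[K] K) {ι : Type} (S : Finset ι) (h : ι → MvPolynomial (Fin n) L) :
    BC_tau t (∑ i ∈ S, h i) = ∑ i ∈ S, BC_tau t (h i) := by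
  classical
  induction S using Finset.induction_on with
  | empty => simp [BC_zero]
  | insert a S ha ih => rw [Finset.sum_insert ha, Finset.sum_insert ha, BC_add, ih]

theorem BC_mul (t : L →ₗ[K] K) (g : MvPolynomial (Fin n) K) (h : MvPolynomial (Fin n) L) :
    BC_tau t (map (algebraMap K L) g * h) = g * BC_tau t h := by
  classical
  ext m
  rw [BC_coeff, coeff_mul, coeff_mul, map_sum]
  refine Finset.sum_congr rfl fun x _ => ?_
  rw [BC_coeff, coeff_map, ← Algebra.smul_def, map_smul, smul_eq_mul]

theorem BC_C_mul (t : L →ₗ[K] K) (a : L) (g : MvPolynomial (Fin n) K) :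
    BC_tau t (C a * map (algebraMap K L) g) = C (t a) * g := by
  ext m
  rw [BC_coeff, coeff_C_mul, coeff_C_mul, coeff_map, mul_comm, ← Algebra.smul_def, map_smul,
    smul_eq_mul, mul_comm]

theorem BC_one (h : MvPolynomial (Fin n) L) : ∃ (ι : Type) (S : Finset ι) (b : ι → L)
    (t : ι → (L →ₗ[K] K)), h = ∑ i ∈ S, C (b i) * map (algebraMap K L) (BC_tau (t i) h) := by
  classical
  let b := Module.Basis.ofVectorSpace K L
  refine ⟨Module.Basis.ofVectorSpaceIndex K L, h.support.biUnion fun m => (b.repr (coeff m h)).support,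
    b, fun i => b.coord i, ?_⟩
  ext m
  rw [coeff_sum]
  have h1 : ∀ i, coeff m (C (b i) * map (algebraMap K L) (BC_tau (b.coord i) h))
      = (b.repr (coeff m h)) i • b i := by
    intro i
    rw [coeff_C_mul, coeff_map, BC_coeff, Algebra.smul_def, mul_comm, Module.Basis.coord_apply]
  rw [Finset.sum_congr rfl fun i _ => h1 i]
  by_cases hm : m ∈ h.support
  · have h2 : (b.repr (coeff m h)).support ⊆
        h.support.biUnion fun m => (b.repr (coeff m h)).support :=
      Finset.subset_biUnion_of_mem (fun m => (b.repr (coeff m h)).support) hm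
    rw [← Finset.sum_subset h2]
    · conv_lhs => rw [← b.linearCombination_repr (coeff m h)]
      rfl
    · intro i _ hi
      rw [Finsupp.notMem_support_iff.1 hi, zero_smul]
  · rw [notMem_support_iff.1 hm]
    simp

variable {c : ℕ} {f : Fin c → MvPolynomial (Fin n) K} {F : Fin c → MvPolynomial (Fin n) L}

theorem BC_down (hF : ∀ i, F i = map (algebraMap K L) (f i)) (t : L →ₗ[K] K) (k : ℕ)
    (h : MvPolynomial (Fin n) L) (hh : h ∈ pI F k) : BC_tau t h ∈ pI f k := by
  have key : ∀ a : MvPolynomial (Fin n) L, BC_tau t (a * h) ∈ pI f k := by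
    refine Submodule.span_induction (p := fun x _ => ∀ a : MvPolynomial (Fin n) L,
      BC_tau t (a * x) ∈ pI f k) ?_ ?_ ?_ ?_ hh
    · rintro x ⟨i, hi, rfl⟩ a
      rw [hF, mul_comm, BC_mul]
      exact Ideal.mul_mem_right _ _ (Ideal.subset_span ⟨i, hi, rfl⟩)
    · intro a
      rw [mul_zero, BC_zero]
      exact Ideal.zero_mem _
    · intro x y _ _ hx hy a
      rw [mul_add, BC_add]
      exact Ideal.add_mem _ (hx a) (hy a)
    · intro b x _ hx a
      rw [smul_eq_mul, ← mul_assoc]
      exact hx (a * b)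
  have := key 1
  rwa [one_mul] at this

theorem BC_up (hF : ∀ i, F i = map (algebraMap K L) (f i)) (k : ℕ)
    (g : MvPolynomial (Fin n) K) (hg : g ∈ pI f k) : map (algebraMap K L) g ∈ pI F k := by
  refine Submodule.span_induction (p := fun x _ => map (algebraMap K L) x ∈ pI F k) ?_ ?_ ?_ ?_ hg
  · rintro x ⟨i, hi, rfl⟩
    exact Ideal.subset_span ⟨i, hi, hF i⟩
  · rw [map_zero]; exact Ideal.zero_mem _
  · intro x y _ _ hx hy
    rw [map_add]
    exact Ideal.add_mem _ hx hy
  · intro b x _ hx
    rw [smul_eq_mul, map_mul]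
    exact Ideal.mul_mem_left _ _ hx

theorem BC_of_tau (hF : ∀ i, F i = map (algebraMap K L) (f i)) (k : ℕ)
    (h : MvPolynomial (Fin n) L) (hh : ∀ t : L →ₗ[K] K, BC_tau t h ∈ pI f k) : h ∈ pI F k := by
  obtain ⟨ι, S, b, t, he⟩ := BC_one (K := K) h
  rw [he]
  exact Ideal.sum_mem _ fun i _ => Ideal.mul_mem_left _ _ (BC_up hF k _ (hh (t i)))

theorem BC_qd (hF : ∀ i, F i = map (algebraMap K L) (f i)) (V : Submodule K (MvPolynomial (Fin n) K))
    (VL : Submodule L (MvPolynomial (Fin n) L))
    (hVL : VL = Submodule.span L (map (algebraMap K L) '' (V : Set (MvPolynomial (Fin n) K)))) :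
    qd (pI F c) VL = qd (pI f c) V := by
  classical
  let VK := V.map (Ideal.Quotient.mkₐ K (pI f c)).toLinearMap
  let b := Module.Basis.ofVectorSpace K VK
  have hv : ∀ i, ∃ v ∈ V, (Ideal.Quotient.mkₐ K (pI f c)).toLinearMap v = (b i : _) :=
    fun i => Submodule.mem_map.1 (b i).2
  choose v hvV hvb using hv
  let e : Module.Basis.ofVectorSpaceIndex K VK → MvPolynomial (Fin n) L ⧸ pI F c := fun i =>
    (Ideal.Quotient.mkₐ L (pI F c)).toLinearMap (map (algebraMap K L) (v i))
  have hli : LinearIndependent L e := by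
    rw [linearIndependent_iff']
    intro S g hg i hi
    have h1 : ∑ i ∈ S, C (g i) * map (algebraMap K L) (v i) ∈ pI F c := by
      rw [← Ideal.Quotient.eq_zero_iff_mem, map_sum]
      rw [← hg]
      refine Finset.sum_congr rfl fun i _ => ?_
      rw [← smul_eq_C_mul]
      rfl
    rw [← Module.forall_dual_apply_eq_zero_iff K]
    intro t
    have h2 := BC_down hF t c _ h1
    rw [BC_sum] at h2
    simp only [BC_C_mul] at h2
    have h3 : ∑ i ∈ S, t (g i) • b i = 0 := by
      apply Subtype.ext
      rw [Submodule.coe_sum]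
      simp only [Submodule.coe_smul, ← hvb, ← map_smul]
      rw [← map_sum, Submodule.coe_zero]
      change Ideal.Quotient.mk (pI f c) _ = 0
      rw [Ideal.Quotient.eq_zero_iff_mem]
      convert h2 using 2
      rw [smul_eq_C_mul]
    exact linearIndependent_iff'.1 b.linearIndependent S (fun i => t (g i)) h3 i hi
  have hsp : VL.map (Ideal.Quotient.mkₐ L (pI F c)).toLinearMap = Submodule.span L (Set.range e) := by
    apply le_antisymm
    · rw [hVL, Submodule.map_span, Submodule.span_le]
      rintro _ ⟨_, ⟨w, hw, rfl⟩, rfl⟩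
      have hwm : (Ideal.Quotient.mkₐ K (pI f c)).toLinearMap w ∈ VK := Submodule.mem_map_of_mem hw
      have h1 := b.linearCombination_repr ⟨_, hwm⟩
      rw [Finsupp.linearCombination_apply, Finsupp.sum] at h1
      set r := b.repr ⟨_, hwm⟩ with hr
      have h2 : w - ∑ i ∈ r.support, C (r i) * v i ∈ pI f c := by
        rw [← Ideal.Quotient.eq_zero_iff_mem, map_sub, sub_eq_zero, map_sum]
        have h3 := congrArg Subtype.val h1
        rw [Submodule.coe_sum] at h3
        simp only [Submodule.coe_smul, ← hvb, ← map_smul] at h3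
        refine Eq.trans ?_ (h3.symm.trans ?_)
        · rfl
        · refine Finset.sum_congr rfl fun i _ => ?_
          rw [smul_eq_C_mul]
          rfl
      have h4 := BC_up hF c _ h2
      rw [map_sub, map_sum] at h4
      have h5 : (Ideal.Quotient.mkₐ L (pI F c)).toLinearMap (map (algebraMap K L) w)
          = ∑ i ∈ r.support, algebraMap K L (r i) • e i := by
        have h6 := Ideal.Quotient.eq_zero_iff_mem.2 h4
        rw [map_sub, sub_eq_zero, map_sum] at h6
        refine Eq.trans ?_ (h6.trans ?_)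
        · rfl
        · refine Finset.sum_congr rfl fun i _ => ?_
          rw [map_mul (map (algebraMap K L)), map_C, ← smul_eq_C_mul]
          rfl
      rw [SetLike.mem_coe, h5]
      exact Submodule.sum_mem _ fun i _ => Submodule.smul_mem _ _ (Submodule.subset_span ⟨i, rfl⟩)
    · rw [Submodule.span_le]
      rintro _ ⟨i, rfl⟩
      apply Submodule.mem_map_of_mem
      rw [hVL]
      exact Submodule.subset_span ⟨v i, hvV i, rfl⟩
  unfold qd
  rw [hsp, Module.finrank_eq_nat_card_basis (Module.Basis.span hli), Module.finrank_eq_nat_card_basis b]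

theorem BC_hom (h : MvPolynomial (Fin n) L) {d : ℕ} (hh : h.IsHomogeneous d) (t : L →ₗ[K] K) :
    (BC_tau t h).IsHomogeneous d := by
  intro m hm
  rw [BC_coeff] at hm
  apply hh
  intro h0
  rw [h0, map_zero] at hm
  exact hm rfl

end BC

theorem base_change {K L : Type} [Field K] [Field L] [Algebra K L] {n c : ℕ} {s : ℕ → ℕ} {d : ℕ}
    {f : Fin c → MvPolynomial (Fin n) K} (hf : CI s f)
    (V : Submodule K (MvPolynomial (Fin n) K)) (hV : V ≤ homogeneousSubmodule (Fin n) K d)
    (F : Fin c → MvPolynomial (Fin n) L) (hF : ∀ i, F i = map (algebraMap K L) (f i))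
    (VL : Submodule L (MvPolynomial (Fin n) L))
    (hVL : VL = Submodule.span L (map (algebraMap K L) '' (V : Set (MvPolynomial (Fin n) K)))) :
    CI s F ∧ VL ≤ homogeneousSubmodule (Fin n) L d ∧ qd (pI F c) VL = qd (pI f c) V ∧
      qd (pI F c) (S1 L n * VL) ≤ qd (pI f c) (S1 K n * V) := by
  refine ⟨⟨fun i => ?_, fun i h hh => ?_⟩, ?_, BC_qd hF V VL hVL, ?_⟩
  · rw [hF]
    exact (hf.hom i).map _
  · apply BC_of_tau hF
    intro t
    have h1 := BC_down hF t i.val _ hh
    rw [hF, BC_mul] at h1
    exact hf.reg i _ h1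
  · rw [hVL, Submodule.span_le]
    rintro _ ⟨v, hv, rfl⟩
    exact (mem_homogeneousSubmodule _ _).2 (((mem_homogeneousSubmodule _ _).1 (hV hv)).map _)
  · have hS : S1 L n = Submodule.span L
        (map (algebraMap K L) '' (S1 K n : Set (MvPolynomial (Fin n) K))) := by
      apply le_antisymm
      · intro h hh
        obtain ⟨ι, S, b, t, he⟩ := BC_one (K := K) h
        rw [he]
        refine Submodule.sum_mem _ fun i _ => ?_
        rw [← smul_eq_C_mul]
        exact Submodule.smul_mem _ _ (Submodule.subset_span ⟨_, (mem_homogeneousSubmodule _ _).2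
          (BC_hom h ((mem_homogeneousSubmodule _ _).1 hh) (t i)), rfl⟩)
      · rw [Submodule.span_le]
        rintro _ ⟨v, hv, rfl⟩
        exact (mem_homogeneousSubmodule _ _).2 (((mem_homogeneousSubmodule _ _).1 hv).map _)
    apply le_of_eq
    apply BC_qd hF
    rw [hVL, hS, Submodule.span_mul_span]
    apply le_antisymm
    · rw [Submodule.span_le]
      rintro _ ⟨_, ⟨a, ha, rfl⟩, _, ⟨v, hv, rfl⟩, rfl⟩
      refine Submodule.subset_span ⟨a * v, Submodule.mul_mem_mul ha hv, ?_⟩
      rw [map_mul]
    · rw [Submodule.span_le]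
      rintro _ ⟨x, hx, rfl⟩
      rw [SetLike.mem_coe]
      refine Submodule.mul_induction_on hx ?_ ?_
      · intro a ha v hv
        rw [map_mul]
        exact Submodule.subset_span ⟨_, ⟨a, ha, rfl⟩, _, ⟨v, hv, rfl⟩, rfl⟩
      · intro x y hx hy
        rw [map_add]
        exact Submodule.add_mem _ hx hy

end Pool.Agent.EGH2
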