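import Pool.Agent.EGH2.MainL

/-!
# The window theorem and the general bound
-/

set_option autoImplicit false

namespace Pool.Agent.EGH2

open MvPolynomial

theorem sum_id (a : ℕ) : 2 * ∑ j ∈ Finset.range a, (j + 1) = a * (a + 1) := by
  induction a with
  | zero => simp
  | succ a ih =>
    rw [Finset.sum_range_succ, mul_add, ih]
    ring

theorem mainB {K : Type} [Field K] [IsAlgClosed K] (n : ℕ) : ∀ {s : ℕ → ℕ}, Monotone s →
    ∀ {f : Fin n → MvPolynomial (Fin n) K}, CI s f → ∀ (a : ℕ) {d : ℕ}
    (V : Submodule K (MvPolynomial (Fin n) K)), V ≤ homogeneousSubmodule (Fin n) K d →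
    qd (pI f n) V = a → sg s (tau s n d) < d → d < sg s (tau s n d + 1) →
    d + a ≤ sg s (tau s n d + 1) + 1 →
    2 * (a * n) ≤ 2 * qd (pI f n) (S1 K n * V) + 2 * (a * tau s n d) + a * (a - 1) := by
  induction n with
  | zero =>
    intro s hs f hf a d V hV hq _ _ _
    simp
  | succ n ih =>
    intro s hs f hf a
    induction a using Nat.strong_induction_on with
    | _ a iha =>
    intro d V hV hq htd htd2 hwin
    set t := tau s (n + 1) d with ht
    have htle : t ≤ n + 1 := tau_le s (n + 1) d
    have htau1 : tau s (n + 1) (d + 1) ≤ t + 1 := tau_add_le hs (n + 1) d 1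
    have htau2 : ∀ j, d + j < sg s (t + 1) → tau s (n + 1) (d + j) = t := fun j h => tau_of_lt h
    rcases Nat.eq_zero_or_pos a with ha0 | ha0
    · subst ha0
      simp
    obtain ⟨b, rfl⟩ : ∃ b, a = b + 1 := ⟨a - 1, by omega⟩
    rcases zd_cases (pI f (n + 1)) V hV with hz | ⟨l, hl, hl0, X, W, hXV, hX, hW, hX0, h1, h2, h3⟩
    · -- no zero divisors
      by_cases ht0 : t = 0
      · have h4 : d < s 0 := by
          rw [ht0, sg_succ, sg_zero] at htd2
          omega
        have h5 := low_growth hs hf h4 b V hV hz hq
        have h6 := sum_id b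
        rw [ht0]
        have h7 : (b + 1) * (b + 1 - 1) = b * (b + 1) := by
          rw [Nat.add_sub_cancel]; ring
        rw [h7, ← h6]
        have h8 : (b + 1) * (n + 1) = (n + 1) * (b + 1) := by ring
        rw [h8]
        simp only [mul_zero]
        omega
      · have h5 := zdf_growth hs hf b V hV hz hq
        have h6 : ∑ j ∈ Finset.range b, (j + 1 + tau s (n + 1) (d + (j + 1)))
            ≤ ∑ j ∈ Finset.range b, (j + 1) + b * t + 1 := by
          rcases Nat.eq_zero_or_pos b with hb | hb
          · subst hb
            simp
          · obtain ⟨b', rfl⟩ : ∃ b', b = b' + 1 := ⟨b - 1, by omega⟩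
            rw [Finset.sum_range_succ, Finset.sum_range_succ]
            have h7 : ∑ j ∈ Finset.range b', (j + 1 + tau s (n + 1) (d + (j + 1)))
                = ∑ j ∈ Finset.range b', (j + 1) + b' * t := by
              have h8 : ∑ j ∈ Finset.range b', (j + 1 + tau s (n + 1) (d + (j + 1)))
                  = ∑ j ∈ Finset.range b', (j + 1 + t) := by
                apply Finset.sum_congr rfl
                intro j hj
                rw [Finset.mem_range] at hj
                rw [htau2 (j + 1) (by omega)]
              rw [h8, Finset.sum_add_distrib, Finset.sum_const, Finset.card_range, smul_eq_mul]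
            have h9 : tau s (n + 1) (d + (b' + 1)) ≤ t + 1 := by
              have h10 := tau_add_le hs (n + 1) (d + b') 1
              rw [htau2 b' (by omega)] at h10
              exact h10
            rw [h7]
            have h11 : (b' + 1) * t = b' * t + t := by ring
            rw [h11]
            omega
        have h7 : (b + 1) * (b + 1 - 1) = 2 * ∑ j ∈ Finset.range b, (j + 1) := by
          rw [sum_id, Nat.add_sub_cancel]; ring
        rw [h7]
        have h8 : (b + 1) * (n + 1) = (n + 1) * (b + 1) := by ring
        have h9 : (b + 1) * t = b * t + t := by ring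
        rw [h8, h9]
        omega
    · by_cases hX2 : qd (pI f (n + 1)) X = qd (pI f (n + 1)) V
      · -- `l` kills `V`
        obtain ⟨hs0, g, V', hg, hV', hq', hgr⟩ :=
          transfer_growth hs hf hl hl0 V hV (by omega) (h3 hX2)
        have hsh := tau_shift (n := n) hs0
        rw [← ht] at hsh
        set t' := tau (fun i => s (i + 1)) n (d - s 0) with ht'
        have e1 : sg s t = s 0 + sg (fun i => s (i + 1)) t' := by rw [hsh, sg_shift]
        have e2 : sg s (t + 1) = s 0 + sg (fun i => s (i + 1)) (t' + 1) := by rw [hsh, sg_shift]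
        have h4 := ih (s := fun i => s (i + 1)) (fun i j hij => hs (by omega)) hg (b + 1) V' hV'
          (by omega) (by rw [← ht']; omega) (by rw [← ht']; omega) (by rw [← ht']; omega)
        rw [hgr, ← ht'] at h4
        rw [hsh]
        have h5 : (b + 1) * (n + 1) = (b + 1) * n + (b + 1) := by ring
        have h6 : (b + 1) * (t' + 1) = (b + 1) * t' + (b + 1) := by ring
        rw [h5, h6]
        omega
      · set x := qd (pI f (n + 1)) X with hx
        set w := qd (pI f (n + 1)) W with hw
        have hxw : x + w = b + 1 := by omega
        have hw0 : 0 < w := by omega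
        have hbb : (b + 1) * (b + 1 - 1) = x * (x - 1) + w * (w - 1) + 2 * (x * w) := by
          obtain ⟨x', hx'⟩ : ∃ x', x = x' + 1 := ⟨x - 1, by omega⟩
          obtain ⟨w', hw'⟩ : ∃ w', w = w' + 1 := ⟨w - 1, by omega⟩
          have : b = x' + w' + 1 := by omega
          rw [hx', hw', this]
          simp only [Nat.add_sub_cancel]
          ring
        have hxw1 : 1 ≤ x * w := Nat.mul_pos hX0 hw0
        by_cases hc : d + 1 < sg s (t + 1)
        · have h4 := iha x (by omega) X hX hx.symm (by rw [← ht]; omega) (by rw [← ht]; omega)
            (by rw [← ht]; omega)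
          have h5 : tau s (n + 1) (d + 1) = t := htau2 1 hc
          have h6 := iha w (by omega) W hW hw.symm (by rw [h5]; omega) (by rw [h5]; omega)
            (by rw [h5]; omega)
          rw [← ht] at h4
          rw [h5] at h6
          rw [hbb]
          have h7 : (b + 1) * (n + 1) = x * (n + 1) + w * (n + 1) := by
            rw [← hxw]; ring
          have h8 : (b + 1) * t = x * t + w * t := by
            rw [← hxw]; ring
          rw [h7, h8]
          omega
        · have hb1 : b + 1 ≤ 2 := by omega
          have hx1 : x = 1 := by omega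
          have hw1 : w = 1 := by omega
          have hb : b = 1 := by omega
          have h4 := one_growth hs hf X hX (by omega)
          have h5 := one_growth hs hf W hW (by omega)
          subst hb
          rw [← ht] at h4
          simp only [Nat.add_sub_cancel]
          omega

theorem mainC {K : Type} [Field K] [IsAlgClosed K] (n : ℕ) : ∀ {s : ℕ → ℕ}, Monotone s →
    ∀ {f : Fin n → MvPolynomial (Fin n) K}, CI s f → ∀ (a : ℕ) {d : ℕ}
    (V : Submodule K (MvPolynomial (Fin n) K)), V ≤ homogeneousSubmodule (Fin n) K d →
    qd (pI f n) V = a →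
    a * n ≤ qd (pI f n) (S1 K n * V) + a * tau s n d + a * (a - 1) := by
  induction n with
  | zero =>
    intro s hs f hf a d V hV hq
    simp
  | succ n ih =>
    intro s hs f hf a
    induction a using Nat.strong_induction_on with
    | _ a iha =>
    intro d V hV hq
    set t := tau s (n + 1) d with ht
    have htau1 : ∀ j, tau s (n + 1) (d + j) ≤ t + j := fun j => tau_add_le hs (n + 1) d j
    rcases Nat.eq_zero_or_pos a with ha0 | ha0
    · subst ha0
      simp
    obtain ⟨b, rfl⟩ : ∃ b, a = b + 1 := ⟨a - 1, by omega⟩
    rcases zd_cases (pI f (n + 1)) V hV with hz | ⟨l, hl, hl0, X, W, hXV, hX, hW, hX0, h1, h2, h3⟩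
    · have h5 := zdf_growth hs hf b V hV hz hq
      have h6 : ∑ j ∈ Finset.range b, (j + 1 + tau s (n + 1) (d + (j + 1)))
          ≤ 2 * ∑ j ∈ Finset.range b, (j + 1) + b * t := by
        have h7 : ∑ j ∈ Finset.range b, (j + 1 + tau s (n + 1) (d + (j + 1)))
            ≤ ∑ j ∈ Finset.range b, (2 * (j + 1) + t) := by
          apply Finset.sum_le_sum
          intro j _
          have := htau1 (j + 1)
          omega
        have h8 : ∑ j ∈ Finset.range b, (2 * (j + 1) + t)
            = 2 * ∑ j ∈ Finset.range b, (j + 1) + b * t := by
          rw [Finset.sum_add_distrib, Finset.sum_const, Finset.card_range, smul_eq_mul,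
            ← Finset.mul_sum]
        rw [← h8]
        exact h7
      rw [sum_id] at h6
      have h7 : (b + 1) * (b + 1 - 1) = b * (b + 1) := by
        rw [Nat.add_sub_cancel]; ring
      have h8 : (b + 1) * (n + 1) = (n + 1) * (b + 1) := by ring
      have h9 : (b + 1) * t = b * t + t := by ring
      rw [h7, h8, h9]
      omega
    · by_cases hX2 : qd (pI f (n + 1)) X = qd (pI f (n + 1)) V
      · obtain ⟨hs0, g, V', hg, hV', hq', hgr⟩ :=
          transfer_growth hs hf hl hl0 V hV (by omega) (h3 hX2)
        have hsh := tau_shift (n := n) hs0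
        rw [← ht] at hsh
        have h4 := ih (s := fun i => s (i + 1)) (fun i j hij => hs (by omega)) hg (b + 1) V' hV'
          (by omega)
        rw [hgr] at h4
        rw [hsh]
        have h5 : (b + 1) * (n + 1) = (b + 1) * n + (b + 1) := by ring
        have h6 : (b + 1) * (tau (fun i => s (i + 1)) n (d - s 0) + 1)
          = (b + 1) * tau (fun i => s (i + 1)) n (d - s 0) + (b + 1) := by ring
        rw [h5, h6]
        omega
      · set x := qd (pI f (n + 1)) X with hx
        set w := qd (pI f (n + 1)) W with hw
        have hxw : x + w = b + 1 := by omega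
        have hw0 : 0 < w := by omega
        have hbb : (b + 1) * (b + 1 - 1) = x * (x - 1) + w * (w - 1) + 2 * (x * w) := by
          obtain ⟨x', hx'⟩ : ∃ x', x = x' + 1 := ⟨x - 1, by omega⟩
          obtain ⟨w', hw'⟩ : ∃ w', w = w' + 1 := ⟨w - 1, by omega⟩
          have : b = x' + w' + 1 := by omega
          rw [hx', hw', this]
          simp only [Nat.add_sub_cancel]
          ring
        have hxw1 : w ≤ x * w := Nat.le_mul_of_pos_left w hX0
        have h4 := iha x (by omega) X hX hx.symm
        have h6 := iha w (by omega) W hW hw.symm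
        rw [← ht] at h4
        have h7 : (b + 1) * (n + 1) = x * (n + 1) + w * (n + 1) := by
          rw [← hxw]; ring
        have h8 : (b + 1) * t = x * t + w * t := by
          rw [← hxw]; ring
        have h9 : w * tau s (n + 1) (d + 1) ≤ w * t + w := by
          calc w * tau s (n + 1) (d + 1) ≤ w * (t + 1) := Nat.mul_le_mul_left w (htau1 1)
            _ = w * t + w := by ring
        rw [h7, h8, hbb]
        omega

end Pool.Agent.EGH2
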