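import Pool.Agent.EGH2.MainA
import Pool.Agent.EGH2.MainB
import Pool.Agent.EGH2.BC
import Pool.Agent.EGH2.Avoid1

/-!
# Reduction to an algebraically closed field and `n` forms
-/

set_option autoImplicit false

namespace Pool.Agent.EGH2

open MvPolynomial

/-- forms of high degree do not change the ideal in low degrees -/
theorem agree {K : Type} [Field K] {n c : ℕ} (hc : c ≤ n) {s : ℕ → ℕ}
    {f : Fin c → MvPolynomial (Fin n) K} {F : Fin n → MvPolynomial (Fin n) K} (hF : CI s F)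
    (hFf : ∀ i : Fin c, F (Fin.castLE hc i) = f i) {e : ℕ} (hbig : ∀ i, c ≤ i → e + 1 ≤ s i)
    {j : ℕ} (hj : j ≤ e + 1) (g : MvPolynomial (Fin n) K) (hg : g.IsHomogeneous j) :
    g ∈ pI F n ↔ g ∈ pI f c := by
  have h0 : pI F c = pI f c := by
    apply le_antisymm
    · apply pI_le
      intro i hi
      have := hFf ⟨i.val, hi⟩
      have h2 : Fin.castLE hc ⟨i.val, hi⟩ = i := Fin.ext rfl
      rw [h2] at this
      rw [this]
      exact mem_pI f _ hi
    · apply pI_le
      intro i hi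
      rw [← hFf i]
      exact mem_pI F _ (by simp)
  have key : ∀ k, c ≤ k → k ≤ n → (g ∈ pI F k → g ∈ pI F c) := by
    intro k hk
    induction k, hk using Nat.le_induction with
    | base => intro _ h; exact h
    | succ k hk ih =>
      intro hkn h
      apply ih (by omega)
      rw [pI_succ F (show k < n by omega)] at h
      obtain ⟨b, hb, hb2⟩ := extract (HI_pI hF.hom k (by omega)) (hF.hom ⟨k, by omega⟩) hg h
      have hb0 : b = 0 := by
        by_contra hb0
        have h1 := (hb hb0).1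
        have h2 := hbig k hk
        simp only at h1
        omega
      rw [hb0, mul_zero, sub_zero] at hb2
      exact hb2
  constructor
  · intro h
    rw [← h0]
    exact key n hc le_rfl h
  · intro h
    rw [← h0] at h
    exact pI_mono F hc h

/-- reduction to `n` forms over an algebraically closed field -/
theorem reduce {k : Type} [Field k] {n c : ℕ} (hc : c ≤ n) {s : ℕ → ℕ}
    {f : Fin c → MvPolynomial (Fin n) k} (hf : CI s f) {e : ℕ} (hbig : ∀ i, c ≤ i → e + 1 ≤ s i)
    (V : Submodule k (MvPolynomial (Fin n) k)) (hV : V ≤ homogeneousSubmodule (Fin n) k e) :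
    ∃ (F : Fin n → MvPolynomial (Fin n) (AlgebraicClosure k))
      (W : Submodule (AlgebraicClosure k) (MvPolynomial (Fin n) (AlgebraicClosure k))),
      CI s F ∧ W ≤ homogeneousSubmodule (Fin n) (AlgebraicClosure k) e ∧
      qd (pI F n) W = qd (pI f c) V ∧
      qd (pI F n) (S1 (AlgebraicClosure k) n * W) ≤ qd (pI f c) (S1 k n * V) := by
  obtain ⟨h1, h2, h3, h4⟩ := base_change (L := AlgebraicClosure k) hf V hV
    (fun i => map (algebraMap k (AlgebraicClosure k)) (f i)) (fun i => rfl) _ rfl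
  obtain ⟨F, hF, hFf⟩ := extend_CI hc _ h1
  refine ⟨F, _, hF, h2, ?_, ?_⟩
  · rw [← h3]
    exact qd_congr (agree hc hF hFf hbig (Nat.le_succ e)) _ h2
  · refine le_trans (le_of_eq ?_) h4
    exact qd_congr (agree hc hF hFf hbig le_rfl) _ (S1_mul_le h2)

theorem redA {k : Type} [Field k] {n c : ℕ} (hc : c ≤ n) {s : ℕ → ℕ} (hs : Monotone s)
    {f : Fin c → MvPolynomial (Fin n) k} (hf : CI s f) {e : ℕ} (hbig : ∀ i, c ≤ i → e + 1 ≤ s i)
    (V : Submodule k (MvPolynomial (Fin n) k)) (hV : V ≤ homogeneousSubmodule (Fin n) k e)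
    (hq : qd (pI f c) V = 2) : 2 * n ≤ qd (pI f c) (S1 k n * V) + mu n s e := by
  obtain ⟨F, W, hF, hW, h1, h2⟩ := reduce hc hf hbig V hV
  have := mainA n hs hF W hW (by omega)
  omega

theorem redOne {k : Type} [Field k] {n c : ℕ} (hc : c ≤ n) {s : ℕ → ℕ} (hs : Monotone s)
    {f : Fin c → MvPolynomial (Fin n) k} (hf : CI s f) {e : ℕ} (hbig : ∀ i, c ≤ i → e + 1 ≤ s i)
    (V : Submodule k (MvPolynomial (Fin n) k)) (hV : V ≤ homogeneousSubmodule (Fin n) k e)
    (hq : qd (pI f c) V = 1) : n ≤ qd (pI f c) (S1 k n * V) + tau s n e := by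
  obtain ⟨F, W, hF, hW, h1, h2⟩ := reduce hc hf hbig V hV
  have := one_growth hs hF W hW (by omega)
  omega

theorem redB {k : Type} [Field k] {n c : ℕ} (hc : c ≤ n) {s : ℕ → ℕ} (hs : Monotone s)
    {f : Fin c → MvPolynomial (Fin n) k} (hf : CI s f) {e : ℕ} (hbig : ∀ i, c ≤ i → e + 1 ≤ s i)
    (V : Submodule k (MvPolynomial (Fin n) k)) (hV : V ≤ homogeneousSubmodule (Fin n) k e)
    {a t : ℕ} (hq : qd (pI f c) V = a) (htn : t ≤ n) (h1 : sg s t < e) (h2 : e < sg s (t + 1))
    (h3 : e + a ≤ sg s (t + 1) + 1) :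
    2 * (a * n) ≤ 2 * qd (pI f c) (S1 k n * V) + 2 * (a * t) + a * (a - 1) := by
  obtain ⟨F, W, hF, hW, h4, h5⟩ := reduce hc hf hbig V hV
  have ht : tau s n e = t := tau_eq h1.le htn (Or.inr h2)
  have := mainB n hs hF a W hW (by omega) (by rw [ht]; exact h1) (by rw [ht]; exact h2)
    (by rw [ht]; exact h3)
  rw [ht] at this
  omega

theorem redC {k : Type} [Field k] {n c : ℕ} (hc : c ≤ n) {s : ℕ → ℕ} (hs : Monotone s)
    {f : Fin c → MvPolynomial (Fin n) k} (hf : CI s f) {e : ℕ} (hbig : ∀ i, c ≤ i → e + 1 ≤ s i)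
    (V : Submodule k (MvPolynomial (Fin n) k)) (hV : V ≤ homogeneousSubmodule (Fin n) k e)
    {a : ℕ} (hq : qd (pI f c) V = a) :
    a * n ≤ qd (pI f c) (S1 k n * V) + a * tau s n e + a * (a - 1) := by
  obtain ⟨F, W, hF, hW, h4, h5⟩ := reduce hc hf hbig V hV
  have := mainC n hs hF a W hW (by omega)
  omega

end Pool.Agent.EGH2
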