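import Pool.Agent.EGH2.E01b

/-!
# Linear changes of coordinates; linear forms

* `exists_aut`: linearly independent linear forms `v 0, …, v (k-1)` are carried to
  `X (σ 0), …, X (σ (k-1))` by a graded automorphism.
  PROOF: the linear forms `S₁` have basis `X i`.  Extend `v` to a basis `w : Fin n → S₁` of `S₁`
  indexed by `Fin n` (`Basis.extend`/`exists_linearIndependent_extension`, or
  `LinearIndependent` + cardinality; `finrank S₁ = n`), with `v j = w (σ j)`, `σ` injective.
  Let `ψ = aeval w : S → S` (so `ψ (X i) = w i`).  Write `X i = ∑ j, C (N i j) * w j`; let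
  `φ = aeval (fun i => ∑ j, C (N i j) * X j)`.  `φ (ψ (X i)) = φ (w i) = X i` and
  `ψ (φ (X i)) = X i` by linear algebra (`M N = N M = 1`), so `φ` is an `AlgEquiv`
  (`AlgEquiv.ofAlgHom`), `φ (w i) = X i`.  Both are graded: `aeval` of a form of degree `e` at
  linear forms is a form of degree `e` (expand into monomials; `IsHomogeneous.aeval`/`IsHomogeneous.prod`,
  `IsHomogeneous.pow`).
-/

set_option autoImplicit false

namespace Pool.Agent.EGH2

open MvPolynomial

/-- the linear form with given coefficients -/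
private noncomputable def Aut_lin (K : Type) [Field K] (n : ℕ) :
    (Fin n → K) →ₗ[K] MvPolynomial (Fin n) K :=
  Fintype.linearCombination K (fun i => (X i : MvPolynomial (Fin n) K))

private theorem Aut_lin_apply {K : Type} [Field K] {n : ℕ} (c : Fin n → K) :
    Aut_lin K n c = ∑ i, c i • (X i : MvPolynomial (Fin n) K) := by
  unfold Aut_lin
  rw [Fintype.linearCombination_apply]

private theorem Aut_lin_single {K : Type} [Field K] {n : ℕ} (i : Fin n) :
    Aut_lin K n (Pi.single i 1) = X i := by
  rw [Aut_lin_apply, Finset.sum_eq_single i]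
  · rw [Pi.single_eq_same, one_smul]
  · intro j _ hj
    rw [Pi.single_eq_of_ne hj, zero_smul]
  · intro h
    exact absurd (Finset.mem_univ i) h

private theorem Aut_lin_hom {K : Type} [Field K] {n : ℕ} (c : Fin n → K) :
    (Aut_lin K n c).IsHomogeneous 1 := by
  rw [Aut_lin_apply, ← mem_homogeneousSubmodule]
  refine Submodule.sum_mem _ fun i _ => Submodule.smul_mem _ _ ?_
  rw [mem_homogeneousSubmodule]
  exact isHomogeneous_X K i

/-- the substitution given by a linear map of the coefficients -/
private noncomputable def Aut_sub {K : Type} [Field K] {n : ℕ}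
    (T : (Fin n → K) →ₗ[K] (Fin n → K)) :
    MvPolynomial (Fin n) K →ₐ[K] MvPolynomial (Fin n) K :=
  aeval fun i => Aut_lin K n (T (Pi.single i 1))

private theorem Aut_sub_lin {K : Type} [Field K] {n : ℕ} (T : (Fin n → K) →ₗ[K] (Fin n → K))
    (c : Fin n → K) : Aut_sub T (Aut_lin K n c) = Aut_lin K n (T c) := by
  have h1 : c = ∑ i, c i • (Pi.single i (1 : K) : Fin n → K) := by
    funext j
    simp [Finset.sum_apply, Pi.single_apply]
  conv_rhs => rw [h1]
  rw [map_sum, map_sum, Aut_lin_apply, map_sum]
  refine Finset.sum_congr rfl fun i _ => ?_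
  rw [map_smul, map_smul, map_smul, Aut_sub, aeval_X]

private theorem Aut_sub_comp {K : Type} [Field K] {n : ℕ}
    (T T' : (Fin n → K) →ₗ[K] (Fin n → K)) (h : ∀ c, T (T' c) = c) :
    (Aut_sub T).comp (Aut_sub T') = AlgHom.id K _ := by
  refine algHom_ext fun i => ?_
  rw [AlgHom.comp_apply, AlgHom.id_apply]
  have h1 : Aut_sub T' (X i) = Aut_lin K n (T' (Pi.single i 1)) := by
    rw [Aut_sub, aeval_X]
  rw [h1, Aut_sub_lin, h, Aut_lin_single]

private theorem Aut_sub_hom {K : Type} [Field K] {n : ℕ} (T : (Fin n → K) →ₗ[K] (Fin n → K))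
    {g : MvPolynomial (Fin n) K} {e : ℕ} (hg : g.IsHomogeneous e) :
    (Aut_sub T g).IsHomogeneous e := by
  have h := hg.aeval (fun i => Aut_lin K n (T (Pi.single i 1))) (n := 1)
    (fun i => Aut_lin_hom _)
  rwa [one_mul] at h

theorem exists_aut {K : Type} [Field K] {n k : ℕ} (v : Fin k → MvPolynomial (Fin n) K)
    (hv : ∀ i, (v i).IsHomogeneous 1) (hli : LinearIndependent K v) :
    ∃ (φ : MvPolynomial (Fin n) K ≃ₐ[K] MvPolynomial (Fin n) K) (σ : Fin k → Fin n),
      Function.Injective σ ∧ (∀ j, φ (v j) = X (σ j)) ∧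
      (∀ g e, g.IsHomogeneous e → (φ g).IsHomogeneous e) ∧
      (∀ g e, g.IsHomogeneous e → (φ.symm g).IsHomogeneous e) := by
  classical
  have hex : ∀ j, ∃ c : Fin n → K, Aut_lin K n c = v j := by
    intro j
    have h1 : v j ∈ homogeneousSubmodule (Fin n) K 1 := (mem_homogeneousSubmodule _ _).2 (hv j)
    rw [homogeneousSubmodule_one_eq_span_X, Submodule.mem_span_range_iff_exists_fun] at h1
    obtain ⟨c, hc⟩ := h1
    exact ⟨c, by rw [Aut_lin_apply, hc]⟩
  choose A hA using hex
  have hAli : LinearIndependent K A := by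
    refine LinearIndependent.of_comp (Aut_lin K n) ?_
    have h1 : (Aut_lin K n) ∘ A = v := funext hA
    rw [h1]
    exact hli
  have hs : LinearIndepOn K id (Set.range A) := hAli.linearIndepOn_id
  let b := Module.Basis.extend hs
  let e := b.indexEquiv (Pi.basisFun K (Fin n))
  have hmem : ∀ j, A j ∈ hs.extend (Set.subset_univ _) := fun j =>
    hs.subset_extend _ (Set.mem_range_self j)
  let σ : Fin k → Fin n := fun j => e ⟨A j, hmem j⟩
  let B : Module.Basis (Fin n) K (Fin n → K) := b.reindex e
  have hB : ∀ j, B (σ j) = A j := by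
    intro j
    change (b.reindex e) (e ⟨A j, hmem j⟩) = A j
    rw [Module.Basis.reindex_apply, Equiv.symm_apply_apply]
    exact Module.Basis.extend_apply_self hs _
  have hσ : Function.Injective σ := by
    intro i j hij
    have h1 := e.injective hij
    exact hAli.injective (congrArg Subtype.val h1)
  let T : (Fin n → K) ≃ₗ[K] (Fin n → K) := B.equivFun
  have hT : ∀ i, T (B i) = Pi.single i 1 := by
    intro i
    funext j
    change B.equivFun (B i) j = _
    rw [Module.Basis.equivFun_self, Pi.single_apply]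
    simp only [eq_comm]
  let φ : MvPolynomial (Fin n) K ≃ₐ[K] MvPolynomial (Fin n) K :=
    AlgEquiv.ofAlgHom (Aut_sub T.toLinearMap) (Aut_sub T.symm.toLinearMap)
      (Aut_sub_comp _ _ fun c => T.apply_symm_apply c)
      (Aut_sub_comp _ _ fun c => T.symm_apply_apply c)
  refine ⟨φ, σ, hσ, ?_, ?_, ?_⟩
  · intro j
    change Aut_sub T.toLinearMap (v j) = X (σ j)
    rw [← hA j, Aut_sub_lin, ← hB j]
    change Aut_lin K n (T (B (σ j))) = _
    rw [hT, Aut_lin_single]
  · intro g e hg
    exact Aut_sub_hom _ hg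
  · intro g e hg
    exact Aut_sub_hom _ hg

end Pool.Agent.EGH2
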