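import Pool.Agent.EGH2.Avoid1

/-!
# Complete intersections in the quotient by a linear form

* `exists_CI_quot` PROOF: for `i ≤ n` construct by induction `g : Fin i → S_n` weakly regular with
  `g j = π (G j)`, `G j ∈ pI f (n+1)` homogeneous of degree `s (j+1) + 1`.  Step `i < n`:
  `W = π {G ∈ pI f (i+2) : homogeneous of degree s (i+1) + 1}` (a subspace).
  `avoid_step` needs: if `w * r ∈ (g)` for all `w ∈ W`, then `r ∈ (g)`.  (a) For `j ≤ i + 1` and a form `M` of
  degree `s (i+1) - s j` of `S_n`, lift it to `M'` (`hπs`); `M' * f j ∈ pI f (i+2)` has degree `s (i+1) + 1`; so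
  `M * (π (f j) * r) ∈ (g)`; `forms_ann` (`i < n`) gives `π (f j) * r ∈ (g)`.
  (b) lift `r = π r'`; apply `grade_lemma` in `S_{n+1}` with `z = f` restricted to `Fin (i+2)` (the same family as
  `f`), `y = (ℓ, G 0, …, G (i-1))` (`Fin.cons`), `l = i + 1 < k = i + 2`.  `y` is weakly regular: `ℓ ≠ 0` in a
  domain, and `G j * a ∈ pI y (j+1)` iff `g j * π a ∈ pI g j` (because `ker π = (ℓ)` and
  `pI y (j+1) = (ℓ) ⊔ (G 0, …, G (j-1))` is the preimage of `pI g j`).
  So `r' ∈ pI y (i+1)`, `r ∈ pI g i`.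
-/

set_option autoImplicit false

namespace Pool.Agent.EGH2

open MvPolynomial

theorem Avoid2_surj {K : Type} [Field K] {n : ℕ}
    (π : MvPolynomial (Fin (n + 1)) K →ₐ[K] MvPolynomial (Fin n) K)
    (hπs : ∀ e (w : MvPolynomial (Fin n) K), w.IsHomogeneous e →
      ∃ g : MvPolynomial (Fin (n + 1)) K, g.IsHomogeneous e ∧ π g = w) :
    Function.Surjective π := by
  intro w
  have h : ∀ e, ∃ g : MvPolynomial (Fin (n + 1)) K, π g = homogeneousComponent e w := by
    intro e
    obtain ⟨g, _, hg⟩ := hπs e _ (homogeneousComponent_isHomogeneous e w)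
    exact ⟨g, hg⟩
  choose G hG using h
  refine ⟨∑ i ∈ Finset.range (w.totalDegree + 1), G i, ?_⟩
  rw [map_sum]
  simp only [hG]
  exact sum_homogeneousComponent w

theorem Avoid2_pI_cons {A B : Type} [CommRing A] [CommRing B] (φ : A →+* B)
    (hφ : Function.Surjective φ) (l : A) (hk : ∀ a, φ a = 0 ↔ a ∈ Ideal.span {l}) {k : ℕ}
    (G : Fin k → A) (g : Fin k → B) (hg : ∀ j, φ (G j) = g j) (i : ℕ) (a : A) :
    a ∈ pI (Fin.cons l G : Fin (k + 1) → A) (i + 1) ↔ φ a ∈ pI g i := by
  constructor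
  · intro h
    have h1 : φ a ∈ Ideal.map φ (pI (Fin.cons l G : Fin (k + 1) → A) (i + 1)) :=
      Ideal.mem_map_of_mem φ h
    refine (?_ : Ideal.map φ (pI (Fin.cons l G : Fin (k + 1) → A) (i + 1)) ≤ pI g i) h1
    unfold pI
    rw [Ideal.map_span, Ideal.span_le]
    rintro x ⟨y, ⟨j, hj, rfl⟩, rfl⟩
    refine Fin.cases ?_ (fun j => ?_) j hj
    · intro _
      rw [Fin.cons_zero, (hk l).2 (Ideal.subset_span rfl)]
      exact Ideal.zero_mem _
    · intro hj
      rw [Fin.cons_succ, hg]
      refine Ideal.subset_span ⟨j, ?_, rfl⟩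
      have h2 : (Fin.succ j).val = j.val + 1 := rfl
      omega
  · intro h
    have h1 : pI g i = Ideal.map φ (pI G i) := by
      unfold pI
      rw [Ideal.map_span]
      congr 1
      ext x
      constructor
      · rintro ⟨j, hj, rfl⟩
        exact ⟨G j, ⟨j, hj, rfl⟩, hg j⟩
      · rintro ⟨y, ⟨j, hj, rfl⟩, rfl⟩
        exact ⟨j, hj, (hg j).symm⟩
    rw [h1, Ideal.mem_map_iff_of_surjective φ hφ] at h
    obtain ⟨b, hb, hba⟩ := h
    have h2 : a - b ∈ Ideal.span {l} := (hk _).1 (by rw [map_sub, hba, sub_self])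
    have h3 : Ideal.span {l} ≤ pI (Fin.cons l G : Fin (k + 1) → A) (i + 1) := by
      rw [Ideal.span_le]
      rintro x rfl
      exact Ideal.subset_span ⟨0, Nat.succ_pos i, rfl⟩
    have h4 : pI G i ≤ pI (Fin.cons l G : Fin (k + 1) → A) (i + 1) := by
      unfold pI
      rw [Ideal.span_le]
      rintro x ⟨j, hj, rfl⟩
      refine Ideal.subset_span ⟨Fin.succ j, ?_, rfl⟩
      have h2 : (Fin.succ j).val = j.val + 1 := rfl
      omega
    have h5 : a = (a - b) + b := by ring
    rw [h5]
    exact Ideal.add_mem _ (h3 h2) (h4 hb)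

theorem Avoid2_pI_mono {A : Type} [CommRing A] {c : ℕ} (f : Fin c → A) {i j : ℕ} (h : i ≤ j) :
    pI f i ≤ pI f j := by
  unfold pI
  apply Ideal.span_mono
  rintro x ⟨k, hk, rfl⟩
  exact ⟨k, lt_of_lt_of_le hk h, rfl⟩

theorem Avoid2_pI_restrict {A : Type} [CommRing A] {c m : ℕ} (hm : m ≤ c) (f : Fin c → A) {i : ℕ}
    (hi : i ≤ m) : pI (fun j : Fin m => f (Fin.castLE hm j)) i = pI f i := by
  unfold pI
  congr 1
  ext x
  constructor
  · rintro ⟨j, hj, rfl⟩
    exact ⟨Fin.castLE hm j, hj, rfl⟩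
  · rintro ⟨j, hj, rfl⟩
    exact ⟨⟨j.val, lt_of_lt_of_le hj hi⟩, hj, rfl⟩

theorem Avoid2_aux {K : Type} [Field K] [Infinite K] {n : ℕ} {s : ℕ → ℕ} (hs : Monotone s)
    (f : Fin (n + 1) → MvPolynomial (Fin (n + 1)) K) (hf : CI s f)
    (l : MvPolynomial (Fin (n + 1)) K) (hl0 : l ≠ 0)
    (π : MvPolynomial (Fin (n + 1)) K →ₐ[K] MvPolynomial (Fin n) K)
    (hπh : ∀ e g, g.IsHomogeneous e → (π g).IsHomogeneous e)
    (hπs : ∀ e (w : MvPolynomial (Fin n) K), w.IsHomogeneous e →
      ∃ g : MvPolynomial (Fin (n + 1)) K, g.IsHomogeneous e ∧ π g = w)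
    (hπk : ∀ g, π g = 0 ↔ g ∈ Ideal.span {l}) (k : ℕ) (hk : k ≤ n) :
    ∃ g : Fin k → MvPolynomial (Fin n) K, CI (fun i => s (i + 1)) g ∧
      ∀ i : Fin k, ∃ G ∈ pI f (n + 1), G.IsHomogeneous (s (i.val + 1) + 1) ∧ π G = g i := by
  have hsurj := Avoid2_surj π hπs
  induction k with
  | zero =>
    exact ⟨Fin.elim0, ⟨fun i => i.elim0, fun i => i.elim0⟩, fun i => i.elim0⟩
  | succ k ih =>
    obtain ⟨g, hg, hG⟩ := ih (by omega)
    choose G hG1 hG2 hG3 using hG
    have hkn : k + 2 ≤ n + 1 := by omega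
    let W : Submodule K (MvPolynomial (Fin n) K) :=
      Submodule.map π.toLinearMap
        (Submodule.restrictScalars K (pI f (k + 2)) ⊓
          homogeneousSubmodule (Fin (n + 1)) K (s (k + 1) + 1))
    have hWann : ∀ r, (∀ w ∈ W, w * r ∈ pI g k) → r ∈ pI g k := by
      intro r hr
      obtain ⟨r', rfl⟩ := hsurj r
      -- part (a)
      have ha : ∀ j : Fin (k + 2), π (f (Fin.castLE hkn j)) * π r' ∈ pI g k := by
        intro j
        apply forms_ann g hg.reg (by omega) (s (k + 1) - s j.val)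
        intro M hM
        obtain ⟨M', hM', hM'2⟩ := hπs _ M hM
        have hj : s j.val ≤ s (k + 1) := hs (by omega)
        have h1 : π (M' * f (Fin.castLE hkn j)) ∈ W := by
          refine ⟨M' * f (Fin.castLE hkn j), ⟨?_, ?_⟩, rfl⟩
          · exact Ideal.mul_mem_left _ _ (Ideal.subset_span ⟨Fin.castLE hkn j, j.isLt, rfl⟩)
          · have h2 := hM'.mul (hf.hom (Fin.castLE hkn j))
            have h3 : s (k + 1) - s j.val + (s (Fin.castLE hkn j).val + 1) = s (k + 1) + 1 := by
              show s (k + 1) - s j.val + (s j.val + 1) = s (k + 1) + 1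
              omega
            rw [h3] at h2
            exact h2
        have h2 := hr _ h1
        rw [map_mul, hM'2, mul_assoc] at h2
        exact h2
      -- part (b)
      let z : Fin (k + 2) → MvPolynomial (Fin (n + 1)) K := fun j => f (Fin.castLE hkn j)
      have hz : WReg z := by
        intro i a ha
        rw [Avoid2_pI_restrict hkn f (le_of_lt i.isLt)] at ha ⊢
        exact hf.reg (Fin.castLE hkn i) a ha
      have hkey := Avoid2_pI_cons π.toRingHom hsurj l hπk G g hG3
      have hy : WReg (Fin.cons l G : Fin (k + 1) → MvPolynomial (Fin (n + 1)) K) := by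
        intro i
        refine Fin.cases ?_ (fun i => ?_) i
        · intro a ha
          have h0 : pI (Fin.cons l G : Fin (k + 1) → MvPolynomial (Fin (n + 1)) K)
              ((0 : Fin (k + 1)).val) = ⊥ := by
            unfold pI
            rw [Ideal.span_eq_bot]
            rintro x ⟨j, hj, _⟩
            exact absurd hj (Nat.not_lt_zero _)
          rw [h0, Ideal.mem_bot, Fin.cons_zero] at ha
          rcases mul_eq_zero.1 ha with h | h
          · exact absurd h hl0
          · rw [h]; exact Ideal.zero_mem _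
        · intro a ha
          have h1 := (hkey i.val _).1 ha
          rw [Fin.cons_succ, map_mul] at h1
          have h2 : π.toRingHom (G i) = g i := hG3 i
          rw [h2] at h1
          exact (hkey i.val a).2 (hg.reg i _ h1)
      have hfin := grade_lemma z z hz (fun i => Ideal.subset_span ⟨i, rfl⟩)
        (Fin.cons l G : Fin (k + 1) → MvPolynomial (Fin (n + 1)) K) hy (by omega) r' (by
          intro j
          apply (hkey k _).2
          have h1 := ha j
          rw [← map_mul] at h1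
          exact h1)
      exact (hkey k r').1 hfin
    obtain ⟨w, hw1, hw2⟩ := avoid_step g W hWann
    obtain ⟨G', ⟨hG'1, hG'2⟩, hG'3⟩ := hw1
    refine ⟨Fin.snoc g w, ⟨?_, ?_⟩, ?_⟩
    · intro i
      induction i using Fin.lastCases with
      | last =>
        rw [Fin.snoc_last, ← hG'3]
        exact hπh _ _ hG'2
      | cast i =>
        rw [Fin.snoc_castSucc]
        exact hg.hom i
    · intro i a ha
      induction i using Fin.lastCases with
      | last =>
        rw [Fin.snoc_last, Fin.val_last, Avoid1_pI_snoc g w le_rfl] at ha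
        rw [Fin.val_last, Avoid1_pI_snoc g w le_rfl]
        exact hw2 a ha
      | cast i =>
        rw [Fin.snoc_castSucc, Fin.val_castSucc, Avoid1_pI_snoc g w i.isLt.le] at ha
        rw [Fin.val_castSucc, Avoid1_pI_snoc g w i.isLt.le]
        exact hg.reg i a ha
    · intro i
      induction i using Fin.lastCases with
      | last =>
        refine ⟨G', Avoid2_pI_mono f (by omega) hG'1, hG'2, ?_⟩
        rw [Fin.snoc_last]
        exact hG'3
      | cast i =>
        refine ⟨G i, hG1 i, hG2 i, ?_⟩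
        rw [Fin.snoc_castSucc]
        exact hG3 i

theorem exists_CI_quot {K : Type} [Field K] [Infinite K] {n : ℕ} {s : ℕ → ℕ} (hs : Monotone s)
    (f : Fin (n + 1) → MvPolynomial (Fin (n + 1)) K) (hf : CI s f)
    (l : MvPolynomial (Fin (n + 1)) K) (hl : l.IsHomogeneous 1) (hl0 : l ≠ 0)
    (π : MvPolynomial (Fin (n + 1)) K →ₐ[K] MvPolynomial (Fin n) K)
    (hπh : ∀ e g, g.IsHomogeneous e → (π g).IsHomogeneous e)
    (hπs : ∀ e (w : MvPolynomial (Fin n) K), w.IsHomogeneous e →
      ∃ g : MvPolynomial (Fin (n + 1)) K, g.IsHomogeneous e ∧ π g = w)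
    (hπk : ∀ g, π g = 0 ↔ g ∈ Ideal.span {l}) :
    ∃ g : Fin n → MvPolynomial (Fin n) K, CI (fun i => s (i + 1)) g ∧
      ∀ i : Fin n, ∃ G ∈ pI f (n + 1), G.IsHomogeneous (s (i.val + 1) + 1) ∧ π G = g i :=
  Avoid2_aux hs f hf l hl0 π hπh hπs hπk n le_rfl

end Pool.Agent.EGH2
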