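import Mathlib

/-!
# Definitions: complete intersections of forms, recursive Koszul cochains

Everything in this project is elementary: `S = K[x_0, …, x_{n-1}] = MvPolynomial (Fin n) K`,
`f : Fin c → S` a weakly regular sequence of forms of degrees `s 0 + 1 ≤ s 1 + 1 ≤ …`.
-/

set_option autoImplicit false

namespace Pool.Agent.EGH2

open MvPolynomial

/-- the ideal generated by the first `k` members of the family -/
def pI {A : Type} [CommRing A] {c : ℕ} (f : Fin c → A) (k : ℕ) : Ideal A :=
  Ideal.span {g | ∃ i : Fin c, i.val < k ∧ f i = g}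

/-- weakly regular sequence -/
def WReg {A : Type} [CommRing A] {c : ℕ} (f : Fin c → A) : Prop :=
  ∀ i : Fin c, ∀ g, f i * g ∈ pI f i.val → g ∈ pI f i.val

/-- the sums `s 0 + … + s (t-1)` -/
def sg (s : ℕ → ℕ) (t : ℕ) : ℕ := ∑ i ∈ Finset.range t, s i

/-- `f` is a (weakly) regular sequence of forms of degrees `s i + 1` -/
structure CI {K : Type} [Field K] (s : ℕ → ℕ) {n c : ℕ}
    (f : Fin c → MvPolynomial (Fin n) K) : Prop where
  hom : ∀ i : Fin c, (f i).IsHomogeneous (s i.val + 1)
  reg : WReg f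

/-- a homogeneous ideal -/
def HI {K : Type} [Field K] {n : ℕ} (J : Ideal (MvPolynomial (Fin n) K)) : Prop :=
  ∀ g ∈ J, ∀ e, homogeneousComponent e g ∈ J

/-- the largest `u ≤ c` with `s 0 + … + s (u-1) ≤ e` -/
def tau (s : ℕ → ℕ) (c e : ℕ) : ℕ := Nat.findGreatest (fun u => sg s u ≤ e) c

/-- the space of linear forms -/
noncomputable abbrev S1 (K : Type) [Field K] (n : ℕ) : Submodule K (MvPolynomial (Fin n) K) :=
  homogeneousSubmodule (Fin n) K 1

/-- the dimension of a subspace modulo an ideal -/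
noncomputable def qd {K : Type} [Field K] {n : ℕ} (I : Ideal (MvPolynomial (Fin n) K))
    (V : Submodule K (MvPolynomial (Fin n) K)) : ℕ :=
  Module.finrank K (V.map (Ideal.Quotient.mkₐ K I).toLinearMap)

/-- the dimension of the degree `j` piece of a (homogeneous) ideal -/
noncomputable def hd {K : Type} [Field K] {n : ℕ} (I : Ideal (MvPolynomial (Fin n) K)) (j : ℕ) : ℕ :=
  Module.finrank K
    (Submodule.restrictScalars K I ⊓ homogeneousSubmodule (Fin n) K j : Submodule K _)

/-- number of `true` -/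
def wt {u : ℕ} (b : Fin u → Bool) : ℕ := (Finset.univ.filter fun i => b i = true).card

/-- the Koszul cochain differential, recursively: `ω = α + e₀ ∧ β`,
`d ω = d' α + e₀ ∧ (x₀ α - d' β)`. -/
def kd {A : Type} [CommRing A] :
    (u : ℕ) → (Fin u → A) → ((Fin u → Bool) → A) → ((Fin u → Bool) → A)
  | 0, _, _ => fun _ => 0
  | u + 1, x, ω => fun b =>
      bif b 0 then x 0 * ω (Fin.cons false (Fin.tail b))
        - kd u (Fin.tail x) (fun c => ω (Fin.cons true c)) (Fin.tail b)
      else kd u (Fin.tail x) (fun c => ω (Fin.cons false c)) (Fin.tail b)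

/-- cochains of exterior degree `i` (no grading on the coefficients) -/
def HomW {A : Type} [CommRing A] {u : ℕ} (i : ℤ) (ω : (Fin u → Bool) → A) : Prop :=
  ∀ b, ω b ≠ 0 → (wt b : ℤ) = i

/-- cochains of exterior degree `i` with homogeneous coefficients of degree `e` -/
def HomK {K : Type} [Field K] {n u : ℕ} (i e : ℤ)
    (ω : (Fin u → Bool) → MvPolynomial (Fin n) K) : Prop :=
  ∀ b, ω b ≠ 0 → (wt b : ℤ) = i ∧ ∃ m : ℕ, (m : ℤ) = e ∧ (ω b).IsHomogeneous m

/-- `Reg m J x u`: some `u` members of the family `x_0, …, x_{m-1}`, in the given order, form a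
weakly regular sequence modulo `J`.  The other members are arbitrary. -/
def Reg {A : Type} [CommRing A] : (m : ℕ) → Ideal A → (Fin m → A) → ℕ → Prop
  | 0, _, _, u => u = 0
  | m + 1, J, x, u => Reg m J (Fin.tail x) u ∨
      ((∀ g, x 0 * g ∈ J → g ∈ J) ∧ ∃ u', u = u' + 1 ∧
        Reg m (J ⊔ Ideal.span {x 0}) (Fin.tail x) u')

end Pool.Agent.EGH2
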