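import Pool.Agent.EGH2.Grade

/-!
# Depth of `S` modulo fewer than `n` regular elements

* `depth_pos`: `grade_lemma` with `z = f = X : Fin n → S`; `X` is weakly regular (`pI X i` is
  `Ideal.span (X '' {j | j < i})`; `MvPolynomial.mem_ideal_span_X_image`).
* `forms_ann` PROOF: induction on `D`: `D = 0`: `w = 1`.  `D + 1`: for a form `w` of degree `D` and `j`,
  `X j * w` is a form of degree `D + 1`, so `X j * (w * r) ∈ pI y l` for all `j`, so `w * r ∈ pI y l`
  by `depth_pos`; now use the induction hypothesis.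
-/

set_option autoImplicit false

namespace Pool.Agent.EGH2

open MvPolynomial

theorem Depth_pI_X {K : Type} [Field K] {n : ℕ} (k : ℕ) :
    pI (fun i : Fin n => (X i : MvPolynomial (Fin n) K)) k
      = Ideal.span (X '' {j : Fin n | j.val < k} : Set (MvPolynomial (Fin n) K)) := by
  unfold pI
  congr 1

theorem Depth_WReg_X {K : Type} [Field K] {n : ℕ} :
    WReg (fun i : Fin n => (X i : MvPolynomial (Fin n) K)) := by
  intro i g hg
  rw [Depth_pI_X, mem_ideal_span_X_image] at hg ⊢
  intro m hm
  have h1 : Finsupp.single i 1 + m ∈ (X i * g : MvPolynomial (Fin n) K).support := by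
    rw [support_X_mul, Finset.mem_map]
    exact ⟨m, hm, rfl⟩
  obtain ⟨j, hj, hj0⟩ := hg _ h1
  refine ⟨j, hj, ?_⟩
  have hij : i ≠ j := by
    rintro rfl
    exact lt_irrefl i.val hj
  rw [Finsupp.add_apply, Finsupp.single_eq_of_ne (Ne.symm hij), zero_add] at hj0
  exact hj0

theorem depth_pos {K : Type} [Field K] {n l : ℕ} (y : Fin l → MvPolynomial (Fin n) K)
    (hy : WReg y) (hl : l < n) (r : MvPolynomial (Fin n) K) (hr : ∀ j, X j * r ∈ pI y l) :
    r ∈ pI y l :=
  grade_lemma (fun i : Fin n => (X i : MvPolynomial (Fin n) K))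
    (fun i : Fin n => (X i : MvPolynomial (Fin n) K)) Depth_WReg_X
    (fun i => Ideal.subset_span ⟨i, rfl⟩) y hy hl r hr

theorem forms_ann {K : Type} [Field K] {n l : ℕ} (y : Fin l → MvPolynomial (Fin n) K)
    (hy : WReg y) (hl : l < n) (D : ℕ) (r : MvPolynomial (Fin n) K)
    (hr : ∀ w : MvPolynomial (Fin n) K, w.IsHomogeneous D → w * r ∈ pI y l) :
    r ∈ pI y l := by
  induction D with
  | zero =>
    have h := hr 1 (isHomogeneous_one _ _)
    rwa [one_mul] at h
  | succ D ih =>
    apply ih
    intro w hw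
    apply depth_pos y hy hl
    intro j
    have h1 : (X j * w : MvPolynomial (Fin n) K).IsHomogeneous (D + 1) := by
      have h2 := (isHomogeneous_X K j).mul hw
      rwa [add_comm] at h2
    have h3 := hr _ h1
    rwa [mul_assoc] at h3

end Pool.Agent.EGH2
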