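import Pool.Agent.EGH2.Defs

/-!
# Koszul basics
-/

set_option autoImplicit false

namespace Pool.Agent.EGH2

open MvPolynomial

section Ring

variable {A : Type} [CommRing A]

theorem wt_cons {u : ℕ} (t : Bool) (b : Fin u → Bool) :
    wt (Fin.cons t b : Fin (u + 1) → Bool) = (if t = true then 1 else 0) + wt b := by
  unfold wt
  rw [Finset.card_filter, Fin.sum_univ_succ, Finset.card_filter]
  simp

theorem kd_true {u : ℕ} (x : Fin (u + 1) → A) (ω : (Fin (u + 1) → Bool) → A) (c : Fin u → Bool) :
    kd (u + 1) x ω (Fin.cons true c) = x 0 * ω (Fin.cons false c)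
      - kd u (Fin.tail x) (fun c => ω (Fin.cons true c)) c := by
  simp [kd]

theorem kd_false {u : ℕ} (x : Fin (u + 1) → A) (ω : (Fin (u + 1) → Bool) → A)
    (c : Fin u → Bool) :
    kd (u + 1) x ω (Fin.cons false c) = kd u (Fin.tail x) (fun c => ω (Fin.cons false c)) c := by
  simp [kd]

/-- induction over the first coordinate -/
theorem cons_cases {u : ℕ} {P : (Fin (u + 1) → Bool) → Prop}
    (h : ∀ t c, P (Fin.cons t c)) (b : Fin (u + 1) → Bool) : P b := by
  have := h (b 0) (Fin.tail b)
  rwa [Fin.cons_self_tail] at this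

theorem kd_add (u : ℕ) (x : Fin u → A) (ω ω' : (Fin u → Bool) → A) :
    kd u x (fun b => ω b + ω' b) = fun b => kd u x ω b + kd u x ω' b := by
  induction u with
  | zero => funext b; simp [kd]
  | succ u ih =>
    funext b
    refine cons_cases (P := fun b => kd (u + 1) x (fun b => ω b + ω' b) b
      = kd (u + 1) x ω b + kd (u + 1) x ω' b) ?_ b
    intro t c
    cases t
    · rw [kd_false, kd_false, kd_false]
      exact congrFun (ih _ _ _) c
    · rw [kd_true, kd_true, kd_true]
      have := congrFun (ih (Fin.tail x) (fun c => ω (Fin.cons true c))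
        (fun c => ω' (Fin.cons true c))) c
      rw [this]
      ring

theorem kd_mul (u : ℕ) (x : Fin u → A) (a : A) (ω : (Fin u → Bool) → A) :
    kd u x (fun b => a * ω b) = fun b => a * kd u x ω b := by
  induction u with
  | zero => funext b; simp [kd]
  | succ u ih =>
    funext b
    refine cons_cases (P := fun b => kd (u + 1) x (fun b => a * ω b) b
      = a * kd (u + 1) x ω b) ?_ b
    intro t c
    cases t
    · rw [kd_false, kd_false]
      exact congrFun (ih _ _) c
    · rw [kd_true, kd_true]
      have := congrFun (ih (Fin.tail x) (fun c => ω (Fin.cons true c))) c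
      rw [this]
      ring

theorem kd_zero (u : ℕ) (x : Fin u → A) : kd u x (fun _ => 0) = fun _ => 0 := by
  have := kd_mul u x 0 (fun _ => 0)
  simpa using this

theorem kd_neg (u : ℕ) (x : Fin u → A) (ω : (Fin u → Bool) → A) :
    kd u x (fun b => - ω b) = fun b => - kd u x ω b := by
  have := kd_mul u x (-1) ω
  simpa using this

theorem kd_sub (u : ℕ) (x : Fin u → A) (ω ω' : (Fin u → Bool) → A) :
    kd u x (fun b => ω b - ω' b) = fun b => kd u x ω b - kd u x ω' b := by
  have h := kd_add u x ω (fun b => - ω' b)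
  rw [kd_neg] at h
  simpa [sub_eq_add_neg] using h

theorem kd_kd (u : ℕ) (x : Fin u → A) (ω : (Fin u → Bool) → A) :
    kd u x (kd u x ω) = fun _ => 0 := by
  induction u with
  | zero => funext b; simp [kd]
  | succ u ih =>
    funext b
    refine cons_cases (P := fun b => kd (u + 1) x (kd (u + 1) x ω) b = 0) ?_ b
    intro t c
    cases t
    · rw [kd_false]
      simp only [kd_false]
      exact congrFun (ih _ _) c
    · rw [kd_true, kd_false]
      simp only [kd_true]
      rw [kd_sub, kd_mul, ih]
      ring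

/-- cochains with coefficients in an ideal -/
theorem kd_mem (u : ℕ) (x : Fin u → A) (J : Ideal A) (ω : (Fin u → Bool) → A)
    (h : ∀ b, ω b ∈ J) : ∀ b, kd u x ω b ∈ J := by
  induction u with
  | zero => intro b; simp [kd]
  | succ u ih =>
    refine cons_cases ?_
    intro t c
    cases t
    · rw [kd_false]
      exact ih _ _ (fun c => h _) c
    · rw [kd_true]
      exact J.sub_mem (J.mul_mem_left _ (h _)) (ih _ _ (fun c => h _) c)

end Ring

section Hom

variable {K : Type} [Field K] {n : ℕ}

theorem HomK.zero {u : ℕ} (i e : ℤ) :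
    HomK i e (fun _ => 0 : (Fin u → Bool) → MvPolynomial (Fin n) K) := by
  intro b h
  exact absurd rfl h

theorem HomK.add {u : ℕ} {i e : ℤ} {ω ω' : (Fin u → Bool) → MvPolynomial (Fin n) K}
    (h : HomK i e ω) (h' : HomK i e ω') : HomK i e (fun b => ω b + ω' b) := by
  intro b hb
  by_cases h1 : ω b = 0
  · by_cases h2 : ω' b = 0
    · exact absurd (by show ω b + ω' b = 0; rw [h1, h2, add_zero]) hb
    · obtain ⟨hw, m, hm, hh⟩ := h' b h2
      refine ⟨hw, m, hm, ?_⟩
      show (ω b + ω' b).IsHomogeneous m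
      rw [h1, zero_add]
      exact hh
  · obtain ⟨hw, m, hm, hh⟩ := h b h1
    by_cases h2 : ω' b = 0
    · refine ⟨hw, m, hm, ?_⟩
      show (ω b + ω' b).IsHomogeneous m
      rw [h2, add_zero]
      exact hh
    · obtain ⟨_, m', hm', hh'⟩ := h' b h2
      have : m = m' := by exact_mod_cast hm.trans hm'.symm
      subst this
      exact ⟨hw, m, hm, hh.add hh'⟩

theorem HomK.mul {u : ℕ} {i e : ℤ} {D : ℕ} {ω : (Fin u → Bool) → MvPolynomial (Fin n) K}
    {w : MvPolynomial (Fin n) K} (hw : w.IsHomogeneous D) (h : HomK i e ω) :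
    HomK i (e + D) (fun b => w * ω b) := by
  intro b hb
  have h1 : ω b ≠ 0 := fun h1 => hb (by show w * ω b = 0; rw [h1, mul_zero])
  obtain ⟨hw', m, hm, hh⟩ := h b h1
  refine ⟨hw', D + m, by push_cast; linarith, hw.mul hh⟩

theorem HomK.neg {u : ℕ} {i e : ℤ} {ω : (Fin u → Bool) → MvPolynomial (Fin n) K}
    (h : HomK i e ω) : HomK i e (fun b => - ω b) := by
  intro b hb
  have h1 : ω b ≠ 0 := fun h1 => hb (by show - ω b = 0; rw [h1, neg_zero])
  obtain ⟨hw', m, hm, hh⟩ := h b h1
  exact ⟨hw', m, hm, hh.neg⟩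

theorem HomK.sub {u : ℕ} {i e : ℤ} {ω ω' : (Fin u → Bool) → MvPolynomial (Fin n) K}
    (h : HomK i e ω) (h' : HomK i e ω') : HomK i e (fun b => ω b - ω' b) := by
  have := h.add h'.neg
  simpa [sub_eq_add_neg] using this

theorem HomK.cons_true {u : ℕ} {i e : ℤ} {ω : (Fin (u + 1) → Bool) → MvPolynomial (Fin n) K}
    (h : HomK i e ω) : HomK (i - 1) e (fun c : Fin u → Bool => ω (Fin.cons true c)) := by
  intro c hc
  obtain ⟨hw, m, hm, hh⟩ := h _ hc
  rw [wt_cons] at hw
  refine ⟨?_, m, hm, hh⟩
  push_cast at hw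
  simp only [if_true] at hw
  linarith

theorem HomK.cons_false {u : ℕ} {i e : ℤ} {ω : (Fin (u + 1) → Bool) → MvPolynomial (Fin n) K}
    (h : HomK i e ω) : HomK i e (fun c : Fin u → Bool => ω (Fin.cons false c)) := by
  intro c hc
  obtain ⟨hw, m, hm, hh⟩ := h _ hc
  rw [wt_cons] at hw
  refine ⟨?_, m, hm, hh⟩
  push_cast at hw
  simpa using hw

theorem HomK.mk_cons {u : ℕ} {i e : ℤ} {ω : (Fin (u + 1) → Bool) → MvPolynomial (Fin n) K}
    (h1 : HomK (i - 1) e (fun c : Fin u → Bool => ω (Fin.cons true c)))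
    (h2 : HomK i e (fun c : Fin u → Bool => ω (Fin.cons false c))) : HomK i e ω := by
  intro b
  refine cons_cases (P := fun b => ω b ≠ 0 → (wt b : ℤ) = i ∧ ∃ m : ℕ, (m : ℤ) = e ∧
    (ω b).IsHomogeneous m) ?_ b
  intro t c hc
  cases t
  · obtain ⟨hw, m, hm, hh⟩ := h2 c hc
    refine ⟨?_, m, hm, hh⟩
    rw [wt_cons]
    push_cast
    simpa using hw
  · obtain ⟨hw, m, hm, hh⟩ := h1 c hc
    refine ⟨?_, m, hm, hh⟩
    rw [wt_cons]
    push_cast
    simp only [if_true]
    linarith

theorem HomK.kd {u : ℕ} {x : Fin u → MvPolynomial (Fin n) K} (hx : ∀ i, (x i).IsHomogeneous 1)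
    {i e : ℤ} {ω : (Fin u → Bool) → MvPolynomial (Fin n) K} (h : HomK i e ω) :
    HomK (i + 1) (e + 1) (kd u x ω) := by
  induction u generalizing i with
  | zero => intro b hb; exact absurd rfl hb
  | succ u ih =>
    apply HomK.mk_cons
    · have h1 := ih (x := Fin.tail x) (fun i => hx _) h.cons_true
      have h2 := h.cons_false.mul (hx 0)
      have e1 : i - 1 + 1 = i := by ring
      have e2 : i + 1 - 1 = i := by ring
      rw [e1] at h1
      rw [e2]
      have h3 := h2.sub h1
      simp only [kd_true]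
      exact_mod_cast h3
    · simp only [kd_false]
      exact ih (x := Fin.tail x) (fun i => hx _) h.cons_false

/-- if the exterior degree is negative the cochain vanishes -/
theorem HomK.eq_zero_of_neg {u : ℕ} {i e : ℤ} {ω : (Fin u → Bool) → MvPolynomial (Fin n) K}
    (h : HomK i e ω) (hi : i < 0 ∨ e < 0) : ω = fun _ => 0 := by
  funext b
  by_contra hb
  obtain ⟨hw, m, hm, _⟩ := h b hb
  rcases hi with hi | hi <;> omega

theorem hc_mul {D : ℕ} {w : MvPolynomial (Fin n) K} (hw : w.IsHomogeneous D)
    (b : MvPolynomial (Fin n) K) (e : ℕ) :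
    homogeneousComponent e (b * w)
      = if D ≤ e then homogeneousComponent (e - D) b * w else 0 := by
  have h1 : b * w = ∑ i ∈ Finset.range (b.totalDegree + 1), homogeneousComponent i b * w := by
    rw [← Finset.sum_mul, sum_homogeneousComponent]
  have h2 : ∀ i, homogeneousComponent e (homogeneousComponent i b * w)
      = if i + D = e then homogeneousComponent i b * w else 0 := by
    intro i
    have h3 : homogeneousComponent i b * w ∈ homogeneousSubmodule (Fin n) K (i + D) :=
      (homogeneousComponent_isHomogeneous i b).mul hw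
    rw [homogeneousComponent_of_mem h3]
    by_cases h : i + D = e
    · rw [if_pos h, if_pos h.symm]
    · rw [if_neg h, if_neg (Ne.symm h)]
  rw [h1, map_sum, Finset.sum_congr rfl fun i _ => h2 i]
  split_ifs with hDe
  · by_cases hb : e - D ≤ b.totalDegree
    · rw [Finset.sum_eq_single (e - D)]
      · rw [if_pos (by omega)]
      · intro i _ hi
        rw [if_neg (by omega)]
      · intro h
        exact absurd (Finset.mem_range.2 (by omega)) h
    · rw [homogeneousComponent_eq_zero _ _ (by omega), zero_mul]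
      apply Finset.sum_eq_zero
      intro i hi
      rw [Finset.mem_range] at hi
      rw [if_neg (by omega)]
  · apply Finset.sum_eq_zero
    intro i _
    rw [if_neg (by omega)]

/-- homogeneous extraction -/
theorem extract {J : Ideal (MvPolynomial (Fin n) K)} (hJ : HI J) {D : ℕ}
    {w g : MvPolynomial (Fin n) K} (hw : w.IsHomogeneous D) {e : ℕ} (hg : g.IsHomogeneous e)
    (h : g ∈ J ⊔ Ideal.span {w}) :
    ∃ b : MvPolynomial (Fin n) K, (b ≠ 0 → D ≤ e ∧ b.IsHomogeneous (e - D)) ∧ g - w * b ∈ J := by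
  obtain ⟨j, hj, y, hy, rfl⟩ := Submodule.mem_sup.1 h
  obtain ⟨b, rfl⟩ := Ideal.mem_span_singleton'.1 hy
  by_cases hDe : D ≤ e
  · refine ⟨homogeneousComponent (e - D) b, fun _ => ⟨hDe, homogeneousComponent_isHomogeneous _ _⟩, ?_⟩
    have h1 : homogeneousComponent e (j + b * w) = j + b * w := by
      rw [homogeneousComponent_of_mem hg]
      simp
    have h2 : homogeneousComponent e (b * w) = homogeneousComponent (e - D) b * w := by
      rw [hc_mul hw, if_pos hDe]
    rw [map_add, h2] at h1
    have h3 : j + b * w - w * homogeneousComponent (e - D) b = homogeneousComponent e j := by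
      rw [← h1]
      ring
    rw [h3]
    exact hJ j hj e
  · refine ⟨0, fun h => absurd rfl h, ?_⟩
    rw [mul_zero, sub_zero]
    have h1 : homogeneousComponent e (j + b * w) = j + b * w := by
      rw [homogeneousComponent_of_mem hg]
      simp
    have h2 : homogeneousComponent e (b * w) = 0 := by
      rw [hc_mul hw, if_neg hDe]
    rw [map_add, h2, add_zero] at h1
    rw [← h1]
    exact hJ j hj e

end Hom

end Pool.Agent.EGH2
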