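import Pool.Agent.EGH2.E01

/-!
# More basics: ideals `pI`, homogeneous ideals, extraction for cochains, anticommutation
-/

set_option autoImplicit false

namespace Pool.Agent.EGH2

open MvPolynomial

section Ring

variable {A : Type} [CommRing A]

theorem kd_add_left (u : ℕ) (x y : Fin u → A) (ω : (Fin u → Bool) → A) :
    kd u (fun i => x i + y i) ω = fun b => kd u x ω b + kd u y ω b := by
  induction u with
  | zero => funext b; simp [kd]
  | succ u ih =>
    funext b
    refine cons_cases (P := fun b => kd (u + 1) (fun i => x i + y i) ω b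
      = kd (u + 1) x ω b + kd (u + 1) y ω b) ?_ b
    intro t c
    cases t
    · rw [kd_false, kd_false, kd_false]
      exact congrFun (ih (Fin.tail x) (Fin.tail y) _) c
    · rw [kd_true, kd_true, kd_true]
      have := congrFun (ih (Fin.tail x) (Fin.tail y) (fun c => ω (Fin.cons true c))) c
      have h2 : kd u (Fin.tail fun i => x i + y i) (fun c => ω (Fin.cons true c)) c
        = kd u (fun i => Fin.tail x i + Fin.tail y i) (fun c => ω (Fin.cons true c)) c := rfl
      rw [h2, this]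
      ring

theorem kd_mul_left (u : ℕ) (a : A) (x : Fin u → A) (ω : (Fin u → Bool) → A) :
    kd u (fun i => a * x i) ω = fun b => a * kd u x ω b := by
  induction u with
  | zero => funext b; simp [kd]
  | succ u ih =>
    funext b
    refine cons_cases (P := fun b => kd (u + 1) (fun i => a * x i) ω b
      = a * kd (u + 1) x ω b) ?_ b
    intro t c
    cases t
    · rw [kd_false, kd_false]
      exact congrFun (ih (Fin.tail x) _) c
    · rw [kd_true, kd_true]
      have := congrFun (ih (Fin.tail x) (fun c => ω (Fin.cons true c))) c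
      have h2 : kd u (Fin.tail fun i => a * x i) (fun c => ω (Fin.cons true c)) c
        = kd u (fun i => a * Fin.tail x i) (fun c => ω (Fin.cons true c)) c := rfl
      rw [h2, this]
      ring

/-- the Koszul differentials of two families anticommute -/
theorem kd_anti (u : ℕ) (x y : Fin u → A) (ω : (Fin u → Bool) → A) (b : Fin u → Bool) :
    kd u x (kd u y ω) b = - kd u y (kd u x ω) b := by
  have h := congrFun (kd_kd u (fun i => x i + y i) ω) b
  rw [kd_add_left u x y ω, kd_add] at h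
  have h1 := congrFun (kd_add_left u x y (kd u x ω)) b
  have h2 := congrFun (kd_add_left u x y (kd u y ω)) b
  have h3 := congrFun (kd_kd u x ω) b
  have h4 := congrFun (kd_kd u y ω) b
  simp only at h h1 h2 h3 h4
  rw [h1, h2, h3, h4] at h
  have h5 : kd u x (kd u y ω) b + kd u y (kd u x ω) b = 0 := by
    rw [← h]; ring
  exact eq_neg_of_add_eq_zero_left h5

theorem pI_zero {c : ℕ} (f : Fin c → A) : pI f 0 = ⊥ := by
  unfold pI
  rw [Ideal.span_eq_bot]
  rintro g ⟨i, hi, _⟩
  exact absurd hi (Nat.not_lt_zero _)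

theorem pI_mono {c : ℕ} (f : Fin c → A) {k l : ℕ} (h : k ≤ l) : pI f k ≤ pI f l := by
  apply Ideal.span_mono
  rintro g ⟨i, hi, rfl⟩
  exact ⟨i, lt_of_lt_of_le hi h, rfl⟩

theorem mem_pI {c : ℕ} (f : Fin c → A) (i : Fin c) {k : ℕ} (h : i.val < k) : f i ∈ pI f k :=
  Ideal.subset_span ⟨i, h, rfl⟩

theorem pI_le {c : ℕ} {f : Fin c → A} {k : ℕ} {J : Ideal A} (h : ∀ i : Fin c, i.val < k → f i ∈ J) :
    pI f k ≤ J := by
  rw [pI, Ideal.span_le]
  rintro g ⟨i, hi, rfl⟩
  exact h i hi

theorem pI_succ {c : ℕ} (f : Fin c → A) {k : ℕ} (hk : k < c) :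
    pI f (k + 1) = pI f k ⊔ Ideal.span {f ⟨k, hk⟩} := by
  apply le_antisymm
  · apply pI_le
    intro i hi
    rcases Nat.lt_succ_iff_lt_or_eq.1 hi with h | h
    · exact Ideal.mem_sup_left (mem_pI f i h)
    · apply Ideal.mem_sup_right
      have : i = ⟨k, hk⟩ := Fin.ext h
      rw [this]
      exact Ideal.mem_span_singleton_self _
  · apply sup_le (pI_mono f (Nat.le_succ k))
    rw [Ideal.span_le]
    rintro g hg
    rw [Set.mem_singleton_iff] at hg
    rw [hg]
    exact mem_pI f ⟨k, hk⟩ (Nat.lt_succ_self k)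

theorem pI_eq_range {c : ℕ} (f : Fin c → A) : pI f c = Ideal.span (Set.range f) := by
  apply le_antisymm
  · exact pI_le fun i _ => Ideal.subset_span ⟨i, rfl⟩
  · rw [Ideal.span_le]
    rintro _ ⟨i, rfl⟩
    exact mem_pI f i i.isLt

end Ring

section Hom

variable {K : Type} [Field K] {n : ℕ}

theorem HI_bot : HI (⊥ : Ideal (MvPolynomial (Fin n) K)) := by
  intro g hg e
  rw [Ideal.mem_bot] at hg ⊢
  rw [hg, map_zero]

theorem HI_sup_span {J : Ideal (MvPolynomial (Fin n) K)} (hJ : HI J) {D : ℕ}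
    {w : MvPolynomial (Fin n) K} (hw : w.IsHomogeneous D) : HI (J ⊔ Ideal.span {w}) := by
  intro g hg e
  obtain ⟨j, hj, y, hy, rfl⟩ := Submodule.mem_sup.1 hg
  obtain ⟨b, rfl⟩ := Ideal.mem_span_singleton'.1 hy
  rw [map_add, hc_mul hw]
  apply Ideal.add_mem
  · exact Ideal.mem_sup_left (hJ j hj e)
  · split_ifs
    · exact Ideal.mem_sup_right (Ideal.mem_span_singleton'.2 ⟨_, rfl⟩)
    · exact Ideal.zero_mem _

theorem HI_pI {s : ℕ → ℕ} {c : ℕ} {f : Fin c → MvPolynomial (Fin n) K}
    (hf : ∀ i : Fin c, (f i).IsHomogeneous (s i.val + 1)) (k : ℕ) (hk : k ≤ c) : HI (pI f k) := by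
  induction k with
  | zero => rw [pI_zero]; exact HI_bot
  | succ k ih =>
    rw [pI_succ f hk]
    exact HI_sup_span (ih (by omega)) (hf ⟨k, hk⟩)

/-- homogeneous extraction for cochains -/
theorem extractK {J : Ideal (MvPolynomial (Fin n) K)} (hJ : HI J) {D : ℕ}
    {w : MvPolynomial (Fin n) K} (hw : w.IsHomogeneous D) {u : ℕ} {i e : ℤ}
    {ω : (Fin u → Bool) → MvPolynomial (Fin n) K} (hω : HomK i e ω)
    (h : ∀ b, ω b ∈ J ⊔ Ideal.span {w}) :
    ∃ β : (Fin u → Bool) → MvPolynomial (Fin n) K, HomK i (e - D) β ∧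
      ∀ b, ω b - w * β b ∈ J := by
  classical
  have key : ∀ b, ∃ β : MvPolynomial (Fin n) K,
      (β ≠ 0 → (wt b : ℤ) = i ∧ ∃ m : ℕ, (m : ℤ) = e - D ∧ β.IsHomogeneous m) ∧
      ω b - w * β ∈ J := by
    intro b
    by_cases hb : ω b = 0
    · refine ⟨0, fun h => absurd rfl h, ?_⟩
      rw [hb, mul_zero, sub_zero]
      exact J.zero_mem
    · obtain ⟨hw1, m, hm, hh⟩ := hω b hb
      obtain ⟨β, hβ, hβ2⟩ := extract hJ hw hh (h b)
      refine ⟨β, fun h0 => ⟨hw1, m - D, ?_, (hβ h0).2⟩, hβ2⟩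
      have := (hβ h0).1
      push_cast [this]
      rw [hm]
  choose β h1 h2 using key
  exact ⟨β, h1, h2⟩

end Hom

end Pool.Agent.EGH2
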