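import Mathlib

/-!
# Relative eigenvector lemma

PROOF of `eigen_rel`: Let `X' = X ⧸ B` (a finite dimensional nonzero space) and `Q = M ⧸ Y`.
`α, β` induce `α', β' : X' → Q` (`hαB`, `hβB`), `β'` is injective (`hinj`) and `range α' ≤ range β'`
(`hsurj`).  So `T = β'⁻¹ ∘ α' : X' → X'` (`LinearEquiv.ofInjective β'`, `codRestrict`) is an endomorphism of
a nontrivial finite dimensional space over an algebraically closed field and has an eigenvalue
(`Module.End.exists_eigenvalue`) with eigenvector `v`, `α' v = λ β' v`; lift `v` to `x ∈ X`.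

-/

set_option autoImplicit false

namespace Pool.Agent.EGH2

theorem eigen_rel {K : Type} [Field K] [IsAlgClosed K] {M : Type} [AddCommGroup M] [Module K M]
    (X B Y : Submodule K M) [FiniteDimensional K X] (α β : M →ₗ[K] M) (hBX : B ≤ X)
    (hαB : ∀ x ∈ B, α x ∈ Y) (hβB : ∀ x ∈ B, β x ∈ Y)
    (hinj : ∀ x ∈ X, β x ∈ Y → x ∈ B) (hsurj : ∀ x ∈ X, ∃ y ∈ X, α x - β y ∈ Y)
    (hne : ∃ x ∈ X, x ∉ B) : ∃ x ∈ X, x ∉ B ∧ ∃ t : K, α x - t • β x ∈ Y := by
  classical
  set B' : Submodule K X := B.comap X.subtype with hB'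
  have ha : B' ≤ LinearMap.ker (Y.mkQ ∘ₗ α ∘ₗ X.subtype) := by
    intro x hx
    rw [LinearMap.mem_ker, LinearMap.comp_apply, LinearMap.comp_apply, Submodule.mkQ_apply,
      Submodule.Quotient.mk_eq_zero]
    exact hαB _ hx
  have hb : B' ≤ LinearMap.ker (Y.mkQ ∘ₗ β ∘ₗ X.subtype) := by
    intro x hx
    rw [LinearMap.mem_ker, LinearMap.comp_apply, LinearMap.comp_apply, Submodule.mkQ_apply,
      Submodule.Quotient.mk_eq_zero]
    exact hβB _ hx
  set α' : (X ⧸ B') →ₗ[K] (M ⧸ Y) := B'.liftQ _ ha with hα'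
  set β' : (X ⧸ B') →ₗ[K] (M ⧸ Y) := B'.liftQ _ hb with hβ'
  have hα'm : ∀ x : X, α' (B'.mkQ x) = Y.mkQ (α x) := fun x => rfl
  have hβ'm : ∀ x : X, β' (B'.mkQ x) = Y.mkQ (β x) := fun x => rfl
  have hβi : Function.Injective β' := by
    rw [← LinearMap.ker_eq_bot, LinearMap.ker_eq_bot']
    intro v hv
    obtain ⟨x, rfl⟩ := Submodule.mkQ_surjective B' v
    rw [hβ'm, Submodule.mkQ_apply, Submodule.Quotient.mk_eq_zero] at hv
    rw [Submodule.mkQ_apply, Submodule.Quotient.mk_eq_zero]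
    exact hinj _ x.2 hv
  have hr : ∀ v, α' v ∈ LinearMap.range β' := by
    intro v
    obtain ⟨x, rfl⟩ := Submodule.mkQ_surjective B' v
    obtain ⟨y, hy, hxy⟩ := hsurj _ x.2
    refine ⟨B'.mkQ ⟨y, hy⟩, ?_⟩
    rw [hα'm, hβ'm]
    have h1 : Y.mkQ (α x - β y) = 0 := by
      rw [Submodule.mkQ_apply, Submodule.Quotient.mk_eq_zero]
      exact hxy
    rw [map_sub, sub_eq_zero] at h1
    exact h1.symm
  let e := LinearEquiv.ofInjective β' hβi
  let T : Module.End K (X ⧸ B') := e.symm.toLinearMap ∘ₗ (α'.codRestrict (LinearMap.range β') hr)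
  have hT : ∀ v, β' (T v) = α' v := by
    intro v
    have h1 : e (T v) = α'.codRestrict (LinearMap.range β') hr v := by
      simp only [T, LinearMap.comp_apply, LinearEquiv.coe_coe, LinearEquiv.apply_symm_apply]
    have h2 := congrArg Subtype.val h1
    simpa [e] using h2
  have hnt : Nontrivial (X ⧸ B') := by
    obtain ⟨x, hx, hxB⟩ := hne
    refine ⟨⟨B'.mkQ ⟨x, hx⟩, 0, ?_⟩⟩
    rw [Submodule.mkQ_apply, Ne, Submodule.Quotient.mk_eq_zero]
    exact hxB
  obtain ⟨t, ht⟩ := Module.End.exists_eigenvalue T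
  obtain ⟨v, hv⟩ := ht.exists_hasEigenvector
  obtain ⟨x, rfl⟩ := Submodule.mkQ_surjective B' v
  refine ⟨x, x.2, ?_, t, ?_⟩
  · intro hxB
    apply hv.2
    rw [Submodule.mkQ_apply, Submodule.Quotient.mk_eq_zero]
    exact hxB
  · have h1 := hv.apply_eq_smul
    have h2 := hT (B'.mkQ x)
    rw [h1, map_smul, hα'm, hβ'm] at h2
    have h3 : Y.mkQ (α x - t • β x) = 0 := by
      rw [map_sub, map_smul, ← h2, sub_self]
    rwa [Submodule.mkQ_apply, Submodule.Quotient.mk_eq_zero] at h3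

end Pool.Agent.EGH2
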