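import Pool.Agent.EGH2.Eig

/-!
# The abstract exactness lemma (Aramova–Avramov–Herzog / BGG in elementary form)

PROOF of `ext_inj`: induction on `a`, in the uniform form `ExtA_aux` (degree `0` is treated as the other
degrees, with `C (i-1)` replaced by `ExtA_Cp C i`, which is `⊥` for `i = 0`).
-/

set_option autoImplicit false

namespace Pool.Agent.EGH2

/-- The shifted family: `⊥` in degree `0` and `C i` in degree `i + 1`. -/
def ExtA_Cp {K : Type} [Field K] {M : Type} [AddCommGroup M] [Module K M]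
    (C : ℕ → Submodule K M) : ℕ → Submodule K M
  | 0 => ⊥
  | i + 1 => C i

theorem ExtA_dCp {K : Type} [Field K] {M : Type} [AddCommGroup M] [Module K M]
    {C : ℕ → Submodule K M} (f : M →ₗ[K] M) (hf : ∀ i, ∀ x ∈ C i, f x ∈ C (i + 1)) (i : ℕ) (x : M)
    (hx : x ∈ ExtA_Cp C i) : f x ∈ C i := by
  cases i with
  | zero =>
    have h0 : x = 0 := by simpa [ExtA_Cp] using hx
    rw [h0, map_zero]
    exact Submodule.zero_mem _
  | succ i => exact hf i x hx

/-- The inductive step for exactness in a fixed degree. -/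
theorem ExtA_step {K : Type} [Field K] [IsAlgClosed K] {M : Type} [AddCommGroup M] [Module K M]
    (C N : ℕ → Submodule K M) (D E : M →ₗ[K] M)
    (hfin : ∀ i, FiniteDimensional K (C i)) (hNC : ∀ i, N i ≤ C i)
    (hED : ∀ x, E (D x) = - D (E x)) (hEE : ∀ x, E (E x) = 0) (hDD : ∀ x, D (D x) = 0)
    (hCD : ∀ i, ∀ x ∈ C i, D x ∈ C (i + 1)) (hCE : ∀ i, ∀ x ∈ C i, E x ∈ C (i + 1))
    (hND : ∀ i, ∀ x ∈ N i, D x ∈ N (i + 1)) (hNE : ∀ i, ∀ x ∈ N i, E x ∈ N (i + 1))
    (i : ℕ)
    (hD0 : ∀ x ∈ C i, D x ∈ N (i + 1) → ∃ y ∈ ExtA_Cp C i, x - D y ∈ N i)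
    (hD1 : ∀ x ∈ C (i + 1), D x ∈ N (i + 2) → ∃ y ∈ C i, x - D y ∈ N (i + 1))
    (ht : ∀ t : K, ∀ x ∈ C i, E x - t • D x ∈ N (i + 1) →
      ∃ y ∈ ExtA_Cp C i, x - (E y - t • D y) ∈ N i)
    (x : M) (hx : x ∈ C i) (hEx : E x ∈ N (i + 1) ⊔ (C i).map D) :
    ∃ y ∈ ExtA_Cp C i, x - E y ∈ N i ⊔ (ExtA_Cp C i).map D := by
  classical
  set X : Submodule K M := C i ⊓ (N (i + 1) ⊔ (C i).map D).comap E with hX
  set B : Submodule K M := N i ⊔ (ExtA_Cp C i).map D ⊔ (ExtA_Cp C i).map E with hB
  set Y : Submodule K M := N (i + 1) ⊔ (ExtA_Cp C i).map (D ∘ₗ E) with hY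
  have hDCp := ExtA_dCp D hCD i
  have hECp := ExtA_dCp E hCE i
  have hfX : FiniteDimensional K X := by
    have := hfin i
    exact Submodule.finiteDimensional_of_le (inf_le_left : X ≤ C i)
  have memX : ∀ z, z ∈ X ↔ z ∈ C i ∧ E z ∈ N (i + 1) ⊔ (C i).map D := by
    intro z
    rw [hX, Submodule.mem_inf, Submodule.mem_comap]
  have memB : ∀ z, z ∈ B ↔ ∃ n ∈ N i, ∃ g ∈ ExtA_Cp C i, ∃ h ∈ ExtA_Cp C i, n + D g + E h = z := by
    intro z
    rw [hB]
    constructor
    · intro hz
      obtain ⟨u, hu, v, hv, huv⟩ := Submodule.mem_sup.1 hz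
      obtain ⟨n, hn, w, hw, hnw⟩ := Submodule.mem_sup.1 hu
      obtain ⟨g, hg, hgw⟩ := Submodule.mem_map.1 hw
      obtain ⟨h, hh, hhv⟩ := Submodule.mem_map.1 hv
      exact ⟨n, hn, g, hg, h, hh, by rw [hgw, hhv, hnw, huv]⟩
    · rintro ⟨n, hn, g, hg, h, hh, rfl⟩
      exact Submodule.add_mem_sup (Submodule.add_mem_sup hn (Submodule.mem_map_of_mem hg))
        (Submodule.mem_map_of_mem hh)
  have memY : ∀ z, z ∈ Y ↔ ∃ n ∈ N (i + 1), ∃ g ∈ ExtA_Cp C i, n + D (E g) = z := by
    intro z
    rw [hY]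
    constructor
    · intro hz
      obtain ⟨n, hn, v, hv, huv⟩ := Submodule.mem_sup.1 hz
      obtain ⟨g, hg, hgv⟩ := Submodule.mem_map.1 hv
      exact ⟨n, hn, g, hg, by rw [← huv, ← hgv, LinearMap.comp_apply]⟩
    · rintro ⟨n, hn, g, hg, rfl⟩
      exact Submodule.add_mem_sup hn ⟨g, hg, rfl⟩
  have hBX : B ≤ X := by
    intro z hz
    obtain ⟨n, hn, g, hg, h, hh, rfl⟩ := (memB z).1 hz
    rw [memX]
    refine ⟨Submodule.add_mem _ (Submodule.add_mem _ (hNC i hn) (hDCp g hg)) (hECp h hh), ?_⟩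
    rw [map_add, map_add, hED, hEE, add_zero]
    refine Submodule.add_mem_sup (hNE i n hn) ?_
    exact Submodule.neg_mem _ (Submodule.mem_map_of_mem (hECp g hg))
  have hαB : ∀ z ∈ B, E z ∈ Y := by
    intro z hz
    obtain ⟨n, hn, g, hg, h, hh, rfl⟩ := (memB z).1 hz
    rw [memY]
    refine ⟨E n, hNE i n hn, -g, Submodule.neg_mem _ hg, ?_⟩
    rw [map_add, map_add, hED, hEE, map_neg, map_neg, add_zero]
  have hβB : ∀ z ∈ B, D z ∈ Y := by
    intro z hz
    obtain ⟨n, hn, g, hg, h, hh, rfl⟩ := (memB z).1 hz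
    rw [memY]
    refine ⟨D n, hND i n hn, h, hh, ?_⟩
    rw [map_add, map_add, hDD, add_zero]
  have hinj : ∀ z ∈ X, D z ∈ Y → z ∈ B := by
    intro z hz hDz
    obtain ⟨n, hn, g, hg, hng⟩ := (memY _).1 hDz
    have hzC := ((memX z).1 hz).1
    obtain ⟨y, hy, hyn⟩ := hD0 (z - E g) (Submodule.sub_mem _ hzC (hECp g hg)) (by
      rw [map_sub, ← hng]
      simpa using hn)
    rw [memB]
    exact ⟨_, hyn, y, hy, g, hg, by abel⟩
  have hsurj : ∀ z ∈ X, ∃ y ∈ X, E z - D y ∈ Y := by
    intro z hz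
    obtain ⟨hzC, hz2⟩ := (memX z).1 hz
    obtain ⟨n, hn, w, hw, hnw⟩ := Submodule.mem_sup.1 hz2
    obtain ⟨y, hy, hyw⟩ := Submodule.mem_map.1 hw
    subst hyw
    have h1 : D (E y) = E n := by
      have h2 : E (E z) = E n + E (D y) := by rw [← hnw, map_add]
      rw [hEE, hED] at h2
      have h3 : E n = D (E y) := by
        have := h2.symm
        rwa [add_neg_eq_zero] at this
      exact h3.symm
    obtain ⟨u, hu, hun⟩ := hD1 (E y) (hCE i y hy) (by
      rw [h1]
      exact hNE (i + 1) n hn)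
    refine ⟨y, (memX y).2 ⟨hy, ?_⟩, ?_⟩
    · have : E y = (E y - D u) + D u := by abel
      rw [this]
      exact Submodule.add_mem_sup hun (Submodule.mem_map_of_mem hu)
    · rw [memY]
      refine ⟨n, hn, 0, Submodule.zero_mem _, ?_⟩
      rw [← hnw]
      simp
  by_cases hne : ∃ z ∈ X, z ∉ B
  · exfalso
    obtain ⟨z, hz, hzB, t, hzt⟩ := eigen_rel X B Y E D hBX hαB hβB hinj hsurj hne
    obtain ⟨n, hn, g, hg, hng⟩ := (memY _).1 hzt
    have hzC := ((memX z).1 hz).1
    obtain ⟨y, hy, hyn⟩ := ht t (z + D g) (Submodule.add_mem _ hzC (hDCp g hg)) (by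
      have h1 : E (z + D g) - t • D (z + D g) = n := by
        rw [map_add, map_add, hDD, hED, add_zero]
        have h2 : E z - t • D z = n + D (E g) := hng.symm
        have h3 : E z + -D (E g) - t • D z = (E z - t • D z) - D (E g) := by abel
        rw [h3, h2]
        abel
      rw [h1]
      exact hn)
    apply hzB
    rw [memB]
    refine ⟨_, hyn, -g - t • y, ?_, y, hy, ?_⟩
    · exact Submodule.sub_mem _ (Submodule.neg_mem _ hg) (Submodule.smul_mem _ _ hy)
    · rw [map_sub, map_neg, map_smul]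
      abel
  · have hxB : x ∈ B := by
      by_contra hxB
      exact hne ⟨x, (memX x).2 ⟨hx, hEx⟩, hxB⟩
    obtain ⟨n, hn, g, hg, h, hh, hsum⟩ := (memB x).1 hxB
    refine ⟨h, hh, ?_⟩
    have : x - E h = n + D g := by
      rw [← hsum]
      abel
    rw [this]
    exact Submodule.add_mem_sup hn (Submodule.mem_map_of_mem hg)

/-- The square of a combination of anticommuting square-zero maps is zero. -/
theorem ExtA_sq {K : Type} [Field K] {M : Type} [AddCommGroup M] [Module K M]
    (a : ℕ) (d : Fin a → M →ₗ[K] M) (hanti : ∀ k l x, d k (d l x) = - d l (d k x))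
    (hsq : ∀ k x, d k (d k x) = 0) (ξ : Fin a → K) (x : M) :
    ∑ k, ξ k • d k (∑ l, ξ l • d l x) = 0 := by
  induction a with
  | zero => simp
  | succ a ih =>
    have h1 := ih (fun k : Fin a => d k.succ) (fun k l x => hanti _ _ _) (fun k x => hsq _ _)
      (fun k : Fin a => ξ k.succ)
    simp only [Fin.sum_univ_succ, map_add, map_smul, smul_add, Finset.sum_add_distrib] at h1 ⊢
    rw [h1, hsq]
    have h2 : ∀ k : Fin a, ξ k.succ • ξ 0 • d k.succ (d 0 x) =
        - (ξ 0 • ξ k.succ • d 0 (d k.succ x)) := by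
      intro k
      rw [hanti k.succ 0 x, smul_neg, smul_neg, smul_comm]
    rw [Finset.sum_congr rfl fun k _ => h2 k, Finset.sum_neg_distrib, map_sum, Finset.smul_sum]
    simp only [map_smul, smul_zero, zero_add, add_zero]
    exact neg_add_cancel _

theorem ExtA_aux {K : Type} [Field K] [IsAlgClosed K] {M : Type} [AddCommGroup M] [Module K M]
    (C : ℕ → Submodule K M) (hfin : ∀ i, FiniteDimensional K (C i)) :
    ∀ (a : ℕ) (d : Fin a → M →ₗ[K] M) (_ : ∀ k l x, d k (d l x) = - d l (d k x))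
    (_ : ∀ k x, d k (d k x) = 0) (N : ℕ → Submodule K M) (_ : ∀ i, N i ≤ C i)
    (_ : ∀ i k, ∀ x ∈ C i, d k x ∈ C (i + 1)) (_ : ∀ i k, ∀ x ∈ N i, d k x ∈ N (i + 1))
    (_ : ∀ ξ : Fin a → K, ξ ≠ 0 → ∀ i, i < a → ∀ x ∈ C i,
      (∑ k, ξ k • d k x) ∈ N (i + 1) → ∃ y ∈ ExtA_Cp C i, x - ∑ k, ξ k • d k y ∈ N i)
    (p : Fin a → M) (_ : ∀ k, p k ∈ C 0) (_ : ∑ k, d k (p k) ∈ N 1), ∀ k, p k ∈ N 0 := by
  intro a
  induction a with
  | zero => intro d _ _ N _ _ _ _ p _ _ k; exact k.elim0
  | succ a ih =>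
    intro d hanti hsq N hNC hC hN hex p hp h
    set N' : ℕ → Submodule K M := fun i => N i ⊔ (ExtA_Cp C i).map (d 0) with hN'
    have hdC : ∀ i, ∀ x ∈ C i, d 0 x ∈ C (i + 1) := fun i x hx => hC i 0 x hx
    -- exactness of `d 0`
    have hD : ∀ i, i < a + 1 → ∀ x ∈ C i, d 0 x ∈ N (i + 1) →
        ∃ y ∈ ExtA_Cp C i, x - d 0 y ∈ N i := by
      intro i hi x hx hdx
      have hsum : ∀ z, ∑ k : Fin (a + 1), (Fin.cons 1 0 : Fin (a + 1) → K) k • d k z = d 0 z := by
        intro z
        rw [Fin.sum_univ_succ]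
        simp
      obtain ⟨y, hy, hyn⟩ := hex (Fin.cons 1 0 : Fin (a + 1) → K)
        (by
          intro h0
          have := congrFun h0 0
          simp at this) i hi x hx (by rw [hsum]; exact hdx)
      refine ⟨y, hy, ?_⟩
      rwa [hsum] at hyn
    have key : ∀ k : Fin a, p k.succ ∈ N 0 := by
      have h3 := ih (fun k : Fin a => d k.succ) (fun k l x => hanti _ _ _) (fun k x => hsq _ _) N'
        (by
          intro i
          apply sup_le (hNC i)
          rintro _ ⟨g, hg, rfl⟩
          exact ExtA_dCp (d 0) hdC i g hg)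
        (fun i (k : Fin a) x hx => hC i k.succ x hx)
        (by
          intro i (k : Fin a) x hx
          obtain ⟨n, hn, w, hw, hnw⟩ := Submodule.mem_sup.1 hx
          obtain ⟨g, hg, hgw⟩ := Submodule.mem_map.1 hw
          subst hgw
          rw [← hnw, map_add]
          refine Submodule.add_mem_sup (hN i k.succ n hn) ?_
          rw [hanti]
          exact Submodule.neg_mem _ (Submodule.mem_map_of_mem
            (ExtA_dCp (d k.succ) (fun i x hx => hC i (k.succ) x hx) i g hg)))
        (by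
          intro ξ hξ i hi x hx hEx
          set E : M →ₗ[K] M := ∑ k : Fin a, ξ k • d k.succ with hE
          have hEa : ∀ z, ∑ k : Fin a, ξ k • d k.succ z = E z := by
            intro z
            rw [hE, LinearMap.sum_apply]
            rfl
          have hsum : ∀ (t : K) (z : M), ∑ k : Fin (a + 1), (Fin.cons (-t) ξ : Fin (a + 1) → K) k •
              d k z = E z - t • d 0 z := by
            intro t z
            rw [Fin.sum_univ_succ]
            simp only [Fin.cons_zero, Fin.cons_succ]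
            rw [hEa, neg_smul]
            abel
          have hstep := ExtA_step C N (d 0) E hfin hNC
            (by
              intro z
              rw [← hEa, ← hEa, map_sum, ← Finset.sum_neg_distrib]
              refine Finset.sum_congr rfl fun k _ => ?_
              rw [hanti, map_smul, smul_neg])
            (by
              intro z
              have := ExtA_sq a (fun k : Fin a => d k.succ) (fun k l x => hanti _ _ _)
                (fun k x => hsq _ _) ξ z
              simpa only [hEa] using this)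
            (hsq 0) hdC
            (by
              intro j z hz
              rw [← hEa]
              exact Submodule.sum_mem _ fun k _ => Submodule.smul_mem _ _ (hC j k.succ z hz))
            (fun j z hz => hN j 0 z hz)
            (by
              intro j z hz
              rw [← hEa]
              exact Submodule.sum_mem _ fun k _ => Submodule.smul_mem _ _ (hN j k.succ z hz))
            i (hD i (by omega))
            (fun z hz hdz => hD (i + 1) (by omega) z hz hdz)
            (by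
              intro t z hz hzt
              obtain ⟨y, hy, hyn⟩ := hex (Fin.cons (-t) ξ : Fin (a + 1) → K)
                (by
                  intro h0
                  apply hξ
                  funext k
                  have := congrFun h0 k.succ
                  simpa using this) i (by omega) z hz (by rw [hsum]; exact hzt)
              refine ⟨y, hy, ?_⟩
              rwa [hsum] at hyn)
            x hx
            (by
              rw [← hEa]
              exact hEx)
          obtain ⟨y, hy, hyn⟩ := hstep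
          refine ⟨y, hy, ?_⟩
          rw [hEa]
          exact hyn)
        (fun k : Fin a => p k.succ) (fun k => hp _)
        (by
          rw [Fin.sum_univ_succ] at h
          have h4 : ∑ k : Fin a, d k.succ (p k.succ) =
              (d 0 (p 0) + ∑ k : Fin a, d k.succ (p k.succ)) + d 0 (-(p 0)) := by
            rw [map_neg]
            abel
          rw [h4]
          exact Submodule.add_mem_sup h (Submodule.mem_map_of_mem
            (show -(p 0) ∈ ExtA_Cp C 1 from Submodule.neg_mem _ (hp 0))))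
      intro k
      have h5 := h3 k
      have h6 : N' 0 = N 0 := by
        rw [hN']
        simp [ExtA_Cp]
      rwa [h6] at h5
    intro k
    refine Fin.cases ?_ (fun k => key k) k
    have h7 : d 0 (p 0) ∈ N 1 := by
      rw [Fin.sum_univ_succ] at h
      have h8 : ∑ k : Fin a, d k.succ (p k.succ) ∈ N 1 :=
        Submodule.sum_mem _ fun k _ => hN 0 k.succ _ (key k)
      have h9 := Submodule.sub_mem _ h h8
      rwa [add_sub_cancel_right] at h9
    obtain ⟨y, hy, hyn⟩ := hD 0 (by omega) (p 0) (hp 0) h7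
    have hy0 : y = 0 := by simpa [ExtA_Cp] using hy
    rw [hy0, map_zero, sub_zero] at hyn
    exact hyn

theorem ext_inj {K : Type} [Field K] [IsAlgClosed K] {M : Type} [AddCommGroup M] [Module K M]
    (a : ℕ) (d : Fin a → M →ₗ[K] M) (hanti : ∀ k l x, d k (d l x) = - d l (d k x))
    (hsq : ∀ k x, d k (d k x) = 0) (C N : ℕ → Submodule K M)
    (hfin : ∀ i, FiniteDimensional K (C i)) (hNC : ∀ i, N i ≤ C i)
    (hC : ∀ i k, ∀ x ∈ C i, d k x ∈ C (i + 1)) (hN : ∀ i k, ∀ x ∈ N i, d k x ∈ N (i + 1))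
    (hex0 : ∀ ξ : Fin a → K, ξ ≠ 0 → ∀ x ∈ C 0, (∑ k, ξ k • d k x) ∈ N 1 → x ∈ N 0)
    (hex : ∀ ξ : Fin a → K, ξ ≠ 0 → ∀ i, i + 1 < a → ∀ x ∈ C (i + 1),
      (∑ k, ξ k • d k x) ∈ N (i + 2) → ∃ y ∈ C i, x - ∑ k, ξ k • d k y ∈ N (i + 1))
    (p : Fin a → M) (hp : ∀ k, p k ∈ C 0) (h : ∑ k, d k (p k) ∈ N 1) : ∀ k, p k ∈ N 0 := by
  refine ExtA_aux C hfin a d hanti hsq N hNC hC hN ?_ p hp h
  intro ξ hξ i hi x hx hsum
  cases i with
  | zero =>
    refine ⟨0, Submodule.zero_mem _, ?_⟩
    have := hex0 ξ hξ x hx hsum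
    simpa using this
  | succ i => exact hex ξ hξ i hi x hx hsum

end Pool.Agent.EGH2
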