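import Pool.Agent.EGH2.Defs

/-!
# Hilbert function of a monomial ideal

PROOF: the degree `j` part of `I = Ideal.span (monomials of M)` is the `K`-span of the monomials of degree
`j` lying in it: `g ∈ I` iff every `w ∈ g.support` is `≥` some `m ∈ M` (`MvPolynomial.mem_ideal_span_monomial_image`).
So `restrictScalars I ⊓ homogeneousSubmodule` is the set of `g` with support in the finite set on the
right, i.e. `Finsupp.supported K K (↑finset)`, of dimension its cardinality
(`Finsupp.supportedEquivFinsupp`, `Module.finrank_finsupp_self`…).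
-/

set_option autoImplicit false

namespace Pool.Agent.EGH2

open MvPolynomial

open Classical in
theorem hd_mono {K : Type} [Field K] {n : ℕ} (M : Set (Fin n →₀ ℕ)) (j : ℕ) :
    hd (Ideal.span ((fun w => monomial w (1 : K)) '' M)) j
      = ((Finset.finsuppAntidiag (Finset.univ : Finset (Fin n)) j).filter
          (fun w => ∃ m ∈ M, m ≤ w)).card := by
  set F : Finset (Fin n →₀ ℕ) := (Finset.finsuppAntidiag (Finset.univ : Finset (Fin n)) j).filter
    (fun w => ∃ m ∈ M, m ≤ w) with hF
  have hdeg : ∀ w : Fin n →₀ ℕ, w ∈ Finset.finsuppAntidiag (Finset.univ : Finset (Fin n)) j ↔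
      w.degree = j := by
    intro w
    rw [Finset.mem_finsuppAntidiag, Finsupp.degree_eq_sum]
    simp
  have hli : LinearIndependent K (fun w : F => (monomial (w : Fin n →₀ ℕ) (1 : K))) := by
    have h1 := (basisMonomials (Fin n) K).linearIndependent
    have h2 := h1.comp (fun w : F => (w : Fin n →₀ ℕ)) Subtype.val_injective
    have h3 : (fun w : F => (monomial (w : Fin n →₀ ℕ) (1 : K))) =
        (basisMonomials (Fin n) K) ∘ (fun w : F => (w : Fin n →₀ ℕ)) := by
      funext w
      simp [coe_basisMonomials]
    rw [h3]
    exact h2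
  have hspan : (Submodule.restrictScalars K (Ideal.span ((fun w => monomial w (1 : K)) '' M)) ⊓
      homogeneousSubmodule (Fin n) K j : Submodule K (MvPolynomial (Fin n) K)) =
      Submodule.span K (Set.range fun w : F => (monomial (w : Fin n →₀ ℕ) (1 : K))) := by
    apply le_antisymm
    · intro g hg
      rw [Submodule.mem_inf, Submodule.restrictScalars_mem, mem_homogeneousSubmodule] at hg
      obtain ⟨h1, h2⟩ := hg
      rw [mem_ideal_span_monomial_image] at h1
      rw [g.as_sum]
      refine Submodule.sum_mem _ fun w hw => ?_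
      have h3 : monomial w (coeff w g) = coeff w g • monomial w (1 : K) := by
        rw [smul_monomial, smul_eq_mul, mul_one]
      rw [h3]
      refine Submodule.smul_mem _ _ (Submodule.subset_span ⟨⟨w, ?_⟩, rfl⟩)
      rw [hF, Finset.mem_filter]
      refine ⟨(hdeg w).2 ?_, h1 w hw⟩
      have h5 : (Finsupp.weight 1) w = j := h2 (mem_support_iff.1 hw)
      rw [← h5, Finsupp.degree_eq_weight_one]
      rfl
    · rw [Submodule.span_le]
      rintro _ ⟨⟨w, hw⟩, rfl⟩
      rw [hF, Finset.mem_filter] at hw
      rw [SetLike.mem_coe, Submodule.mem_inf, Submodule.restrictScalars_mem,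
        mem_homogeneousSubmodule]
      refine ⟨?_, isHomogeneous_monomial _ ((hdeg w).1 hw.1)⟩
      rw [mem_ideal_span_monomial_image]
      intro x hx
      have h4 : x = w := by
        by_contra hne
        rw [mem_support_iff, coeff_monomial, if_neg (Ne.symm hne)] at hx
        exact hx rfl
      rw [h4]
      exact hw.2
  rw [hd, hspan, finrank_span_eq_card hli, Fintype.card_coe]

end Pool.Agent.EGH2
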