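import Pool.Agent.EGH2.LexDefs
import Pool.Agent.EGH2.MonI

/-!
# The lex ideal of a lex segment

PROOF.  Let `z` be the last index of `Fin n` (`0 < n`) and
`M = {w | ∃ j, ∑ w = d + j ∧ (w = m + single z j ∨ LexGT w (m + single z j))}`,
`L = Ideal.span (monomials of M)`.
* `M` is closed under `w ↦ w + single i 1` : `w + e_i ≥ m + j e_z + e_i ≥ m + (j+1) e_z` (lex order is
  compatible with addition, and `e_i ≥ e_z`).  So the monomials in `L` are exactly those of `M`
  (`mem_ideal_span_monomial_image`).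
* lex closed: `u`, `v` of the same degree, `u > v`, `v ∈ M` gives `u ∈ M` (transitivity of `LexGT`).
* `P = Ideal.span {X_i ^ (s i + 1) : i < c}`; `L + P` is spanned by the monomials of `M` and those with
  some exponent `> s i`, `i < c`.  For a monomial ideal `hd _ j` is the number of its monomials of degree `j`
  (`hd_mono`; write `L + P` as the span of the monomials of `M ∪ {single i (s i + 1) : i < c}`).  Hence
  `hd (L+P) j = hd P j + card (stdF n c s j ∩ M)`.
* `stdF n c s d ∩ M = geF n c s d m`.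
* degree `d + 1`: map `w ∈ stdF (d+1) ∩ M` to the pair `(w - e_j, j)`, `j` the last index of the support of `w`.
  It is injective, `w' = w - e_j` is standard of degree `d`, `w' i = 0` for `i > j`, `w' + e_j = w` is standard.
  CLAIM `w' = m ∨ LexGT w' m`.  If `w = m + e_z`: `j = z`, `w' = m`.  Otherwise let `i` be the first difference,
  `w i > (m + e_z) i`; `i ≠ z` because the degrees agree, so `w i > m i`, and `w i > 0` gives `i ≤ j`.
  If `i < j`: `w' i = w i > m i` and `w' = m` before `i`: `LexGT w' m`.  If `i = j`: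
  `w' i = w i - 1 ≥ m i`; `w'` is `0` after `i`, so `w' i = d - ∑_{l<i} m l = ∑_{l ≥ i} m l ≥ m i`, with
  equality iff `m = w'`.
-/

set_option autoImplicit false

namespace Pool.Agent.EGH2

open MvPolynomial

theorem Lex1_trans {n : ℕ} {u v w : Fin n →₀ ℕ} (h1 : LexGT u v) (h2 : LexGT v w) :
    LexGT u w := by
  obtain ⟨t1, a1, b1⟩ := h1
  obtain ⟨t2, a2, b2⟩ := h2
  rcases lt_trichotomy t1 t2 with h | h | h
  · refine ⟨t1, fun r hr => ?_, ?_⟩
    · rw [a2 r (lt_trans hr h), a1 r hr]
    · rw [a2 t1 h]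
      exact b1
  · subst h
    exact ⟨t1, fun r hr => by rw [a2 r hr, a1 r hr], lt_trans b2 b1⟩
  · refine ⟨t2, fun r hr => ?_, ?_⟩
    · rw [a2 r hr, a1 r (lt_trans hr h)]
    · rw [← a1 t2 h]
      exact b2

theorem Lex1_ge_trans {n : ℕ} {u v w : Fin n →₀ ℕ} (h1 : u = v ∨ LexGT u v)
    (h2 : v = w ∨ LexGT v w) : u = w ∨ LexGT u w := by
  rcases h1 with rfl | h1
  · exact h2
  · rcases h2 with rfl | h2
    · exact Or.inr h1
    · exact Or.inr (Lex1_trans h1 h2)

theorem Lex1_add {n : ℕ} {u v : Fin n →₀ ℕ} (x : Fin n →₀ ℕ) (h : u = v ∨ LexGT u v) :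
    u + x = v + x ∨ LexGT (u + x) (v + x) := by
  rcases h with rfl | ⟨t, a, b⟩
  · exact Or.inl rfl
  · refine Or.inr ⟨t, fun r hr => ?_, ?_⟩
    · rw [Finsupp.add_apply, Finsupp.add_apply, a r hr]
    · rw [Finsupp.add_apply, Finsupp.add_apply]
      omega

theorem Lex1_single {n : ℕ} {z : Fin n} (hz : ∀ i, i ≤ z) (δ : Fin n →₀ ℕ) :
    δ = Finsupp.single z (∑ i, δ i) ∨ LexGT δ (Finsupp.single z (∑ i, δ i)) := by
  classical
  by_cases h : ∃ i, i ≠ z ∧ δ i ≠ 0
  · right
    let F : Finset (Fin n) := Finset.univ.filter fun i => i ≠ z ∧ δ i ≠ 0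
    have hF : F.Nonempty := by
      obtain ⟨i, hi⟩ := h
      exact ⟨i, Finset.mem_filter.2 ⟨Finset.mem_univ _, hi⟩⟩
    have h1 := (Finset.mem_filter.1 (F.min'_mem hF)).2
    refine ⟨F.min' hF, fun r hr => ?_, ?_⟩
    · have hrz : r ≠ z := by
        intro he
        rw [he] at hr
        exact absurd (hz (F.min' hF)) (not_le.2 hr)
      rw [Finsupp.single_eq_of_ne hrz]
      by_contra hne
      have : r ∈ F := Finset.mem_filter.2 ⟨Finset.mem_univ _, hrz, fun h0 => hne h0.symm⟩
      exact absurd (F.min'_le r this) (not_le.2 hr)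
    · rw [Finsupp.single_eq_of_ne h1.1]
      exact Nat.pos_of_ne_zero h1.2
  · left
    push Not at h
    ext i
    by_cases hi : i = z
    · subst hi
      rw [Finsupp.single_eq_same]
      rw [Finset.sum_eq_single i]
      · intro b _ hb
        exact h b hb
      · intro hb
        exact absurd (Finset.mem_univ _) hb
    · rw [Finsupp.single_eq_of_ne hi]
      exact h i hi

/-- the exponents of the lex ideal -/
def Lex1_M {n : ℕ} (z : Fin n) (d : ℕ) (m : Fin n →₀ ℕ) : Set (Fin n →₀ ℕ) :=
  {w | ∃ j, ∑ i, w i = d + j ∧ (w = m + Finsupp.single z j ∨ LexGT w (m + Finsupp.single z j))}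

theorem Lex1_up {n : ℕ} {z : Fin n} (hz : ∀ i, i ≤ z) {d : ℕ} {m : Fin n →₀ ℕ}
    {u v : Fin n →₀ ℕ} (hu : u ∈ Lex1_M z d m) (huv : u ≤ v) : v ∈ Lex1_M z d m := by
  obtain ⟨j, hj, hge⟩ := hu
  obtain ⟨δ, rfl⟩ : ∃ δ, v = u + δ := ⟨v - u, (add_tsub_cancel_of_le huv).symm⟩
  refine ⟨j + ∑ i, δ i, ?_, ?_⟩
  · have : ∑ i, (u + δ) i = ∑ i, u i + ∑ i, δ i := by
      rw [← Finset.sum_add_distrib]
      rfl
    rw [this, hj]
    ring
  · have h1 := Lex1_add u (Lex1_single hz δ)
    have h2 := Lex1_add (Finsupp.single z (∑ i, δ i)) hge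
    rw [add_comm δ u, add_comm (Finsupp.single z (∑ i, δ i)) u] at h1
    have h3 := Lex1_ge_trans h1 h2
    rw [add_assoc, ← Finsupp.single_add] at h3
    exact h3

theorem Lex1_closed {n : ℕ} {z : Fin n} {d : ℕ} {m : Fin n →₀ ℕ}
    {u v : Fin n →₀ ℕ} (huv : ∑ i, u i = ∑ i, v i) (hl : LexGT u v) (hv : v ∈ Lex1_M z d m) :
    u ∈ Lex1_M z d m := by
  obtain ⟨j, hj, hge⟩ := hv
  exact ⟨j, by rw [huv, hj], Lex1_ge_trans (Or.inr hl) hge⟩

theorem Lex1_mem {K : Type} [Field K] {n : ℕ} {M : Set (Fin n →₀ ℕ)}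
    (hM : ∀ u ∈ M, ∀ v, u ≤ v → v ∈ M) (v : Fin n →₀ ℕ) :
    monomial v (1 : K) ∈ Ideal.span ((fun w => monomial w (1 : K)) '' M) ↔ v ∈ M := by
  classical
  rw [mem_ideal_span_monomial_image]
  constructor
  · intro h
    obtain ⟨u, hu, huv⟩ := h v (by rw [support_monomial, if_neg one_ne_zero]; simp)
    exact hM u hu v huv
  · intro h x hx
    rw [support_monomial, if_neg one_ne_zero, Finset.mem_singleton] at hx
    rw [hx]
    exact ⟨v, h, le_rfl⟩

open Classical in
theorem Lex1_count {K : Type} [Field K] {n c : ℕ} (hc : c ≤ n) (s : ℕ → ℕ)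
    (M : Set (Fin n →₀ ℕ)) (hM : ∀ u ∈ M, ∀ v, u ≤ v → v ∈ M) (j : ℕ) :
    hd (Ideal.span ((fun w => monomial w (1 : K)) '' M)
        + Ideal.span (Set.range fun t : Fin c => X (Fin.castLE hc t) ^ (s t.val + 1))) j
      = hd (Ideal.span (Set.range fun t : Fin c =>
            (X (Fin.castLE hc t) ^ (s t.val + 1) : MvPolynomial (Fin n) K))) j
        + ((stdF n c s j).filter fun w => w ∈ M).card := by
  let MP : Set (Fin n →₀ ℕ) := Set.range fun t : Fin c =>
    Finsupp.single (Fin.castLE hc t) (s t.val + 1)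
  have hP : Ideal.span (Set.range fun t : Fin c =>
      (X (Fin.castLE hc t) ^ (s t.val + 1) : MvPolynomial (Fin n) K))
      = Ideal.span ((fun w => monomial w (1 : K)) '' MP) := by
    congr 1
    rw [← Set.range_comp]
    congr 1
    funext t
    simp only [Function.comp]
    rw [X_pow_eq_monomial]
  have hMP : ∀ w : Fin n →₀ ℕ, (∃ u ∈ MP, u ≤ w) ↔ ¬ ∀ i : Fin n, i.val < c → w i ≤ s i.val := by
    intro w
    constructor
    · rintro ⟨_, ⟨t, rfl⟩, ht⟩ h
      rw [Finsupp.single_le_iff] at ht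
      have h1 := h (Fin.castLE hc t) t.isLt
      have h2 : (Fin.castLE hc t).val = t.val := rfl
      rw [h2] at h1
      omega
    · intro h
      push Not at h
      obtain ⟨i, hi, hw⟩ := h
      refine ⟨_, ⟨⟨i.val, hi⟩, rfl⟩, ?_⟩
      rw [Finsupp.single_le_iff]
      exact hw
  rw [hP, Submodule.add_eq_sup, ← Ideal.span_union, ← Set.image_union, hd_mono, hd_mono]
  rw [← Finset.card_union_of_disjoint]
  · congr 1
    ext w
    rw [Finset.mem_union, Finset.mem_filter, Finset.mem_filter, Finset.mem_filter, stdF,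
      Finset.mem_filter]
    have h1 : (∃ u ∈ M ∪ MP, u ≤ w) ↔ ((∃ u ∈ MP, u ≤ w) ∨ w ∈ M) := by
      constructor
      · rintro ⟨u, hu | hu, huw⟩
        · exact Or.inr (hM u hu w huw)
        · exact Or.inl ⟨u, hu, huw⟩
      · rintro (⟨u, hu, huw⟩ | h)
        · exact ⟨u, Or.inr hu, huw⟩
        · exact ⟨w, Or.inl h, le_rfl⟩
    rw [h1, hMP]
    tauto
  · rw [Finset.disjoint_left]
    intro w hw hw'
    rw [Finset.mem_filter, hMP] at hw
    rw [Finset.mem_filter, stdF, Finset.mem_filter] at hw'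
    exact hw.2 hw'.1.2

open Classical in
theorem Lex1_deg {n c : ℕ} (s : ℕ → ℕ) (z : Fin n) (d : ℕ) (m : Fin n →₀ ℕ) :
    ((stdF n c s d).filter fun w => w ∈ Lex1_M z d m) = geF n c s d m := by
  ext w
  rw [geF, Finset.mem_filter, Finset.mem_filter]
  apply and_congr_right
  intro hw
  rw [stdF, Finset.mem_filter, Finset.mem_finsuppAntidiag] at hw
  have hs := hw.1.1
  constructor
  · rintro ⟨j, hj, hge⟩
    have hs' : ∑ i, w i = d := hs
    have : j = 0 := by omega
    subst this
    rw [Finsupp.single_zero, add_zero] at hge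
    exact hge
  · intro h
    refine ⟨0, ?_, ?_⟩
    · rw [add_zero]
      exact hs
    · rw [Finsupp.single_zero, add_zero]
      exact h

/-- the key claim: removing one from the last nonzero exponent -/
theorem Lex1_key {n : ℕ} {z : Fin n} (hz : ∀ i, i ≤ z) {d : ℕ} {m : Fin n →₀ ℕ}
    (hm : ∑ i, m i = d) {w' : Fin n →₀ ℕ} {j : Fin n} (hw' : ∑ i, w' i = d)
    (hj : ∀ i, j < i → w' i = 0)
    (h : w' + Finsupp.single j 1 = m + Finsupp.single z 1 ∨
      LexGT (w' + Finsupp.single j 1) (m + Finsupp.single z 1)) :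
    w' = m ∨ LexGT w' m := by
  rcases h with h | ⟨i, ha, hb⟩
  · by_cases hjz : j = z
    · subst hjz
      left
      exact add_right_cancel h
    · exfalso
      have h1 := DFunLike.congr_fun h z
      rw [Finsupp.add_apply, Finsupp.add_apply, Finsupp.single_eq_same,
        Finsupp.single_eq_of_ne (Ne.symm hjz), hj z (lt_of_le_of_ne (hz j) hjz)] at h1
      omega
  · have hlow : ∀ l, l < i → w' l + Finsupp.single j 1 l = m l := by
      intro l hl
      have h1 := ha l hl
      have hlz : l ≠ z := by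
        intro he
        rw [he] at hl
        exact absurd (hz i) (not_le.2 hl)
      rw [Finsupp.add_apply, Finsupp.add_apply, Finsupp.single_eq_of_ne hlz, add_zero] at h1
      exact h1.symm
    have hiz : i ≠ z := by
      intro he
      subst he
      rw [Finsupp.add_apply, Finsupp.add_apply, Finsupp.single_eq_same] at hb
      have h1 : ∑ l, (m + Finsupp.single i 1 : Fin n →₀ ℕ) l
          < ∑ l, (w' + Finsupp.single j 1 : Fin n →₀ ℕ) l := by
        apply Finset.sum_lt_sum
        · intro l _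
          rcases lt_or_eq_of_le (hz l) with h2 | h2
          · exact le_of_eq (ha l h2)
          · rw [h2, Finsupp.add_apply, Finsupp.add_apply, Finsupp.single_eq_same]
            exact le_of_lt hb
        · refine ⟨i, Finset.mem_univ _, ?_⟩
          rw [Finsupp.add_apply, Finsupp.add_apply, Finsupp.single_eq_same]
          exact hb
      have h2 : ∀ (x : Fin n →₀ ℕ) (l : Fin n), ∑ t, (x + Finsupp.single l 1 : Fin n →₀ ℕ) t
          = ∑ t, x t + 1 := by
        intro x l
        simp only [Finsupp.add_apply]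
        rw [Finset.sum_add_distrib]
        congr 1
        rw [Finset.sum_eq_single l]
        · exact Finsupp.single_eq_same
        · intro b _ hb'
          exact Finsupp.single_eq_of_ne hb'
        · intro hb'
          exact absurd (Finset.mem_univ _) hb'
      rw [h2, h2, hm, hw'] at h1
      exact lt_irrefl _ h1
    rw [Finsupp.add_apply, Finsupp.add_apply, Finsupp.single_eq_of_ne hiz, add_zero] at hb
    rcases lt_trichotomy i j with hij | hij | hij
    · right
      refine ⟨i, fun l hl => ?_, ?_⟩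
      · have h1 := hlow l hl
        rw [Finsupp.single_eq_of_ne (ne_of_lt (lt_trans hl hij)), add_zero] at h1
        exact h1.symm
      · rw [Finsupp.single_eq_of_ne (ne_of_lt hij), add_zero] at hb
        exact hb
    · subst hij
      rw [Finsupp.single_eq_same] at hb
      have hlow' : ∀ l, l < i → w' l = m l := by
        intro l hl
        have h1 := hlow l hl
        rw [Finsupp.single_eq_of_ne (ne_of_lt hl), add_zero] at h1
        exact h1
      rcases Nat.lt_or_ge (m i) (w' i) with h1 | h1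
      · right
        exact ⟨i, fun l hl => (hlow' l hl).symm, h1⟩
      · left
        have hle : ∀ l ∈ (Finset.univ : Finset (Fin n)), w' l ≤ m l := by
          intro l _
          rcases lt_trichotomy l i with h2 | h2 | h2
          · exact le_of_eq (hlow' l h2)
          · rw [h2]
            exact h1
          · rw [hj l h2]
            exact Nat.zero_le _
        have h3 := (Finset.sum_eq_sum_iff_of_le hle).1 (by rw [hw', hm])
        ext l
        exact h3 l (Finset.mem_univ _)
    · exfalso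
      rw [hj i hij, Finsupp.single_eq_of_ne (Ne.symm (ne_of_lt hij))] at hb
      omega

open Classical in
theorem Lex1_deg1 {n c : ℕ} (s : ℕ → ℕ) {z : Fin n} (hz : ∀ i, i ≤ z) (d : ℕ)
    (m : Fin n →₀ ℕ) (hm : ∑ i, m i = d) :
    ((stdF n c s (d + 1)).filter fun w => w ∈ Lex1_M z d m).card
      ≤ ∑ w ∈ geF n c s d m, upc n c s w := by
  have hR : ∑ w ∈ geF n c s d m, upc n c s w
      = ((geF n c s d m).sigma fun w => Finset.univ.filter (fun j : Fin n =>
        (∀ i, j < i → w i = 0) ∧ (j.val < c → w j + 1 ≤ s j.val))).card := by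
    rw [Finset.card_sigma]
    rfl
  rw [hR]
  -- the last index of the support
  have hlast : ∀ w : Fin n →₀ ℕ, ∑ i, w i = d + 1 → ∃ j : Fin n, w j ≠ 0 ∧ ∀ i, j < i → w i = 0 := by
    intro w hw
    have hne : w.support.Nonempty := by
      rw [Finset.nonempty_iff_ne_empty]
      intro he
      have : w = 0 := Finsupp.support_eq_empty.1 he
      rw [this] at hw
      simp at hw
    refine ⟨w.support.max' hne, Finsupp.mem_support_iff.1 (w.support.max'_mem hne), ?_⟩
    intro i hi
    by_contra h0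
    exact absurd (w.support.le_max' i (Finsupp.mem_support_iff.2 h0)) (not_le.2 hi)
  let J : (Fin n →₀ ℕ) → Fin n := fun w =>
    if h : ∑ i, w i = d + 1 then (hlast w h).choose else z
  have hJ : ∀ w, ∑ i, w i = d + 1 → w (J w) ≠ 0 ∧ ∀ i, J w < i → w i = 0 := by
    intro w h
    change w (if h : ∑ i, w i = d + 1 then (hlast w h).choose else z) ≠ 0 ∧
      ∀ i, (if h : ∑ i, w i = d + 1 then (hlast w h).choose else z) < i → w i = 0
    rw [dif_pos h]
    exact (hlast w h).choose_spec
  have hback : ∀ w, ∑ i, w i = d + 1 →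
      (w - Finsupp.single (J w) 1) + Finsupp.single (J w) 1 = w := by
    intro w h
    apply tsub_add_cancel_of_le
    rw [Finsupp.single_le_iff]
    exact Nat.one_le_iff_ne_zero.2 (hJ w h).1
  have hmem : ∀ w ∈ (stdF n c s (d + 1)).filter (fun w => w ∈ Lex1_M z d m),
      ∑ i, w i = d + 1 := by
    intro w hw
    rw [Finset.mem_filter, stdF, Finset.mem_filter, Finset.mem_finsuppAntidiag] at hw
    exact hw.1.1.1
  refine Finset.card_le_card_of_injOn (fun w => ⟨w - Finsupp.single (J w) 1, J w⟩) ?_ ?_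
  · intro w hw
    rw [Finset.mem_coe] at hw
    have hsum := hmem w hw
    have hb := hback w hsum
    obtain ⟨hJ1, hJ2⟩ := hJ w hsum
    rw [Finset.mem_filter, stdF, Finset.mem_filter] at hw
    obtain ⟨⟨_, hstd⟩, j, hj, hge⟩ := hw
    have hj1 : j = 1 := by omega
    subst hj1
    have hle : w - Finsupp.single (J w) 1 ≤ w := tsub_le_self
    have hs' : ∑ i, (w - Finsupp.single (J w) 1 : Fin n →₀ ℕ) i = d := by
      have h1 : ∑ i, ((w - Finsupp.single (J w) 1) + Finsupp.single (J w) 1 : Fin n →₀ ℕ) i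
          = d + 1 := by
        rw [hb]
        exact hsum
      have h2 : ∑ i, (Finsupp.single (J w) 1 : Fin n →₀ ℕ) i = 1 := by
        rw [Finset.sum_eq_single (J w)]
        · exact Finsupp.single_eq_same
        · intro b _ hb'
          exact Finsupp.single_eq_of_ne hb'
        · intro hb'
          exact absurd (Finset.mem_univ _) hb'
      simp only [Finsupp.add_apply] at h1
      rw [Finset.sum_add_distrib, h2] at h1
      omega
    have hz' : ∀ i, J w < i → (w - Finsupp.single (J w) 1 : Fin n →₀ ℕ) i = 0 := by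
      intro i hi
      have h1 : (w - Finsupp.single (J w) 1 : Fin n →₀ ℕ) i ≤ w i := hle i
      rw [hJ2 i hi] at h1
      omega
    rw [Finset.mem_coe, Finset.mem_sigma, geF, Finset.mem_filter, Finset.mem_filter, stdF,
      Finset.mem_filter, Finset.mem_finsuppAntidiag]
    refine ⟨⟨⟨⟨hs', Finset.subset_univ _⟩, fun i hi => le_trans (hle i) (hstd i hi)⟩, ?_⟩,
      Finset.mem_univ _, hz', ?_⟩
    · apply Lex1_key hz hm hs' hz'
      rw [hb]
      exact hge
    · intro hc'
      have h1 : (w - Finsupp.single (J w) 1 : Fin n →₀ ℕ) (J w) + 1 = w (J w) := by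
        have h2 := DFunLike.congr_fun hb (J w)
        rw [Finsupp.add_apply, Finsupp.single_eq_same] at h2
        exact h2
      change (w - Finsupp.single (J w) 1 : Fin n →₀ ℕ) (J w) + 1 ≤ s (J w).val
      rw [h1]
      exact hstd (J w) hc'
  · intro w hw v hv hwv
    rw [Finset.mem_coe] at hw hv
    have h1 := hback w (hmem w hw)
    have h2 := hback v (hmem v hv)
    have h3 : w - Finsupp.single (J w) 1 = v - Finsupp.single (J v) 1 ∧ J w = J v := by
      simpa using hwv
    rw [← h1, ← h2, h3.1, h3.2]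

theorem lex_ideal {K : Type} [Field K] {n c : ℕ} (hc : c ≤ n) (hn : 0 < n) (s : ℕ → ℕ) (d : ℕ)
    (m : Fin n →₀ ℕ) (hm : ∑ i, m i = d) :
    ∃ L : Ideal (MvPolynomial (Fin n) K),
      (∃ M : Set (Fin n →₀ ℕ), L = Ideal.span ((fun w => monomial w (1 : K)) '' M)) ∧
      (∀ u v : Fin n →₀ ℕ, ∑ t, u t = ∑ t, v t →
          (∃ t, (∀ i, i < t → v i = u i) ∧ v t < u t) →
          monomial v (1 : K) ∈ L → monomial u (1 : K) ∈ L) ∧
      hd (L + Ideal.span (Set.range fun t : Fin c => X (Fin.castLE hc t) ^ (s t.val + 1))) d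
        = hd (Ideal.span (Set.range fun t : Fin c =>
            (X (Fin.castLE hc t) ^ (s t.val + 1) : MvPolynomial (Fin n) K))) d
          + (geF n c s d m).card ∧
      hd (L + Ideal.span (Set.range fun t : Fin c => X (Fin.castLE hc t) ^ (s t.val + 1))) (d + 1)
        ≤ hd (Ideal.span (Set.range fun t : Fin c =>
            (X (Fin.castLE hc t) ^ (s t.val + 1) : MvPolynomial (Fin n) K))) (d + 1)
          + ∑ w ∈ geF n c s d m, upc n c s w := by
  classical
  let z : Fin n := ⟨n - 1, by omega⟩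
  have hz : ∀ i : Fin n, i ≤ z := by
    intro i
    rw [Fin.le_def]
    have := i.isLt
    change i.val ≤ n - 1
    omega
  have hup : ∀ u ∈ Lex1_M z d m, ∀ v, u ≤ v → v ∈ Lex1_M z d m :=
    fun u hu v huv => Lex1_up hz hu huv
  refine ⟨Ideal.span ((fun w => monomial w (1 : K)) '' Lex1_M z d m), ⟨_, rfl⟩, ?_, ?_, ?_⟩
  · intro u v huv hl hv
    rw [Lex1_mem hup] at hv ⊢
    exact Lex1_closed huv hl hv
  · rw [Lex1_count hc s _ hup, Lex1_deg]
  · rw [Lex1_count hc s _ hup]
    exact Nat.add_le_add_left (Lex1_deg1 s hz d m hm) _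

end Pool.Agent.EGH2
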