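import Pool.Agent.EGH2.Lex2

/-!
# Counting for two-dimensional spaces

`cntA` PROOF.  Let `t = tau s n d`.  Every `w ∈ stdF` has `upc w ≤ n - t` (`upc_le`).
First `d < sg s n`: otherwise `stdF n n s d` has at most one element (`∑ w ≤ ∑ s` with equality iff `w = s`), but
`geF` has two.  So `t < n` and `sg s t ≤ d < sg s (t+1)` (definition of `tau`,
`Nat.findGreatest_spec`, `Nat.findGreatest_is_greatest`).
* Case `sg s t = d`: `mu = 2t + [s t = 1]`.  If `s t ≠ 1` use `upc_le` twice.  If `s t = 1`: let
  `m_1 = (s 0, …, s (t-1), 0, …)`; one of the two elements `w` of `geF` is not `m_1`; it has a nonzero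
  coordinate at some index `≥ t`; then `upc w ≤ n - t - 1`: a counted `j` is `≥ t` and `≥` the last index of the
  support; if the last index is `> t`, then `j > t`; if it is `t` then `w t = 1 = s t`, so `j = t` is not counted.
* Case `sg s t < d`, `t + 1 < n`: `mu = 2t + 1`; this is `cntB` with `a = 2` (`2 + t ≤ n`).
* Case `sg s t < d`, `t + 1 = n`: `mu = 2t + [d + 1 = sg s n]`.  `upc_le` gives `upc w ≤ 1` for both.  If
  `d + 1 = sg s n`: if `j` is counted for `w` then `w + e_j` is standard of degree `sg s n`, so `w + e_j = s`, and `w i = 0`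
  for `i > j` forces `j = n - 1` (as `s (n-1) > 0`), so `w = s - e_{n-1}`; only one of the two elements
  can be this one, the other has `upc = 0`.
-/

set_option autoImplicit false

namespace Pool.Agent.EGH2

theorem Lex3_mem_stdF {n c : ℕ} {s : ℕ → ℕ} {d : ℕ} {w : Fin n →₀ ℕ} :
    w ∈ stdF n c s d ↔ ∑ i, w i = d ∧ ∀ i : Fin n, i.val < c → w i ≤ s i.val := by
  unfold stdF
  rw [Finset.mem_filter, Finset.mem_finsuppAntidiag]
  constructor
  · rintro ⟨⟨h1, -⟩, h2⟩
    exact ⟨h1, h2⟩
  · rintro ⟨h1, h2⟩
    exact ⟨⟨h1, Finset.subset_univ _⟩, h2⟩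

theorem Lex3_sg {n t : ℕ} (ht : t ≤ n) (s : ℕ → ℕ) :
    ∑ i : Fin n, (if i.val < t then s i.val else 0) = sg s t := by
  unfold sg
  rw [← Finset.sum_range (fun i => if i < t then s i else 0), ← Finset.sum_filter]
  refine Finset.sum_congr ?_ (fun _ _ => rfl)
  ext i
  simp only [Finset.mem_filter, Finset.mem_range]
  omega

theorem Lex3_eq {n t d : ℕ} (ht : t ≤ n) {s : ℕ → ℕ} (hd : sg s t = d) {w : Fin n →₀ ℕ}
    (hw : w ∈ stdF n n s d) (h0 : ∀ i : Fin n, t ≤ i.val → w i = 0) (i : Fin n) :
    w i = if i.val < t then s i.val else 0 := by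
  obtain ⟨h1, h2⟩ := Lex3_mem_stdF.mp hw
  have hle : ∀ i ∈ (Finset.univ : Finset (Fin n)), w i ≤ if i.val < t then s i.val else 0 := by
    intro i _
    split_ifs with h
    · exact h2 i i.isLt
    · exact le_of_eq (h0 i (by omega))
  exact (Finset.sum_eq_sum_iff_of_le hle).mp (by rw [h1, Lex3_sg ht, hd]) i (Finset.mem_univ i)

theorem Lex3_last {n d : ℕ} {s : ℕ → ℕ} (hs : Monotone s) (hd : d + 1 = sg s n) {w : Fin n →₀ ℕ}
    (hw : w ∈ stdF n n s d) (h : upc n n s w ≠ 0) (i : Fin n) :
    w i + (if i.val + 1 = n then 1 else 0) = s i.val := by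
  obtain ⟨h1, h2⟩ := Lex3_mem_stdF.mp hw
  unfold upc at h
  obtain ⟨j, hj⟩ := Finset.card_ne_zero.mp h
  rw [Finset.mem_filter] at hj
  obtain ⟨-, hj1, hj2⟩ := hj
  have hj3 := hj2 j.isLt
  have hle : ∀ i ∈ (Finset.univ : Finset (Fin n)), w i + (if i = j then 1 else 0) ≤ s i.val := by
    intro i _
    split_ifs with h
    · subst h
      exact hj3
    · exact h2 i i.isLt
  have hsum : ∑ i : Fin n, (w i + (if i = j then 1 else 0)) = ∑ i : Fin n, s i.val := by
    rw [Finset.sum_add_distrib, h1, Finset.sum_ite_eq' Finset.univ j, if_pos (Finset.mem_univ j), hd]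
    unfold sg
    rw [Finset.sum_range]
  have heq := (Finset.sum_eq_sum_iff_of_le hle).mp hsum
  have hjn : j.val + 1 = n := by
    by_contra hne
    have hjl := j.isLt
    have hlt : n - 1 < n := by omega
    have hz := heq ⟨n - 1, hlt⟩ (Finset.mem_univ _)
    have hne2 : (⟨n - 1, hlt⟩ : Fin n) ≠ j := by
      intro h
      have := congrArg Fin.val h
      simp only at this
      omega
    rw [if_neg hne2, hj1 ⟨n - 1, hlt⟩ (by rw [Fin.lt_def]; simp only; omega)] at hz
    have hm : s j.val ≤ s (n - 1) := hs (by omega)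
    simp only at hz
    omega
  have hi := heq i (Finset.mem_univ i)
  rw [← hi]
  by_cases hij : i = j
  · subst hij
    rw [if_pos hjn, if_pos rfl]
  · rw [if_neg hij, if_neg]
    intro h
    exact hij (Fin.ext (by omega))

theorem cntA {n : ℕ} {s : ℕ → ℕ} (hs : Monotone s) {d : ℕ} {m : Fin n →₀ ℕ}
    (hm : m ∈ stdF n n s d) (hma : (geF n n s d m).card = 2) :
    (∑ w ∈ geF n n s d m, upc n n s w) + mu n s d ≤ 2 * n := by
  obtain ⟨u, v, huv, hge⟩ := Finset.card_eq_two.mp hma
  have hsub : ∀ w ∈ geF n n s d m, w ∈ stdF n n s d := by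
    intro w hw
    simp only [geF, Finset.mem_filter] at hw
    exact hw.1
  have hu : u ∈ stdF n n s d := hsub u (by rw [hge]; simp)
  have hv : v ∈ stdF n n s d := hsub v (by rw [hge]; simp)
  have hsum : ∑ w ∈ geF n n s d m, upc n n s w = upc n n s u + upc n n s v := by
    rw [hge, Finset.sum_pair huv]
  have hul := upc_le hu
  have hvl := upc_le hv
  have hu1 := Lex3_mem_stdF.mp hu
  have hv1 := Lex3_mem_stdF.mp hv
  -- `t < n`
  have htau0 : sg s (tau s n d) ≤ d := by
    unfold tau
    exact Nat.findGreatest_spec (P := fun u => sg s u ≤ d) (m := 0) (Nat.zero_le _) (by simp [sg])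
  have htaun : tau s n d ≤ n := by
    unfold tau
    exact Nat.findGreatest_le n
  have hdn : d < sg s n := by
    by_contra hcon
    have hsgn : sg s n ≤ d := not_lt.mp hcon
    have hdle : ∀ w : Fin n →₀ ℕ, w ∈ stdF n n s d → ∀ i, w i = s i.val := by
      intro w hw i
      obtain ⟨h1, h2⟩ := Lex3_mem_stdF.mp hw
      have hle : ∀ i ∈ (Finset.univ : Finset (Fin n)), w i ≤ s i.val := fun i _ => h2 i i.isLt
      have hs1 : ∑ i : Fin n, w i = ∑ i : Fin n, s i.val := by
        apply le_antisymm (Finset.sum_le_sum hle)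
        rw [h1]
        refine le_trans (le_of_eq ?_) hsgn
        unfold sg
        rw [Finset.sum_range]
      exact (Finset.sum_eq_sum_iff_of_le hle).mp hs1 i (Finset.mem_univ i)
    apply huv
    ext i
    rw [hdle u hu i, hdle v hv i]
  have htn : tau s n d < n := by
    rcases Nat.lt_or_ge (tau s n d) n with h | h
    · exact h
    · exfalso
      have : tau s n d = n := le_antisymm htaun h
      rw [this] at htau0
      omega
  have htau1 : d < sg s (tau s n d + 1) := by
    have := Nat.findGreatest_is_greatest (P := fun u => sg s u ≤ d) (n := n)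
      (k := tau s n d + 1) (by unfold tau; exact Nat.lt_succ_self _) htn
    exact not_le.mp this
  unfold mu
  by_cases h1 : sg s (tau s n d) = d
  · rw [if_pos h1]
    by_cases h2 : s (tau s n d) = 1
    · rw [if_pos h2]
      -- one of the two has a nonzero coordinate at some index `≥ t`
      have key : ∀ w : Fin n →₀ ℕ, w ∈ stdF n n s d →
          (¬ ∀ i : Fin n, tau s n d ≤ i.val → w i = 0) → upc n n s w + tau s n d + 1 ≤ n := by
        intro w hw hne
        push Not at hne
        obtain ⟨i0, hi0, hwi0⟩ := hne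
        have hcard : upc n n s w ≤ (Finset.Ioi (⟨tau s n d, htn⟩ : Fin n)).card := by
          unfold upc
          refine Finset.card_le_card ?_
          intro j hj
          rw [Finset.mem_filter] at hj
          obtain ⟨-, hj1, hj2⟩ := hj
          rw [Finset.mem_Ioi, Fin.lt_def]
          have hij : i0 ≤ j := by
            by_contra hlt
            exact hwi0 (hj1 i0 (not_le.mp hlt))
          have hij' : i0.val ≤ j.val := hij
          have hj3 := hj2 j.isLt
          simp only
          rcases Nat.lt_or_ge (tau s n d) j.val with h | h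
          · exact h
          · exfalso
            have hj4 : j.val = tau s n d := by omega
            have hj5 : i0 = j := Fin.ext (by omega)
            rw [hj4, h2, ← hj5] at hj3
            omega
        rw [Fin.card_Ioi] at hcard
        simp only at hcard
        omega
      by_cases hu0 : ∀ i : Fin n, tau s n d ≤ i.val → u i = 0
      · by_cases hv0 : ∀ i : Fin n, tau s n d ≤ i.val → v i = 0
        · exfalso
          apply huv
          ext i
          rw [Lex3_eq htaun h1 hu hu0 i, Lex3_eq htaun h1 hv hv0 i]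
        · have := key v hv hv0
          omega
      · have := key u hu hu0
        omega
    · rw [if_neg h2]
      omega
  · rw [if_neg h1]
    by_cases h2 : tau s n d + 1 < n
    · rw [if_pos h2]
      have hB := cntB hs (lt_of_le_of_ne htau0 h1) htau1 (a := 2) (by omega) hm hma
      omega
    · rw [if_neg h2]
      have hn : tau s n d + 1 = n := by omega
      by_cases h3 : d + 1 = sg s (tau s n d + 1)
      · rw [if_pos h3]
        rw [hn] at h3
        by_cases hu0 : upc n n s u = 0
        · omega
        · by_cases hv0 : upc n n s v = 0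
          · omega
          · exfalso
            apply huv
            ext i
            have e1 := Lex3_last hs h3 hu hu0 i
            have e2 := Lex3_last hs h3 hv hv0 i
            omega
      · rw [if_neg h3]
        omega

end Pool.Agent.EGH2
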