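import Pool.Agent.EGH2.Ext
import Pool.Agent.EGH2.Lex1
import Pool.Agent.EGH2.Lex3

/-!
# From growth to lex ideals
-/

set_option autoImplicit false

namespace Pool.Agent.EGH2

open MvPolynomial

theorem P_eq {k : Type} [Field k] {n c : ℕ} (hc : c ≤ n) (s : ℕ → ℕ) :
    Ideal.span (Set.range fun t : Fin c =>
      (X (Fin.castLE hc t) ^ (s t.val + 1) : MvPolynomial (Fin n) k))
    = Ideal.span ((fun w => monomial w (1 : k)) ''
        (Set.range fun t : Fin c => Finsupp.single (Fin.castLE hc t) (s t.val + 1))) := by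
  congr 1
  ext g
  simp only [Set.mem_range, Set.mem_image, exists_exists_eq_and]
  constructor
  · rintro ⟨t, rfl⟩
    exact ⟨t, by rw [X_pow_eq_monomial]⟩
  · rintro ⟨t, rfl⟩
    exact ⟨t, by rw [X_pow_eq_monomial]⟩

open Classical in
theorem std_card {k : Type} [Field k] {n c : ℕ} (hc : c ≤ n) (s : ℕ → ℕ) (e : ℕ) :
    hd (Ideal.span (Set.range fun t : Fin c =>
      (X (Fin.castLE hc t) ^ (s t.val + 1) : MvPolynomial (Fin n) k))) e
      + (stdF n c s e).card = (Finset.finsuppAntidiag (Finset.univ : Finset (Fin n)) e).card := by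
  rw [P_eq, hd_mono]
  unfold stdF
  rw [← Finset.card_filter_add_card_filter_not (s := Finset.finsuppAntidiag Finset.univ e)
    (fun w => ∃ m ∈ (Set.range fun t : Fin c => Finsupp.single (Fin.castLE hc t) (s t.val + 1)),
      m ≤ w)]
  congr 2
  apply Finset.filter_congr
  intro w _
  constructor
  · rintro h ⟨m, ⟨t, rfl⟩, hm⟩
    have h1 := h (Fin.castLE hc t) (by simp)
    have h2 := hm (Fin.castLE hc t)
    simp only [Finsupp.single_eq_same, Fin.val_castLE] at h1 h2
    omega
  · intro h i hi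
    by_contra hcon
    push Not at hcon
    apply h
    refine ⟨_, ⟨⟨i.val, hi⟩, rfl⟩, ?_⟩
    rw [Finsupp.single_le_iff]
    exact hcon

theorem hd_le_card {k : Type} [Field k] {n : ℕ} (J : Ideal (MvPolynomial (Fin n) k)) (e : ℕ) :
    hd J e ≤ (Finset.finsuppAntidiag (Finset.univ : Finset (Fin n)) e).card := by
  classical
  have h1 : hd J e ≤ hd (Ideal.span ((fun w => monomial w (1 : k)) ''
      ({0} : Set (Fin n →₀ ℕ)))) e := by
    unfold hd
    have := finite_hom (K := k) n e
    have h2 : FiniteDimensional k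
        (Submodule.restrictScalars k (Ideal.span ((fun w => monomial w (1 : k)) ''
          ({0} : Set (Fin n →₀ ℕ)))) ⊓
          homogeneousSubmodule (Fin n) k e : Submodule k (MvPolynomial (Fin n) k)) :=
      Submodule.finiteDimensional_of_le inf_le_right
    apply Submodule.finrank_mono
    apply inf_le_inf_right
    intro g _
    have h3 : (1 : MvPolynomial (Fin n) k) ∈
        Ideal.span ((fun w => monomial w (1 : k)) '' ({0} : Set (Fin n →₀ ℕ))) := by
      apply Ideal.subset_span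
      exact ⟨0, rfl, rfl⟩
    change g ∈ Ideal.span _
    rw [(Ideal.eq_top_iff_one _).2 h3]
    trivial
  refine h1.trans ?_
  rw [hd_mono]
  exact Finset.card_filter_le _ _

theorem stdF_congr {n c : ℕ} {s : ℕ → ℕ} {e : ℕ} (hbig : ∀ i, c ≤ i → e + 1 ≤ s i) :
    stdF n c s e = stdF n n s e := by
  classical
  unfold stdF
  apply Finset.filter_congr
  intro w hw
  rw [Finset.mem_finsuppAntidiag] at hw
  constructor
  · intro h i _
    by_cases hi : i.val < c
    · exact h i hi
    · have h1 := hbig i.val (by omega)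
      have h2 : w i ≤ ∑ j, w j := Finset.single_le_sum (fun _ _ => Nat.zero_le _) (Finset.mem_univ i)
      have h3 : ∑ j, w j = e := hw.1
      omega
  · intro h i hi
    exact h i i.isLt

theorem upc_congr {n c : ℕ} {s : ℕ → ℕ} {e : ℕ} (hbig : ∀ i, c ≤ i → e + 1 ≤ s i)
    {w : Fin n →₀ ℕ} (hw : w ∈ stdF n c s e) : upc n c s w = upc n n s w := by
  classical
  unfold stdF at hw
  rw [Finset.mem_filter, Finset.mem_finsuppAntidiag] at hw
  unfold upc
  congr 1
  apply Finset.filter_congr
  intro j _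
  constructor
  · rintro ⟨h1, h2⟩
    refine ⟨h1, fun _ => ?_⟩
    by_cases hj : j.val < c
    · exact h2 hj
    · have h3 := hbig j.val (by omega)
      have h4 : w j ≤ ∑ j, w j := Finset.single_le_sum (fun _ _ => Nat.zero_le _) (Finset.mem_univ j)
      have h5 : ∑ j, w j = e := hw.1.1
      omega
  · rintro ⟨h1, h2⟩
    exact ⟨h1, fun _ => h2 j.isLt⟩

/-- the degree `e` piece of an ideal -/
noncomputable abbrev Je {k : Type} [Field k] {n : ℕ} (J : Ideal (MvPolynomial (Fin n) k)) (e : ℕ) :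
    Submodule k (MvPolynomial (Fin n) k) :=
  Submodule.restrictScalars k J ⊓ homogeneousSubmodule (Fin n) k e

/-- dimension of `J_e` modulo a smaller ideal -/
theorem qd_Je {k : Type} [Field k] {n : ℕ} {I J : Ideal (MvPolynomial (Fin n) k)} (h : I ≤ J)
    (e : ℕ) : qd I (Je J e) + hd I e = hd J e := by
  have h1 := qd_add I (Je J e) inf_le_right
  have h2 : (Je J e ⊓ Submodule.restrictScalars k I : Submodule k (MvPolynomial (Fin n) k))
      = Je I e := by
    ext g
    simp only [Submodule.mem_inf, Submodule.restrictScalars_mem]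
    constructor
    · rintro ⟨⟨_, h3⟩, h4⟩
      exact ⟨h4, h3⟩
    · rintro ⟨h3, h4⟩
      exact ⟨⟨h h3, h4⟩, h3⟩
  rw [h2] at h1
  exact h1

/-- growth -/
theorem grow {k : Type} [Field k] {n : ℕ} {I J : Ideal (MvPolynomial (Fin n) k)} (h : I ≤ J)
    (e : ℕ) : hd I (e + 1) + qd I (S1 k n * Je J e) ≤ hd J (e + 1) := by
  rw [← qd_Je h (e + 1), add_comm]
  apply Nat.add_le_add_right
  apply qd_mono I (j := e + 1) _ inf_le_right
  rw [Submodule.mul_le]
  intro l hl g hg
  refine ⟨?_, ?_⟩
  · exact J.mul_mem_left l hg.1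
  · have h1 : l.IsHomogeneous 1 := hl
    have h2 : g.IsHomogeneous e := hg.2
    have h3 := h1.mul h2
    rw [add_comm] at h3
    exact h3

theorem exists_lex {k : Type} [Field k] {n c : ℕ} (hc : c ≤ n) (hn : 0 < n) {s : ℕ → ℕ}
    {f : Fin c → MvPolynomial (Fin n) k} (hf : CI s f) {e : ℕ}
    (hbig : ∀ i, c ≤ i → e + 1 ≤ s i) {J : Ideal (MvPolynomial (Fin n) k)}
    (hfJ : ∀ i, f i ∈ J) {a : ℕ} (ha : hd J e = hd (pI f c) e + a) (E : ℕ)
    (hcnt : ∀ m ∈ stdF n n s e, (geF n n s e m).card = a →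
      ∑ w ∈ geF n n s e m, upc n n s w ≤ qd (pI f c) (S1 k n * Je J e) + E) :
    ∃ L : Ideal (MvPolynomial (Fin n) k),
      (∃ M : Set (Fin n →₀ ℕ), L = Ideal.span ((fun w => monomial w (1 : k)) '' M)) ∧
      (∀ u v : Fin n →₀ ℕ, ∑ t, u t = ∑ t, v t →
          (∃ t, (∀ i, i < t → v i = u i) ∧ v t < u t) →
          monomial v (1 : k) ∈ L → monomial u (1 : k) ∈ L) ∧
      hd (L + Ideal.span (Set.range fun t : Fin c => X (Fin.castLE hc t) ^ (s t.val + 1))) e
        = hd J e ∧
      hd (L + Ideal.span (Set.range fun t : Fin c => X (Fin.castLE hc t) ^ (s t.val + 1))) (e + 1)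
        ≤ hd J (e + 1) + E := by
  have hIJ : pI f c ≤ J := pI_le fun i _ => hfJ i
  have hP : ∀ j, hd (Ideal.span (Set.range fun t : Fin c =>
      (X (Fin.castLE hc t) ^ (s t.val + 1) : MvPolynomial (Fin n) k))) j = hd (pI f c) j := by
    intro j
    rw [← pI_eq_range]
    exact hf_eq (mono_CI hc s) hf c le_rfl j
  have hgrow := grow hIJ e
  rcases Nat.eq_zero_or_pos a with ha0 | ha0
  · subst ha0
    refine ⟨⊥, ⟨∅, by simp⟩, ?_, ?_, ?_⟩
    · intro u v _ _ h
      rw [Ideal.mem_bot, monomial_eq_zero] at h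
      exact absurd h one_ne_zero
    · rw [← Ideal.zero_eq_bot, zero_add, hP, ha]
      rfl
    · rw [← Ideal.zero_eq_bot, zero_add, hP]
      omega
  · have h1 : a ≤ (stdF n c s e).card := by
      have h2 := std_card (k := k) hc s e
      have h3 := hd_le_card J e
      rw [hP] at h2
      omega
    obtain ⟨m, hm, hmc⟩ := cnt_exists ha0 h1
    have hmd : ∑ i, m i = e := by
      classical
      unfold stdF at hm
      rw [Finset.mem_filter, Finset.mem_finsuppAntidiag] at hm
      exact hm.1.1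
    obtain ⟨L, hL1, hL2, hL3, hL4⟩ := lex_ideal (K := k) hc hn s e m hmd
    refine ⟨L, hL1, hL2, ?_, ?_⟩
    · rw [hL3, hP, hmc, ha]
    · have hge : geF n c s e m = geF n n s e m := by
        classical
        unfold geF
        rw [stdF_congr hbig]
      have h5 : ∑ w ∈ geF n c s e m, upc n c s w = ∑ w ∈ geF n n s e m, upc n n s w := by
        rw [← hge]
        apply Finset.sum_congr rfl
        intro w hw
        apply upc_congr hbig
        classical
        unfold geF at hw
        exact (Finset.mem_filter.1 hw).1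
      have h6 := hcnt m (by rw [← stdF_congr hbig]; exact hm) (by rw [← hge]; exact hmc)
      rw [h5, hP] at hL4
      omega

/-- defect at most two -/
theorem finA {k : Type} [Field k] {n c : ℕ} (hc : c ≤ n) {s : ℕ → ℕ}
    (hs : Monotone s) {f : Fin c → MvPolynomial (Fin n) k} (hf : CI s f) {e : ℕ}
    (hbig : ∀ i, c ≤ i → e + 1 ≤ s i) {J : Ideal (MvPolynomial (Fin n) k)}
    (hfJ : ∀ i, f i ∈ J) {a : ℕ} (ha : hd J e = hd (pI f c) e + a) (ha2 : a ≤ 2) :
    ∀ m ∈ stdF n n s e, (geF n n s e m).card = a →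
      ∑ w ∈ geF n n s e m, upc n n s w ≤ qd (pI f c) (S1 k n * Je J e) + 0 := by
  classical
  intro m hm hmc
  have hIJ : pI f c ≤ J := pI_le fun i _ => hfJ i
  have hqd : qd (pI f c) (Je J e) = a := by
    have := qd_Je hIJ e
    omega
  have hJe : Je J e ≤ homogeneousSubmodule (Fin n) k e := inf_le_right
  have hmem : ∀ w ∈ geF n n s e m, w ∈ stdF n n s e := by
    intro w hw
    unfold geF at hw
    exact (Finset.mem_filter.1 hw).1
  interval_cases a
  · rw [Finset.card_eq_zero] at hmc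
    rw [hmc]
    simp
  · obtain ⟨w, hw⟩ := Finset.card_eq_one.1 hmc
    rw [hw, Finset.sum_singleton]
    have h1 := upc_le (hmem w (by rw [hw]; exact Finset.mem_singleton_self w))
    have h2 := redOne hc hs hf hbig (Je J e) hJe hqd
    omega
  · have h1 := cntA hs hm hmc
    have h2 := redA hc hs hf hbig (Je J e) hJe hqd
    omega

theorem finB {k : Type} [Field k] {n c : ℕ} (hc : c ≤ n) {s : ℕ → ℕ}
    (hs : Monotone s) {f : Fin c → MvPolynomial (Fin n) k} (hf : CI s f) {e : ℕ}
    (hbig : ∀ i, c ≤ i → e + 1 ≤ s i) {J : Ideal (MvPolynomial (Fin n) k)}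
    (hfJ : ∀ i, f i ∈ J) {a : ℕ} (ha : hd J e = hd (pI f c) e + a) {t : ℕ} (hat : a + t ≤ n)
    (h1 : sg s t < e) (h2 : e < sg s (t + 1)) (h3 : e + a ≤ sg s (t + 1) + 1) :
    ∀ m ∈ stdF n n s e, (geF n n s e m).card = a →
      ∑ w ∈ geF n n s e m, upc n n s w ≤ qd (pI f c) (S1 k n * Je J e) + 0 := by
  intro m hm hmc
  have hIJ : pI f c ≤ J := pI_le fun i _ => hfJ i
  have hqd : qd (pI f c) (Je J e) = a := by
    have := qd_Je hIJ e
    omega
  have hJe : Je J e ≤ homogeneousSubmodule (Fin n) k e := inf_le_right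
  have h4 := cntB hs h1 h2 hat hm hmc
  have h5 := redB hc hs hf hbig (Je J e) hJe hqd (by omega) h1 h2 h3
  have e1 : 2 * a * t = 2 * (a * t) := by ring
  have e2 : 2 * a * n = 2 * (a * n) := by ring
  rw [e1, e2] at h4
  omega

theorem finC {k : Type} [Field k] {n c : ℕ} (hc : c ≤ n) {s : ℕ → ℕ}
    (hs : Monotone s) {f : Fin c → MvPolynomial (Fin n) k} (hf : CI s f) {e : ℕ}
    (hbig : ∀ i, c ≤ i → e + 1 ≤ s i) {J : Ideal (MvPolynomial (Fin n) k)}
    (hfJ : ∀ i, f i ∈ J) {a : ℕ} (ha : hd J e = hd (pI f c) e + a) :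
    ∀ m ∈ stdF n n s e, (geF n n s e m).card = a →
      ∑ w ∈ geF n n s e m, upc n n s w
        ≤ qd (pI f c) (S1 k n * Je J e) + a * (a - 1) := by
  classical
  intro m hm hmc
  have hIJ : pI f c ≤ J := pI_le fun i _ => hfJ i
  have hqd : qd (pI f c) (Je J e) = a := by
    have := qd_Je hIJ e
    omega
  have hJe : Je J e ≤ homogeneousSubmodule (Fin n) k e := inf_le_right
  have h5 := redC hc hs hf hbig (Je J e) hJe hqd
  have h6 : ∑ w ∈ geF n n s e m, upc n n s w ≤ ∑ w ∈ geF n n s e m, (n - tau s n e) := by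
    apply Finset.sum_le_sum
    intro w hw
    have h7 : w ∈ stdF n n s e := by
      unfold geF at hw
      exact (Finset.mem_filter.1 hw).1
    have := upc_le h7
    omega
  rw [Finset.sum_const, hmc, smul_eq_mul] at h6
  have h8 : a * (n - tau s n e) + a * tau s n e = a * n := by
    rw [← mul_add]
    congr 1
    have := tau_le s n e
    omega
  omega

end Pool.Agent.EGH2
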