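import Pool.Agent.EGH2.Fin1

/-!
# Conversion to Mathlib notions
-/

set_option autoImplicit false

namespace Pool.Agent.EGH2

open MvPolynomial

theorem ofList_take {A : Type} [CommRing A] {c : ℕ} (f : Fin c → A) (i : ℕ) (hi : i ≤ c) :
    Ideal.ofList ((List.ofFn f).take i) = pI f i := by
  unfold Ideal.ofList pI
  congr 1
  ext g
  simp only [Set.mem_setOf_eq]
  rw [List.mem_take_iff_getElem]
  constructor
  · rintro ⟨j, hj, rfl⟩
    have hj2 : j < i ∧ j < (List.ofFn f).length := by simpa using hj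
    rw [List.length_ofFn] at hj2
    exact ⟨⟨j, hj2.2⟩, hj2.1, by simp⟩
  · rintro ⟨j, hj, rfl⟩
    refine ⟨j.val, ?_, by simp⟩
    rw [List.length_ofFn]
    exact lt_min hj j.isLt

theorem wreg_of_isRegular {A : Type} [CommRing A] {c : ℕ} (f : Fin c → A)
    (h : RingTheory.Sequence.IsRegular A (List.ofFn f)) : WReg f := by
  have h1 := (RingTheory.Sequence.isWeaklyRegular_iff_Fin (M := A) (List.ofFn f)).1
    h.toIsWeaklyRegular
  intro i g hg
  have hl : i.val < (List.ofFn f).length := by rw [List.length_ofFn]; exact i.isLt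
  have h2 := h1 ⟨i.val, hl⟩
  rw [ofList_take f i.val i.isLt.le] at h2
  have h3 : (List.ofFn f)[i.val] = f i := by simp
  have h4 : (pI f i.val • (⊤ : Submodule A A)) = pI f i.val := by
    rw [smul_eq_mul, Ideal.mul_top]
  have h5 : Submodule.Quotient.mk (p := (pI f i.val • (⊤ : Submodule A A))) g = 0 := by
    apply h2
    show (List.ofFn f)[i.val] • Submodule.Quotient.mk g = (List.ofFn f)[i.val] • 0
    rw [smul_zero, ← Submodule.Quotient.mk_smul, Submodule.Quotient.mk_eq_zero, h4, h3, smul_eq_mul]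
    exact hg
  rw [Submodule.Quotient.mk_eq_zero, h4] at h5
  exact h5

/-- the degrees minus one, extended to a monotone function -/
def sx {c : ℕ} (D : Fin c → ℕ) (B : ℕ) (i : ℕ) : ℕ :=
  if h : i < c then D ⟨i, h⟩ - 1 else (∑ t, D t) + B

theorem sx_mono {c : ℕ} {D : Fin c → ℕ} (hD : Monotone D) (B : ℕ) : Monotone (sx D B) := by
  intro i j hij
  unfold sx
  split_ifs with h1 h2 h2
  · exact Nat.sub_le_sub_right (hD (by simpa using hij)) 1
  · have : D ⟨i, h1⟩ ≤ ∑ t, D t := Finset.single_le_sum (fun _ _ => Nat.zero_le _) (Finset.mem_univ _)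
    omega
  · omega
  · exact le_refl _

theorem sx_lt {c : ℕ} {D : Fin c → ℕ} (hD1 : ∀ t, 1 ≤ D t) (B : ℕ) (i : Fin c) :
    sx D B i.val + 1 = D i := by
  unfold sx
  rw [dif_pos i.isLt]
  have := hD1 i
  simp only [Fin.eta]
  omega

theorem sx_ge {c : ℕ} {D : Fin c → ℕ} (B : ℕ) (i : ℕ) (hi : c ≤ i) : B ≤ sx D B i := by
  unfold sx
  rw [dif_neg (by omega)]
  omega

theorem sg_sx {c : ℕ} (D : Fin c → ℕ) (B : ℕ) (t : ℕ) (ht : t ≤ c) :
    sg (sx D B) t = ∑ i : Fin c with i.val < t, (D i - 1) := by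
  unfold sg
  have h1 : ∑ i ∈ Finset.range t, sx D B i
      = ∑ i ∈ Finset.range c, if i < t then sx D B i else 0 := by
    rw [← Finset.sum_filter]
    apply Finset.sum_congr _ (fun _ _ => rfl)
    ext i
    simp only [Finset.mem_range, Finset.mem_filter]
    omega
  rw [h1, ← Fin.sum_univ_eq_sum_range (fun i => if i < t then sx D B i else 0) c,
    Finset.sum_filter]
  apply Finset.sum_congr rfl
  intro i _
  split_ifs with h
  · unfold sx
    rw [dif_pos i.isLt]
  · rfl

theorem zero_vars {k : Type} [Field k] (J : Ideal (MvPolynomial (Fin 0) k)) :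
    ∃ M : Set (Fin 0 →₀ ℕ), J = Ideal.span ((fun w => monomial w (1 : k)) '' M) := by
  by_cases h : J = ⊥
  · exact ⟨∅, by simp [h]⟩
  · refine ⟨{0}, ?_⟩
    obtain ⟨g, hg, hg0⟩ := Submodule.exists_mem_ne_zero_of_ne_bot h
    have h1 : g = C (coeff 0 g) := by
      ext w
      have : w = 0 := Subsingleton.elim _ _
      subst this
      simp
    have h2 : coeff 0 g ≠ 0 := by
      intro h2
      rw [h2, map_zero] at h1
      exact hg0 h1
    have h3 : (1 : MvPolynomial (Fin 0) k) ∈ J := by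
      have h4 := J.mul_mem_left (C (coeff 0 g)⁻¹) hg
      rw [h1, ← C_mul] at h4
      simp only [coeff_C, if_true] at h4
      rw [inv_mul_cancel₀ h2, C_1] at h4
      exact h4
    rw [(Ideal.eq_top_iff_one _).2 h3, eq_comm, Ideal.eq_top_iff_one]
    exact Ideal.subset_span ⟨0, rfl, rfl⟩

end Pool.Agent.EGH2
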