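import Pool.Agent.EGH2.E01b

/-!
# The grade lemma (Rees) by Koszul cochains, over any commutative ring

For a family `z : Fin m → A` and an ideal `J` let `H z J N` mean: for every `i < N` and every cochain `ω` of
exterior degree `i` (`HomW i ω`) with `kd m z ω ∈ J` (all values) there is `η` with `HomW (i-1) η` and
`ω - kd m z η ∈ J`.
* (G1) `w` nonzerodivisor mod `J`: `H z J (N+1) → H z (J ⊔ (w)) N`.  PROOF: `dω = ι + w b` with `ι ∈ J`
  (choose `b` of exterior degree `i + 1`: put `b = 0` where `dω = 0`); `w db ∈ J`, so `db ∈ J`, so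
  `b = dη₁ + J` (`i + 1 < N + 1`), so `d(ω - w η₁) ∈ J`, so `ω - w η₁ - dη ∈ J`.
* (G2) `w ∈ Ideal.span (range z)`, `w` nonzerodivisor mod `J`: `H z (J ⊔ (w)) N → H z J (N+1)`.
  PROOF: the contraction operators `h_j` (defined by recursion: `h_0 (α + e₀∧β) = β`,
  `h_{j+1} (α + e₀∧β) = h_j α - e₀ ∧ h_j β`) satisfy `d h_j + h_j d = z_j`.  Hence for `w = ∑ a_j z_j`,
  `h = ∑ a_j h_j`: `w ω = d (h ω) + h (dω)`, so if `dω ∈ J` then `w ω - d(hω) ∈ J`.  With `θ = hω` (exterior
  degree `i - 1 < N`) `dθ = wω - … ∈ J ⊔ (w)`, so `θ = dζ + w ξ + J` (`ξ` of exterior degree `i - 1`), so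
  `w ω ≡ dθ ≡ w dξ` mod `J`, so `ω - dξ ∈ J`.
* `H z J 0` is trivial.  By (G2) applied to `f (k-1), …, f 0`: `H z (pI f i) (k - i)`, so `H z ⊥ k`; by (G1) applied
  to `y 0, …, y (l-1)`: `H z (pI y l) (k - l)`, with `k - l > 0`.  Use it for `i = 0` and the cochain
  `ω b = if b = (fun _ => false) then r else 0`.
-/

set_option autoImplicit false

namespace Pool.Agent.EGH2

open MvPolynomial

section Grade

variable {A : Type} [CommRing A]

/-- exactness in exterior degrees below `N`, modulo `J` -/
def Grade_H {m : ℕ} (z : Fin m → A) (J : Ideal A) (N : ℕ) : Prop :=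
  ∀ i : ℤ, i < (N : ℤ) → ∀ ω : (Fin m → Bool) → A, HomW i ω → (∀ b, kd m z ω b ∈ J) →
    ∃ η : (Fin m → Bool) → A, HomW (i - 1) η ∧ ∀ b, ω b - kd m z η b ∈ J

theorem Grade_sub {u : ℕ} {i : ℤ} {ω ω' : (Fin u → Bool) → A}
    (h : HomW i ω) (h' : HomW i ω') : HomW i (fun b => ω b - ω' b) := by
  intro b hb
  by_cases h1 : ω b = 0
  · by_cases h2 : ω' b = 0
    · exact absurd (by show ω b - ω' b = 0; rw [h1, h2, sub_zero]) hb
    · exact h' b h2
  · exact h b h1

theorem Grade_mul {u : ℕ} {i : ℤ} {ω : (Fin u → Bool) → A} (w : A)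
    (h : HomW i ω) : HomW i (fun b => w * ω b) := by
  intro b hb
  exact h b (fun h1 => hb (by show w * ω b = 0; rw [h1, mul_zero]))

theorem Grade_add {u : ℕ} {i : ℤ} {ω ω' : (Fin u → Bool) → A}
    (h : HomW i ω) (h' : HomW i ω') : HomW i (fun b => ω b + ω' b) := by
  intro b hb
  by_cases h1 : ω b = 0
  · by_cases h2 : ω' b = 0
    · exact absurd (by show ω b + ω' b = 0; rw [h1, h2, add_zero]) hb
    · exact h' b h2
  · exact h b h1

theorem Grade_neg {u : ℕ} {i : ℤ} {ω : (Fin u → Bool) → A}
    (h : HomW i ω) : HomW i (fun b => - ω b) := by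
  intro b hb
  exact h b (fun h1 => hb (by show - ω b = 0; rw [h1, neg_zero]))

theorem Grade_true {u : ℕ} {i : ℤ} {ω : (Fin (u + 1) → Bool) → A} (h : HomW i ω) :
    HomW (i - 1) (fun c : Fin u → Bool => ω (Fin.cons true c)) := by
  intro c hc
  have hw := h _ hc
  rw [wt_cons] at hw
  push_cast at hw
  simp only [if_true] at hw
  linarith

theorem Grade_false {u : ℕ} {i : ℤ} {ω : (Fin (u + 1) → Bool) → A} (h : HomW i ω) :
    HomW i (fun c : Fin u → Bool => ω (Fin.cons false c)) := by
  intro c hc
  have hw := h _ hc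
  rw [wt_cons] at hw
  push_cast at hw
  simpa using hw

theorem Grade_mk {u : ℕ} {i : ℤ} {ω : (Fin (u + 1) → Bool) → A}
    (h1 : HomW (i - 1) (fun c : Fin u → Bool => ω (Fin.cons true c)))
    (h2 : HomW i (fun c : Fin u → Bool => ω (Fin.cons false c))) : HomW i ω := by
  intro b
  refine cons_cases (P := fun b => ω b ≠ 0 → (wt b : ℤ) = i) ?_ b
  intro t c hc
  cases t
  · have hw := h2 c hc
    rw [wt_cons]
    push_cast
    simpa using hw
  · have hw := h1 c hc
    rw [wt_cons]
    push_cast
    simp only [if_true]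
    linarith

theorem Grade_kd {u : ℕ} {x : Fin u → A} {i : ℤ} {ω : (Fin u → Bool) → A} (h : HomW i ω) :
    HomW (i + 1) (kd u x ω) := by
  induction u generalizing i with
  | zero => intro b hb; exact absurd rfl hb
  | succ u ih =>
    apply Grade_mk
    · have h1 := ih (x := Fin.tail x) (Grade_true h)
      have h2 := Grade_mul (x 0) (Grade_false h)
      have e1 : i - 1 + 1 = i := by ring
      have e2 : i + 1 - 1 = i := by ring
      rw [e1] at h1
      rw [e2]
      have h3 := Grade_sub h2 h1
      simp only [kd_true]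
      exact h3
    · simp only [kd_false]
      exact ih (x := Fin.tail x) (Grade_false h)

/-- contraction with `∑ a_j h_j` -/
def Grade_hk : (u : ℕ) → (Fin u → A) → ((Fin u → Bool) → A) → ((Fin u → Bool) → A)
  | 0, _, _ => fun _ => 0
  | u + 1, a, ω => fun b =>
      bif b 0 then - Grade_hk u (Fin.tail a) (fun c => ω (Fin.cons true c)) (Fin.tail b)
      else a 0 * ω (Fin.cons true (Fin.tail b))
        + Grade_hk u (Fin.tail a) (fun c => ω (Fin.cons false c)) (Fin.tail b)

theorem Grade_hk_true {u : ℕ} (a : Fin (u + 1) → A) (ω : (Fin (u + 1) → Bool) → A)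
    (c : Fin u → Bool) : Grade_hk (u + 1) a ω (Fin.cons true c)
      = - Grade_hk u (Fin.tail a) (fun c => ω (Fin.cons true c)) c := by
  simp [Grade_hk]

theorem Grade_hk_false {u : ℕ} (a : Fin (u + 1) → A) (ω : (Fin (u + 1) → Bool) → A)
    (c : Fin u → Bool) : Grade_hk (u + 1) a ω (Fin.cons false c)
      = a 0 * ω (Fin.cons true c) + Grade_hk u (Fin.tail a) (fun c => ω (Fin.cons false c)) c := by
  simp [Grade_hk]

theorem Grade_hk_mem (u : ℕ) (a : Fin u → A) (J : Ideal A) (ω : (Fin u → Bool) → A)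
    (h : ∀ b, ω b ∈ J) : ∀ b, Grade_hk u a ω b ∈ J := by
  induction u with
  | zero => intro b; simp [Grade_hk]
  | succ u ih =>
    refine cons_cases ?_
    intro t c
    cases t
    · rw [Grade_hk_false]
      exact J.add_mem (J.mul_mem_left _ (h _)) (ih _ _ (fun c => h _) c)
    · rw [Grade_hk_true]
      exact J.neg_mem (ih _ _ (fun c => h _) c)

theorem Grade_hk_deg {u : ℕ} {a : Fin u → A} {i : ℤ} {ω : (Fin u → Bool) → A} (h : HomW i ω) :
    HomW (i - 1) (Grade_hk u a ω) := by
  induction u generalizing i with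
  | zero => intro b hb; exact absurd rfl hb
  | succ u ih =>
    apply Grade_mk
    · have h1 := ih (a := Fin.tail a) (Grade_true h)
      simp only [Grade_hk_true]
      exact Grade_neg h1
    · have h1 := ih (a := Fin.tail a) (Grade_false h)
      have h2 := Grade_mul (a 0) (Grade_true h)
      simp only [Grade_hk_false]
      exact Grade_add h2 h1

theorem Grade_hk_sub_mul (u : ℕ) (a : Fin u → A) (t : A) (ω ω' : (Fin u → Bool) → A) :
    Grade_hk u a (fun b => t * ω b - ω' b)
      = fun b => t * Grade_hk u a ω b - Grade_hk u a ω' b := by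
  induction u with
  | zero => funext b; simp [Grade_hk]
  | succ u ih =>
    funext b
    refine cons_cases (P := fun b => Grade_hk (u + 1) a (fun b => t * ω b - ω' b) b
      = t * Grade_hk (u + 1) a ω b - Grade_hk (u + 1) a ω' b) ?_ b
    intro s c
    cases s
    · rw [Grade_hk_false, Grade_hk_false, Grade_hk_false]
      have := congrFun (ih (Fin.tail a) (fun c => ω (Fin.cons false c))
        (fun c => ω' (Fin.cons false c))) c
      rw [this]
      ring
    · rw [Grade_hk_true, Grade_hk_true, Grade_hk_true]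
      have := congrFun (ih (Fin.tail a) (fun c => ω (Fin.cons true c))
        (fun c => ω' (Fin.cons true c))) c
      rw [this]
      ring

theorem Grade_homotopy (u : ℕ) (z a : Fin u → A) (ω : (Fin u → Bool) → A) (b : Fin u → Bool) :
    kd u z (Grade_hk u a ω) b + Grade_hk u a (kd u z ω) b = (∑ j, a j * z j) * ω b := by
  induction u with
  | zero => simp [kd, Grade_hk]
  | succ u ih =>
    refine cons_cases (P := fun b => kd (u + 1) z (Grade_hk (u + 1) a ω) b
      + Grade_hk (u + 1) a (kd (u + 1) z ω) b = (∑ j, a j * z j) * ω b) ?_ b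
    intro s c
    rw [Fin.sum_univ_succ]
    cases s
    · rw [kd_false, Grade_hk_false]
      simp only [Grade_hk_false, kd_false, kd_true]
      have h1 := ih (Fin.tail z) (Fin.tail a) (fun c => ω (Fin.cons false c)) c
      rw [kd_add, kd_mul]
      simp only [Fin.tail] at h1 ⊢
      linear_combination h1
    · rw [kd_true, Grade_hk_true]
      simp only [Grade_hk_true, Grade_hk_false, kd_true]
      have h1 := ih (Fin.tail z) (Fin.tail a) (fun c => ω (Fin.cons true c)) c
      rw [kd_neg, Grade_hk_sub_mul]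
      simp only [Fin.tail] at h1 ⊢
      linear_combination h1

theorem Grade_zero {u : ℕ} {i : ℤ} {ω : (Fin u → Bool) → A} (h : HomW i ω) (hi : i < 0)
    (b : Fin u → Bool) : ω b = 0 := by
  by_contra hb
  have := h b hb
  omega

theorem Grade_H0 {m : ℕ} (z : Fin m → A) (J : Ideal A) : Grade_H z J 0 := by
  intro i hi ω hω _
  refine ⟨fun _ => 0, fun b hb => absurd rfl hb, fun b => ?_⟩
  rw [Grade_zero hω (by exact_mod_cast hi) b, kd_zero, sub_zero]
  exact J.zero_mem

/-- choose coefficients of `w` -/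
theorem Grade_extract {u : ℕ} {i : ℤ} {ω : (Fin u → Bool) → A} {J : Ideal A} {w : A}
    (hω : HomW i ω) (h : ∀ b, ω b ∈ J ⊔ Ideal.span {w}) :
    ∃ β : (Fin u → Bool) → A, HomW i β ∧ ∀ b, ω b - w * β b ∈ J := by
  classical
  have key : ∀ b, ∃ β : A, (β ≠ 0 → (wt b : ℤ) = i) ∧ ω b - w * β ∈ J := by
    intro b
    by_cases hb : ω b = 0
    · refine ⟨0, fun h => absurd rfl h, ?_⟩
      rw [hb, mul_zero, sub_zero]
      exact J.zero_mem
    · obtain ⟨j, hj, y, hy, hjy⟩ := Submodule.mem_sup.1 (h b)
      obtain ⟨t, rfl⟩ := Ideal.mem_span_singleton'.1 hy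
      refine ⟨t, fun _ => hω b hb, ?_⟩
      rw [← hjy]
      have : j + t * w - w * t = j := by ring
      rw [this]
      exact hj
  choose β h1 h2 using key
  exact ⟨β, h1, h2⟩

theorem Grade_G1 {m : ℕ} {z : Fin m → A} {J : Ideal A} {w : A} {N : ℕ}
    (hw : ∀ g, w * g ∈ J → g ∈ J) (h : Grade_H z J (N + 1)) :
    Grade_H z (J ⊔ Ideal.span {w}) N := by
  intro i hi ω hω hd
  obtain ⟨β, hβ, hβ2⟩ := Grade_extract (Grade_kd hω) hd
  have h1 : ∀ b, kd m z β b ∈ J := by
    intro b
    apply hw
    have h2 := kd_mem m z J _ hβ2 b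
    rw [kd_sub, kd_mul, kd_kd] at h2
    have h3 : w * kd m z β b = -((0 : A) - w * kd m z β b) := by ring
    rw [h3]
    exact J.neg_mem h2
  obtain ⟨η₁, hη₁, hη₁2⟩ := h (i + 1) (by push_cast; linarith) β hβ h1
  have e1 : i + 1 - 1 = i := by ring
  rw [e1] at hη₁
  have h4 : ∀ b, kd m z (fun b => ω b - w * η₁ b) b ∈ J := by
    intro b
    rw [kd_sub, kd_mul]
    have h5 := hβ2 b
    have h6 := J.mul_mem_left w (hη₁2 b)
    have h7 := J.add_mem h5 h6
    have h8 : kd m z ω b - w * β b + w * (β b - kd m z η₁ b)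
        = kd m z ω b - w * kd m z η₁ b := by ring
    rw [h8] at h7
    exact h7
  obtain ⟨η, hη, hη2⟩ := h i (by push_cast; linarith) (fun b => ω b - w * η₁ b)
    (Grade_sub hω (Grade_mul w hη₁)) h4
  refine ⟨η, hη, fun b => ?_⟩
  have h9 : ω b - kd m z η b = (ω b - w * η₁ b - kd m z η b) + η₁ b * w := by ring
  rw [h9]
  apply Ideal.add_mem
  · exact Ideal.mem_sup_left (hη2 b)
  · exact Ideal.mem_sup_right (Ideal.mem_span_singleton'.2 ⟨_, rfl⟩)

theorem Grade_G2 {m : ℕ} {z : Fin m → A} {J : Ideal A} {w : A} {N : ℕ}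
    (hwz : w ∈ Ideal.span (Set.range z)) (hw : ∀ g, w * g ∈ J → g ∈ J)
    (h : Grade_H z (J ⊔ Ideal.span {w}) N) : Grade_H z J (N + 1) := by
  obtain ⟨a, ha⟩ := Ideal.mem_span_range_iff_exists_fun.1 hwz
  intro i hi ω hω hd
  have hhd := Grade_hk_mem m a J _ hd
  have hom : ∀ b, kd m z (Grade_hk m a ω) b = w * ω b - Grade_hk m a (kd m z ω) b := by
    intro b
    have h1 := Grade_homotopy m z a ω b
    rw [ha] at h1
    linear_combination h1
  have hθ := Grade_hk_deg (a := a) hω
  obtain ⟨ζ, hζ, hζ2⟩ := h (i - 1) (by push_cast at hi; linarith) (Grade_hk m a ω) hθ (by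
    intro b
    rw [hom b]
    apply Ideal.sub_mem
    · exact Ideal.mem_sup_right (Ideal.mem_span_singleton.2 (Dvd.intro _ rfl))
    · exact Ideal.mem_sup_left (hhd b))
  have hdζ := Grade_kd (x := z) hζ
  have e1 : i - 1 - 1 + 1 = i - 1 := by ring
  rw [e1] at hdζ
  obtain ⟨ξ, hξ, hξ2⟩ := Grade_extract (Grade_sub hθ hdζ) hζ2
  refine ⟨ξ, hξ, fun b => ?_⟩
  apply hw
  have h2 := kd_mem m z J _ hξ2 b
  rw [kd_sub, kd_sub, kd_mul, kd_kd] at h2
  have h3 := J.add_mem h2 (hhd b)
  have h4 : kd m z (Grade_hk m a ω) b - 0 - w * kd m z ξ b + Grade_hk m a (kd m z ω) b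
      = w * (ω b - kd m z ξ b) := by
    rw [hom b]
    ring
  rw [← h4]
  exact h3

/-- the differential of a 0-cochain -/
theorem Grade_zero_cochain (m : ℕ) (z : Fin m → A) (J : Ideal A) (r : A)
    (hr : ∀ j, z j * r ∈ J) (b : Fin m → Bool) :
    kd m z (fun b => if b = (fun _ => false) then r else 0) b ∈ J := by
  induction m with
  | zero => simp [kd]
  | succ m ih =>
    refine cons_cases (P := fun b => kd (m + 1) z
      (fun b => if b = (fun _ => false) then r else 0) b ∈ J) ?_ b
    intro s c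
    have hf : (fun c : Fin m → Bool => (if (Fin.cons false c : Fin (m + 1) → Bool)
        = (fun _ => false) then r else 0)) = fun c => if c = (fun _ => false) then r else 0 := by
      funext c
      have : ((Fin.cons false c : Fin (m + 1) → Bool) = fun _ => false)
          ↔ (c = fun _ => false) := by
        constructor
        · intro h
          funext i
          have := congrFun h i.succ
          simpa using this
        · intro h
          rw [h]
          funext i
          refine Fin.cases ?_ (fun i => ?_) i <;> simp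
      simp only [this]
    have ht : (fun c : Fin m → Bool => (if (Fin.cons true c : Fin (m + 1) → Bool)
        = (fun _ => false) then r else 0)) = fun _ => 0 := by
      funext c
      rw [if_neg]
      intro h
      have := congrFun h 0
      simp at this
    cases s
    · rw [kd_false, hf]
      exact ih (Fin.tail z) (fun j => hr j.succ) c
    · rw [kd_true, ht, kd_zero, sub_zero]
      by_cases hc : (Fin.cons false c : Fin (m + 1) → Bool) = fun _ => false
      · rw [if_pos hc]
        exact hr 0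
      · rw [if_neg hc, mul_zero]
        exact J.zero_mem

end Grade

theorem grade_lemma {A : Type} [CommRing A] {m k l : ℕ} (z : Fin m → A) (f : Fin k → A)
    (hf : WReg f) (hfz : ∀ i, f i ∈ Ideal.span (Set.range z)) (y : Fin l → A) (hy : WReg y)
    (hl : l < k) (r : A) (hr : ∀ j, z j * r ∈ pI y l) : r ∈ pI y l := by
  have hA : ∀ j, j ≤ k → Grade_H z (pI f (k - j)) j := by
    intro j
    induction j with
    | zero => intro _; exact Grade_H0 z _
    | succ j ih =>
      intro hj
      have h1 := ih (by omega)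
      have hk : k - (j + 1) < k := by omega
      have e1 : k - j = k - (j + 1) + 1 := by omega
      rw [e1, pI_succ f hk] at h1
      exact Grade_G2 (hfz ⟨k - (j + 1), hk⟩) (hf ⟨k - (j + 1), hk⟩) h1
  have hB : ∀ j, j ≤ l → Grade_H z (pI y j) (k - j) := by
    intro j
    induction j with
    | zero =>
      intro _
      have h1 := hA k le_rfl
      rw [Nat.sub_self, pI_zero] at h1
      rw [pI_zero]
      exact h1
    | succ j ih =>
      intro hj
      have h1 := ih (by omega)
      have e1 : k - j = k - (j + 1) + 1 := by omega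
      rw [e1] at h1
      rw [pI_succ y (by omega : j < l)]
      exact Grade_G1 (hy ⟨j, by omega⟩) h1
  have hlast := hB l le_rfl
  obtain ⟨η, hη, hη2⟩ := hlast 0 (by omega) (fun b => if b = (fun _ => false) then r else 0)
    (by
      intro b hb
      by_cases h : b = fun _ => false
      · rw [h]
        simp [wt]
      · exact absurd (by simp only [if_neg h]) hb)
    (fun b => Grade_zero_cochain m z (pI y l) r hr b)
  have h0 : η = fun _ => 0 := by
    funext b
    exact Grade_zero hη (by norm_num) b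
  have h1 := hη2 (fun _ => false)
  rw [h0, kd_zero] at h1
  simpa using h1

end Pool.Agent.EGH2
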