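import Pool.Agent.EGH2.QD

/-!
# Hilbert functions of complete intersections

* `hf_eq` PROOF: induction on `k`.  With `F = f ⟨k,_⟩` of degree `D = s k + 1`, `I = pI f k`:
  `(I ⊔ (F))_j = I_j + F·S_{j-D}` (homogeneous components, `extract`) and `I_j ∩ F·S_{j-D} = F·I_{j-D}` by
  regularity; `F ≠ 0`-multiplication is injective if `I_{j-D}`-classes …; precisely
  `hd (pI f (k+1)) j = hd (pI f k) j + finrank S_{j-D} - hd (pI f k) (j-D)` for `D ≤ j`
  (dimension of a sup, and multiplication by `F` : `S_{j-D} → S_j` composed with the quotient by `I_j` has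
  kernel `I_{j-D}`), and `= hd (pI f k) j` for `j < D`.  The same recursion for `g`.
-/

set_option autoImplicit false

namespace Pool.Agent.EGH2

open MvPolynomial

theorem HF1_lt {K : Type} [Field K] {n D j : ℕ} {I : Ideal (MvPolynomial (Fin n) K)} (hI : HI I)
    {F : MvPolynomial (Fin n) K} (hF : F.IsHomogeneous D) (hj : j < D) :
    hd (I ⊔ Ideal.span {F}) j = hd I j := by
  have h1 : (Submodule.restrictScalars K (I ⊔ Ideal.span {F}) ⊓ homogeneousSubmodule (Fin n) K j :
      Submodule K _) = (Submodule.restrictScalars K I ⊓ homogeneousSubmodule (Fin n) K j :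
      Submodule K _) := by
    apply le_antisymm
    · rintro g ⟨hg, hgj⟩
      refine ⟨?_, hgj⟩
      obtain ⟨b, hb, h⟩ := extract hI hF hgj hg
      have hb0 : b = 0 := by
        by_contra h0
        have := (hb h0).1
        omega
      rw [hb0, mul_zero, sub_zero] at h
      exact h
    · rintro g ⟨hg, hgj⟩
      have hle : I ≤ I ⊔ Ideal.span {F} := le_sup_left
      exact ⟨hle hg, hgj⟩
  unfold hd
  rw [h1]

/-- multiplication by `F` from degree `e`, modulo `I` -/
noncomputable def HF1_map {K : Type} [Field K] {n : ℕ} (I : Ideal (MvPolynomial (Fin n) K))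
    (F : MvPolynomial (Fin n) K) (e : ℕ) :
    homogeneousSubmodule (Fin n) K e →ₗ[K] (MvPolynomial (Fin n) K ⧸ I) :=
  ((Ideal.Quotient.mkₐ K I).toLinearMap.comp (LinearMap.mulLeft K F)).domRestrict
    (homogeneousSubmodule (Fin n) K e)

theorem HF1_map_apply {K : Type} [Field K] {n : ℕ} (I : Ideal (MvPolynomial (Fin n) K))
    (F : MvPolynomial (Fin n) K) (e : ℕ) (g : homogeneousSubmodule (Fin n) K e) :
    HF1_map I F e g = Ideal.Quotient.mk I (F * g) := rfl

theorem HF1_ge {K : Type} [Field K] {n D : ℕ} {I : Ideal (MvPolynomial (Fin n) K)} (hI : HI I)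
    {F : MvPolynomial (Fin n) K} (hF : F.IsHomogeneous D) (hreg : ∀ g, F * g ∈ I → g ∈ I) (e : ℕ) :
    hd (I ⊔ Ideal.span {F}) (D + e) + hd I e
      = hd I (D + e) + Module.finrank K (homogeneousSubmodule (Fin n) K e) := by
  have hle : I ≤ I ⊔ Ideal.span {F} := le_sup_left
  have hfin := finite_hom (K := K) n e
  -- the space in degree `D + e`
  obtain ⟨W, hW⟩ : ∃ W : Submodule K (MvPolynomial (Fin n) K),
    W = (Submodule.restrictScalars K (I ⊔ Ideal.span {F}) ⊓
      homogeneousSubmodule (Fin n) K (D + e) : Submodule K _) := ⟨_, rfl⟩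
  have hWle : W ≤ homogeneousSubmodule (Fin n) K (D + e) := by
    rw [hW]
    exact inf_le_right
  have h1 := qd_add I W hWle
  have h2 : (W ⊓ Submodule.restrictScalars K I : Submodule K _)
      = (Submodule.restrictScalars K I ⊓ homogeneousSubmodule (Fin n) K (D + e) :
        Submodule K _) := by
    apply le_antisymm
    · rintro g ⟨hg, hgI⟩
      exact ⟨hgI, hWle hg⟩
    · rintro g ⟨hgI, hg⟩
      refine ⟨?_, hgI⟩
      rw [hW]
      exact ⟨hle hgI, hg⟩
  have h3 : W.map (Ideal.Quotient.mkₐ K I).toLinearMap = LinearMap.range (HF1_map I F e) := by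
    apply le_antisymm
    · rintro _ ⟨g, hg, rfl⟩
      rw [hW] at hg
      obtain ⟨hg1, hg2⟩ := hg
      obtain ⟨b, hb, h⟩ := extract hI hF hg2 hg1
      have hbh : b ∈ homogeneousSubmodule (Fin n) K e := by
        by_cases h0 : b = 0
        · rw [h0]
          exact Submodule.zero_mem _
        · have := (hb h0).2
          rw [Nat.add_sub_cancel_left] at this
          exact this
      refine ⟨⟨b, hbh⟩, ?_⟩
      rw [HF1_map_apply]
      exact (Ideal.Quotient.eq.2 h).symm
    · rintro _ ⟨⟨b, hb⟩, rfl⟩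
      rw [HF1_map_apply]
      refine ⟨F * b, ?_, rfl⟩
      rw [hW]
      refine ⟨?_, hF.mul hb⟩
      have hle2 : Ideal.span {F} ≤ I ⊔ Ideal.span {F} := le_sup_right
      exact hle2 (Ideal.mul_mem_right _ _ (Ideal.subset_span rfl))
  have h4 := LinearMap.finrank_range_add_finrank_ker (HF1_map I F e)
  have h5 : (Submodule.restrictScalars K I ⊓ homogeneousSubmodule (Fin n) K e : Submodule K _)
      = (LinearMap.ker (HF1_map I F e)).map (homogeneousSubmodule (Fin n) K e).subtype := by
    apply le_antisymm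
    · rintro g ⟨hgI, hg⟩
      refine ⟨⟨g, hg⟩, ?_, rfl⟩
      rw [SetLike.mem_coe, LinearMap.mem_ker, HF1_map_apply]
      exact Ideal.Quotient.eq_zero_iff_mem.2 (I.mul_mem_left _ hgI)
    · rintro _ ⟨⟨g, hg⟩, h, rfl⟩
      rw [SetLike.mem_coe, LinearMap.mem_ker, HF1_map_apply] at h
      exact ⟨hreg g (Ideal.Quotient.eq_zero_iff_mem.1 h), hg⟩
  have h6 : hd I e = Module.finrank K (LinearMap.ker (HF1_map I F e)) := by
    unfold hd
    rw [h5, Submodule.finrank_map_subtype_eq]
  have h7 : hd (I ⊔ Ideal.span {F}) (D + e) = Module.finrank K W := by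
    unfold hd
    rw [hW]
  have h8 : hd I (D + e) = Module.finrank K (W ⊓ Submodule.restrictScalars K I : Submodule K _) := by
    unfold hd
    rw [h2]
  have h9 : qd I W = Module.finrank K (LinearMap.range (HF1_map I F e)) := by
    unfold qd
    rw [h3]
  omega

theorem hf_eq {K : Type} [Field K] {n c : ℕ} {s : ℕ → ℕ} {f g : Fin c → MvPolynomial (Fin n) K}
    (hf : CI s f) (hg : CI s g) (k : ℕ) (hk : k ≤ c) (j : ℕ) : hd (pI f k) j = hd (pI g k) j := by
  induction k generalizing j with
  | zero => rw [pI_zero, pI_zero]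
  | succ k ih =>
    rw [pI_succ f hk, pI_succ g hk]
    have hf1 := HI_pI hf.hom k (by omega)
    have hg1 := HI_pI hg.hom k (by omega)
    have hf2 := hf.hom ⟨k, hk⟩
    have hg2 := hg.hom ⟨k, hk⟩
    rcases Nat.lt_or_ge j (s k + 1) with h | h
    · rw [HF1_lt hf1 hf2 h, HF1_lt hg1 hg2 h]
      exact ih (by omega) j
    · obtain ⟨e, rfl⟩ := Nat.exists_eq_add_of_le h
      have h1 := HF1_ge hf1 hf2 (fun g hg => hf.reg ⟨k, hk⟩ g hg) e
      have h2 := HF1_ge hg1 hg2 (fun g' hg' => hg.reg ⟨k, hk⟩ g' hg') e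
      have h3 := ih (by omega) (s k + 1 + e)
      have h4 := ih (by omega) e
      simp only at h1 h2
      omega

end Pool.Agent.EGH2
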