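import Pool.Agent.EGH2.E01b

/-!
# Powers of variables are a complete intersection

* `mono_CI` PROOF: everything is a monomial ideal: `g ∈ Ideal.span {X_j^(D_j) : j < i}` iff every exponent `m` in
  the support of `g` has some `j < i` with `D_j ≤ m j` (`MvPolynomial.mem_ideal_span_monomial_image`).
-/

set_option autoImplicit false

namespace Pool.Agent.EGH2

open MvPolynomial

private theorem HF2_mem {K : Type} [Field K] {n c : ℕ} (hc : c ≤ n) (s : ℕ → ℕ) (k : ℕ)
    (g : MvPolynomial (Fin n) K) :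
    g ∈ pI (fun i : Fin c => (X (Fin.castLE hc i) ^ (s i.val + 1) : MvPolynomial (Fin n) K)) k ↔
      ∀ m ∈ g.support, ∃ j : Fin c, j.val < k ∧ s j.val + 1 ≤ m (Fin.castLE hc j) := by
  have h : pI (fun i : Fin c => (X (Fin.castLE hc i) ^ (s i.val + 1) : MvPolynomial (Fin n) K)) k
      = Ideal.span ((fun m => monomial m (1 : K)) ''
        {m : Fin n →₀ ℕ | ∃ j : Fin c, j.val < k ∧
          m = Finsupp.single (Fin.castLE hc j) (s j.val + 1)}) := by
    unfold pI
    congr 1
    ext p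
    constructor
    · rintro ⟨i, hi, rfl⟩
      exact ⟨_, ⟨i, hi, rfl⟩, by simp only [X_pow_eq_monomial]⟩
    · rintro ⟨_, ⟨i, hi, rfl⟩, rfl⟩
      exact ⟨i, hi, by simp only [X_pow_eq_monomial]⟩
  rw [h, mem_ideal_span_monomial_image]
  constructor
  · intro H m hm
    obtain ⟨_, ⟨j, hj, rfl⟩, hle⟩ := H m hm
    exact ⟨j, hj, by simpa using hle (Fin.castLE hc j)⟩
  · intro H m hm
    obtain ⟨j, hj, hle⟩ := H m hm
    exact ⟨_, ⟨j, hj, rfl⟩, Finsupp.single_le_iff.2 hle⟩

theorem mono_CI {K : Type} [Field K] {n c : ℕ} (hc : c ≤ n) (s : ℕ → ℕ) :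
    CI s (fun i : Fin c => (X (Fin.castLE hc i) ^ (s i.val + 1) : MvPolynomial (Fin n) K)) := by
  refine ⟨fun i => ?_, fun i g hg => ?_⟩
  · have := (isHomogeneous_X K (Fin.castLE hc i)).pow (s i.val + 1)
    rwa [one_mul] at this
  · rw [HF2_mem] at hg ⊢
    intro m hm
    obtain ⟨j, hj, hle⟩ := hg (Finsupp.single (Fin.castLE hc i) (s i.val + 1) + m) (by
      rw [mem_support_iff] at hm ⊢
      rw [X_pow_eq_monomial, coeff_monomial_mul, one_mul]
      exact hm)
    refine ⟨j, hj, ?_⟩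
    have hne : Fin.castLE hc i ≠ Fin.castLE hc j := by
      intro h
      have := congrArg Fin.val h
      simp only [Fin.val_castLE] at this
      omega
    rw [Finsupp.add_apply, Finsupp.single_eq_of_ne hne.symm, zero_add] at hle
    exact hle

end Pool.Agent.EGH2
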