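import Pool.Agent.EGH2.HF1
import Pool.Agent.EGH2.HF2

/-!
# The top degree of a complete intersection of `n` forms

* `top_zero` PROOF: by `hf_eq` and `mono_CI` it is enough to see `hd (pI mono n) j = finrank S_j` for
  `j > sg s n`: every monomial of degree `j > ∑ s_i` has some exponent `≥ s_i + 1`.
* `top_one` PROOF: the same for `j = sg s n`: exactly one monomial (`m i = s i`) is not in the ideal.
-/

set_option autoImplicit false

namespace Pool.Agent.EGH2

open MvPolynomial

/-- the powers of the variables -/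
noncomputable def HF3_mono (K : Type) [Field K] (n : ℕ) (s : ℕ → ℕ) (i : Fin n) :
    MvPolynomial (Fin n) K := X (Fin.castLE le_rfl i) ^ (s i.val + 1)

theorem HF3_CI (K : Type) [Field K] (n : ℕ) (s : ℕ → ℕ) : CI s (HF3_mono K n s) :=
  mono_CI (le_refl n) s

theorem HF3_mem {K : Type} [Field K] {n : ℕ} {s : ℕ → ℕ} {g : MvPolynomial (Fin n) K} :
    g ∈ pI (HF3_mono K n s) n ↔ ∀ m ∈ g.support, ∃ i : Fin n, s i.val + 1 ≤ m i := by
  have h1 : pI (HF3_mono K n s) n = Ideal.span ((fun m : Fin n →₀ ℕ => monomial m (1 : K)) ''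
      Set.range fun i : Fin n => Finsupp.single i (s i.val + 1)) := by
    unfold pI
    congr 1
    ext q
    simp only [Set.mem_ofPred_eq, Set.mem_image, Set.mem_range, exists_exists_eq_and]
    constructor
    · rintro ⟨i, -, rfl⟩
      refine ⟨i, ?_⟩
      show monomial (Finsupp.single i (s i.val + 1)) (1 : K) = X (Fin.castLE le_rfl i) ^ _
      rw [X_pow_eq_monomial]
      rfl
    · rintro ⟨i, rfl⟩
      refine ⟨i, i.isLt, ?_⟩
      show X (Fin.castLE le_rfl i) ^ _ = monomial (Finsupp.single i (s i.val + 1)) (1 : K)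
      rw [X_pow_eq_monomial]
      rfl
  rw [h1, mem_ideal_span_monomial_image]
  constructor
  · intro h m hm
    obtain ⟨_, ⟨i, rfl⟩, hi⟩ := h m hm
    exact ⟨i, by simpa using hi i⟩
  · intro h m hm
    obtain ⟨i, hi⟩ := h m hm
    refine ⟨_, ⟨i, rfl⟩, ?_⟩
    rw [Finsupp.single_le_iff]
    exact hi

theorem HF3_deg {K : Type} [Field K] {n j : ℕ} {g : MvPolynomial (Fin n) K}
    (hg : g.IsHomogeneous j) {m : Fin n →₀ ℕ} (hm : m ∈ g.support) : ∑ i, m i = j := by
  have h1 := hg (mem_support_iff.1 hm)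
  rw [← h1, Finsupp.weight_apply, Finsupp.sum_fintype]
  · simp
  · simp

theorem HF3_sg (s : ℕ → ℕ) (n : ℕ) : sg s n = ∑ i : Fin n, s i.val := by
  unfold sg
  exact Finset.sum_range s

theorem top_zero {K : Type} [Field K] {n : ℕ} {s : ℕ → ℕ} {f : Fin n → MvPolynomial (Fin n) K}
    (hf : CI s f) {j : ℕ} (hj : sg s n < j) {g : MvPolynomial (Fin n) K} (hg : g.IsHomogeneous j) :
    g ∈ pI f n := by
  have := finite_hom (K := K) n j
  have h1 := hf_eq hf (HF3_CI K n s) n le_rfl j
  have h2 : (Submodule.restrictScalars K (pI (HF3_mono K n s) n) ⊓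
      homogeneousSubmodule (Fin n) K j : Submodule K _) = homogeneousSubmodule (Fin n) K j := by
    rw [inf_eq_right]
    intro q hq
    show q ∈ pI (HF3_mono K n s) n
    rw [HF3_mem]
    intro m hm
    by_contra hcon
    push Not at hcon
    have h3 := HF3_deg hq hm
    have h4 : ∑ i, m i ≤ ∑ i : Fin n, s i.val :=
      Finset.sum_le_sum fun i _ => by have := hcon i; omega
    rw [HF3_sg] at hj
    omega
  unfold hd at h1
  rw [h2] at h1
  have h3 : (Submodule.restrictScalars K (pI f n) ⊓ homogeneousSubmodule (Fin n) K j :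
      Submodule K _) = homogeneousSubmodule (Fin n) K j :=
    Submodule.eq_of_le_of_finrank_eq inf_le_right h1
  have h4 : g ∈ (Submodule.restrictScalars K (pI f n) ⊓ homogeneousSubmodule (Fin n) K j :
      Submodule K _) := by
    rw [h3]
    exact hg
  exact h4.1

theorem top_one {K : Type} [Field K] {n : ℕ} {s : ℕ → ℕ} {f : Fin n → MvPolynomial (Fin n) K}
    (hf : CI s f) : qd (pI f n) (homogeneousSubmodule (Fin n) K (sg s n)) = 1 := by
  have h1 := hf_eq hf (HF3_CI K n s) n le_rfl (sg s n)
  have h2 := qd_add (pI f n) (homogeneousSubmodule (Fin n) K (sg s n)) le_rfl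
  have h3 := qd_add (pI (HF3_mono K n s) n) (homogeneousSubmodule (Fin n) K (sg s n)) le_rfl
  unfold hd at h1
  rw [inf_comm] at h2 h3
  have h4 : qd (pI f n) (homogeneousSubmodule (Fin n) K (sg s n)) =
      qd (pI (HF3_mono K n s) n) (homogeneousSubmodule (Fin n) K (sg s n)) := by omega
  rw [h4]
  obtain ⟨m0, hm0⟩ : ∃ m0 : Fin n →₀ ℕ, ∀ i, m0 i = s i.val :=
    ⟨Finsupp.equivFunOnFinite.symm fun i => s i.val, fun i => rfl⟩
  have hsum0 : ∑ i, m0 i = sg s n := by
    rw [HF3_sg]
    exact Finset.sum_congr rfl fun i _ => hm0 i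
  have hhom0 : (monomial m0 (1 : K)).IsHomogeneous (sg s n) := by
    apply isHomogeneous_monomial
    rw [← hsum0, Finsupp.degree_eq_sum]
  unfold qd
  rw [finrank_eq_one_iff']
  refine ⟨⟨_, Submodule.mem_map_of_mem hhom0⟩, ?_, ?_⟩
  · intro h5
    have h6 := congrArg Subtype.val h5
    have h7 : (Ideal.Quotient.mk (pI (HF3_mono K n s) n)) (monomial m0 (1 : K)) = 0 := h6
    rw [Ideal.Quotient.eq_zero_iff_mem, HF3_mem] at h7
    obtain ⟨i, hi⟩ := h7 m0 (by rw [mem_support_iff, coeff_monomial]; simp)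
    rw [hm0] at hi
    omega
  · rintro ⟨_, g, hg, rfl⟩
    refine ⟨coeff m0 g, ?_⟩
    apply Subtype.ext
    have hg' : g.IsHomogeneous (sg s n) := hg
    have h6 : (Ideal.Quotient.mk (pI (HF3_mono K n s) n)) (coeff m0 g • monomial m0 (1 : K)) =
        (Ideal.Quotient.mk (pI (HF3_mono K n s) n)) g := by
      rw [Ideal.Quotient.eq, HF3_mem]
      intro m hm
      rw [mem_support_iff, coeff_sub, coeff_smul, coeff_monomial] at hm
      by_cases hmm : m0 = m
      · subst hmm
        simp at hm
      · rw [if_neg hmm] at hm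
        have h7 : m ∈ g.support := by
          rw [mem_support_iff]
          intro h8
          apply hm
          rw [h8]
          simp
        have h8 := HF3_deg hg' h7
        by_contra hcon
        push Not at hcon
        apply hmm
        ext i
        have h9 : ∀ i ∈ Finset.univ, m i ≤ m0 i := fun i _ => by
          have := hcon i
          rw [hm0]
          omega
        have h10 := (Finset.sum_eq_sum_iff_of_le h9).1 (by rw [h8, hsum0])
        exact (h10 i (Finset.mem_univ i)).symm
    exact h6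

end Pool.Agent.EGH2
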