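import Pool.Agent.EGH2.E01b

/-!
# Exactness of Koszul cochains over `S/J` below the number `u` of regular members

PROOF (induction on `m`, generalizing `J x u i e ω`):
* `m = 0`: `Reg` gives `u = 0`, so `i < 0`, `ω = 0` (`HomK.eq_zero_of_neg`), take `η = 0`.
* `m + 1`: write `α c = ω (cons false c)` (`HomK i e`, `HomK.cons_false`) and
  `β c = ω (cons true c)` (`HomK (i-1) e`, `HomK.cons_true`).  `kd_false`, `kd_true` give:
  `d'α ∈ J` and `x₀ α - d'β ∈ J` (`d' = kd m (tail x)`).
  - case skip (`Reg m J (tail x) u`): IH for `α` gives `γ` (`HomK (i-1) (e-1)`), `α - d'γ ∈ J`.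
    Then `d'(x₀γ - β) ∈ J` (`kd_sub, kd_mul`), `x₀γ - β` is `HomK (i-1) e` (`HomK.mul`, degree 1),
    so IH gives `δ` (`HomK (i-2) (e-1)`) with `x₀γ - β - d'δ ∈ J`.
    `η := ` (`cons false ↦ γ`, `cons true ↦ δ`), i.e. `η b = bif b 0 then δ (tail b) else γ (tail b)`;
    `HomK.mk_cons`.  Then `(dη)(cons true c) = x₀ γ c - d'δ c ≡ β c`.
  - case use (`x₀` nonzerodivisor mod `J`, `u = u' + 1`, `Reg m (J ⊔ (x₀)) (tail x) u'`):
    `d'β = x₀α - (x₀ α - d'β) ∈ J ⊔ (x₀)`, so IH over `J ⊔ (x₀)` (`HI_sup_span`) gives `γ`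
    (`HomK (i-2) (e-1)`) with `β - d'γ ∈ J ⊔ (x₀)`; `extractK` (with `D = 1`) gives `β₁`
    (`HomK (i-1) (e-1)`) with `β - d'γ - x₀β₁ ∈ J`.  Apply `kd_mem`, `kd_kd`: `d'β - x₀ d'β₁ ∈ J`, so
    `x₀ (α - d'β₁) ∈ J`, so `α - d'β₁ ∈ J`.
    `η := ` (`cons false ↦ β₁`, `cons true ↦ -γ`): `(dη)(cons true c) = x₀ β₁ c + d'γ c ≡ β c`.
-/

set_option autoImplicit false

namespace Pool.Agent.EGH2

open MvPolynomial

theorem KReg_aux {K : Type} [Field K] {n : ℕ} (m : ℕ) :
    ∀ (J : Ideal (MvPolynomial (Fin n) K)) (_ : HI J)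
    (x : Fin m → MvPolynomial (Fin n) K) (_ : ∀ i, (x i).IsHomogeneous 1) (u : ℕ)
    (_ : Reg m J x u) (i e : ℤ) (_ : i < u)
    (ω : (Fin m → Bool) → MvPolynomial (Fin n) K) (_ : HomK i e ω)
    (_ : ∀ b, kd m x ω b ∈ J),
    ∃ η : (Fin m → Bool) → MvPolynomial (Fin n) K,
      HomK (i - 1) (e - 1) η ∧ ∀ b, ω b - kd m x η b ∈ J := by
  induction m with
  | zero =>
    intro J hJ x hx u hr i e hi ω hω h
    have hu : u = 0 := hr
    subst hu
    have h0 := hω.eq_zero_of_neg (Or.inl (by simpa using hi))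
    refine ⟨fun _ => 0, HomK.zero _ _, fun b => ?_⟩
    rw [h0, kd_zero]
    simp
  | succ m ih =>
    intro J hJ x hx u hr i e hi ω hω h
    have hα : HomK i e (fun c : Fin m → Bool => ω (Fin.cons false c)) := hω.cons_false
    have hβ : HomK (i - 1) e (fun c : Fin m → Bool => ω (Fin.cons true c)) := hω.cons_true
    have hA : ∀ c, kd m (Fin.tail x) (fun c : Fin m → Bool => ω (Fin.cons false c)) c ∈ J := by
      intro c
      have := h (Fin.cons false c)
      rwa [kd_false] at this
    have hB : ∀ c : Fin m → Bool, x 0 * ω (Fin.cons false c)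
        - kd m (Fin.tail x) (fun c : Fin m → Bool => ω (Fin.cons true c)) c ∈ J := by
      intro c
      have := h (Fin.cons true c)
      rwa [kd_true] at this
    have hx' : ∀ i, (Fin.tail x i).IsHomogeneous 1 := fun i => hx _
    have hx0 : (x 0).IsHomogeneous 1 := hx 0
    set α : (Fin m → Bool) → MvPolynomial (Fin n) K := fun c => ω (Fin.cons false c) with hαd
    set β : (Fin m → Bool) → MvPolynomial (Fin n) K := fun c => ω (Fin.cons true c) with hβd
    rcases hr with hr | ⟨hreg, u', rfl, hr⟩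
    · obtain ⟨γ, hγ1, hγ2⟩ := ih J hJ (Fin.tail x) hx' u hr i e hi α hα hA
      have hρ : HomK (i - 1) e (fun c => x 0 * γ c - β c) := by
        have h1 := hγ1.mul hx0
        have e1 : e - 1 + ((1 : ℕ) : ℤ) = e := by push_cast; ring
        rw [e1] at h1
        exact h1.sub hβ
      obtain ⟨δ, hδ1, hδ2⟩ := ih J hJ (Fin.tail x) hx' u hr (i - 1) e (by omega) _ hρ (by
        intro c
        rw [kd_sub, kd_mul]
        have e1 : x 0 * kd m (Fin.tail x) γ c - kd m (Fin.tail x) β c
            = (x 0 * α c - kd m (Fin.tail x) β c)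
              - x 0 * (α c - kd m (Fin.tail x) γ c) := by ring
        show x 0 * kd m (Fin.tail x) γ c - kd m (Fin.tail x) β c ∈ J
        rw [e1]
        exact J.sub_mem (hB c) (J.mul_mem_left _ (hγ2 c)))
      refine ⟨fun b => bif b 0 then δ (Fin.tail b) else γ (Fin.tail b), ?_, ?_⟩
      · apply HomK.mk_cons
        · simpa using hδ1
        · simpa using hγ1
      · refine cons_cases ?_
        intro t c
        cases t
        · rw [kd_false]
          simpa using hγ2 c
        · rw [kd_true]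
          have e1 := J.neg_mem (hδ2 c)
          have e2 : -(x 0 * γ c - β c - kd m (Fin.tail x) δ c)
              = β c - (x 0 * γ c - kd m (Fin.tail x) δ c) := by ring
          rw [e2] at e1
          simpa using e1
    · obtain ⟨γ, hγ1, hγ2⟩ := ih (J ⊔ Ideal.span {x 0}) (HI_sup_span hJ hx0) (Fin.tail x) hx' u' hr
        (i - 1) e (by push_cast at hi; omega) β hβ (by
          intro c
          have e1 : kd m (Fin.tail x) β c
              = α c * x 0 - (x 0 * α c - kd m (Fin.tail x) β c) := by ring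
          rw [e1]
          exact Ideal.sub_mem _ (Ideal.mem_sup_right (Ideal.mem_span_singleton'.2 ⟨_, rfl⟩))
            (Ideal.mem_sup_left (hB c)))
      have hρ : HomK (i - 1) e (fun c => β c - kd m (Fin.tail x) γ c) := by
        have h1 := HomK.kd hx' hγ1
        have e1 : i - 1 - 1 + 1 = i - 1 := by ring
        have e2 : e - 1 + 1 = e := by ring
        rw [e1, e2] at h1
        exact hβ.sub h1
      obtain ⟨β₁, hβ1, hβ2⟩ := extractK hJ hx0 hρ hγ2
      have hβ1' : HomK (i - 1) (e - 1) β₁ := by simpa using hβ1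
      have hk : ∀ c, kd m (Fin.tail x) β c - x 0 * kd m (Fin.tail x) β₁ c ∈ J := by
        intro c
        have h1 := kd_mem m (Fin.tail x) J _ hβ2 c
        rw [kd_sub, kd_sub, kd_kd, kd_mul] at h1
        simpa using h1
      have hα2 : ∀ c, α c - kd m (Fin.tail x) β₁ c ∈ J := by
        intro c
        apply hreg
        have e1 : x 0 * (α c - kd m (Fin.tail x) β₁ c)
            = (x 0 * α c - kd m (Fin.tail x) β c)
              + (kd m (Fin.tail x) β c - x 0 * kd m (Fin.tail x) β₁ c) := by ring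
        rw [e1]
        exact J.add_mem (hB c) (hk c)
      refine ⟨fun b => bif b 0 then -γ (Fin.tail b) else β₁ (Fin.tail b), ?_, ?_⟩
      · apply HomK.mk_cons
        · simpa using hγ1.neg
        · simpa using hβ1'
      · refine cons_cases ?_
        intro t c
        cases t
        · rw [kd_false]
          simpa using hα2 c
        · rw [kd_true]
          have e0 : kd m (Fin.tail x) (fun c => -γ c) c = -kd m (Fin.tail x) γ c := by
            rw [kd_neg]
          have e1 : β c - kd m (Fin.tail x) γ c - x 0 * β₁ c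
              = β c - (x 0 * β₁ c - kd m (Fin.tail x) (fun c => -γ c) c) := by
            rw [e0]
            ring
          have e2 := hβ2 c
          rw [e1] at e2
          simpa using e2

theorem reg_exact {K : Type} [Field K] {n m : ℕ} {J : Ideal (MvPolynomial (Fin n) K)} (hJ : HI J)
    {x : Fin m → MvPolynomial (Fin n) K} (hx : ∀ i, (x i).IsHomogeneous 1) {u : ℕ}
    (hr : Reg m J x u) {i e : ℤ} (hi : i < u)
    {ω : (Fin m → Bool) → MvPolynomial (Fin n) K} (hω : HomK i e ω)
    (h : ∀ b, kd m x ω b ∈ J) :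
    ∃ η : (Fin m → Bool) → MvPolynomial (Fin n) K,
      HomK (i - 1) (e - 1) η ∧ ∀ b, ω b - kd m x η b ∈ J :=
  KReg_aux m J hJ x hx u hr i e hi ω hω h

end Pool.Agent.EGH2
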