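import Pool.Agent.EGH2.KReg

/-!
# Vanishing of Koszul cohomology of linear forms on `S/(f_1, …, f_k)`

PROOF of `koszul_vanish`: induction on `k` (for all `i e ω`).
* `k = 0`: `pI f 0 = ⊥`.  If `i < u` (as naturals) this is `reg_exact` with `J = ⊥`.  Otherwise
  `u - i = 0`, `sg s 0 = 0`, so the hypothesis says `e < 0` (the alternative `i + 0 < u` is excluded),
  `ω = 0` by `HomK.eq_zero_of_neg`, `η = 0`.
* `k + 1 ≤ c`: let `F = f ⟨k, _⟩`, degree `s k + 1`, `I = pI f k`, `pI f (k+1) = I ⊔ (F)` (`pI_succ`).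
  `dω` is `HomK (i+1) (e+1)` (`HomK.kd`) with values in `I ⊔ (F)`; `extractK` (`HI_pI`) gives `b`,
  `HomK (i+1) (e+1-(s k+1)) = HomK (i+1) (e - s k)`, with `dω - F b ∈ I`.
  `d(dω) = 0` (`kd_kd`) and `kd_mem` give `F * db ∈ I`, hence `db ∈ I` (`hf.reg ⟨k,_⟩`).
  IH with `(i+1, e - s k)` applies to `b`: condition `(i+1) + k < u` or `e - s k < sg s (u-(i+1))`:
  from `i + (k+1) < u` immediate; from `e < sg s (u - i)`: if `u ≤ i` then `e < 0`, `ω = 0`, finish
  directly with `η = 0`; else if `u - i > k + 1` then `i + 1 + k < u`; else `u - i ≤ k+1`,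
  `sg s (u - i) = sg s (u-(i+1)) + s (u-(i+1))` and `s (u-(i+1)) ≤ s k` by monotonicity.
  So `b - dη₁ ∈ I`, `η₁` is `HomK i (e - s k - 1)`.
  Now `ω' = ω - F η₁` is `HomK i e` (`HomK.mul` with degree `s k + 1`), `dω' ∈ I`, and IH with `(i, e)`
  applies (condition: `i + k < u` or `e < sg s (u-i)`): `ω' - dη ∈ I`.  So `ω - dη ∈ I ⊔ (F)`.

PROOF of `K0`: apply `koszul_vanish` with `i = 0`, `k = c` to the cochain
`ω b = if (b = fun _ => false) then r else 0` (`HomK 0 e`).  One needs
`kd m x ω b ∈ pI f c` for all `b`: prove by induction on `m` the general statement: for any ideal `J`, if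
`x j * r ∈ J` for all `j` then `kd m x (fun b => if b = (fun _ => false) then r else 0) b ∈ J`.
`η` is `HomK (-1) _`, so `η = 0` and `ω (fun _ => false) = r ∈ pI f c`.
-/

set_option autoImplicit false

namespace Pool.Agent.EGH2

open MvPolynomial

theorem Kos2_sg_zero (s : ℕ → ℕ) : sg s 0 = 0 := by
  simp [sg]

theorem Kos2_zero {K : Type} [Field K] {n m : ℕ} {x : Fin m → MvPolynomial (Fin n) K} {i e : ℤ}
    {ω : (Fin m → Bool) → MvPolynomial (Fin n) K} (hω : HomK i e ω) (h : i < 0 ∨ e < 0)
    (J : Ideal (MvPolynomial (Fin n) K)) :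
    ∃ η : (Fin m → Bool) → MvPolynomial (Fin n) K,
      HomK (i - 1) (e - 1) η ∧ ∀ b, ω b - kd m x η b ∈ J := by
  have h1 := hω.eq_zero_of_neg h
  subst h1
  refine ⟨fun _ => 0, HomK.zero _ _, fun b => ?_⟩
  rw [kd_zero]
  simp

theorem Kos2_cond {s : ℕ → ℕ} (hs : Monotone s) {i k u : ℕ} {e : ℤ}
    (h : i + (k + 1) < u ∨ e < sg s (u - i)) :
    e < 0 ∨ (i + 1 + k < u ∨ e - s k < sg s (u - (i + 1))) := by
  rcases h with h | h
  · right; left; omega
  · rcases Nat.lt_or_ge i u with h1 | h1
    · right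
      rcases Nat.lt_or_ge (i + 1 + k) u with h2 | h2
      · left; exact h2
      · right
        obtain ⟨t, ht⟩ : ∃ t, u - i = t + 1 := ⟨u - i - 1, by omega⟩
        have h3 : u - (i + 1) = t := by omega
        rw [ht] at h
        rw [h3]
        have h4 : sg s (t + 1) = sg s t + s t := by
          simp [sg, Finset.sum_range_succ]
        rw [h4] at h
        have h5 : s t ≤ s k := hs (by omega)
        push_cast at h
        have h6 : (s t : ℤ) ≤ s k := by exact_mod_cast h5
        linarith
    · left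
      have h2 : u - i = 0 := by omega
      rw [h2, Kos2_sg_zero] at h
      simpa using h

theorem Kos2_kd {A : Type} [CommRing A] (J : Ideal A) (r : A) : ∀ (m : ℕ) (x : Fin m → A),
    (∀ j, x j * r ∈ J) → ∀ b : Fin m → Bool,
      kd m x (fun b => if b = (fun _ => false) then r else 0) b ∈ J := by
  intro m
  induction m with
  | zero =>
    intro x _ b
    simp [kd]
  | succ m ih =>
    intro x hx
    refine cons_cases ?_
    intro t c
    have h1 : ∀ c : Fin m → Bool, (Fin.cons false c : Fin (m + 1) → Bool) = (fun _ => false) ↔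
        c = (fun _ => false) := by
      intro c
      constructor
      · intro h
        funext j
        have := congrFun h j.succ
        rwa [Fin.cons_succ] at this
      · intro h
        funext j
        refine Fin.cases ?_ (fun j => ?_) j
        · rfl
        · rw [Fin.cons_succ, h]
    have h2 : ∀ c : Fin m → Bool, (Fin.cons true c : Fin (m + 1) → Bool) ≠ (fun _ => false) := by
      intro c h
      have := congrFun h 0
      rw [Fin.cons_zero] at this
      exact absurd this (by simp)
    cases t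
    · rw [kd_false]
      simp only [h1]
      exact ih (Fin.tail x) (fun j => hx _) c
    · rw [kd_true]
      simp only [h1, if_neg (h2 _)]
      rw [kd_zero]
      rw [sub_zero]
      split_ifs
      · exact hx 0
      · rw [mul_zero]
        exact J.zero_mem

theorem koszul_vanish {K : Type} [Field K] {n c m : ℕ} {s : ℕ → ℕ} (hs : Monotone s)
    {f : Fin c → MvPolynomial (Fin n) K} (hf : CI s f)
    {x : Fin m → MvPolynomial (Fin n) K} (hx : ∀ i, (x i).IsHomogeneous 1) {u : ℕ}
    (hr : Reg m ⊥ x u) (k : ℕ) (hk : k ≤ c) (i : ℕ) (e : ℤ)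
    (h : i + k < u ∨ e < sg s (u - i))
    {ω : (Fin m → Bool) → MvPolynomial (Fin n) K} (hω : HomK i e ω)
    (hd : ∀ b, kd m x ω b ∈ pI f k) :
    ∃ η : (Fin m → Bool) → MvPolynomial (Fin n) K,
      HomK ((i : ℤ) - 1) (e - 1) η ∧ ∀ b, ω b - kd m x η b ∈ pI f k := by
  induction k generalizing i e ω with
  | zero =>
    rw [pI_zero] at hd ⊢
    rcases Nat.lt_or_ge i u with hiu | hiu
    · exact reg_exact HI_bot hx hr (by exact_mod_cast hiu) hω hd
    · have he : e < 0 := by
        rcases h with h | h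
        · omega
        · have h1 : u - i = 0 := by omega
          rw [h1, Kos2_sg_zero] at h
          simpa using h
      exact Kos2_zero hω (Or.inr he) ⊥
  | succ k ih =>
    have hkc : k < c := by omega
    set F := f ⟨k, hkc⟩ with hF
    have hFh : F.IsHomogeneous (s k + 1) := hf.hom ⟨k, hkc⟩
    have hI : HI (pI f k) := HI_pI hf.hom k (by omega)
    rcases Kos2_cond hs h with he | h'
    · exact Kos2_zero hω (Or.inr he) _
    have h'' : i + k < u ∨ e < sg s (u - i) := by
      rcases h with h | h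
      · left; omega
      · right; exact h
    rw [pI_succ f hkc, ← hF] at hd ⊢
    obtain ⟨b, hb1, hb2⟩ := extractK hI hFh (hω.kd hx) hd
    -- the differential of `b`
    have hdb : ∀ v, kd m x b v ∈ pI f k := by
      intro v
      apply hf.reg ⟨k, hkc⟩
      have h1 := kd_mem m x (pI f k) (fun v => kd m x ω v - F * b v) hb2 v
      rw [kd_sub, kd_kd, kd_mul] at h1
      have h2 := (pI f k).neg_mem h1
      have h3 : -((0 : MvPolynomial (Fin n) K) - F * kd m x b v) = F * kd m x b v := by ring
      rwa [h3] at h2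
    have e1 : e + 1 - ((s k + 1 : ℕ) : ℤ) = e - s k := by push_cast; ring
    rw [e1] at hb1
    obtain ⟨η₁, hη1, hη2⟩ := ih (by omega) (i + 1) (e - s k) h' (by exact_mod_cast hb1) hdb
    have hFη : HomK (i : ℤ) e (fun v => F * η₁ v) := by
      have h1 := hη1.mul hFh
      have e2 : ((i + 1 : ℕ) : ℤ) - 1 = i := by push_cast; ring
      have e3 : e - s k - 1 + ((s k + 1 : ℕ) : ℤ) = e := by push_cast; ring
      rwa [e2, e3] at h1
    have hω' := hω.sub hFη
    have hdω' : ∀ v, kd m x (fun v => ω v - F * η₁ v) v ∈ pI f k := by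
      intro v
      rw [kd_sub, kd_mul]
      have h1 : kd m x ω v - F * kd m x η₁ v =
          (kd m x ω v - F * b v) + F * (b v - kd m x η₁ v) := by ring
      have h2 := (pI f k).add_mem (hb2 v) ((pI f k).mul_mem_left F (hη2 v))
      rw [← h1] at h2
      exact h2
    obtain ⟨η, hη3, hη4⟩ := ih (by omega) i e h'' hω' hdω'
    refine ⟨η, hη3, fun v => ?_⟩
    have h1 : ω v - kd m x η v = (ω v - F * η₁ v - kd m x η v) + η₁ v * F := by ring
    rw [h1]
    exact Ideal.add_mem _ (Ideal.mem_sup_left (hη4 v))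
      (Ideal.mem_sup_right (Ideal.mem_span_singleton'.2 ⟨_, rfl⟩))

theorem K0 {K : Type} [Field K] {n c m : ℕ} {s : ℕ → ℕ} (hs : Monotone s)
    {f : Fin c → MvPolynomial (Fin n) K} (hf : CI s f)
    {x : Fin m → MvPolynomial (Fin n) K} (hx : ∀ i, (x i).IsHomogeneous 1) {u : ℕ}
    (hr : Reg m ⊥ x u) {e : ℕ} (h : c < u ∨ e < sg s u) {r : MvPolynomial (Fin n) K}
    (hrh : r.IsHomogeneous e) (hxr : ∀ j, x j * r ∈ pI f c) : r ∈ pI f c := by
  have hω : HomK ((0 : ℕ) : ℤ) (e : ℤ)
      (fun b : Fin m → Bool => if b = (fun _ => false) then r else 0) := by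
    intro b hb
    by_cases h1 : b = (fun _ => false)
    · refine ⟨?_, e, rfl, ?_⟩
      · rw [h1]
        simp [wt]
      · show (if b = (fun _ => false) then r else 0).IsHomogeneous e
        rw [if_pos h1]
        exact hrh
    · exact absurd (if_neg h1) hb
  obtain ⟨η, hη1, hη2⟩ := koszul_vanish hs hf hx hr c le_rfl 0 (e : ℤ)
    (by rcases h with h | h
        · left; omega
        · right; rw [Nat.sub_zero]; exact_mod_cast h) hω (Kos2_kd _ r m x hxr)
  have h1 := hη1.eq_zero_of_neg (Or.inl (by norm_num))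
  have h2 := hη2 (fun _ => false)
  rw [h1, kd_zero] at h2
  simpa using h2

end Pool.Agent.EGH2
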