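import Pool.Agent.EGH2.LexDefs

/-!
# Counting in the lex segments

* `cnt_exists` PROOF: `LexGT` is a strict total order on exponents; sort `stdF` decreasingly and take the
  `a`-th element (or: induction on `a`; or `Finset.exists…` with the order embedding of a finite linear
  order).
* `upc_le` PROOF: let `t = tau s n d` (`sg s t ≤ d`, `t ≤ n`).  If `j` is counted in `upc n n s w` then `j ≥ t`:
  otherwise `d = ∑ w = ∑_{i ≤ j} w i ≤ ∑_{i<j} s i + (s j - 1) < sg s (j+1) ≤ sg s t ≤ d`.
  So at most `n - t` indices are counted.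
* `cntB` PROOF: `e = d - sg s t ≥ 1`, `d < sg s (t+1)` (for `a ≥ 2` from `hwin`; it is also a hypothesis),
  so `e < s t`.  Let `m_1 = (s 0, …, s (t-1), e, 0, …)` and
  `m_k = (s 0, …, s (t-1), e - 1, 0, …, 1 at position t + k - 1, 0 …)` for `2 ≤ k ≤ n - t`.  They are standard
  (`1 ≤ s (t+k-1)` by monotonicity, `s t ≥ 2`), and `m_1 > m_2 > …`.
  CLAIM: a standard `w` of degree `d` with `w ≥ m_k` is one of `m_1, …, m_k`: before `t` we have
  `w i ≤ s i = m_k i`, so `w i = s i`; then `∑_{i ≥ t} w i = e`; if `w t ≥ e` then `w = m_1`; else `w t = e - 1` and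
  the remaining `1` is at a position `p ≤ t + k - 1`.
  So `card (geF m) = a ≤ n - t` forces `geF m = {m_1, …, m_a}`: (`m_a ∈ geF m`, otherwise `m > m_a`, all elements of
  `geF m` are `> m_a` and there are at most `a - 1` of them; hence `{m_1..m_a} ⊆ geF m`, equality by cardinality).
  `upc m_k ≤ n - (t + k - 1)` (`j ≥ t + k - 1`).  Sum: `∑_{k=1}^a (n - t - k + 1) = a (n - t) - a (a-1)/2`.
-/

set_option autoImplicit false

namespace Pool.Agent.EGH2

theorem Lex2_iff {n : ℕ} (u v : Fin n →₀ ℕ) : LexGT u v ↔ toLex v < toLex u := by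
  rw [Finsupp.Lex.lt_iff]
  rfl

theorem Lex2_irrefl {n : ℕ} (u : Fin n →₀ ℕ) : ¬ LexGT u u := by
  rw [Lex2_iff]
  exact lt_irrefl _

theorem Lex2_trans {n : ℕ} {u v w : Fin n →₀ ℕ} (h1 : LexGT u v) (h2 : LexGT v w) : LexGT u w := by
  rw [Lex2_iff] at *
  exact lt_trans h2 h1

theorem Lex2_tri {n : ℕ} (u v : Fin n →₀ ℕ) : LexGT u v ∨ u = v ∨ LexGT v u := by
  rw [Lex2_iff, Lex2_iff]
  rcases lt_trichotomy (toLex u) (toLex v) with h | h | h
  · exact Or.inr (Or.inr h)
  · exact Or.inr (Or.inl (toLex.injective h))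
  · exact Or.inl h

theorem Lex2_mem_stdF {n c : ℕ} {s : ℕ → ℕ} {d : ℕ} {w : Fin n →₀ ℕ} :
    w ∈ stdF n c s d ↔ ∑ i, w i = d ∧ ∀ i : Fin n, i.val < c → w i ≤ s i.val := by
  unfold stdF
  rw [Finset.mem_filter, Finset.mem_finsuppAntidiag]
  simp

theorem Lex2_mem_geF {n c : ℕ} {s : ℕ → ℕ} {d : ℕ} {m w : Fin n →₀ ℕ} :
    w ∈ geF n c s d m ↔ w ∈ stdF n c s d ∧ (w = m ∨ LexGT w m) := by
  classical
  unfold geF
  rw [Finset.mem_filter]

theorem cnt_exists {n c : ℕ} {s : ℕ → ℕ} {d a : ℕ} (ha : 1 ≤ a)
    (h : a ≤ (stdF n c s d).card) : ∃ m ∈ stdF n c s d, (geF n c s d m).card = a := by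
  classical
  have key : ∀ b ∈ Finset.Icc 1 (stdF n c s d).card, ∃ (m : Fin n →₀ ℕ) (_ : m ∈ stdF n c s d),
      b = (geF n c s d m).card := by
    apply Finset.surj_on_of_inj_on_of_card_le (fun m _ => (geF n c s d m).card)
    · intro m hm
      rw [Finset.mem_Icc]
      constructor
      · exact Finset.card_pos.2 ⟨m, Lex2_mem_geF.2 ⟨hm, Or.inl rfl⟩⟩
      · exact Finset.card_le_card (fun w hw => (Lex2_mem_geF.1 hw).1)
    · intro m m' hm hm' hmm
      by_contra hne
      have hlt : ∀ u v : Fin n →₀ ℕ, v ∈ stdF n c s d → LexGT u v →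
          (geF n c s d u).card < (geF n c s d v).card := by
        intro u v hv huv
        apply Finset.card_lt_card
        rw [Finset.ssubset_iff_of_subset]
        · refine ⟨v, Lex2_mem_geF.2 ⟨hv, Or.inl rfl⟩, fun hvu => ?_⟩
          rcases (Lex2_mem_geF.1 hvu).2 with h1 | h1
          · rw [h1] at huv
            exact Lex2_irrefl _ huv
          · exact Lex2_irrefl _ (Lex2_trans h1 huv)
        · intro w hw
          obtain ⟨h1, h2⟩ := Lex2_mem_geF.1 hw
          refine Lex2_mem_geF.2 ⟨h1, Or.inr ?_⟩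
          rcases h2 with h2 | h2
          · rw [h2]
            exact huv
          · exact Lex2_trans h2 huv
      rcases Lex2_tri m m' with h1 | h1 | h1
      · exact absurd hmm (hlt m m' hm' h1).ne
      · exact hne h1
      · exact absurd hmm (hlt m' m hm h1).ne'
    · rw [Nat.card_Icc]
      omega
  obtain ⟨m, hm, hma⟩ := key a (Finset.mem_Icc.2 ⟨ha, h⟩)
  exact ⟨m, hm, hma.symm⟩

theorem Lex2_sg_mono (s : ℕ → ℕ) : Monotone (sg s) := by
  intro a b hab
  exact Finset.sum_le_sum_of_subset (Finset.range_mono hab)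

theorem upc_le {n : ℕ} {s : ℕ → ℕ} {d : ℕ} {w : Fin n →₀ ℕ}
    (hw : w ∈ stdF n n s d) : upc n n s w + tau s n d ≤ n := by
  classical
  obtain ⟨hsum, hle⟩ := Lex2_mem_stdF.1 hw
  have ht : sg s (tau s n d) ≤ d := by
    have := Nat.findGreatest_spec (P := fun u => sg s u ≤ d) (n := n) (Nat.zero_le n)
      (by simp [sg])
    exact this
  have htn : tau s n d ≤ n := Nat.findGreatest_le n
  set t := tau s n d with htdef
  have hsub : (Finset.univ.filter (fun j : Fin n =>
      (∀ i, j < i → w i = 0) ∧ (j.val < n → w j + 1 ≤ s j.val))) ⊆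
      Finset.univ.filter (fun j : Fin n => t ≤ j.val) := by
    intro j hj
    obtain ⟨h1, h2⟩ := (Finset.mem_filter.1 hj).2
    refine Finset.mem_filter.2 ⟨Finset.mem_univ _, ?_⟩
    by_contra hjt
    have h3 := h2 j.isLt
    -- the sum of `w` is less than `sg s (j + 1)`
    have h4 : ∑ i, w i < sg s (j.val + 1) := by
      have h5 : ∑ i : Fin n, w i < ∑ i : Fin n, (if i.val < j.val + 1 then s i.val else 0) := by
        apply Finset.sum_lt_sum
        · intro i _
          by_cases hi : i.val < j.val + 1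
          · rw [if_pos hi]
            exact hle i i.isLt
          · rw [if_neg hi, h1 i (Fin.lt_def.2 (by omega))]
        · refine ⟨j, Finset.mem_univ _, ?_⟩
          rw [if_pos (Nat.lt_succ_self _)]
          omega
      have h6 : ∑ i : Fin n, (if i.val < j.val + 1 then s i.val else 0) = sg s (j.val + 1) := by
        rw [Fin.sum_univ_eq_sum_range (fun i => if i < j.val + 1 then s i else 0) n,
          ← Finset.sum_filter]
        unfold sg
        apply Finset.sum_congr
        · ext i
          simp only [Finset.mem_filter, Finset.mem_range]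
          have := j.isLt
          omega
        · intro i _
          rfl
      rwa [h6] at h5
    have h7 : sg s (j.val + 1) ≤ sg s t := Lex2_sg_mono s (by omega)
    omega
  have hcard : (Finset.univ.filter (fun j : Fin n => t ≤ j.val)).card ≤ n - t := by
    have h8 : (Finset.univ.filter (fun j : Fin n => t ≤ j.val)).card ≤ (Finset.Ico t n).card := by
      apply Finset.card_le_card_of_injOn (fun j : Fin n => j.val)
      · intro j hj
        have := (Finset.mem_filter.1 hj).2
        exact Finset.mem_coe.2 (Finset.mem_Ico.2 ⟨this, j.isLt⟩)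
      · intro i _ j _ hij
        exact Fin.ext hij
    rwa [Nat.card_Ico] at h8
  have h9 : upc n n s w ≤ n - t := (Finset.card_le_card hsub).trans hcard
  omega

/-- the explicit largest exponents -/
noncomputable def Lex2_M (n : ℕ) (s : ℕ → ℕ) (t e q : ℕ) : Fin n →₀ ℕ :=
  Finsupp.equivFunOnFinite.symm (fun i : Fin n =>
    (if i.val < t then s i.val else 0) + (if i.val = t then e - 1 else 0) +
      (if i.val = q then 1 else 0))

theorem Lex2_M_apply (n : ℕ) (s : ℕ → ℕ) (t e q : ℕ) (i : Fin n) :
    Lex2_M n s t e q i = (if i.val < t then s i.val else 0) + (if i.val = t then e - 1 else 0) +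
      (if i.val = q then 1 else 0) := rfl

theorem Lex2_M_sum {n : ℕ} {s : ℕ → ℕ} {t e q : ℕ} (he : 1 ≤ e) (htn : t < n) (hq : q < n) :
    ∑ i, Lex2_M n s t e q i = sg s t + e := by
  have h1 : ∑ i, Lex2_M n s t e q i = ∑ i ∈ Finset.range n,
      ((if i < t then s i else 0) + (if i = t then e - 1 else 0) + (if i = q then 1 else 0)) := by
    rw [← Fin.sum_univ_eq_sum_range (fun i => (if i < t then s i else 0) +
      (if i = t then e - 1 else 0) + (if i = q then 1 else 0)) n]
    exact Finset.sum_congr rfl fun i _ => Lex2_M_apply n s t e q i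
  rw [h1, Finset.sum_add_distrib, Finset.sum_add_distrib, Finset.sum_ite_eq', Finset.sum_ite_eq',
    if_pos (Finset.mem_range.2 htn), if_pos (Finset.mem_range.2 hq), ← Finset.sum_filter]
  have h2 : (Finset.range n).filter (fun i => i < t) = Finset.range t := by
    ext i
    simp only [Finset.mem_filter, Finset.mem_range]
    omega
  rw [h2]
  unfold sg
  omega

theorem Lex2_M_std {n : ℕ} {s : ℕ → ℕ} (hs : Monotone s) {t e q : ℕ} (he : 1 ≤ e) (hes : e < s t)
    (htn : t < n) (hq : q < n) (htq : t ≤ q) : Lex2_M n s t e q ∈ stdF n n s (sg s t + e) := by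
  refine Lex2_mem_stdF.2 ⟨Lex2_M_sum he htn hq, fun i _ => ?_⟩
  rw [Lex2_M_apply]
  by_cases h1 : i.val < t
  · rw [if_pos h1, if_neg (by omega), if_neg (by omega)]
    omega
  · rw [if_neg h1]
    by_cases h2 : i.val = t
    · rw [if_pos h2, h2]
      split_ifs <;> omega
    · rw [if_neg h2]
      have h3 : s t ≤ s i.val := hs (by omega)
      split_ifs <;> omega

theorem Lex2_M_gt {n : ℕ} {s : ℕ → ℕ} {t e p q : ℕ} (hp : p < n) (hpq : p < q) :
    LexGT (Lex2_M n s t e p) (Lex2_M n s t e q) := by
  refine ⟨⟨p, hp⟩, fun i hi => ?_, ?_⟩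
  · have hi' : i.val < p := Fin.lt_def.1 hi
    rw [Lex2_M_apply, Lex2_M_apply, if_neg (show ¬ i.val = q by omega),
      if_neg (show ¬ i.val = p by omega)]
  · rw [Lex2_M_apply, Lex2_M_apply, if_neg (show ¬ p = q by omega),
      if_pos (show (p : ℕ) = p from rfl)]
    omega

/-- the standard exponents above `M q` are the `M p` with `p < q` -/
theorem Lex2_claim {n : ℕ} {s : ℕ → ℕ} {t e q : ℕ} (he : 1 ≤ e) (htn : t < n)
    {w : Fin n →₀ ℕ} (hw : w ∈ stdF n n s (sg s t + e)) (hq : q < n)
    (hgt : LexGT w (Lex2_M n s t e q)) : ∃ p, t ≤ p ∧ p < q ∧ w = Lex2_M n s t e p := by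
  obtain ⟨hsum, hle⟩ := Lex2_mem_stdF.1 hw
  obtain ⟨r, hr1, hr2⟩ := hgt
  have hrt : t ≤ r.val := by
    by_contra hlt
    have h1 := hle r r.isLt
    rw [Lex2_M_apply, if_pos (by omega)] at hr2
    omega
  -- `w = M r`
  have hge : ∀ i, Lex2_M n s t e r.val i ≤ w i := by
    intro i
    rcases lt_trichotomy i.val r.val with h | h | h
    · have h1 := hr1 i (Fin.lt_def.2 h)
      rw [← h1, Lex2_M_apply, Lex2_M_apply, if_neg (show ¬ i.val = r.val by omega)]
      omega
    · have h1 : i = r := Fin.ext h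
      subst h1
      rw [Lex2_M_apply] at hr2 ⊢
      rw [if_pos (show (i.val : ℕ) = i.val from rfl)]
      omega
    · rw [Lex2_M_apply, if_neg (show ¬ i.val < t by omega), if_neg (show ¬ i.val = t by omega),
        if_neg (show ¬ i.val = r.val by omega)]
      omega
  have heq : w = Lex2_M n s t e r.val := by
    have h1 : ∑ i, Lex2_M n s t e r.val i = ∑ i, w i := by
      rw [hsum, Lex2_M_sum he htn r.isLt]
    have h2 := (Finset.sum_eq_sum_iff_of_le (fun i _ => hge i)).1 h1
    ext i
    exact (h2 i (Finset.mem_univ _)).symm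
  refine ⟨r.val, hrt, ?_, heq⟩
  rw [heq] at hr1 hr2
  by_contra hqr
  rcases Nat.lt_or_ge q r.val with h | h
  · have h1 := hr1 ⟨q, hq⟩ (Fin.lt_def.2 h)
    rw [Lex2_M_apply, Lex2_M_apply, if_pos (show (q : ℕ) = q from rfl),
      if_neg (show ¬ q = r.val by omega)] at h1
    omega
  · have h1 : q = r.val := by omega
    rw [h1] at hr2
    exact lt_irrefl _ hr2

theorem Lex2_M_upc {n : ℕ} {s : ℕ → ℕ} {t e q : ℕ} (hq : q < n) :
    upc n n s (Lex2_M n s t e q) ≤ n - q := by
  classical
  have hsub : (Finset.univ.filter (fun j : Fin n =>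
      (∀ i, j < i → Lex2_M n s t e q i = 0) ∧ (j.val < n → Lex2_M n s t e q j + 1 ≤ s j.val))) ⊆
      Finset.univ.filter (fun j : Fin n => q ≤ j.val) := by
    intro j hj
    obtain ⟨h1, _⟩ := (Finset.mem_filter.1 hj).2
    refine Finset.mem_filter.2 ⟨Finset.mem_univ _, ?_⟩
    by_contra hjq
    have h2 := h1 ⟨q, hq⟩ (Fin.lt_def.2 (by simpa using hjq))
    rw [Lex2_M_apply, if_pos (show (q : ℕ) = q from rfl)] at h2
    omega
  have h8 : (Finset.univ.filter (fun j : Fin n => q ≤ j.val)).card ≤ (Finset.Ico q n).card := by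
    apply Finset.card_le_card_of_injOn (fun j : Fin n => j.val)
    · intro j hj
      have := (Finset.mem_filter.1 hj).2
      exact Finset.mem_coe.2 (Finset.mem_Ico.2 ⟨this, j.isLt⟩)
    · intro i _ j _ hij
      exact Fin.ext hij
  rw [Nat.card_Ico] at h8
  exact (Finset.card_le_card hsub).trans h8

theorem Lex2_gauss (n t a : ℕ) (ha : a + t ≤ n) :
    2 * (∑ k ∈ Finset.range a, (n - (t + k))) + 2 * a * t + a * (a - 1) = 2 * a * n := by
  induction a with
  | zero => simp
  | succ a ih =>
    have h1 := ih (by omega)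
    rw [Finset.sum_range_succ]
    obtain ⟨r, hr⟩ : ∃ r, n = t + a + 1 + r := ⟨n - (t + a + 1), by omega⟩
    have h2 : n - (t + a) = r + 1 := by omega
    have h3 : a + 1 - 1 = a := by omega
    rw [h2, h3]
    have h4 : a * (a - 1) + a = a * a := by
      rcases Nat.eq_zero_or_pos a with h | h
      · subst h
        rfl
      · obtain ⟨b, rfl⟩ : ∃ b, a = b + 1 := ⟨a - 1, by omega⟩
        rw [Nat.add_sub_cancel]
        ring
    subst hr
    nlinarith

theorem cntB {n : ℕ} {s : ℕ → ℕ} (hs : Monotone s) {d a t : ℕ} (ht : sg s t < d)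
    (ht' : d < sg s (t + 1)) (ha : a + t ≤ n) {m : Fin n →₀ ℕ}
    (hm : m ∈ stdF n n s d) (hma : (geF n n s d m).card = a) :
    2 * (∑ w ∈ geF n n s d m, upc n n s w) + 2 * a * t + a * (a - 1) ≤ 2 * a * n := by
  classical
  obtain ⟨e, he⟩ : ∃ e, d = sg s t + e := ⟨d - sg s t, by omega⟩
  subst he
  have he1 : 1 ≤ e := by omega
  have hes : e < s t := by
    have : sg s (t + 1) = sg s t + s t := by
      unfold sg
      rw [Finset.sum_range_succ]
    omega
  have ha1 : 1 ≤ a := by
    rw [← hma]
    exact Finset.card_pos.2 ⟨m, Lex2_mem_geF.2 ⟨hm, Or.inl rfl⟩⟩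
  have htn : t < n := by omega
  set T : Finset (Fin n →₀ ℕ) := (Finset.range a).image (fun k => Lex2_M n s t e (t + k)) with hT
  have hinj : Set.InjOn (fun k => Lex2_M n s t e (t + k)) (Finset.range a : Set ℕ) := by
    intro k hk k' hk' hkk
    have hk1 : k < a := Finset.mem_range.1 (Finset.mem_coe.1 hk)
    have hk2 : k' < a := Finset.mem_range.1 (Finset.mem_coe.1 hk')
    rcases lt_trichotomy k k' with h | h | h
    · have h1 := Lex2_M_gt (n := n) (s := s) (t := t) (e := e) (p := t + k) (q := t + k')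
        (by omega) (by omega)
      simp only at hkk
      rw [hkk] at h1
      exact absurd h1 (Lex2_irrefl _)
    · exact h
    · have h1 := Lex2_M_gt (n := n) (s := s) (t := t) (e := e) (p := t + k') (q := t + k)
        (by omega) (by omega)
      simp only at hkk
      rw [hkk] at h1
      exact absurd h1 (Lex2_irrefl _)
  have hTcard : T.card = a := by
    rw [hT, Finset.card_image_of_injOn hinj, Finset.card_range]
  have hTeq : T = geF n n s (sg s t + e) m := by
    have hlast : Lex2_M n s t e (t + (a - 1)) ∈ geF n n s (sg s t + e) m := by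
      refine Lex2_mem_geF.2 ⟨Lex2_M_std hs he1 hes htn (by omega) (by omega), ?_⟩
      rcases Lex2_tri (Lex2_M n s t e (t + (a - 1))) m with h | h | h
      · exact Or.inr h
      · exact Or.inl h
      · exfalso
        have hsub : geF n n s (sg s t + e) m ⊆
            (Finset.range (a - 1)).image (fun k => Lex2_M n s t e (t + k)) := by
          intro w hw
          obtain ⟨h1, h2⟩ := Lex2_mem_geF.1 hw
          have h3 : LexGT w (Lex2_M n s t e (t + (a - 1))) := by
            rcases h2 with h2 | h2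
            · rw [h2]
              exact h
            · exact Lex2_trans h2 h
          obtain ⟨p, hp1, hp2, hp3⟩ := Lex2_claim he1 htn h1 (by omega) h3
          refine Finset.mem_image.2 ⟨p - t, Finset.mem_range.2 (by omega), ?_⟩
          rw [hp3]
          congr 1
          omega
        have h4 := (Finset.card_le_card hsub).trans Finset.card_image_le
        rw [Finset.card_range] at h4
        omega
    apply Finset.eq_of_subset_of_card_le
    · intro w hw
      obtain ⟨k, hk, rfl⟩ := Finset.mem_image.1 hw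
      have hk' := Finset.mem_range.1 hk
      refine Lex2_mem_geF.2 ⟨Lex2_M_std hs he1 hes htn (by omega) (by omega), ?_⟩
      rcases Nat.lt_or_ge k (a - 1) with h | h
      · right
        have h1 : LexGT (Lex2_M n s t e (t + k)) (Lex2_M n s t e (t + (a - 1))) :=
          Lex2_M_gt (by omega) (by omega)
        rcases (Lex2_mem_geF.1 hlast).2 with h2 | h2
        · rw [← h2]
          exact h1
        · exact Lex2_trans h1 h2
      · have h1 : k = a - 1 := by omega
        rw [h1]
        exact (Lex2_mem_geF.1 hlast).2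
    · rw [hTcard, hma]
  rw [← hTeq, hT, Finset.sum_image hinj]
  have hbound : ∑ k ∈ Finset.range a, upc n n s (Lex2_M n s t e (t + k)) ≤
      ∑ k ∈ Finset.range a, (n - (t + k)) := by
    apply Finset.sum_le_sum
    intro k hk
    have hk' := Finset.mem_range.1 hk
    exact Lex2_M_upc (by omega)
  have hg := Lex2_gauss n t a ha
  omega

end Pool.Agent.EGH2
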