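import Mathlib
import Pool.Agent.EGH2.Defs

/-!
# Combinatorial definitions for the lex-plus-powers side
-/

set_option autoImplicit false

namespace Pool.Agent.EGH2

/-- `u >lex v` (the first difference is in favour of `u`) -/
def LexGT {n : ℕ} (u v : Fin n →₀ ℕ) : Prop := ∃ t, (∀ s, s < t → v s = u s) ∧ v t < u t

open Classical in
/-- exponents of degree `d` with `w i ≤ s i` for the indices `i < c` -/
noncomputable def stdF (n c : ℕ) (s : ℕ → ℕ) (d : ℕ) : Finset (Fin n →₀ ℕ) :=
  (Finset.finsuppAntidiag (Finset.univ : Finset (Fin n)) d).filter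
    (fun w => ∀ i : Fin n, i.val < c → w i ≤ s i.val)

open Classical in
/-- the elements of `stdF` which are lexicographically at least `m` -/
noncomputable def geF (n c : ℕ) (s : ℕ → ℕ) (d : ℕ) (m : Fin n →₀ ℕ) : Finset (Fin n →₀ ℕ) :=
  (stdF n c s d).filter (fun w => w = m ∨ LexGT w m)

open Classical in
/-- the number of indices `j`, not before the last index of the support of `w`, such that `w + e_j` is
still standard -/
noncomputable def upc (n c : ℕ) (s : ℕ → ℕ) (w : Fin n →₀ ℕ) : ℕ :=
  (Finset.univ.filter (fun j : Fin n =>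
    (∀ i, j < i → w i = 0) ∧ (j.val < c → w j + 1 ≤ s j.val))).card

/-- the bound for two-dimensional spaces: `2 n - mu n s d` is the lex-plus-powers growth -/
def mu (n : ℕ) (s : ℕ → ℕ) (d : ℕ) : ℕ :=
  if sg s (tau s n d) = d then 2 * tau s n d + (if s (tau s n d) = 1 then 1 else 0)
  else if tau s n d + 1 < n then 2 * tau s n d + 1
  else 2 * tau s n d + (if d + 1 = sg s (tau s n d + 1) then 1 else 0)

end Pool.Agent.EGH2
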