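import Pool.Agent.EGH2.Aut

/-!
# Linear forms are regular; families of linear forms of given rank

* `lin_reg`: `W` a space of linear forms, `x ∉ W` a linear form: `x` is a nonzerodivisor modulo
  `Ideal.span W`.
  PROOF: take a basis `v` of `W` (finite dimensional) plus `x`; by `exists_aut` may assume that `W` is
  spanned by `X (σ j)` and `x = X a`, `a ∉ range σ`.  Use `MvPolynomial.mem_ideal_span_X_image`:
  if `X a * g` is in the ideal then for every `m ∈ g.support`, `m + single a 1 ∈ (X a * g).support`,
  so some `i ∈ σ(…)` has `(m + single a 1) i ≠ 0`, `i ≠ a`, so `m i ≠ 0`.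
* `reg_of_rank`: PROOF: general claim by induction on `m`: for a space `W ≤ S1 K n` and
  `u + finrank W ≤ finrank (W ⊔ span (range x))` we have `Reg m (Ideal.span W) x u`.
  `m = 0`: `u = 0`.  `m + 1`: if `x 0 ∈ W` use the left alternative
  (`W ⊔ span (range x) = W ⊔ span (range (tail x))`).  Otherwise if `u = 0` use repeatedly the left
  alternative (`Reg m J x 0` always holds); if `u = u' + 1` use the right alternative: `lin_reg` and
  `Ideal.span W ⊔ Ideal.span {x 0} = Ideal.span (W ⊔ span {x 0})`,
  `finrank (W ⊔ span {x 0}) = finrank W + 1`.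
-/

set_option autoImplicit false

namespace Pool.Agent.EGH2

open MvPolynomial

/-- the space of linear forms is finite dimensional -/
theorem LinReg_fin {K : Type} [Field K] {n : ℕ} : Module.Finite K (S1 K n) := by
  have h : S1 K n = Submodule.span K (Set.range (X : Fin n → MvPolynomial (Fin n) K)) :=
    homogeneousSubmodule_one_eq_span_X
  rw [h]
  exact FiniteDimensional.span_of_finite K (Set.finite_range _)

theorem LinReg_finW {K : Type} [Field K] {n : ℕ} {W : Submodule K (MvPolynomial (Fin n) K)}
    (hW : W ≤ S1 K n) : Module.Finite K W := by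
  have := LinReg_fin (K := K) (n := n)
  exact Submodule.finiteDimensional_of_le hW

theorem LinReg_X {K : Type} [Field K] {n : ℕ} (s : Set (Fin n)) (a : Fin n) (ha : a ∉ s)
    (g : MvPolynomial (Fin n) K)
    (hg : X a * g ∈ Ideal.span (X '' s : Set (MvPolynomial (Fin n) K))) :
    g ∈ Ideal.span (X '' s : Set (MvPolynomial (Fin n) K)) := by
  rw [mem_ideal_span_X_image] at hg ⊢
  intro m hm
  have h1 : Finsupp.single a 1 + m ∈ (X a * g).support := by
    rw [mem_support_iff, coeff_X_mul]
    exact mem_support_iff.1 hm
  obtain ⟨i, hi, hne⟩ := hg _ h1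
  refine ⟨i, hi, ?_⟩
  have hia : a ≠ i := fun h => ha (h ▸ hi)
  rwa [Finsupp.add_apply, Finsupp.single_apply, if_neg hia, zero_add] at hne

theorem lin_reg {K : Type} [Field K] {n : ℕ} {W : Submodule K (MvPolynomial (Fin n) K)}
    (hW : W ≤ S1 K n) {x : MvPolynomial (Fin n) K} (hx : x.IsHomogeneous 1) (hxW : x ∉ W) :
    ∀ g, x * g ∈ Ideal.span (W : Set (MvPolynomial (Fin n) K)) →
      g ∈ Ideal.span (W : Set (MvPolynomial (Fin n) K)) := by
  intro g hg
  have hfin := LinReg_finW hW
  set k := Module.finrank K W with hk
  let b := Module.finBasis K W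
  have hspan : Submodule.span K (Set.range fun i => (b i : MvPolynomial (Fin n) K)) = W := by
    have h1 : (Set.range fun i => (b i : MvPolynomial (Fin n) K)) = W.subtype '' Set.range b := by
      rw [← Set.range_comp]
      rfl
    rw [h1, ← Submodule.map_span, b.span_eq, Submodule.map_top, Submodule.range_subtype]
  have hli : LinearIndependent K (fun i => (b i : MvPolynomial (Fin n) K)) :=
    b.linearIndependent.map' W.subtype (Submodule.ker_subtype W)
  obtain ⟨φ, σ, hσ, hφ, -, -⟩ := exists_aut
    (Fin.cons x (fun i => (b i : MvPolynomial (Fin n) K)) : Fin (Module.finrank K W + 1) → _) (by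
      intro i
      refine Fin.cases ?_ (fun j => ?_) i
      · rw [Fin.cons_zero]
        exact hx
      · rw [Fin.cons_succ]
        exact hW (b j).2) (by
      rw [linearIndependent_finCons]
      refine ⟨hli, ?_⟩
      rw [hspan]
      exact hxW)
  -- the ideal
  have hI : Ideal.span (W : Set (MvPolynomial (Fin n) K)) =
      Ideal.span (Set.range fun i => (b i : MvPolynomial (Fin n) K)) := by
    refine le_antisymm ?_ (Ideal.span_mono ?_)
    · rw [Ideal.span_le]
      intro w hw
      have hw' : w ∈ Submodule.span K (Set.range fun i => (b i : MvPolynomial (Fin n) K)) := by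
        rw [hspan]
        exact hw
      exact Submodule.span_subset_span K (MvPolynomial (Fin n) K) _ hw'
    · rintro _ ⟨i, rfl⟩
      exact (b i).2
  have hmap : Ideal.map φ (Ideal.span (W : Set (MvPolynomial (Fin n) K))) =
      Ideal.span (X '' (Set.range fun j => σ (Fin.succ j))) := by
    rw [hI, Ideal.map_span, ← Set.range_comp, ← Set.range_comp]
    congr 2
    funext j
    have := hφ (Fin.succ j)
    rw [Fin.cons_succ] at this
    exact this
  have hφx : φ x = X (σ 0) := by
    have := hφ 0
    rwa [Fin.cons_zero] at this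
  have h1 : φ (x * g) ∈ Ideal.map φ (Ideal.span (W : Set (MvPolynomial (Fin n) K))) :=
    Ideal.mem_map_of_mem φ hg
  rw [hmap, map_mul, hφx] at h1
  have h2 := LinReg_X _ _ (by
    rintro ⟨j, hj⟩
    exact absurd (hσ hj) (Fin.succ_ne_zero j)) _ h1
  rw [← hmap] at h2
  have h3 : Ideal.comap φ (Ideal.map φ (Ideal.span (W : Set (MvPolynomial (Fin n) K)))) =
      Ideal.span (W : Set (MvPolynomial (Fin n) K)) :=
    Ideal.comap_map_of_bijective φ φ.bijective
  rw [← h3]
  exact h2

theorem LinReg_gen {K : Type} [Field K] {n : ℕ} (m : ℕ) :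
    ∀ (W : Submodule K (MvPolynomial (Fin n) K)), W ≤ S1 K n →
      ∀ (x : Fin m → MvPolynomial (Fin n) K), (∀ i, (x i).IsHomogeneous 1) → ∀ u : ℕ,
      u + Module.finrank K W ≤
        Module.finrank K (W ⊔ Submodule.span K (Set.range x) : Submodule K _) →
      Reg m (Ideal.span (W : Set (MvPolynomial (Fin n) K))) x u := by
  induction m with
  | zero =>
    intro W hW x _ u hu
    have h1 : Submodule.span K (Set.range x) = ⊥ := by
      rw [Set.range_eq_empty, Submodule.span_empty]
    rw [h1, sup_bot_eq] at hu
    change u = 0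
    omega
  | succ m ih =>
    intro W hW x hx u hu
    have hxt : ∀ i, (Fin.tail x i).IsHomogeneous 1 := fun i => hx _
    have hle : ∀ (V : Submodule K (MvPolynomial (Fin n) K)), V ≤ S1 K n →
        V ⊔ Submodule.span K (Set.range (Fin.tail x)) ≤ S1 K n := by
      intro V hV
      refine sup_le hV (Submodule.span_le.2 ?_)
      rintro _ ⟨i, rfl⟩
      exact hxt i
    have hr : Submodule.span K (Set.range x) =
        Submodule.span K {x 0} ⊔ Submodule.span K (Set.range (Fin.tail x)) := by
      rw [← Submodule.span_union]
      congr 1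
      ext y
      constructor
      · rintro ⟨i, rfl⟩
        refine Fin.cases (Or.inl rfl) (fun j => Or.inr ⟨j, rfl⟩) i
      · rintro (hy | ⟨j, rfl⟩)
        · exact ⟨0, hy.symm⟩
        · exact ⟨Fin.succ j, rfl⟩
    rw [hr, ← sup_assoc] at hu
    by_cases hxW : x 0 ∈ W
    · left
      refine ih W hW _ hxt u ?_
      have h1 : W ⊔ Submodule.span K {x 0} = W :=
        sup_eq_left.2 (Submodule.span_le.2 (Set.singleton_subset_iff.2 hxW))
      rwa [h1] at hu
    · rcases u with - | u
      · left
        refine ih W hW _ hxt 0 ?_
        rw [zero_add]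
        have := LinReg_finW (hle W hW)
        exact Submodule.finrank_mono le_sup_left
      · right
        refine ⟨lin_reg hW (hx 0) hxW, u, rfl, ?_⟩
        have hW' : W ⊔ Submodule.span K {x 0} ≤ S1 K n :=
          sup_le hW (Submodule.span_le.2 (Set.singleton_subset_iff.2 (hx 0)))
        have h1 := ih (W ⊔ Submodule.span K {x 0}) hW' _ hxt u (by
          have := LinReg_finW hW
          have h2 := Submodule.finrank_add_le_finrank_add_finrank W (Submodule.span K {x 0})
          have h3 : Module.finrank K (Submodule.span K {x 0}) ≤ 1 := by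
            have := finrank_span_le_card (R := K) ({x 0} : Set (MvPolynomial (Fin n) K))
            simpa using this
          have h4 : Module.finrank K (W ⊔ Submodule.span K {x 0} : Submodule K _) ≤
            Module.finrank K W + Module.finrank K (Submodule.span K {x 0}) := h2
          omega)
        have h5 : Ideal.span ((W ⊔ Submodule.span K {x 0} : Submodule K _) :
            Set (MvPolynomial (Fin n) K)) =
            Ideal.span (W : Set (MvPolynomial (Fin n) K)) ⊔ Ideal.span {x 0} := by
          refine le_antisymm ?_ ?_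
          · rw [Ideal.span_le]
            intro y hy
            obtain ⟨w, hw, z, hz, rfl⟩ := Submodule.mem_sup.1 hy
            refine Ideal.add_mem _ ?_ ?_
            · exact Ideal.mem_sup_left (Ideal.subset_span hw)
            · refine Ideal.mem_sup_right ?_
              exact Submodule.span_subset_span K (MvPolynomial (Fin n) K) _ hz
          · refine sup_le (Ideal.span_mono fun y hy => ?_) ?_
            · exact Submodule.mem_sup_left hy
            · rw [Ideal.span_le, Set.singleton_subset_iff]
              exact Ideal.subset_span (Submodule.mem_sup_right (Submodule.mem_span_singleton_self _))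
        rw [h5] at h1
        exact h1

theorem reg_of_rank {K : Type} [Field K] {n m : ℕ} (x : Fin m → MvPolynomial (Fin n) K)
    (hx : ∀ i, (x i).IsHomogeneous 1) (u : ℕ)
    (hu : u ≤ Module.finrank K (Submodule.span K (Set.range x))) : Reg m ⊥ x u := by
  have h1 := LinReg_gen m (⊥ : Submodule K (MvPolynomial (Fin n) K)) bot_le x hx u (by
    rw [finrank_bot, add_zero, bot_sup_eq]
    exact hu)
  have h2 : Ideal.span ((⊥ : Submodule K (MvPolynomial (Fin n) K)) :
      Set (MvPolynomial (Fin n) K)) = ⊥ := by
    rw [Submodule.bot_coe, Ideal.span_singleton_eq_bot]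
  rw [h2] at h1
  exact h1

end Pool.Agent.EGH2
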