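import Pool.Agent.EGH2.MainL

/-!
# The growth bound for two-dimensional spaces
-/

set_option autoImplicit false

namespace Pool.Agent.EGH2

open MvPolynomial

theorem mainA {K : Type} [Field K] [IsAlgClosed K] (n : ℕ) : ∀ {s : ℕ → ℕ}, Monotone s →
    ∀ {f : Fin n → MvPolynomial (Fin n) K}, CI s f → ∀ {d : ℕ}
    (V : Submodule K (MvPolynomial (Fin n) K)), V ≤ homogeneousSubmodule (Fin n) K d →
    qd (pI f n) V = 2 → 2 * n ≤ qd (pI f n) (S1 K n * V) + mu n s d := by
  induction n with
  | zero =>
    intro s hs f hf d V hV hq
    omega
  | succ n ih =>
    intro s hs f hf d V hV hq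
    have hdlt : d < sg s (n + 1) := deg_lt hf V hV (by omega)
    set t := tau s (n + 1) d with ht
    have htle : sg s t ≤ d := sg_tau_le s (n + 1) d
    have htn : t < n + 1 := by
      by_contra hc
      have h1 := tau_le s (n + 1) d
      have h2 : t = n + 1 := by omega
      rw [h2] at htle
      omega
    have htlt : d < sg s (t + 1) := lt_sg_of_tau_lt (c := n + 1) (by omega) (by omega)
    have htau1 : tau s (n + 1) (d + 1) ≤ t + 1 := tau_add_le hs (n + 1) d 1
    have htau2 : d + 1 < sg s (t + 1) → tau s (n + 1) (d + 1) = t := fun h => tau_of_lt h
    have hst : sg s (t + 1) = sg s t + s t := sg_succ s t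
    rcases zd_cases (pI f (n + 1)) V hV with hz | ⟨l, hl, hl0, X, W, hXV, hX, hW, hX0, h1, h2, h3⟩
    · -- no zero divisors
      by_cases ht0 : t = 0
      · rw [ht0] at htlt hst
        have h4 : d < s 0 := by
          rw [hst, sg_zero] at htlt
          omega
        have h5 := low_growth hs hf h4 1 V hV hz hq
        have hsmall : ¬ (n + 1 ≤ 1 ∨ d = 0) := by
          intro h
          have := small_hom h (pI f (n + 1)) V hV
          omega
        have h6 : mu (n + 1) s d = 1 := by
          unfold mu
          rw [← ht, ht0, sg_zero, if_neg (by omega), if_pos (by omega)]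
        rw [h6]
        simp only [Finset.range_one, Finset.sum_singleton] at h5
        omega
      · have h5 := zdf_growth hs hf 1 V hV hz hq
        simp only [Finset.range_one, Finset.sum_singleton, zero_add] at h5
        have h6 : 1 + tau s (n + 1) (d + 1) ≤ mu (n + 1) s d := by
          unfold mu
          rw [← ht]
          split_ifs with c1 c2 c3 c4
          · omega
          · have := htau2 (by omega)
            omega
          · omega
          · omega
          · have := htau2 (by omega)
            omega
        omega
    · by_cases hX2 : qd (pI f (n + 1)) X = qd (pI f (n + 1)) V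
      · -- `l` kills `V`
        obtain ⟨hs0, g, V', hg, hV', hq', hgr⟩ :=
          transfer_growth hs hf hl hl0 V hV (by omega) (h3 hX2)
        have h4 := ih (s := fun i => s (i + 1)) (fun i j hij => hs (by omega)) hg V' hV'
          (by omega)
        rw [mu_shift hs0]
        rw [hgr] at h4
        omega
      · have hX1 : qd (pI f (n + 1)) X = 1 := by omega
        have hW1 : qd (pI f (n + 1)) W = 1 := by omega
        have h4 := one_growth hs hf X hX hX1
        have h5 := one_growth hs hf W hW hW1
        have h6 : t + tau s (n + 1) (d + 1) ≤ mu (n + 1) s d := by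
          unfold mu
          rw [← ht]
          split_ifs with c1 c2 c3 c4
          · omega
          · have := htau2 (by omega)
            omega
          · omega
          · omega
          · have := htau2 (by omega)
            omega
        omega

end Pool.Agent.EGH2
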