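import Pool.Agent.EGH2.Aut

/-!
# Projection along a linear form

* `exists_proj` PROOF: `exists_aut` with `k = 1` gives `φ` with `φ ℓ = X a`.  Let
  `ρ = aeval (Fin.insertNth a 0 X) : S_{n+1} → S_n` (`X a ↦ 0`, `X (a.succAbove j) ↦ X j`) and `π = ρ ∘ φ`.
  The section `ι = aeval (fun j => X (a.succAbove j))` satisfies `ρ ι = id`, and `g - ι (ρ g) ∈ (X a)`
  (the two algebra maps `mk` and `mk ∘ ι ∘ ρ` to `S/(X a)` agree on the variables).  All maps are graded.
-/

set_option autoImplicit false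

namespace Pool.Agent.EGH2

open MvPolynomial

theorem exists_proj {K : Type} [Field K] {n : ℕ}
    (l : MvPolynomial (Fin (n + 1)) K) (hl : l.IsHomogeneous 1) (hl0 : l ≠ 0) :
    ∃ π : MvPolynomial (Fin (n + 1)) K →ₐ[K] MvPolynomial (Fin n) K,
      (∀ e g, g.IsHomogeneous e → (π g).IsHomogeneous e) ∧
      (∀ e (w : MvPolynomial (Fin n) K), w.IsHomogeneous e →
        ∃ g : MvPolynomial (Fin (n + 1)) K, g.IsHomogeneous e ∧ π g = w) ∧
      (∀ g, π g = 0 ↔ g ∈ Ideal.span {l}) := by
  obtain ⟨φ, σ, -, hφ, hg1, hg2⟩ := exists_aut (fun _ : Fin 1 => l) (fun _ => hl)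
    (linearIndependent_unique_iff.2 hl0)
  set a := σ 0 with ha
  have hφl : φ l = X a := hφ 0
  set ρv : Fin (n + 1) → MvPolynomial (Fin n) K :=
    Fin.insertNth (α := fun _ => MvPolynomial (Fin n) K) a 0 (fun j => X j) with hρv
  have hρa : ρv a = 0 := by
    rw [hρv]
    exact Fin.insertNth_apply_same (α := fun _ => MvPolynomial (Fin n) K) _ _ _
  have hρs : ∀ j, ρv (a.succAbove j) = X j := by
    intro j
    rw [hρv]
    exact Fin.insertNth_apply_succAbove (α := fun _ => MvPolynomial (Fin n) K) _ _ _ _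
  have hρh : ∀ i, (ρv i).IsHomogeneous 1 := by
    intro i
    rcases Fin.eq_self_or_eq_succAbove a i with rfl | ⟨j, rfl⟩
    · rw [hρa]
      exact isHomogeneous_zero _ _ _
    · rw [hρs]
      exact isHomogeneous_X _ _
  set ρ : MvPolynomial (Fin (n + 1)) K →ₐ[K] MvPolynomial (Fin n) K := aeval ρv with hρ
  set ι : MvPolynomial (Fin n) K →ₐ[K] MvPolynomial (Fin (n + 1)) K :=
    aeval (fun j => X (a.succAbove j)) with hι
  have hρι : ∀ w, ρ (ι w) = w := by
    have h1 : ρ.comp ι = AlgHom.id K _ := by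
      refine algHom_ext fun j => ?_
      rw [AlgHom.comp_apply, hι, aeval_X, hρ, aeval_X, hρs, AlgHom.id_apply]
    intro w
    exact congrArg (fun f => f w) h1
  have hker : ∀ g, ρ g = 0 ↔ g ∈ Ideal.span {(X a : MvPolynomial (Fin (n + 1)) K)} := by
    have h1 : ((Ideal.Quotient.mkₐ K (Ideal.span {(X a : MvPolynomial (Fin (n + 1)) K)})).comp
        (ι.comp ρ)) = Ideal.Quotient.mkₐ K (Ideal.span {(X a : MvPolynomial (Fin (n + 1)) K)}) := by
      refine algHom_ext fun i => ?_
      rw [AlgHom.comp_apply, AlgHom.comp_apply, hρ, aeval_X]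
      rcases Fin.eq_self_or_eq_succAbove a i with rfl | ⟨j, rfl⟩
      · rw [hρa, map_zero, map_zero, eq_comm, Ideal.Quotient.mkₐ_eq_mk,
          Ideal.Quotient.eq_zero_iff_mem]
        exact Ideal.mem_span_singleton_self _
      · rw [hρs, hι, aeval_X]
    intro g
    constructor
    · intro hg
      have h2 := congrArg (fun f => f g) h1
      simp only [AlgHom.comp_apply, hg, map_zero] at h2
      rw [Ideal.Quotient.mkₐ_eq_mk] at h2
      exact Ideal.Quotient.eq_zero_iff_mem.1 h2.symm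
    · intro hg
      obtain ⟨h, rfl⟩ := Ideal.mem_span_singleton.1 hg
      rw [map_mul, hρ, aeval_X, hρa, zero_mul]
  refine ⟨ρ.comp φ.toAlgHom, ?_, ?_, ?_⟩
  · intro e g hg
    have h1 := (hg1 g e hg).aeval ρv hρh
    rw [one_mul] at h1
    exact h1
  · intro e w hw
    have h1 : (ι w).IsHomogeneous e := by
      have h2 := hw.aeval (fun j => (X (a.succAbove j) : MvPolynomial (Fin (n + 1)) K))
        (fun j => isHomogeneous_X _ _)
      rw [one_mul] at h2
      exact h2
    refine ⟨φ.symm (ι w), hg2 _ e h1, ?_⟩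
    change ρ (φ (φ.symm (ι w))) = w
    rw [AlgEquiv.apply_symm_apply, hρι]
  · intro g
    change ρ (φ g) = 0 ↔ _
    rw [hker]
    constructor
    · intro hg
      obtain ⟨h, hh⟩ := Ideal.mem_span_singleton.1 hg
      refine Ideal.mem_span_singleton.2 ⟨φ.symm h, ?_⟩
      apply φ.injective
      rw [map_mul, hφl, AlgEquiv.apply_symm_apply, hh]
    · intro hg
      obtain ⟨h, rfl⟩ := Ideal.mem_span_singleton.1 hg
      rw [map_mul, hφl]
      exact Ideal.mul_mem_right _ _ (Ideal.mem_span_singleton_self _)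

end Pool.Agent.EGH2
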