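import Pool.Agent.EGH2.Rep
import Pool.Agent.EGH2.Avoid2
import Pool.Agent.EGH2.Proj

/-!
# A linear form killing the whole space: transfer to one variable less

* `transfer_growth` PROOF.  `I = pI f (n+1)`, `T = sg s (n+1)`, `σ' i = s (i+1)`, `T' = sg σ' n = T - s 0`.
  `s 0 ≤ d`: there is `v ∈ V`, `v ∉ I`, `ℓ v ∈ I`; `K0` with the one-element family `ℓ`
  (`reg_of_rank`, rank 1): `¬ d < sg s 1 = s 0`.  And `d ≤ T` by `top_zero`.
  Let `π` be as in `exists_proj`, `g` as in `exists_CI_quot`, `I' = pI g n`, `τ`, `τ'` as in `exists_tau`.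
  Take a basis `v 0, …, v (N-1)` of `V` (finite dimensional).
  For each `k` there is a linear functional `λ_k` on `S_n` with `λ_k (π w) = τ (v_k w)` for `w` homogeneous of
  degree `T - d` (well defined: `π w = 0`, `w = ℓ h`, so `v_k w ∈ I`; e.g. `λ_k w' = τ (v_k * ι(w'))` for a
  linear graded section; it is convenient to choose a graded linear section `ι` of `π` first, and to show
  `w - ι (π w) ∈ (ℓ)`).  It kills `I'_{T-d}`: for `w' = ∑ b_i g_i`, lift to `w = ∑ B_i G_i ∈ I` homogeneous.
  `T - d ≤ T'`, so `represent` (in `S_n`, for `g`) gives `v'_k` homogeneous of degree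
  `T' - (T - d) = d - s 0` with `λ_k w' = τ' (v'_k w')` for `w'` of degree `T - d`.
  KEY: for all `j` and forms `u_k` of degree `j` of `S_{n+1}`:
    `∑ u_k v_k ∈ I ↔ ∑ π(u_k) v'_k ∈ I'`.
  If `d + j > T` both sides hold by `top_zero` (`d - s 0 + j > T'`).  If `d + j ≤ T`: by `nondeg` the left side is
  equivalent to `τ ((∑ u_k v_k) w) = 0` for all `w` of degree `T - d - j`, i.e. `∑ λ_k (π (u_k w)) = 0`, i.e.
  `τ' ((∑ v'_k π(u_k)) π w) = 0` for all `w`, which by surjectivity of `π` in degree `T - d - j` and `nondeg` is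
  the right side.
  `V' = span (v'_k)`.  `j = 0`: `qd I' V' = N - dim {c : ∑ c_k v'_k ∈ I'} = N - dim {c : ∑ c_k v_k ∈ I} = qd I V`.
  `j = 1`: the linear maps `(Fin N → S₁) → S/I`, `u ↦ ∑ u_k v_k` and `(Fin N → S'₁) → S'/I'` have ranges of
  dimension `qd (S₁ V)`, `qd (S'₁ V')`, and `π` induces a surjection between the sources which matches the
  kernels, so the ranks agree.
-/

set_option autoImplicit false

namespace Pool.Agent.EGH2

open MvPolynomial

theorem Transf_rank {K A B C : Type} [Field K] [AddCommGroup A] [Module K A] [AddCommGroup B]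
    [Module K B] [AddCommGroup C] [Module K C] (F : A →ₗ[K] B) (G : A →ₗ[K] C)
    (h : ∀ a, F a = 0 ↔ G a = 0) :
    Module.finrank K (LinearMap.range F) = Module.finrank K (LinearMap.range G) := by
  have hk : LinearMap.ker F = LinearMap.ker G := by
    ext a
    rw [LinearMap.mem_ker, LinearMap.mem_ker, h]
  exact ((F.quotKerEquivRange.symm.trans (Submodule.quotEquivOfEq _ _ hk)).trans
    G.quotKerEquivRange).finrank_eq

theorem Transf_lift {K A B : Type} [Field K] [AddCommGroup A] [Module K A] [AddCommGroup B]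
    [Module K B] (P : A →ₗ[K] B) (φ : A →ₗ[K] K) (h : ∀ a, P a = 0 → φ a = 0) :
    ∃ L : B →ₗ[K] K, ∀ a, L (P a) = φ a := by
  have h1 : φ ∈ (LinearMap.ker P).dualAnnihilator := by
    rw [Submodule.mem_dualAnnihilator]
    intro a ha
    exact h a ha
  rw [← LinearMap.range_dualMap_eq_dualAnnihilator_ker] at h1
  obtain ⟨L, hL⟩ := h1
  exact ⟨L, fun a => LinearMap.congr_fun hL a⟩

/-- the map `u ↦ ∑ u_k v_k` -/
noncomputable def Transf_F {K : Type} [Field K] {m N : ℕ} (H : Submodule K (MvPolynomial (Fin m) K))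
    (v : Fin N → MvPolynomial (Fin m) K) : (Fin N → H) →ₗ[K] MvPolynomial (Fin m) K :=
  ∑ k, (LinearMap.mulRight K (v k)).comp (H.subtype.comp (LinearMap.proj k))

theorem Transf_F_apply {K : Type} [Field K] {m N : ℕ} (H : Submodule K (MvPolynomial (Fin m) K))
    (v : Fin N → MvPolynomial (Fin m) K) (u : Fin N → H) :
    Transf_F H v u = ∑ k, (u k : MvPolynomial (Fin m) K) * v k := by
  unfold Transf_F
  rw [LinearMap.sum_apply]
  rfl

theorem Transf_range {K : Type} [Field K] {m N : ℕ} (H : Submodule K (MvPolynomial (Fin m) K))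
    (v : Fin N → MvPolynomial (Fin m) K) :
    LinearMap.range (Transf_F H v) = H * Submodule.span K (Set.range v) := by
  apply le_antisymm
  · rintro _ ⟨u, rfl⟩
    rw [Transf_F_apply]
    exact Submodule.sum_mem _ fun k _ =>
      Submodule.mul_mem_mul (u k).2 (Submodule.subset_span ⟨k, rfl⟩)
  · rw [Submodule.mul_le]
    intro h hh y hy
    have h1 : Submodule.span K (Set.range v) ≤
        (LinearMap.range (Transf_F H v)).comap (LinearMap.mulLeft K h) := by
      rw [Submodule.span_le]
      rintro _ ⟨k, rfl⟩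
      rw [SetLike.mem_coe, Submodule.mem_comap, LinearMap.mem_range]
      refine ⟨Pi.single k ⟨h, hh⟩, ?_⟩
      rw [Transf_F_apply, Finset.sum_eq_single k]
      · rw [Pi.single_eq_same]
        rfl
      · intro j _ hj
        rw [Pi.single_eq_of_ne hj]
        simp
      · intro h2
        exact absurd (Finset.mem_univ k) h2
    exact h1 hy

theorem Transf_zero {K : Type} [Field K] {m : ℕ} (V : Submodule K (MvPolynomial (Fin m) K)) :
    homogeneousSubmodule (Fin m) K 0 * V = V := by
  have h1 : homogeneousSubmodule (Fin m) K 0 = 1 := by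
    ext p
    rw [mem_homogeneousSubmodule, Submodule.mem_one]
    constructor
    · intro hp
      refine ⟨coeff 0 p, ?_⟩
      rw [algebraMap_eq]
      ext e
      rw [coeff_C]
      split_ifs with he
      · rw [he]
      · by_contra hne
        have h2 := hp (Ne.symm hne)
        apply he
        rw [Finsupp.weight_apply] at h2
        symm
        ext i
        have h3 : e.sum (fun i c => c • (1 : Fin m → ℕ) i) = 0 := h2
        rw [Finsupp.sum, Finset.sum_eq_zero_iff] at h3
        by_cases hi : i ∈ e.support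
        · have := h3 i hi
          simpa using this
        · simpa using hi
    · rintro ⟨a, rfl⟩
      rw [algebraMap_eq]
      exact isHomogeneous_C _ a
  rw [h1, one_mul]

theorem transfer_growth {K : Type} [Field K] [Infinite K] {n : ℕ} {s : ℕ → ℕ} (hs : Monotone s)
    {f : Fin (n + 1) → MvPolynomial (Fin (n + 1)) K} (hf : CI s f) {d : ℕ}
    {l : MvPolynomial (Fin (n + 1)) K} (hl : l.IsHomogeneous 1) (hl0 : l ≠ 0)
    (V : Submodule K (MvPolynomial (Fin (n + 1)) K))
    (hV : V ≤ homogeneousSubmodule (Fin (n + 1)) K d) (hV0 : 0 < qd (pI f (n + 1)) V)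
    (hlV : ∀ v ∈ V, l * v ∈ pI f (n + 1)) :
    s 0 ≤ d ∧ ∃ (g : Fin n → MvPolynomial (Fin n) K) (V' : Submodule K (MvPolynomial (Fin n) K)),
      CI (fun i => s (i + 1)) g ∧ V' ≤ homogeneousSubmodule (Fin n) K (d - s 0) ∧
      qd (pI g n) V' = qd (pI f (n + 1)) V ∧
      qd (pI g n) (S1 K n * V') = qd (pI f (n + 1)) (S1 K (n + 1) * V) := by
  classical
  set I := pI f (n + 1) with hI
  have hsg : sg s (n + 1) = s 0 + sg (fun i => s (i + 1)) n := by
    unfold sg
    rw [Finset.sum_range_succ', add_comm]
  have hs' : Monotone fun i => s (i + 1) := fun a b hab => hs (by omega)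
  -- an element outside of `I`
  obtain ⟨v0, hv0V, hv0⟩ : ∃ v ∈ V, v ∉ I := by
    by_contra hcon
    push Not at hcon
    have := (qd_eq_zero I V hV).2 hcon
    omega
  have hreg : Reg 1 (⊥ : Ideal (MvPolynomial (Fin (n + 1)) K)) (fun _ : Fin 1 => l) 1 := by
    right
    refine ⟨fun g hg => ?_, 0, rfl, rfl⟩
    rw [Ideal.mem_bot] at hg ⊢
    exact (mul_eq_zero.1 hg).resolve_left hl0
  have hd0 : s 0 ≤ d := by
    by_contra hcon
    apply hv0
    refine K0 hs hf (x := fun _ : Fin 1 => l) (fun _ => hl) hreg (e := d) (Or.inr ?_) (hV hv0V)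
      (fun _ => hlV v0 hv0V)
    have : sg s 1 = s 0 := by simp [sg]
    omega
  have hdT : d ≤ sg s (n + 1) := by
    by_contra hcon
    exact hv0 (top_zero hf (by omega) (hV hv0V))
  refine ⟨hd0, ?_⟩
  obtain ⟨π, hπh, hπs, hπk⟩ := exists_proj l hl hl0
  obtain ⟨g, hg, hG⟩ := exists_CI_quot hs f hf l hl hl0 π hπh hπs hπk
  obtain ⟨τ, hτ⟩ := exists_tau hf
  obtain ⟨τ', hτ'⟩ := exists_tau hg
  set T := sg s (n + 1) with hT
  set T' := sg (fun i => s (i + 1)) n with hT'
  -- `π` is surjective
  have hsurj : Function.Surjective π := by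
    intro x
    choose y hy using fun i => hπs i (homogeneousComponent i x) (homogeneousComponent_isHomogeneous i x)
    refine ⟨∑ i ∈ Finset.range (x.totalDegree + 1), y i, ?_⟩
    rw [map_sum, Finset.sum_congr rfl fun i _ => (hy i).2, sum_homogeneousComponent]
  -- preimages of the ideal of `g`
  have hpre : ∀ w, π w ∈ pI g n → w ∈ I ⊔ Ideal.span {l} := by
    intro w hw
    have h1 : pI g n ≤ I.map π := by
      apply pI_le
      intro i _
      obtain ⟨G, hGI, _, hGg⟩ := hG i
      rw [← hGg]
      exact Ideal.mem_map_of_mem π hGI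
    obtain ⟨y, hy, hyw⟩ := (Ideal.mem_map_iff_of_surjective π hsurj).1 (h1 hw)
    have h2 : w - y ∈ Ideal.span {l} := by
      rw [← hπk, map_sub, hyw, sub_self]
    have h3 : w = y + (w - y) := by ring
    rw [h3]
    exact Ideal.add_mem _ (Ideal.mem_sup_left hy) (Ideal.mem_sup_right h2)
  -- the dual element
  have hdual : ∀ v ∈ V, ∃ v' : MvPolynomial (Fin n) K, v'.IsHomogeneous (d - s 0) ∧
      ∀ w : MvPolynomial (Fin (n + 1)) K, w.IsHomogeneous (T - d) → τ (v * w) = τ' (v' * π w) := by
    intro v hv
    have hvh : v.IsHomogeneous d := hV hv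
    have hmem : ∀ w : MvPolynomial (Fin (n + 1)) K, w.IsHomogeneous (T - d) →
        w ∈ I ⊔ Ideal.span {l} → τ (v * w) = 0 := by
      intro w hw hwI
      have h1 : (v * w).IsHomogeneous T := by
        have h2 := hvh.mul hw
        rwa [Nat.add_sub_cancel' hdT] at h2
      rw [hτ _ h1]
      obtain ⟨a, ha, y, hy, rfl⟩ := Submodule.mem_sup.1 hwI
      obtain ⟨b, rfl⟩ := Ideal.mem_span_singleton'.1 hy
      have h3 : v * (a + b * l) = v * a + b * (l * v) := by ring
      rw [h3]
      exact Ideal.add_mem _ (Ideal.mul_mem_left _ _ ha) (Ideal.mul_mem_left _ _ (hlV v hv))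
    obtain ⟨L, hL⟩ := Transf_lift
      (π.toLinearMap.comp (homogeneousSubmodule (Fin (n + 1)) K (T - d)).subtype)
      ((τ.comp (LinearMap.mulLeft K v)).comp (homogeneousSubmodule (Fin (n + 1)) K (T - d)).subtype)
      (by
        intro a ha
        exact hmem a.1 a.2 (Ideal.mem_sup_right ((hπk _).1 ha)))
    have hL' : ∀ w : MvPolynomial (Fin (n + 1)) K, w.IsHomogeneous (T - d) → L (π w) = τ (v * w) :=
      fun w hw => hL ⟨w, hw⟩
    obtain ⟨r, hr1, hr2⟩ := represent hs' hg hτ' (j := T - d) (by omega) L (by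
      intro x hx hxh
      obtain ⟨w, hw, rfl⟩ := hπs _ x hxh
      rw [hL' w hw]
      exact hmem w hw (hpre w hx))
    refine ⟨r, ?_, fun w hw => ?_⟩
    · have h1 : sg (fun i => s (i + 1)) n - (T - d) = d - s 0 := by omega
      rwa [h1] at hr1
    · rw [← hL' w hw]
      exact hr2 _ (hπh _ _ hw)
  -- generators of `V`
  have := finite_hom (K := K) (n + 1) d
  have : FiniteDimensional K V := Submodule.finiteDimensional_of_le hV
  obtain ⟨N, v, hv⟩ := Submodule.fg_iff_exists_fin_generating_family.1
    (Module.Finite.iff_fg.1 (inferInstance : Module.Finite K V))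
  have hvV : ∀ k, v k ∈ V := fun k => hv ▸ Submodule.subset_span ⟨k, rfl⟩
  choose v' hv'h hv' using fun k => hdual (v k) (hvV k)
  -- the key equivalence
  have key : ∀ (j : ℕ) (u : Fin N → MvPolynomial (Fin (n + 1)) K), (∀ k, (u k).IsHomogeneous j) →
      (∑ k, u k * v k ∈ I ↔ ∑ k, π (u k) * v' k ∈ pI g n) := by
    intro j u hu
    have h1 : (∑ k, u k * v k).IsHomogeneous (j + d) :=
      IsHomogeneous.sum _ _ _ fun k _ => (hu k).mul (hV (hvV k))
    have h2 : (∑ k, π (u k) * v' k).IsHomogeneous (j + (d - s 0)) :=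
      IsHomogeneous.sum _ _ _ fun k _ => (hπh _ _ (hu k)).mul (hv'h k)
    rcases Nat.lt_or_ge T (j + d) with hjd | hjd
    · constructor
      · intro _
        exact top_zero hg (by omega) h2
      · intro _
        exact top_zero hf hjd h1
    · have h3 : ∀ w : MvPolynomial (Fin (n + 1)) K, w.IsHomogeneous (T - (j + d)) →
          τ ((∑ k, u k * v k) * w) = τ' ((∑ k, π (u k) * v' k) * π w) := by
        intro w hw
        rw [Finset.sum_mul, Finset.sum_mul, map_sum, map_sum]
        apply Finset.sum_congr rfl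
        intro k _
        have h4 : (u k * w).IsHomogeneous (T - d) := by
          have h5 := (hu k).mul hw
          have h6 : j + (T - (j + d)) = T - d := by omega
          rwa [h6] at h5
        have h5 : u k * v k * w = v k * (u k * w) := by ring
        rw [h5, hv' k _ h4, map_mul π]
        congr 1
        ring
      constructor
      · intro h4
        by_contra h5
        obtain ⟨h6, w', hw', h7⟩ := nondeg hs' hg h2 h5
        obtain ⟨w, hw, rfl⟩ := hπs _ w' hw'
        apply h7
        have h8 : ((∑ k, π (u k) * v' k) * π w).IsHomogeneous T' := by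
          have h9 := h2.mul hw'
          rwa [Nat.add_sub_cancel' h6] at h9
        rw [← hτ' _ h8, ← h3 w (by
          have h9 : T - (j + d) = sg (fun i => s (i + 1)) n - (j + (d - s 0)) := by omega
          rw [h9]
          exact hw)]
        have h10 : ((∑ k, u k * v k) * w).IsHomogeneous T := by
          have h9 := h1.mul hw
          have h11 : j + d + (sg (fun i => s (i + 1)) n - (j + (d - s 0))) = T := by omega
          rwa [h11] at h9
        rw [hτ _ h10]
        exact Ideal.mul_mem_right _ _ h4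
      · intro h4
        by_contra h5
        obtain ⟨h6, w, hw, h7⟩ := nondeg hs hf h1 h5
        apply h7
        have h8 : ((∑ k, u k * v k) * w).IsHomogeneous T := by
          have h9 := h1.mul hw
          rwa [Nat.add_sub_cancel' h6] at h9
        rw [← hτ _ h8, h3 w hw]
        have h10 : ((∑ k, π (u k) * v' k) * π w).IsHomogeneous T' := by
          have h9 := h2.mul (hπh _ _ hw)
          have h11 : j + (d - s 0) + (sg s (n + 1) - (j + d)) = T' := by omega
          rwa [h11] at h9
        rw [hτ' _ h10]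
        exact Ideal.mul_mem_right _ _ h4
  -- dimensions
  have main : ∀ j, qd (pI g n) (homogeneousSubmodule (Fin n) K j * Submodule.span K (Set.range v')) =
      qd I (homogeneousSubmodule (Fin (n + 1)) K j * V) := by
    intro j
    let p : (Fin N → homogeneousSubmodule (Fin (n + 1)) K j) →ₗ[K]
        (Fin N → homogeneousSubmodule (Fin n) K j) :=
      LinearMap.pi fun k => (π.toLinearMap.restrict (p := homogeneousSubmodule (Fin (n + 1)) K j)
        (q := homogeneousSubmodule (Fin n) K j) (fun x hx => hπh _ _ hx)).comp (LinearMap.proj k)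
    have hp : ∀ u k, ((p u k : homogeneousSubmodule (Fin n) K j) : MvPolynomial (Fin n) K) =
        π (u k : MvPolynomial (Fin (n + 1)) K) := fun u k => rfl
    have hps : LinearMap.range p = ⊤ := by
      rw [LinearMap.range_eq_top]
      intro y
      choose x hx using fun k => hπs j (y k : MvPolynomial (Fin n) K) (y k).2
      refine ⟨fun k => ⟨x k, (hx k).1⟩, ?_⟩
      funext k
      apply Subtype.ext
      rw [hp]
      exact (hx k).2
    have h1 := Transf_rank
      ((Ideal.Quotient.mkₐ K I).toLinearMap.comp (Transf_F (homogeneousSubmodule (Fin (n + 1)) K j) v))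
      (((Ideal.Quotient.mkₐ K (pI g n)).toLinearMap.comp
        (Transf_F (homogeneousSubmodule (Fin n) K j) v')).comp p) (by
        intro u
        have h2 := key j (fun k => (u k : MvPolynomial (Fin (n + 1)) K)) (fun k => (u k).2)
        have h3 : ((Ideal.Quotient.mkₐ K I).toLinearMap.comp
            (Transf_F (homogeneousSubmodule (Fin (n + 1)) K j) v)) u =
            Ideal.Quotient.mk I (∑ k, (u k : MvPolynomial (Fin (n + 1)) K) * v k) := by
          rw [LinearMap.comp_apply, Transf_F_apply]
          rfl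
        have h4 : (((Ideal.Quotient.mkₐ K (pI g n)).toLinearMap.comp
            (Transf_F (homogeneousSubmodule (Fin n) K j) v')).comp p) u =
            Ideal.Quotient.mk (pI g n) (∑ k, π (u k : MvPolynomial (Fin (n + 1)) K) * v' k) := by
          rw [LinearMap.comp_apply, LinearMap.comp_apply, Transf_F_apply]
          rfl
        rw [h3, h4, Ideal.Quotient.eq_zero_iff_mem, Ideal.Quotient.eq_zero_iff_mem]
        exact h2)
    rw [LinearMap.range_comp_of_range_eq_top _ hps, LinearMap.range_comp, LinearMap.range_comp,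
      Transf_range, Transf_range, hv] at h1
    exact h1.symm
  refine ⟨g, Submodule.span K (Set.range v'), hg, ?_, ?_, main 1⟩
  · rw [Submodule.span_le]
    rintro _ ⟨k, rfl⟩
    exact hv'h k
  · have h1 := main 0
    rwa [Transf_zero, Transf_zero] at h1

end Pool.Agent.EGH2
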