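import Pool.Agent.EGH2.E01b

/-!
# The dimension `qd I V` of a space `V` of forms modulo an ideal `I`

All elementary linear algebra: `qd I V = finrank (V.map mk)`.  `finite_hom`: `homogeneousSubmodule (Fin n) K j` is
spanned by the finitely many monomials of degree `j` (e.g. it is `Finsupp.supported` on a finite set:
`homogeneousSubmodule_eq_finsupp_supported`).  `finrank_S1`: basis `X i`.
`qd_add`: rank-nullity for `mk` restricted to `V`.  `qd_congr`: from `qd_add`.
-/

set_option autoImplicit false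

namespace Pool.Agent.EGH2

open MvPolynomial

theorem finite_hom {K : Type} [Field K] (n j : ℕ) :
    FiniteDimensional K (homogeneousSubmodule (Fin n) K j) :=
  Module.Finite.iff_fg.2 (homogeneousSubmodule_fg (Fin n) K j)

theorem QD_fin {K : Type} [Field K] {n j : ℕ} {V : Submodule K (MvPolynomial (Fin n) K)}
    (hV : V ≤ homogeneousSubmodule (Fin n) K j) : FiniteDimensional K V := by
  have := finite_hom (K := K) n j
  exact Submodule.finiteDimensional_of_le hV

theorem finrank_S1 {K : Type} [Field K] (n : ℕ) : Module.finrank K (S1 K n) = n := by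
  unfold S1
  rw [homogeneousSubmodule_one_eq_span_X, finrank_span_eq_card]
  · simp
  · exact (linearIndependent_X (Fin n) K)

theorem QD_ker {K : Type} [Field K] {n : ℕ} (I : Ideal (MvPolynomial (Fin n) K))
    (V : Submodule K (MvPolynomial (Fin n) K)) :
    Module.finrank K (V.map (Ideal.Quotient.mkₐ K I).toLinearMap)
      = Module.finrank K (LinearMap.range ((Ideal.Quotient.mkₐ K I).toLinearMap.domRestrict V)) := by
  rw [LinearMap.range_domRestrict]

theorem qd_add {K : Type} [Field K] {n j : ℕ} (I : Ideal (MvPolynomial (Fin n) K))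
    (V : Submodule K (MvPolynomial (Fin n) K)) (hV : V ≤ homogeneousSubmodule (Fin n) K j) :
    qd I V + Module.finrank K (V ⊓ Submodule.restrictScalars K I : Submodule K _)
      = Module.finrank K V := by
  have := QD_fin hV
  unfold qd
  rw [QD_ker, ← LinearMap.finrank_range_add_finrank_ker
    ((Ideal.Quotient.mkₐ K I).toLinearMap.domRestrict V)]
  congr 1
  have h1 : (V ⊓ Submodule.restrictScalars K I : Submodule K _)
      = (LinearMap.ker ((Ideal.Quotient.mkₐ K I).toLinearMap.domRestrict V)).map V.subtype := by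
    ext g
    constructor
    · rintro ⟨hg, hgI⟩
      refine ⟨⟨g, hg⟩, ?_, rfl⟩
      rw [SetLike.mem_coe, LinearMap.mem_ker]
      exact Ideal.Quotient.eq_zero_iff_mem.2 hgI
    · rintro ⟨⟨g', hg'⟩, h2, rfl⟩
      refine ⟨hg', ?_⟩
      rw [SetLike.mem_coe, LinearMap.mem_ker] at h2
      exact Ideal.Quotient.eq_zero_iff_mem.1 h2
  rw [h1, Submodule.finrank_map_subtype_eq]

theorem qd_congr {K : Type} [Field K] {n j : ℕ} {I I' : Ideal (MvPolynomial (Fin n) K)}
    (h : ∀ g : MvPolynomial (Fin n) K, g.IsHomogeneous j → (g ∈ I ↔ g ∈ I'))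
    (V : Submodule K (MvPolynomial (Fin n) K)) (hV : V ≤ homogeneousSubmodule (Fin n) K j) :
    qd I V = qd I' V := by
  have h1 := qd_add I V hV
  have h2 := qd_add I' V hV
  have h3 : (V ⊓ Submodule.restrictScalars K I : Submodule K _)
      = (V ⊓ Submodule.restrictScalars K I' : Submodule K _) := by
    ext g
    constructor
    · rintro ⟨hg, hgI⟩
      exact ⟨hg, (h g (hV hg)).1 hgI⟩
    · rintro ⟨hg, hgI⟩
      exact ⟨hg, (h g (hV hg)).2 hgI⟩
  rw [h3] at h1
  omega

theorem qd_mono {K : Type} [Field K] {n j : ℕ} (I : Ideal (MvPolynomial (Fin n) K))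
    {V W : Submodule K (MvPolynomial (Fin n) K)} (h : V ≤ W)
    (hW : W ≤ homogeneousSubmodule (Fin n) K j) : qd I V ≤ qd I W := by
  have := QD_fin hW
  unfold qd
  exact Submodule.finrank_mono (Submodule.map_mono h)

theorem qd_eq_zero {K : Type} [Field K] {n j : ℕ} (I : Ideal (MvPolynomial (Fin n) K))
    (V : Submodule K (MvPolynomial (Fin n) K)) (hV : V ≤ homogeneousSubmodule (Fin n) K j) :
    qd I V = 0 ↔ ∀ v ∈ V, v ∈ I := by
  have := QD_fin hV
  unfold qd
  rw [Submodule.finrank_eq_zero, eq_bot_iff, Submodule.map_le_iff_le_comap]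
  constructor
  · intro h v hv
    exact Ideal.Quotient.eq_zero_iff_mem.1 ((Submodule.mem_bot K).1 (h hv))
  · intro h v hv
    exact (Submodule.mem_bot K).2 (Ideal.Quotient.eq_zero_iff_mem.2 (h v hv))

theorem qd_eq_imp {K : Type} [Field K] {n j : ℕ} (I : Ideal (MvPolynomial (Fin n) K))
    {V W : Submodule K (MvPolynomial (Fin n) K)} (h : V ≤ W)
    (hW : W ≤ homogeneousSubmodule (Fin n) K j) (he : qd I V = qd I W) :
    ∀ w ∈ W, ∃ v ∈ V, w - v ∈ I := by
  have := QD_fin hW
  unfold qd at he
  have h1 := Submodule.eq_of_le_of_finrank_eq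
    (Submodule.map_mono (f := (Ideal.Quotient.mkₐ K I).toLinearMap) h) he
  intro w hw
  have h2 : (Ideal.Quotient.mkₐ K I).toLinearMap w ∈
      W.map (Ideal.Quotient.mkₐ K I).toLinearMap := Submodule.mem_map_of_mem hw
  rw [← h1] at h2
  obtain ⟨v, hv, h3⟩ := h2
  refine ⟨v, hv, ?_⟩
  rw [← Ideal.Quotient.eq]
  exact h3.symm

theorem S1_mul_le {K : Type} [Field K] {n j : ℕ}
    {V : Submodule K (MvPolynomial (Fin n) K)} (hV : V ≤ homogeneousSubmodule (Fin n) K j) :
    S1 K n * V ≤ homogeneousSubmodule (Fin n) K (j + 1) := by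
  rw [Submodule.mul_le]
  intro a ha b hb
  have h1 : (a * b).IsHomogeneous (1 + j) := IsHomogeneous.mul ha (hV hb)
  rw [add_comm j 1]
  exact h1

end Pool.Agent.EGH2
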