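import Pool.Agent.EGH2.Kos2
import Pool.Agent.EGH2.LinReg
import Pool.Agent.EGH2.QD

/-!
# Growth of one-dimensional spaces; the splitting lemma

* `one_growth` PROOF: pick `v ∈ V`, `v ∉ I`; `V.map mk = K·[v]`.  The map `S₁ → S/I`, `ℓ ↦ [ℓ v]` has range
  `(S₁V).map mk` (rank `qd (S₁V)`) and kernel `U`; `finrank S₁ = n`.  Take a basis `x : Fin m → S` of `U`
  (`m = finrank U`); `Reg m ⊥ x m` by `reg_of_rank`.  `K0` with `u = m`, `e = d`: since `v ∉ I`,
  `¬ (c < m ∨ d < sg s m)`, so `m ≤ c`, `sg s m ≤ d`, so `m ≤ tau s c d` (`Nat.le_findGreatest`).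
* `one_growth'` (no linear form kills `v`): the map is injective, so `n ≤ qd (S₁V)`.
* `split_growth` PROOF: rank-nullity for multiplication by `[ℓ]` on `V.map mk` (kernel `X.map mk`, image
  `W.map mk`), and on `(S₁V).map mk` (kernel contains `(S₁X).map mk`, image `(S₁W).map mk`).
-/

set_option autoImplicit false

namespace Pool.Agent.EGH2

open MvPolynomial

/-- rank-nullity for a linear map restricted to a subspace -/
theorem One_rn {K E F : Type} [Field K] [AddCommGroup E] [Module K E] [AddCommGroup F]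
    [Module K F] (φ : E →ₗ[K] F) (A : Submodule K E) [FiniteDimensional K A] :
    Module.finrank K (A.map φ) + Module.finrank K (A ⊓ LinearMap.ker φ : Submodule K E)
      = Module.finrank K A := by
  have h := LinearMap.finrank_range_add_finrank_ker (φ.domRestrict A)
  rw [LinearMap.range_domRestrict] at h
  rw [← h]
  congr 1
  rw [← Submodule.map_comap_subtype, ← LinearMap.ker_comp]
  exact Submodule.finrank_map_subtype_eq _ _

/-- a basis of a subspace of a subspace, seen in the big space -/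
theorem One_basis {K E : Type} [Field K] [AddCommGroup E] [Module K E] (S : Submodule K E)
    (U : Submodule K S) [FiniteDimensional K U] :
    ∃ x : Fin (Module.finrank K U) → E, LinearIndependent K x ∧
      ∀ i, ∃ h : x i ∈ S, (⟨x i, h⟩ : S) ∈ U := by
  let b := Module.finBasis K U
  refine ⟨fun i => ((b i : S) : E), ?_, fun i => ⟨(b i : S).2, (b i).2⟩⟩
  have h1 := b.linearIndependent
  have h2 := h1.map' (U.subtype) (Submodule.ker_subtype _)
  exact h2.map' (S.subtype) (Submodule.ker_subtype _)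

theorem One_fin {K : Type} [Field K] {n j : ℕ} {V : Submodule K (MvPolynomial (Fin n) K)}
    (hV : V ≤ homogeneousSubmodule (Fin n) K j) : FiniteDimensional K V := by
  have := finite_hom (K := K) n j
  exact Submodule.finiteDimensional_of_le hV

/-- the linear map `ℓ ↦ [ℓ v]` on linear forms -/
noncomputable def One_mv {K : Type} [Field K] {n : ℕ} (I : Ideal (MvPolynomial (Fin n) K))
    (v : MvPolynomial (Fin n) K) : S1 K n →ₗ[K] (MvPolynomial (Fin n) K ⧸ I) :=
  ((Ideal.Quotient.mkₐ K I).toLinearMap ∘ₗ LinearMap.mulRight K v).domRestrict (S1 K n)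

theorem One_mv_apply {K : Type} [Field K] {n : ℕ} (I : Ideal (MvPolynomial (Fin n) K))
    (v : MvPolynomial (Fin n) K) (l : S1 K n) :
    One_mv I v l = Ideal.Quotient.mk I ((l : MvPolynomial (Fin n) K) * v) := rfl

theorem One_mv_ker {K : Type} [Field K] {n : ℕ} {I : Ideal (MvPolynomial (Fin n) K)}
    {v : MvPolynomial (Fin n) K} {l : S1 K n} :
    l ∈ LinearMap.ker (One_mv I v) ↔ (l : MvPolynomial (Fin n) K) * v ∈ I := by
  rw [LinearMap.mem_ker, One_mv_apply, Ideal.Quotient.eq_zero_iff_mem]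

/-- the kernel of `ℓ ↦ [ℓ v]` makes up for the missing growth -/
theorem One_count {K : Type} [Field K] {n : ℕ} (I : Ideal (MvPolynomial (Fin n) K)) {d : ℕ}
    (V : Submodule K (MvPolynomial (Fin n) K)) (hV : V ≤ homogeneousSubmodule (Fin n) K d)
    (v : MvPolynomial (Fin n) K) (hv : v ∈ V) :
    n ≤ qd I (S1 K n * V) + Module.finrank K (LinearMap.ker (One_mv I v)) := by
  have := finite_hom (K := K) n 1
  have := One_fin (S1_mul_le hV)
  have h := LinearMap.finrank_range_add_finrank_ker (One_mv I v)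
  rw [finrank_S1] at h
  have h2 : LinearMap.range (One_mv I v) ≤
      (S1 K n * V).map (Ideal.Quotient.mkₐ K I).toLinearMap := by
    rintro _ ⟨l, rfl⟩
    exact ⟨(l : MvPolynomial (Fin n) K) * v, Submodule.mul_mem_mul l.2 hv, rfl⟩
  have h3 := Submodule.finrank_mono h2
  unfold qd
  omega

/-- a one-dimensional space has an element outside the ideal -/
theorem One_exists {K : Type} [Field K] {n : ℕ} (I : Ideal (MvPolynomial (Fin n) K))
    (V : Submodule K (MvPolynomial (Fin n) K)) (ha : qd I V = 1) : ∃ v ∈ V, v ∉ I := by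
  by_contra hcon
  push Not at hcon
  have h : V.map (Ideal.Quotient.mkₐ K I).toLinearMap = ⊥ := by
    rw [eq_bot_iff]
    rintro _ ⟨v, hv, rfl⟩
    rw [Submodule.mem_bot]
    exact Ideal.Quotient.eq_zero_iff_mem.2 (hcon v hv)
  unfold qd at ha
  rw [h, finrank_bot] at ha
  exact absurd ha (by norm_num)

theorem one_growth {K : Type} [Field K] {n c : ℕ} {s : ℕ → ℕ} (hs : Monotone s)
    {f : Fin c → MvPolynomial (Fin n) K} (hf : CI s f) {d : ℕ}
    (V : Submodule K (MvPolynomial (Fin n) K)) (hV : V ≤ homogeneousSubmodule (Fin n) K d)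
    (ha : qd (pI f c) V = 1) : n ≤ qd (pI f c) (S1 K n * V) + tau s c d := by
  obtain ⟨v, hv, hvI⟩ := One_exists _ V ha
  have h := One_count (pI f c) V hV v hv
  have hfin := finite_hom (K := K) n 1
  obtain ⟨x, hli, hxU⟩ := One_basis (S1 K n) (LinearMap.ker (One_mv (pI f c) v))
  have hx : ∀ i, (x i).IsHomogeneous 1 := fun i => (hxU i).1
  have hxr : ∀ j, x j * v ∈ pI f c := fun j => One_mv_ker.1 (hxU j).2
  generalize Module.finrank K (LinearMap.ker (One_mv (pI f c) v)) = m at h x hli hxU hx hxr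
  have hle : m ≤ tau s c d := by
    have hu : m ≤ Module.finrank K (Submodule.span K (Set.range x)) := by
      rw [finrank_span_eq_card hli, Fintype.card_fin]
    have hr := reg_of_rank x hx m hu
    have hnot : ¬ (c < m ∨ d < sg s m) := fun hc =>
      hvI (K0 hs hf hx hr hc (hV hv) hxr)
    push Not at hnot
    exact Nat.le_findGreatest hnot.1 hnot.2
  omega

theorem one_growth' {K : Type} [Field K] {n : ℕ} (I : Ideal (MvPolynomial (Fin n) K)) {d : ℕ}
    (V : Submodule K (MvPolynomial (Fin n) K)) (hV : V ≤ homogeneousSubmodule (Fin n) K d)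
    (hzd : ∀ l ∈ S1 K n, ∀ v ∈ V, l * v ∈ I → l = 0 ∨ v ∈ I)
    (ha : qd I V = 1) : n ≤ qd I (S1 K n * V) := by
  obtain ⟨v, hv, hvI⟩ := One_exists _ V ha
  have h := One_count I V hV v hv
  have h0 : LinearMap.ker (One_mv I v) = ⊥ := by
    rw [eq_bot_iff]
    intro l hl
    rw [Submodule.mem_bot]
    rcases hzd l l.2 v hv (One_mv_ker.1 hl) with h1 | h1
    · exact Subtype.ext h1
    · exact absurd h1 hvI
  rw [h0, finrank_bot] at h
  exact h

theorem One_map_mulLeft {K : Type} [Field K] {n : ℕ} (l : MvPolynomial (Fin n) K)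
    (M : Submodule K (MvPolynomial (Fin n) K)) :
    M.map (LinearMap.mulLeft K l) = Submodule.span K {l} * M := by
  ext y
  rw [Submodule.mem_span_singleton_mul, Submodule.mem_map]
  rfl

theorem split_growth {K : Type} [Field K] {n : ℕ} (I : Ideal (MvPolynomial (Fin n) K)) {d : ℕ}
    (V : Submodule K (MvPolynomial (Fin n) K)) (hV : V ≤ homogeneousSubmodule (Fin n) K d)
    (l : MvPolynomial (Fin n) K) (hl : l.IsHomogeneous 1)
    (X W : Submodule K (MvPolynomial (Fin n) K))
    (hX : X = V ⊓ Submodule.comap (LinearMap.mulLeft K l) (Submodule.restrictScalars K I))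
    (hW : W = V.map (LinearMap.mulLeft K l)) :
    qd I X + qd I W = qd I V ∧
      qd I (S1 K n * X) + qd I (S1 K n * W) ≤ qd I (S1 K n * V) := by
  set q : MvPolynomial (Fin n) K →ₗ[K] (MvPolynomial (Fin n) K ⧸ I) :=
    (Ideal.Quotient.mkₐ K I).toLinearMap with hq
  let φ : (MvPolynomial (Fin n) K ⧸ I) →ₗ[K] (MvPolynomial (Fin n) K ⧸ I) :=
    LinearMap.mulLeft K (Ideal.Quotient.mk I l)
  have hcomp : ∀ M : Submodule K (MvPolynomial (Fin n) K),
      (M.map q).map φ = (M.map (LinearMap.mulLeft K l)).map q := by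
    intro M
    rw [← Submodule.map_comp, ← Submodule.map_comp]
    rfl
  have hker : ∀ y, q y ∈ LinearMap.ker φ ↔ l * y ∈ I := by
    intro y
    rw [LinearMap.mem_ker]
    change Ideal.Quotient.mk I l * Ideal.Quotient.mk I y = 0 ↔ _
    rw [← map_mul, Ideal.Quotient.eq_zero_iff_mem]
  have hVf := One_fin hV
  have hSf := One_fin (S1_mul_le hV)
  have hXV : X ≤ V := by rw [hX]; exact inf_le_left
  have hXI : ∀ y ∈ X, l * y ∈ I := by
    intro y hy
    rw [hX] at hy
    exact hy.2
  constructor
  · have h := One_rn φ (V.map q)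
    rw [hcomp, ← hW] at h
    have h2 : V.map q ⊓ LinearMap.ker φ = X.map q := by
      ext z
      constructor
      · rintro ⟨⟨y, hy, rfl⟩, hz⟩
        refine ⟨y, ?_, rfl⟩
        rw [hX]
        exact ⟨hy, (hker y).1 hz⟩
      · rintro ⟨y, hy, rfl⟩
        exact ⟨⟨y, hXV hy, rfl⟩, (hker y).2 (hXI y hy)⟩
    rw [h2] at h
    unfold qd
    rw [← hq]
    omega
  · have h := One_rn φ ((S1 K n * V).map q)
    rw [hcomp] at h
    have h1 : (S1 K n * V).map (LinearMap.mulLeft K l) = S1 K n * W := by
      rw [hW, One_map_mulLeft, One_map_mulLeft, mul_left_comm]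
    rw [h1] at h
    have h2 : (S1 K n * X).map q ≤ (S1 K n * V).map q ⊓ LinearMap.ker φ := by
      apply le_inf (Submodule.map_mono (Submodule.mul_le.2 fun a ha y hy => Submodule.mul_mem_mul ha (hXV hy)))
      rw [Submodule.map_le_iff_le_comap, Submodule.mul_le]
      intro a _ y hy
      rw [Submodule.mem_comap, hker]
      have := I.mul_mem_left a (hXI y hy)
      rwa [mul_left_comm] at this
    have h3 := Submodule.finrank_mono h2
    unfold qd
    rw [← hq]
    omega

end Pool.Agent.EGH2
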