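import Pool.Agent.EGH2.ToolV
import Pool.Agent.EGH2.One

/-!
# Growth of spaces without linear zero divisors

PROOF: induction on `a`.  `a = 0`: `one_growth'`.  Step: `qd V = a + 2`; `tool_V` with
`u = (a + 1) + tau s c (d + a + 1) + 1`.  Check `hu`: for `i < a + 2`, `w := u - i ≥ tau … + 1`; if `c < w` then
`i + c < u`; otherwise `w ≤ c` and `w > tau s c (d+a+1)`, so `¬ sg s w ≤ d + a + 1`
(`Nat.findGreatest_is_greatest`), and `d + i ≤ d + a + 1 < sg s w`.
`V' ≤ V` has `qd V' = a + 1` and no zero divisors; add the two inequalities (`Finset.sum_range_succ`).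
-/

set_option autoImplicit false

namespace Pool.Agent.EGH2

open MvPolynomial

theorem zdf_growth {K : Type} [Field K] [IsAlgClosed K] {n c : ℕ} {s : ℕ → ℕ} (hs : Monotone s)
    {f : Fin c → MvPolynomial (Fin n) K} (hf : CI s f) {d : ℕ} (a : ℕ)
    (V : Submodule K (MvPolynomial (Fin n) K)) (hV : V ≤ homogeneousSubmodule (Fin n) K d)
    (hzd : ∀ l ∈ S1 K n, ∀ v ∈ V, l * v ∈ pI f c → l = 0 ∨ v ∈ pI f c)
    (ha : qd (pI f c) V = a + 1) :
    n * (a + 1) ≤ qd (pI f c) (S1 K n * V)
      + ∑ j ∈ Finset.range a, (j + 1 + tau s c (d + (j + 1))) := by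
  induction a generalizing V with
  | zero =>
    have h1 := one_growth' (pI f c) V hV hzd ha
    simpa using h1
  | succ a ih =>
    obtain ⟨V', hV'V, hq, hlt⟩ := tool_V hs hf
      (u := (a + 1) + tau s c (d + (a + 1)) + 1) V hV (by omega) (by
        intro i hi
        rw [ha] at hi
        by_cases hc : c < (a + 1) + tau s c (d + (a + 1)) + 1 - i
        · left
          omega
        · right
          have h1 : ¬ (sg s ((a + 1) + tau s c (d + (a + 1)) + 1 - i) ≤ d + (a + 1)) := by
            refine Nat.findGreatest_is_greatest (P := fun u => sg s u ≤ d + (a + 1)) (n := c) ?_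
              (by omega)
            change tau s c (d + (a + 1)) < _
            omega
          omega)
    have h2 := ih V' (hV'V.trans hV) (fun l hl v hv => hzd l hl v (hV'V hv)) (by omega)
    rw [Finset.sum_range_succ]
    have h3 : n * (a + 1 + 1) = n * (a + 1) + n := by ring
    omega

end Pool.Agent.EGH2
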