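import Pool.Agent.EGH2.TauL
import Pool.Agent.EGH2.Zdf
import Pool.Agent.EGH2.Transf
import Pool.Agent.EGH2.HF3

/-!
# Lemmas for the main inductions
-/

set_option autoImplicit false

namespace Pool.Agent.EGH2

open MvPolynomial

variable {K : Type} [Field K]

/-- a form of degree `≤ s 0` in the ideal of a complete intersection vanishes -/
theorem small_degree {n c : ℕ} {s : ℕ → ℕ} (hs : Monotone s) {f : Fin c → MvPolynomial (Fin n) K}
    (hf : CI s f) (k : ℕ) (hk : k ≤ c) {j : ℕ} (hj : j ≤ s 0) {g : MvPolynomial (Fin n) K}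
    (hg : g.IsHomogeneous j) (h : g ∈ pI f k) : g = 0 := by
  induction k generalizing g with
  | zero =>
    rw [pI_zero, Ideal.mem_bot] at h
    exact h
  | succ k ih =>
    rw [pI_succ f hk] at h
    obtain ⟨b, hb, hb2⟩ := extract (HI_pI hf.hom k (by omega)) (hf.hom ⟨k, hk⟩) hg h
    have h0 : b = 0 := by
      by_contra h0
      have h1 := (hb h0).1
      have h2 : s 0 ≤ s k := hs (Nat.zero_le k)
      simp only at h1
      omega
    rw [h0, mul_zero, sub_zero] at hb2
    exact ih (by omega) hg hb2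

/-- spaces of forms of positive dimension mod `I` live in degrees `≤ sg s n`; of dimension at least
two, in degrees `< sg s n` -/
theorem deg_lt {n : ℕ} {s : ℕ → ℕ} {f : Fin n → MvPolynomial (Fin n) K} (hf : CI s f) {d : ℕ}
    (V : Submodule K (MvPolynomial (Fin n) K)) (hV : V ≤ homogeneousSubmodule (Fin n) K d)
    (hq : 2 ≤ qd (pI f n) V) : d < sg s n := by
  by_contra hc
  push Not at hc
  rcases Nat.lt_or_ge (sg s n) d with h | h
  · have : qd (pI f n) V = 0 := by
      rw [qd_eq_zero _ V hV]
      intro v hv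
      exact top_zero hf h (hV hv)
    omega
  · have hd : d = sg s n := le_antisymm h hc
    have h1 := qd_mono (pI f n) hV (le_refl _)
    rw [hd, top_one hf] at h1
    omega

theorem small_hom {n : ℕ} {d : ℕ} (h : n ≤ 1 ∨ d = 0) (I : Ideal (MvPolynomial (Fin n) K))
    (V : Submodule K (MvPolynomial (Fin n) K)) (hV : V ≤ homogeneousSubmodule (Fin n) K d) :
    qd I V ≤ 1 := by
  have h1 : ∀ v w : Fin n →₀ ℕ, v.degree = d → w.degree = d → v = w := by
    intro v w hv hw
    rcases h with h | h
    · ext i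
      have hu : (Finset.univ : Finset (Fin n)) = {i} := by
        ext j
        simp only [Finset.mem_univ, Finset.mem_singleton, true_iff]
        apply Fin.ext
        have := i.isLt
        have := j.isLt
        omega
      rw [Finsupp.degree_eq_sum, hu, Finset.sum_singleton] at hv hw
      rw [hv, hw]
    · rw [h] at hv hw
      rw [Finsupp.degree_eq_zero_iff] at hv hw
      rw [hv, hw]
  by_cases hex : ∃ w : Fin n →₀ ℕ, w.degree = d
  · obtain ⟨w, hw⟩ := hex
    have h2 : V ≤ Submodule.span K {monomial w (1 : K)} := by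
      intro g hg
      rw [Submodule.mem_span_singleton]
      refine ⟨coeff w g, ?_⟩
      rw [smul_monomial, smul_eq_mul, mul_one]
      ext v
      rw [coeff_monomial]
      split_ifs with hwv
      · rw [hwv]
      · symm
        apply (hV hg : g.IsHomogeneous d).coeff_eq_zero
        intro hv
        exact hwv (h1 w v hw hv)
    have h3 : qd I V ≤ Module.finrank K
        ((Submodule.span K {monomial w (1 : K)}).map (Ideal.Quotient.mkₐ K I).toLinearMap) := by
      unfold qd
      have : FiniteDimensional K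
          ((Submodule.span K {monomial w (1 : K)}).map (Ideal.Quotient.mkₐ K I).toLinearMap) := by
        rw [Submodule.map_span]
        exact FiniteDimensional.span_of_finite K (Set.Finite.image _ (Set.finite_singleton _))
      exact Submodule.finrank_mono (Submodule.map_mono h2)
    refine h3.trans ?_
    rw [Submodule.map_span, Set.image_singleton]
    have h4 := finrank_span_le_card (R := K)
      ({(Ideal.Quotient.mkₐ K I).toLinearMap (monomial w (1 : K))} :
        Set (MvPolynomial (Fin n) K ⧸ I))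
    simpa using h4
  · have h2 : V = ⊥ := by
      rw [eq_bot_iff]
      intro g hg
      rw [Submodule.mem_bot]
      ext v
      rw [coeff_zero]
      apply (hV hg : g.IsHomogeneous d).coeff_eq_zero
      intro hv
      exact hex ⟨v, hv⟩
    rw [h2]
    unfold qd
    rw [Submodule.map_bot]
    simp

theorem CI_empty {n : ℕ} (s : ℕ → ℕ) : CI s (fun i : Fin 0 => (i.elim0 : MvPolynomial (Fin n) K)) :=
  ⟨fun i => i.elim0, fun i => i.elim0⟩

/-- the case of degrees `d < s 0`: the growth bound for the zero ideal -/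
theorem low_growth [IsAlgClosed K] {n c : ℕ} {s : ℕ → ℕ} (hs : Monotone s)
    {f : Fin c → MvPolynomial (Fin n) K} (hf : CI s f) {d : ℕ} (hd : d < s 0) (a : ℕ)
    (V : Submodule K (MvPolynomial (Fin n) K)) (hV : V ≤ homogeneousSubmodule (Fin n) K d)
    (hzd : ∀ l ∈ S1 K n, ∀ v ∈ V, l * v ∈ pI f c → l = 0 ∨ v ∈ pI f c)
    (ha : qd (pI f c) V = a + 1) :
    n * (a + 1) ≤ qd (pI f c) (S1 K n * V) + ∑ j ∈ Finset.range a, (j + 1) := by
  set f0 : Fin 0 → MvPolynomial (Fin n) K := fun i => i.elim0 with hf0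
  have hb : pI f0 0 = ⊥ := pI_zero f0
  have h1 : ∀ j ≤ s 0, ∀ g : MvPolynomial (Fin n) K, g.IsHomogeneous j →
      (g ∈ pI f c ↔ g ∈ pI f0 0) := by
    intro j hj g hg
    rw [hb, Ideal.mem_bot]
    constructor
    · exact small_degree hs hf c le_rfl hj hg
    · rintro rfl
      exact Ideal.zero_mem _
  have h2 := qd_congr (h1 d (by omega)) V hV
  have h3 := qd_congr (h1 (d + 1) (by omega)) (S1 K n * V) (S1_mul_le hV)
  rw [h2] at ha
  have h4 := zdf_growth hs (CI_empty (K := K) (n := n) s) a V hV (by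
    intro l hl v hv hlv
    change l * v ∈ pI f0 0 at hlv
    change l = 0 ∨ v ∈ pI f0 0
    rw [← h1 d (by omega) v (hV hv)]
    apply hzd l hl v hv
    rw [hb, Ideal.mem_bot] at hlv
    rw [hlv]
    exact Ideal.zero_mem _) ha
  rw [h3]
  refine h4.trans ?_
  simp only [tau_zero, add_zero]
  exact le_refl _

/-- the dichotomy: either no linear form kills an element of `V` mod `I`, or some linear form
`l ≠ 0` kills some `v ∈ V`, `v ∉ I` -/
theorem zd_cases {n : ℕ} (I : Ideal (MvPolynomial (Fin n) K)) {d : ℕ}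
    (V : Submodule K (MvPolynomial (Fin n) K)) (hV : V ≤ homogeneousSubmodule (Fin n) K d) :
    (∀ l ∈ S1 K n, ∀ v ∈ V, l * v ∈ I → l = 0 ∨ v ∈ I) ∨
    ∃ l : MvPolynomial (Fin n) K, l.IsHomogeneous 1 ∧ l ≠ 0 ∧
      ∃ X W : Submodule K (MvPolynomial (Fin n) K), X ≤ V ∧
        X ≤ homogeneousSubmodule (Fin n) K d ∧ W ≤ homogeneousSubmodule (Fin n) K (d + 1) ∧
        0 < qd I X ∧ qd I X + qd I W = qd I V ∧
        qd I (S1 K n * X) + qd I (S1 K n * W) ≤ qd I (S1 K n * V) ∧
        (qd I X = qd I V → ∀ v ∈ V, l * v ∈ I) := by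
  by_cases h : ∀ l ∈ S1 K n, ∀ v ∈ V, l * v ∈ I → l = 0 ∨ v ∈ I
  · exact Or.inl h
  · right
    push Not at h
    obtain ⟨l, hl, v, hv, hlv, hl0, hvI⟩ := h
    have hl' : l.IsHomogeneous 1 := hl
    obtain ⟨h1, h2⟩ := split_growth I V hV l hl' _ _ rfl rfl
    set X := V ⊓ Submodule.comap (LinearMap.mulLeft K l) (Submodule.restrictScalars K I) with hX
    set W := V.map (LinearMap.mulLeft K l) with hW
    have hXV : X ≤ V := inf_le_left
    refine ⟨l, hl', hl0, X, W, hXV, hXV.trans hV, ?_, ?_, h1, h2, ?_⟩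
    · rintro _ ⟨w, hw, rfl⟩
      change (l * w).IsHomogeneous (d + 1)
      have := hl'.mul (hV hw : w.IsHomogeneous d)
      rwa [add_comm] at this
    · apply Nat.pos_of_ne_zero
      intro h0
      rw [qd_eq_zero I X (hXV.trans hV)] at h0
      exact hvI (h0 v ⟨hv, hlv⟩)
    · intro he w hw
      obtain ⟨x, hx, hx2⟩ := qd_eq_imp I hXV hV he w hw
      have h3 : l * x ∈ I := hx.2
      have h4 : l * (w - x) ∈ I := I.mul_mem_left l hx2
      have h5 : l * w = l * x + l * (w - x) := by ring
      rw [h5]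
      exact I.add_mem h3 h4

end Pool.Agent.EGH2
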