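import Pool.Agent.EGH2.HF3
import Pool.Agent.EGH2.Kos2
import Pool.Agent.EGH2.LinReg

/-!
# The socle and the perfect pairing of a complete intersection of `n` forms

* `nondeg` PROOF: `j ≤ T = sg s n` by `top_zero`.  Induction on `T - j`: `j = T`: `w = 1`.  `j < T`: if all
  `X l * r ∈ I` then `K0` with `x = X`, `m = u = n` (`reg_of_rank`, the variables span `S₁`, rank `n`) gives
  `r ∈ I`.  So some `X l * r ∉ I` (degree `j + 1`), IH gives `w'`, take `w = X l * w'`.
* `exists_tau` PROOF: `(S_T).map mk` is one dimensional (`top_one`); compose `mk`, an extension to `S/I` of an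
  isomorphism with `K` (`LinearMap.exists_extend`).
-/

set_option autoImplicit false

namespace Pool.Agent.EGH2

open MvPolynomial

theorem Pair_reg {K : Type} [Field K] {n : ℕ} :
    Reg n ⊥ (X : Fin n → MvPolynomial (Fin n) K) n := by
  apply reg_of_rank _ (fun i => isHomogeneous_X K i)
  have h : LinearIndependent K (X : Fin n → MvPolynomial (Fin n) K) :=
    MvPolynomial.linearIndependent_X _ _
  rw [finrank_span_eq_card h, Fintype.card_fin]

theorem nondeg {K : Type} [Field K] {n : ℕ} {s : ℕ → ℕ} (hs : Monotone s)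
    {f : Fin n → MvPolynomial (Fin n) K} (hf : CI s f) {j : ℕ} {r : MvPolynomial (Fin n) K}
    (hr : r.IsHomogeneous j) (hrI : r ∉ pI f n) :
    j ≤ sg s n ∧ ∃ w : MvPolynomial (Fin n) K, w.IsHomogeneous (sg s n - j) ∧ r * w ∉ pI f n := by
  have hle : ∀ {j : ℕ} {r : MvPolynomial (Fin n) K}, r.IsHomogeneous j → r ∉ pI f n →
      j ≤ sg s n := by
    intro j r hr hrI
    by_contra h
    exact hrI (top_zero hf (not_le.1 h) hr)
  refine ⟨hle hr hrI, ?_⟩
  obtain ⟨d, hd⟩ : ∃ d, d = sg s n - j := ⟨_, rfl⟩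
  induction d generalizing j r with
  | zero =>
    refine ⟨1, ?_, by rwa [mul_one]⟩
    rw [← hd]
    exact isHomogeneous_one _ _
  | succ d ih =>
    have hj := hle hr hrI
    have hlt : j < sg s n := by omega
    have h1 : ∃ l : Fin n, (X l : MvPolynomial (Fin n) K) * r ∉ pI f n := by
      by_contra h
      push Not at h
      exact hrI (K0 hs hf (fun i => isHomogeneous_X K i) Pair_reg (Or.inr hlt) hr h)
    obtain ⟨l, hl⟩ := h1
    have h2 : ((X l : MvPolynomial (Fin n) K) * r).IsHomogeneous (j + 1) := by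
      rw [add_comm j 1]
      exact (isHomogeneous_X K l).mul hr
    obtain ⟨w, hw, hw'⟩ := ih h2 hl (by omega)
    refine ⟨X l * w, ?_, ?_⟩
    · have h3 := (isHomogeneous_X K l).mul hw
      have h4 : 1 + (sg s n - (j + 1)) = sg s n - j := by omega
      rwa [h4] at h3
    · have h5 : r * (X l * w) = X l * r * w := by ring
      rwa [h5]

theorem exists_tau {K : Type} [Field K] {n : ℕ} {s : ℕ → ℕ}
    {f : Fin n → MvPolynomial (Fin n) K} (hf : CI s f) :
    ∃ T : MvPolynomial (Fin n) K →ₗ[K] K, ∀ g : MvPolynomial (Fin n) K,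
      g.IsHomogeneous (sg s n) → (T g = 0 ↔ g ∈ pI f n) := by
  have h1 := top_one hf
  unfold qd at h1
  set mk := (Ideal.Quotient.mkₐ K (pI f n)).toLinearMap with hmk
  set V := (homogeneousSubmodule (Fin n) K (sg s n)).map mk with hV
  have hfin : Module.Finite K V := Module.finite_of_finrank_pos (by rw [h1]; exact one_pos)
  have e : V ≃ₗ[K] K := LinearEquiv.ofFinrankEq _ _ (by rw [h1, Module.finrank_self])
  obtain ⟨φ, hφ⟩ := LinearMap.exists_extend (e : V →ₗ[K] K)
  refine ⟨φ ∘ₗ mk, fun g hg => ?_⟩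
  have hgV : mk g ∈ V := Submodule.mem_map_of_mem hg
  have h2 : φ (mk g) = e ⟨mk g, hgV⟩ := by
    have := LinearMap.congr_fun hφ ⟨mk g, hgV⟩
    simpa using this
  rw [LinearMap.comp_apply, h2]
  constructor
  · intro h
    have h3 : (⟨mk g, hgV⟩ : V) = 0 := by
      apply e.injective
      rw [h, map_zero]
    have h4 : mk g = 0 := by
      have := congrArg Subtype.val h3
      simpa using this
    exact Ideal.Quotient.eq_zero_iff_mem.1 h4
  · intro h
    have h4 : mk g = 0 := Ideal.Quotient.eq_zero_iff_mem.2 h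
    have h3 : (⟨mk g, hgV⟩ : V) = 0 := Subtype.ext h4
    rw [h3, map_zero]

end Pool.Agent.EGH2
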