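import Pool.Agent.EGH2.Pair

/-!
# Representation of functionals by the perfect pairing

* `represent` PROOF: the linear map `S_{T-j} → Dual (S_j)`, `r ↦ (w ↦ τ (r w))` has as common kernel in `S_j`
  exactly `I_j` (`nondeg`); a finite dimensional space of functionals is the annihilator of its common kernel.
-/

set_option autoImplicit false

namespace Pool.Agent.EGH2

open MvPolynomial

theorem represent {K : Type} [Field K] {n : ℕ} {s : ℕ → ℕ} (hs : Monotone s)
    {f : Fin n → MvPolynomial (Fin n) K} (hf : CI s f)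
    {T : MvPolynomial (Fin n) K →ₗ[K] K}
    (hT : ∀ g : MvPolynomial (Fin n) K, g.IsHomogeneous (sg s n) → (T g = 0 ↔ g ∈ pI f n))
    {j : ℕ} (hj : j ≤ sg s n) (lam : MvPolynomial (Fin n) K →ₗ[K] K)
    (hlam : ∀ g ∈ pI f n, g.IsHomogeneous j → lam g = 0) :
    ∃ r : MvPolynomial (Fin n) K, r.IsHomogeneous (sg s n - j) ∧
      ∀ w : MvPolynomial (Fin n) K, w.IsHomogeneous j → lam w = T (r * w) := by
  have : FiniteDimensional K (homogeneousSubmodule (Fin n) K (sg s n - j)) :=
    Module.Finite.iff_fg.2 (homogeneousSubmodule_fg _ _ _)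
  let B : homogeneousSubmodule (Fin n) K (sg s n - j) →ₗ[K]
      Module.Dual K (homogeneousSubmodule (Fin n) K j) :=
    LinearMap.mk₂ K (fun r w => T ((r : MvPolynomial (Fin n) K) * (w : MvPolynomial (Fin n) K)))
      (fun a b c => by simp [add_mul]) (fun k a b => by simp)
      (fun a b c => by simp [mul_add]) (fun k a b => by simp)
  have hB : ∀ r w, B r w = T ((r : MvPolynomial (Fin n) K) * (w : MvPolynomial (Fin n) K)) :=
    fun r w => rfl
  have h2 : lam.comp (homogeneousSubmodule (Fin n) K j).subtype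
      ∈ (LinearMap.range B).dualCoannihilator.dualAnnihilator := by
    rw [Submodule.mem_dualAnnihilator]
    intro w hw
    rw [Submodule.mem_dualCoannihilator] at hw
    show lam (w : MvPolynomial (Fin n) K) = 0
    refine hlam _ ?_ w.2
    by_contra hwI
    obtain ⟨_, r, hr, hrw⟩ := nondeg hs hf w.2 hwI
    have h3 := hw (B ⟨r, hr⟩) ⟨_, rfl⟩
    rw [hB] at h3
    have h4 : ((w : MvPolynomial (Fin n) K) * r).IsHomogeneous (sg s n) := by
      have := (w.2 : (w : MvPolynomial (Fin n) K).IsHomogeneous j).mul hr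
      rwa [Nat.add_sub_cancel' hj] at this
    apply hrw
    rw [← hT _ h4, mul_comm]
    exact h3
  rw [Subspace.dualCoannihilator_dualAnnihilator_eq] at h2
  obtain ⟨r, hr⟩ := h2
  refine ⟨r, r.2, fun w hw => ?_⟩
  have := LinearMap.congr_fun hr ⟨w, hw⟩
  rw [hB] at this
  exact this.symm

end Pool.Agent.EGH2
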