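import Pool.Agent.EGH2.Kos2
import Pool.Agent.EGH2.LinReg
import Pool.Agent.EGH2.QD
import Pool.Agent.EGH2.ExtA

/-!
# The tool, family form

PROOF: apply `ext_inj` with `M = (Fin m → Bool) → MvPolynomial (Fin n) K`,
`d k = kd m (fun i => z i k)` (as `K`-linear maps: `kd_add`, `kd_mul` with `C t`),
`C i = {ω : HomK i (d + i) ω}`, `N i = {ω ∈ C i : ∀ b, ω b ∈ pI f c}`.
* submodules: `HomK.zero, HomK.add`, scalar multiples (`HomK.mul` with `C t`, degree 0).
* finite dimensional: `C i ≤ Submodule.pi univ (fun _ => homogeneousSubmodule (Fin n) K (d+i))`, i.e. functions on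
  a finite type into a finite dimensional space (find/prove: `homogeneousSubmodule (Fin n) K e` is finite
  dimensional: it is spanned by the finitely many monomials of degree `e`).
* `hanti`, `hsq`: `kd_anti`, `kd_kd`; `hC`: `HomK.kd`; `hN`: plus `kd_mem`.
* `hex0`, `hex`: `∑ k, ξ k • d k ω = kd m (fun i => ∑ k, C (ξ k) * z i k) ω` (by `kd_add_left`,
  `kd_mul_left`, induction over the sum; or `Finset.sum_induction`), the family `fun i => ∑ k, C (ξ k) * z i k`
  consists of linear forms and has `Reg m ⊥ _ u` by `reg_of_rank` and `hrank`; now `koszul_vanish` with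
  `k = c`, exterior degree `i`, `e = d + i`, condition `hu i`.
  (`η` is `HomK (i-1) (d+i-1)`, which is `C (i-1)`; for `i = 0` it is `HomK (-1) _`, so `η = 0`.)
* `p k` becomes the cochain `b ↦ if b = (fun _ => false) then p k else 0` in `C 0`; and
  `∑ k, d k (…) ∈ N 1`: at `b` this is `kd` of a 0-cochain: prove by induction on `m` that
  `∑ k, kd m (fun i => z i k) (b ↦ if b = (fun _ => false) then p k else 0) b ∈ J` as soon as
  `∑ k, z i k * p k ∈ J` for all `i`.
* conclusion: `p k ∈ N 0` evaluated at `fun _ => false`.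
-/

set_option autoImplicit false

namespace Pool.Agent.EGH2

open MvPolynomial

theorem Tool_kd_zero_left {A : Type} [CommRing A] (u : ℕ) (ω : (Fin u → Bool) → A) :
    kd u (fun _ => (0 : A)) ω = fun _ => 0 := by
  have h := kd_mul_left u 0 (fun _ => (0 : A)) ω
  simpa using h

theorem Tool_kd_sum {K : Type} [Field K] {n m a : ℕ} (z : Fin m → Fin a → MvPolynomial (Fin n) K)
    (ξ : Fin a → K) (ω : (Fin m → Bool) → MvPolynomial (Fin n) K) (S : Finset (Fin a)) :
    (∑ k ∈ S, ξ k • kd m (fun i => z i k) ω)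
      = kd m (fun i => ∑ k ∈ S, C (ξ k) * z i k) ω := by
  classical
  induction S using Finset.induction_on with
  | empty =>
    simp only [Finset.sum_empty]
    rw [Tool_kd_zero_left]
    rfl
  | insert k S hk ih =>
    rw [Finset.sum_insert hk, ih]
    have h1 : (fun i => ∑ j ∈ insert k S, C (ξ j) * z i j)
        = fun i => C (ξ k) * z i k + ∑ j ∈ S, C (ξ j) * z i j := by
      funext i
      rw [Finset.sum_insert hk]
    rw [h1, kd_add_left m (fun i => C (ξ k) * z i k) (fun i => ∑ j ∈ S, C (ξ j) * z i j),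
      kd_mul_left m (C (ξ k)) (fun i => z i k)]
    funext b
    simp only [Pi.add_apply, Pi.smul_apply, smul_eq_C_mul]

/-- the differential as a linear map -/
noncomputable def Tool_d {K : Type} [Field K] {n m : ℕ} (x : Fin m → MvPolynomial (Fin n) K) :
    ((Fin m → Bool) → MvPolynomial (Fin n) K) →ₗ[K] ((Fin m → Bool) → MvPolynomial (Fin n) K) where
  toFun := kd m x
  map_add' := fun ω ω' => kd_add m x ω ω'
  map_smul' := fun t ω => by
    have h1 : t • ω = fun b => C t * ω b := by
      funext b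
      rw [Pi.smul_apply, smul_eq_C_mul]
    have h2 : (RingHom.id K) t • kd m x ω = fun b => C t * kd m x ω b := by
      funext b
      rw [Pi.smul_apply, smul_eq_C_mul, RingHom.id_apply]
    rw [h1, h2, kd_mul]

theorem Tool_d_apply {K : Type} [Field K] {n m : ℕ} (x : Fin m → MvPolynomial (Fin n) K)
    (ω : (Fin m → Bool) → MvPolynomial (Fin n) K) : Tool_d x ω = kd m x ω := rfl

/-- the space of homogeneous cochains -/
def Tool_C (K : Type) [Field K] (n m : ℕ) (d i : ℕ) :
    Submodule K ((Fin m → Bool) → MvPolynomial (Fin n) K) where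
  carrier := {ω | HomK (i : ℤ) ((d : ℤ) + (i : ℤ)) ω}
  add_mem' := fun h h' => HomK.add h h'
  zero_mem' := HomK.zero _ _
  smul_mem' := fun t ω h => by
    have h1 : t • ω = fun b => C t * ω b := by
      funext b
      rw [Pi.smul_apply, smul_eq_C_mul]
    have h2 := HomK.mul (isHomogeneous_C (Fin n) t) h
    rw [Nat.cast_zero, add_zero, ← h1] at h2
    exact h2

theorem Tool_mem_C {K : Type} [Field K] {n m : ℕ} {d i : ℕ}
    {ω : (Fin m → Bool) → MvPolynomial (Fin n) K} :
    ω ∈ Tool_C K n m d i ↔ HomK (i : ℤ) ((d : ℤ) + (i : ℤ)) ω := Iff.rfl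

/-- the cochains with values in an ideal -/
def Tool_J {K : Type} [Field K] {n : ℕ} (m : ℕ) (J : Ideal (MvPolynomial (Fin n) K)) :
    Submodule K ((Fin m → Bool) → MvPolynomial (Fin n) K) where
  carrier := {ω | ∀ b, ω b ∈ J}
  add_mem' := fun h h' b => J.add_mem (h b) (h' b)
  zero_mem' := fun _ => J.zero_mem
  smul_mem' := fun t ω h b => by
    rw [Pi.smul_apply, smul_eq_C_mul]
    exact J.mul_mem_left _ (h b)

theorem Tool_mem_J {K : Type} [Field K] {n m : ℕ} {J : Ideal (MvPolynomial (Fin n) K)}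
    {ω : (Fin m → Bool) → MvPolynomial (Fin n) K} :
    ω ∈ Tool_J m J ↔ ∀ b, ω b ∈ J := Iff.rfl

theorem Tool_fin (K : Type) [Field K] (n m d i : ℕ) : FiniteDimensional K (Tool_C K n m d i) := by
  have hf := finite_hom (K := K) n (d + i)
  have hmem : ∀ (b : Fin m → Bool) (ω : Tool_C K n m d i),
      ((LinearMap.proj b : ((Fin m → Bool) → MvPolynomial (Fin n) K) →ₗ[K] _) ∘ₗ
        (Tool_C K n m d i).subtype) ω ∈ homogeneousSubmodule (Fin n) K (d + i) := by
    intro b ω
    show (ω : (Fin m → Bool) → MvPolynomial (Fin n) K) b ∈ _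
    by_cases h0 : (ω : (Fin m → Bool) → MvPolynomial (Fin n) K) b = 0
    · rw [h0]
      exact Submodule.zero_mem _
    · obtain ⟨_, e, he, hh⟩ := ω.2 b h0
      have : e = d + i := by exact_mod_cast he
      rw [← this]
      exact hh
  let T : Tool_C K n m d i →ₗ[K] ((Fin m → Bool) → homogeneousSubmodule (Fin n) K (d + i)) :=
    LinearMap.pi fun b => LinearMap.codRestrict _ _ (hmem b)
  refine FiniteDimensional.of_injective T ?_
  intro ω ω' h
  apply Subtype.ext
  funext b
  have h1 := congrFun h b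
  exact congrArg Subtype.val h1

/-- the cochain of degree zero with value `r` -/
def Tool_P {A : Type} [CommRing A] (m : ℕ) (r : A) : (Fin m → Bool) → A :=
  fun b => if b = (fun _ => false) then r else 0

theorem Tool_wt0 (m : ℕ) : wt (fun _ : Fin m => false) = 0 := by
  unfold wt
  simp

theorem Tool_P_mem {K : Type} [Field K] {n m : ℕ} {d : ℕ} {r : MvPolynomial (Fin n) K}
    (hr : r.IsHomogeneous d) : Tool_P m r ∈ Tool_C K n m d 0 := by
  intro b hb
  unfold Tool_P at hb ⊢
  by_cases h : b = fun _ => false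
  · rw [if_pos h, h, Tool_wt0]
    exact ⟨by simp, d, by simp, hr⟩
  · rw [if_neg h] at hb
    exact absurd rfl hb

theorem Tool_P_kd {A : Type} [CommRing A] {a : ℕ} (J : Ideal A) (p : Fin a → A) (m : ℕ)
    (z : Fin m → Fin a → A) (h : ∀ i, ∑ k, z i k * p k ∈ J) (b : Fin m → Bool) :
    ∑ k, kd m (fun i => z i k) (Tool_P m (p k)) b ∈ J := by
  induction m with
  | zero =>
    have : ∀ k ∈ (Finset.univ : Finset (Fin a)),
        kd 0 (fun i => z i k) (Tool_P 0 (p k)) b = 0 := fun k _ => rfl
    rw [Finset.sum_eq_zero this]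
    exact J.zero_mem
  | succ m ih =>
    refine cons_cases (P := fun b => ∑ k, kd (m + 1) (fun i => z i k) (Tool_P (m + 1) (p k)) b ∈ J)
      ?_ b
    intro t c
    have hcf : ∀ (k : Fin a) (c : Fin m → Bool),
        Tool_P (m + 1) (p k) (Fin.cons false c) = Tool_P m (p k) c := by
      intro k c
      unfold Tool_P
      have h1 : ((Fin.cons false c : Fin (m + 1) → Bool) = fun _ => false) ↔ c = fun _ => false := by
        constructor
        · intro h2
          funext j
          have h3 := congrFun h2 j.succ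
          rwa [Fin.cons_succ] at h3
        · intro h2
          funext j
          refine Fin.cases ?_ (fun j => ?_) j
          · rw [Fin.cons_zero]
          · rw [Fin.cons_succ, h2]
      by_cases h4 : c = fun _ => false
      · rw [if_pos h4, if_pos (h1.2 h4)]
      · rw [if_neg h4, if_neg (fun h5 => h4 (h1.1 h5))]
    have hct : ∀ (k : Fin a) (c : Fin m → Bool),
        Tool_P (m + 1) (p k) (Fin.cons true c) = 0 := by
      intro k c
      unfold Tool_P
      rw [if_neg]
      intro h2
      have h3 := congrFun h2 0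
      rw [Fin.cons_zero] at h3
      exact Bool.noConfusion h3
    cases t
    · have h6 : ∀ k ∈ (Finset.univ : Finset (Fin a)),
          kd (m + 1) (fun i => z i k) (Tool_P (m + 1) (p k)) (Fin.cons false c)
            = kd m (fun i => z i.succ k) (Tool_P m (p k)) c := by
        intro k _
        rw [kd_false]
        have h7 : (fun c => Tool_P (m + 1) (p k) (Fin.cons false c)) = Tool_P m (p k) :=
          funext fun c => hcf k c
        rw [h7]
        rfl
      rw [Finset.sum_congr rfl h6]
      exact ih (fun i k => z i.succ k) (fun i => h i.succ) c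
    · have h6 : ∀ k ∈ (Finset.univ : Finset (Fin a)),
          kd (m + 1) (fun i => z i k) (Tool_P (m + 1) (p k)) (Fin.cons true c)
            = if c = (fun _ => false) then z 0 k * p k else 0 := by
        intro k _
        rw [kd_true]
        have h7 : (fun c => Tool_P (m + 1) (p k) (Fin.cons true c)) = fun _ => 0 :=
          funext fun c => hct k c
        rw [h7, kd_zero, hcf k c, sub_zero]
        unfold Tool_P
        split_ifs
        · rfl
        · exact mul_zero _
      rw [Finset.sum_congr rfl h6]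
      split_ifs
      · exact h 0
      · rw [Finset.sum_const_zero]
        exact J.zero_mem

theorem tool_fam {K : Type} [Field K] [IsAlgClosed K] {n c m a : ℕ} {s : ℕ → ℕ} (hs : Monotone s)
    {f : Fin c → MvPolynomial (Fin n) K} (hf : CI s f) {d u : ℕ}
    (z : Fin m → Fin a → MvPolynomial (Fin n) K) (hz : ∀ i k, (z i k).IsHomogeneous 1)
    (p : Fin a → MvPolynomial (Fin n) K) (hp : ∀ k, (p k).IsHomogeneous d)
    (hzp : ∀ i, ∑ k, z i k * p k ∈ pI f c)
    (hrank : ∀ ξ : Fin a → K, ξ ≠ 0 → u ≤ Module.finrank K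
      (Submodule.span K (Set.range fun i : Fin m => ∑ k, C (ξ k) * z i k)))
    (hu : ∀ i < a, i + c < u ∨ d + i < sg s (u - i)) : ∀ k, p k ∈ pI f c := by
  classical
  -- the linear combinations
  have hlin : ∀ (ξ : Fin a → K) (i : Fin m),
      (∑ k, C (ξ k) * z i k : MvPolynomial (Fin n) K).IsHomogeneous 1 := by
    intro ξ i
    apply IsHomogeneous.sum
    intro k _
    have h1 := (isHomogeneous_C (Fin n) (ξ k)).mul (hz i k)
    rwa [zero_add] at h1
  have hreg : ∀ ξ : Fin a → K, ξ ≠ 0 →
      Reg m (⊥ : Ideal (MvPolynomial (Fin n) K)) (fun i => ∑ k, C (ξ k) * z i k) u :=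
    fun ξ hξ => reg_of_rank _ (hlin ξ) u (hrank ξ hξ)
  have hsum : ∀ (ξ : Fin a → K) (ω : (Fin m → Bool) → MvPolynomial (Fin n) K),
      (∑ k, ξ k • Tool_d (fun i => z i k) ω) = kd m (fun i => ∑ k, C (ξ k) * z i k) ω :=
    fun ξ ω => Tool_kd_sum z ξ ω Finset.univ
  have hcond : ∀ i : ℕ, i < a → i + c < u ∨ ((d : ℤ) + (i : ℤ)) < (sg s (u - i) : ℕ) := by
    intro i hi
    rcases hu i hi with h | h
    · exact Or.inl h
    · right
      exact_mod_cast h
  have key := ext_inj a (fun k => Tool_d (fun i => z i k))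
    (fun k l x => by
      funext b
      exact kd_anti m (fun i => z i k) (fun i => z i l) x b)
    (fun k x => kd_kd m (fun i => z i k) x)
    (fun i => Tool_C K n m d i) (fun i => Tool_C K n m d i ⊓ Tool_J m (pI f c))
    (fun i => Tool_fin K n m d i) (fun i => inf_le_left)
    (fun i k x hx => by
      have h1 := HomK.kd (x := fun i => z i k) (fun i => hz i k) (Tool_mem_C.1 hx)
      rw [Tool_d_apply, Tool_mem_C]
      push_cast
      rwa [← add_assoc])
    (fun i k x hx => by
      have h1 := HomK.kd (x := fun i => z i k) (fun i => hz i k) (Tool_mem_C.1 hx.1)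
      refine ⟨?_, ?_⟩
      · show Tool_d (fun i => z i k) x ∈ Tool_C K n m d (i + 1)
        rw [Tool_d_apply, Tool_mem_C]
        push_cast
        rwa [← add_assoc]
      · exact kd_mem m (fun i => z i k) (pI f c) x hx.2)
    ?_ ?_ (fun k => Tool_P m (p k)) (fun k => Tool_P_mem (hp k)) ?_
  · intro k
    have h1 := (key k).2 (fun _ => false)
    have h2 : Tool_P m (p k) (fun _ => false) = p k := by
      unfold Tool_P
      rw [if_pos rfl]
    rwa [h2] at h1
  · -- hex0
    intro ξ hξ x hx hxN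
    have ha : 0 < a := by
      by_contra h0
      apply hξ
      funext k
      exact absurd k.2 (by omega)
    rw [hsum] at hxN
    obtain ⟨η, hη, hη2⟩ := koszul_vanish hs hf (hlin ξ) (hreg ξ hξ) c le_rfl 0
      ((d : ℤ) + ((0 : ℕ) : ℤ)) (hcond 0 ha) (Tool_mem_C.1 hx) hxN.2
    have h0 : η = fun _ => 0 := hη.eq_zero_of_neg (Or.inl (by simp))
    refine ⟨hx, fun b => ?_⟩
    have h1 := hη2 b
    rw [h0, kd_zero, sub_zero] at h1
    exact h1
  · -- hex
    intro ξ hξ i hi x hx hxN
    rw [hsum] at hxN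
    obtain ⟨η, hη, hη2⟩ := koszul_vanish hs hf (hlin ξ) (hreg ξ hξ) c le_rfl (i + 1)
      ((d : ℤ) + ((i + 1 : ℕ) : ℤ)) (hcond (i + 1) hi) (Tool_mem_C.1 hx) hxN.2
    have hη' : HomK (i : ℤ) ((d : ℤ) + (i : ℤ)) η := by
      have e1 : ((i + 1 : ℕ) : ℤ) - 1 = (i : ℤ) := by push_cast; ring
      have e2 : (d : ℤ) + ((i + 1 : ℕ) : ℤ) - 1 = (d : ℤ) + (i : ℤ) := by push_cast; ring
      rwa [e1, e2] at hη
    refine ⟨η, Tool_mem_C.2 hη', ?_⟩
    rw [hsum]
    refine ⟨?_, fun b => hη2 b⟩
    have h1 := HomK.kd (hlin ξ) hη'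
    have e3 : (i : ℤ) + 1 = ((i + 1 : ℕ) : ℤ) := by push_cast; ring
    have e4 : (d : ℤ) + (i : ℤ) + 1 = (d : ℤ) + ((i + 1 : ℕ) : ℤ) := by push_cast; ring
    rw [e3, e4] at h1
    exact Submodule.sub_mem _ hx (Tool_mem_C.2 h1)
  · -- the sum
    refine ⟨?_, ?_⟩
    · apply Submodule.sum_mem
      intro k _
      have h1 := HomK.kd (x := fun i => z i k) (fun i => hz i k) (Tool_mem_C.1 (Tool_P_mem (m := m) (hp k)))
      rw [Tool_d_apply, Tool_mem_C]
      have e3 : ((0 : ℕ) : ℤ) + 1 = ((1 : ℕ) : ℤ) := by simp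
      have e4 : (d : ℤ) + ((0 : ℕ) : ℤ) + 1 = (d : ℤ) + ((1 : ℕ) : ℤ) := by simp
      rwa [e3, e4] at h1
    · intro b
      rw [Finset.sum_apply]
      exact Tool_P_kd (pI f c) p m z hzp b

end Pool.Agent.EGH2
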