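import Pool.Agent.EGH2.Tool

/-!
# The tool, subspace form

PROOF by contradiction: suppose every `V' ≤ V` with `qd V' + 1 = qd V` has
`qd (S₁V) + u ≤ qd (S₁V') + n`.  Let `a = qd V > 0` and choose `p 0, …, p (a-1) ∈ V` whose classes are a
basis of `V.map mk` (so `∑ c k • p k ∈ I → c = 0` and `V ≤ span p + I`).
Let `Z = {z : Fin a → S | ∀ k, z k ∈ S₁, ∑ z k * p k ∈ I}`, a finite dimensional `K`-space, and
`z 0, …, z (m-1)` a basis (or any finite spanning family).
Apply `tool_fam` to get `p k ∈ I` for all `k`, contradicting independence (`a > 0`).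
It remains to check `hrank` for `ξ ≠ 0`: let `V' = {∑ c k • p k : ∑ ξ k * c k = 0}` (`qd V' = a - 1`),
`v₀ = ∑ c k • p k` with `∑ ξ k * c k = 1`, and `U = {ℓ ∈ S₁ : ℓ * v₀ ∈ I + S₁ V'}`.
* rank-nullity for `S₁ → (S/I) / (S₁V').map mk`, `ℓ ↦ ℓ v₀`: kernel `U`, image `(S₁V).map mk` modulo
  `(S₁V').map mk` (as `V ≤ V' + K v₀ + I`).  So `n = finrank S₁ = finrank U + qd (S₁V) - qd (S₁V')`, hence
  `u ≤ finrank U` by the assumption.
* `U ≤ span {∑ k, C (ξ k) * z i k}`: for `ℓ ∈ U` write `ℓ v₀ = ι + ∑ w k * p k` with `w k ∈ S₁`,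
  `∑ ξ k * w k = 0` (elements of `S₁V'` have this form), so `z' k = ℓ c k - w k` is in `Z` and
  `∑ ξ k * z' k = ℓ`.
-/

set_option autoImplicit false

namespace Pool.Agent.EGH2

open MvPolynomial

/-- `w ↦ ∑ w k * p k` on families of linear forms -/
noncomputable def ToolV_P {K : Type} [Field K] {n a : ℕ} (p : Fin a → MvPolynomial (Fin n) K) :
    (Fin a → S1 K n) →ₗ[K] MvPolynomial (Fin n) K where
  toFun w := ∑ k, (w k : MvPolynomial (Fin n) K) * p k
  map_add' w w' := by
    simp only [Pi.add_apply, Submodule.coe_add, add_mul, Finset.sum_add_distrib]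
  map_smul' t w := by
    simp only [Pi.smul_apply, Submodule.coe_smul, smul_mul_assoc, Finset.smul_sum, RingHom.id_apply]

/-- `w ↦ ∑ ξ k • w k` on families of linear forms -/
noncomputable def ToolV_X {K : Type} [Field K] {n a : ℕ} (ξ : Fin a → K) :
    (Fin a → S1 K n) →ₗ[K] MvPolynomial (Fin n) K where
  toFun w := ∑ k, ξ k • (w k : MvPolynomial (Fin n) K)
  map_add' w w' := by
    simp only [Pi.add_apply, Submodule.coe_add, smul_add, Finset.sum_add_distrib]
  map_smul' t w := by
    simp only [Pi.smul_apply, Submodule.coe_smul, Finset.smul_sum, RingHom.id_apply]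
    exact Finset.sum_congr rfl fun k _ => smul_comm _ _ _

/-- `c ↦ ∑ c k • p k` -/
noncomputable def ToolV_L {K : Type} [Field K] {n a : ℕ} (p : Fin a → MvPolynomial (Fin n) K) :
    (Fin a → K) →ₗ[K] MvPolynomial (Fin n) K where
  toFun c := ∑ k, c k • p k
  map_add' w w' := by
    simp only [Pi.add_apply, add_smul, Finset.sum_add_distrib]
  map_smul' t w := by
    simp only [Pi.smul_apply, smul_eq_mul, mul_smul, Finset.smul_sum, RingHom.id_apply]

/-- `c ↦ ∑ ξ k * c k` -/
noncomputable def ToolV_F {K : Type} [Field K] {a : ℕ} (ξ : Fin a → K) :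
    (Fin a → K) →ₗ[K] K where
  toFun c := ∑ k, ξ k * c k
  map_add' w w' := by
    simp only [Pi.add_apply, mul_add, Finset.sum_add_distrib]
  map_smul' t w := by
    simp only [Pi.smul_apply, smul_eq_mul, Finset.mul_sum, RingHom.id_apply]
    exact Finset.sum_congr rfl fun k _ => by ring

/-- the rank condition -/
theorem ToolV_rank {K : Type} [Field K] {n a d u : ℕ} (I : Ideal (MvPolynomial (Fin n) K))
    (V : Submodule K (MvPolynomial (Fin n) K)) (hV : V ≤ homogeneousSubmodule (Fin n) K d)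
    (ha : a = qd I V) (p : Fin a → MvPolynomial (Fin n) K) (hp : ∀ k, p k ∈ V)
    (hind : ∀ c : Fin a → K, ∑ k, c k • p k ∈ I → c = 0)
    (hcon : ∀ V' ≤ V, qd I V' + 1 = qd I V →
      qd I (S1 K n * V) + u ≤ qd I (S1 K n * V') + n)
    (ξ : Fin a → K) (hξ : ξ ≠ 0) :
    u ≤ Module.finrank K (Submodule.map (ToolV_X (n := n) ξ)
      (Submodule.comap (ToolV_P p) (Submodule.restrictScalars K I))) := by
  set π : MvPolynomial (Fin n) K →ₗ[K] (MvPolynomial (Fin n) K ⧸ I) :=
    (Ideal.Quotient.mkₐ K I).toLinearMap with hπ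
  have hπ0 : ∀ y, π y = 0 ↔ y ∈ I := fun y => Ideal.Quotient.eq_zero_iff_mem
  have hfin1 : FiniteDimensional K (S1 K n) := finite_hom n 1
  -- the space `V'`
  set V' : Submodule K (MvPolynomial (Fin n) K) :=
    Submodule.map (ToolV_L p) (LinearMap.ker (ToolV_F ξ)) with hV'
  have hV'V : V' ≤ V := by
    rintro _ ⟨c, -, rfl⟩
    show ∑ k, c k • p k ∈ V
    exact Submodule.sum_mem _ fun k _ => Submodule.smul_mem _ _ (hp k)
  -- a vector with value one
  obtain ⟨k0, hk0⟩ : ∃ k, ξ k ≠ 0 := by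
    by_contra hcon
    push Not at hcon
    exact hξ (funext hcon)
  obtain ⟨c0, hc0⟩ : ∃ c0 : Fin a → K, ∑ k, ξ k * c0 k = 1 := by
    refine ⟨fun k => if k = k0 then (ξ k0)⁻¹ else 0, ?_⟩
    simp [hk0]
  have hinjL : Function.Injective (π ∘ₗ ToolV_L p) := by
    rw [← LinearMap.ker_eq_bot, LinearMap.ker_eq_bot']
    intro c hc
    exact hind c ((hπ0 _).1 hc)
  have hqV' : qd I V' + 1 = qd I V := by
    have h1 : qd I V' = Module.finrank K (LinearMap.ker (ToolV_F ξ)) := by
      unfold qd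
      rw [hV', ← Submodule.map_comp]
      exact (LinearEquiv.finrank_eq (Submodule.equivMapOfInjective _ hinjL _)).symm
    have h2 := LinearMap.finrank_range_add_finrank_ker (ToolV_F ξ)
    have h3 : LinearMap.range (ToolV_F ξ) = ⊤ := by
      rw [LinearMap.range_eq_top]
      intro t
      refine ⟨t • c0, ?_⟩
      rw [map_smul]
      show t • (∑ k, ξ k * c0 k) = t
      rw [hc0, smul_eq_mul, mul_one]
    rw [h3, finrank_top, Module.finrank_self, Module.finrank_fin_fun] at h2
    omega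
  have hc := hcon V' hV'V hqV'
  -- the spaces modulo `I`
  set B : Submodule K (MvPolynomial (Fin n) K ⧸ I) := (S1 K n * V).map π with hB
  set B' : Submodule K (MvPolynomial (Fin n) K ⧸ I) := (S1 K n * V').map π with hB'
  have hBq : Module.finrank K B = qd I (S1 K n * V) := rfl
  have hB'q : Module.finrank K B' = qd I (S1 K n * V') := rfl
  have hfinM : FiniteDimensional K (S1 K n * V : Submodule K _) := by
    have : FiniteDimensional K (homogeneousSubmodule (Fin n) K (d + 1)) := finite_hom n (d + 1)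
    exact Submodule.finiteDimensional_of_le (S1_mul_le hV)
  have hfinB : FiniteDimensional K B := by
    rw [hB]
    infer_instance
  have hB'B : B' ≤ B := Submodule.map_mono (Submodule.mul_le.2 fun m hm v hv =>
    Submodule.mul_mem_mul hm (hV'V hv))
  have hfinB' : FiniteDimensional K B' := Submodule.finiteDimensional_of_le hB'B
  set v0 : MvPolynomial (Fin n) K := ToolV_L p c0 with hv0
  have hv0V : v0 ∈ V := by
    show ∑ k, c0 k • p k ∈ V
    exact Submodule.sum_mem _ fun k _ => Submodule.smul_mem _ _ (hp k)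
  -- the map `(ℓ, b) ↦ π (ℓ v0) + b`
  set ψ : (S1 K n × B') →ₗ[K] (MvPolynomial (Fin n) K ⧸ I) :=
    LinearMap.coprod (π ∘ₗ (LinearMap.mulRight K v0) ∘ₗ (S1 K n).subtype) B'.subtype with hψ
  have hψa : ∀ ℓ : S1 K n, ∀ b : B', ψ (ℓ, b) = π ((ℓ : MvPolynomial (Fin n) K) * v0) + b := by
    intro ℓ b
    simp [hψ]
  have h1 := LinearMap.finrank_range_add_finrank_ker ψ
  have h2 : Module.finrank K (S1 K n × B') = n + qd I (S1 K n * V') := by
    rw [Module.finrank_prod, finrank_S1, hB'q]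
  have h3 : Module.finrank K (LinearMap.range ψ) ≤ qd I (S1 K n * V) := by
    rw [← hBq]
    apply Submodule.finrank_mono
    rintro _ ⟨⟨ℓ, b⟩, rfl⟩
    rw [hψa]
    refine Submodule.add_mem _ ⟨_, Submodule.mul_mem_mul ℓ.2 hv0V, rfl⟩ (hB'B b.2)
  have h4 : u ≤ Module.finrank K (LinearMap.ker ψ) := by omega
  refine h4.trans ?_
  -- the kernel embeds
  have hmem : ∀ y : LinearMap.ker ψ, (((y : S1 K n × B').1 : S1 K n) : MvPolynomial (Fin n) K) ∈
      Submodule.map (ToolV_X (n := n) ξ)
        (Submodule.comap (ToolV_P p) (Submodule.restrictScalars K I)) := by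
    rintro ⟨⟨ℓ, b⟩, hy⟩
    show (ℓ : MvPolynomial (Fin n) K) ∈ _
    rw [LinearMap.mem_ker, hψa] at hy
    obtain ⟨bv, hb⟩ := b
    obtain ⟨y, hyV, rfl⟩ := hb
    -- elements of `S₁ V'`
    have hQ : S1 K n * V' ≤ Submodule.map (ToolV_P p) (LinearMap.ker (ToolV_X (n := n) ξ)) := by
      rw [Submodule.mul_le]
      rintro m hm _ ⟨c, hc, rfl⟩
      refine ⟨fun k => c k • (⟨m, hm⟩ : S1 K n), ?_, ?_⟩
      · have hc' : ∑ k, ξ k * c k = 0 := hc
        show ToolV_X ξ (fun k => c k • (⟨m, hm⟩ : S1 K n)) = 0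
        have e1 : ToolV_X ξ (fun k => c k • (⟨m, hm⟩ : S1 K n)) = (∑ k, ξ k * c k) • m := by
          show ∑ k, ξ k • ((c k • (⟨m, hm⟩ : S1 K n) : S1 K n) : MvPolynomial (Fin n) K) = _
          rw [Finset.sum_smul]
          refine Finset.sum_congr rfl fun k _ => ?_
          rw [Submodule.coe_smul, smul_smul]
        rw [e1, hc', zero_smul]
      · show ∑ k, ((c k • (⟨m, hm⟩ : S1 K n) : S1 K n) : MvPolynomial (Fin n) K) * p k
          = m * ∑ k, c k • p k
        rw [Finset.mul_sum]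
        refine Finset.sum_congr rfl fun k _ => ?_
        rw [Submodule.coe_smul, smul_mul_assoc, mul_smul_comm]
    obtain ⟨w, hw, hwy⟩ := hQ hyV
    have hw0 : ToolV_X ξ w = 0 := hw
    have hsum : π ((ℓ : MvPolynomial (Fin n) K) * v0 + y) = 0 := by
      rw [map_add]
      exact hy
    rw [hπ0] at hsum
    refine ⟨(fun k => c0 k • ℓ) + w, ?_, ?_⟩
    · show ToolV_P p ((fun k => c0 k • ℓ) + w) ∈ I
      have e1 : ToolV_P p (fun k => c0 k • ℓ) = (ℓ : MvPolynomial (Fin n) K) * v0 := by
        show ∑ k, ((c0 k • ℓ : S1 K n) : MvPolynomial (Fin n) K) * p k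
          = (ℓ : MvPolynomial (Fin n) K) * ∑ k, c0 k • p k
        rw [Finset.mul_sum]
        refine Finset.sum_congr rfl fun k _ => ?_
        rw [Submodule.coe_smul, smul_mul_assoc, mul_smul_comm]
      rw [map_add, e1, hwy]
      exact hsum
    · have e1 : ToolV_X ξ (fun k => c0 k • ℓ) = (∑ k, ξ k * c0 k) • (ℓ : MvPolynomial (Fin n) K) := by
        show ∑ k, ξ k • ((c0 k • ℓ : S1 K n) : MvPolynomial (Fin n) K) = _
        rw [Finset.sum_smul]
        refine Finset.sum_congr rfl fun k _ => ?_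
        rw [Submodule.coe_smul, smul_smul]
      rw [map_add, e1, hw0, hc0, one_smul, add_zero]
  have hfinT : FiniteDimensional K (Submodule.map (ToolV_X (n := n) ξ)
      (Submodule.comap (ToolV_P p) (Submodule.restrictScalars K I))) := inferInstance
  set F : LinearMap.ker ψ →ₗ[K] MvPolynomial (Fin n) K :=
    (S1 K n).subtype ∘ₗ LinearMap.fst K (S1 K n) B' ∘ₗ (LinearMap.ker ψ).subtype with hF
  have hFinj : Function.Injective F := by
    rintro ⟨⟨ℓ, b⟩, hy⟩ ⟨⟨ℓ', b'⟩, hy'⟩ h
    have hℓ : (ℓ : MvPolynomial (Fin n) K) = ℓ' := h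
    have hℓ' : ℓ = ℓ' := Subtype.ext hℓ
    rw [LinearMap.mem_ker, hψa] at hy hy'
    have hb : b = b' := by
      apply Subtype.ext
      rw [hℓ'] at hy
      exact add_left_cancel (hy.trans hy'.symm)
    apply Subtype.ext
    show (ℓ, b) = (ℓ', b')
    rw [hℓ', hb]
  rw [← LinearMap.finrank_range_of_inj hFinj]
  apply Submodule.finrank_mono
  rintro _ ⟨y, rfl⟩
  exact hmem y

theorem tool_V {K : Type} [Field K] [IsAlgClosed K] {n c : ℕ} {s : ℕ → ℕ} (hs : Monotone s)
    {f : Fin c → MvPolynomial (Fin n) K} (hf : CI s f) {d u : ℕ}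
    (V : Submodule K (MvPolynomial (Fin n) K)) (hV : V ≤ homogeneousSubmodule (Fin n) K d)
    (ha : 0 < qd (pI f c) V)
    (hu : ∀ i < qd (pI f c) V, i + c < u ∨ d + i < sg s (u - i)) :
    ∃ V' ≤ V, qd (pI f c) V' + 1 = qd (pI f c) V ∧
      qd (pI f c) (S1 K n * V') + n < qd (pI f c) (S1 K n * V) + u := by
  by_contra hcon
  push Not at hcon
  set I := pI f c with hI
  have hfin1 : FiniteDimensional K (S1 K n) := finite_hom n 1
  -- representatives of a basis
  obtain ⟨p, hp, hind⟩ : ∃ p : Fin (qd I V) → MvPolynomial (Fin n) K, (∀ k, p k ∈ V) ∧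
      ∀ c : Fin (qd I V) → K, ∑ k, c k • p k ∈ I → c = 0 := by
    have : FiniteDimensional K V := by
      have : FiniteDimensional K (homogeneousSubmodule (Fin n) K d) := finite_hom n d
      exact Submodule.finiteDimensional_of_le hV
    have b : Module.Basis (Fin (qd I V)) K (V.map (Ideal.Quotient.mkₐ K I).toLinearMap) :=
      Module.finBasis K (V.map (Ideal.Quotient.mkₐ K I).toLinearMap)
    have h1 : ∀ k, ∃ q, q ∈ V ∧ (Ideal.Quotient.mkₐ K I).toLinearMap q = (b k : _ ⧸ I) :=
      fun k => (b k).2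
    choose p hp hp2 using h1
    refine ⟨p, hp, fun c hc => ?_⟩
    have h2 := (Fintype.linearIndependent_iff.1 b.linearIndependent) c (by
      apply Subtype.ext
      rw [Submodule.coe_sum, Submodule.coe_zero]
      have h3 : (Ideal.Quotient.mkₐ K I).toLinearMap (∑ k, c k • p k) = 0 :=
        Ideal.Quotient.eq_zero_iff_mem.2 hc
      rw [map_sum] at h3
      rw [← h3]
      refine Finset.sum_congr rfl fun k _ => ?_
      rw [map_smul, hp2, Submodule.coe_smul])
    exact funext h2
  -- the relations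
  set Z : Submodule K (Fin (qd I V) → S1 K n) :=
    Submodule.comap (ToolV_P p) (Submodule.restrictScalars K I) with hZ
  obtain ⟨m, z, hz⟩ := Submodule.fg_iff_exists_fin_generating_family.1 (IsNoetherian.noetherian Z)
  have hzZ : ∀ i, z i ∈ Z := fun i => by
    rw [← hz]
    exact Submodule.subset_span ⟨i, rfl⟩
  have key := tool_fam hs hf (d := d) (u := u)
    (fun (i : Fin m) k => ((z i k : S1 K n) : MvPolynomial (Fin n) K))
    (fun i k => (z i k).2) p (fun k => hV (hp k))
    (fun i => hzZ i) (by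
      intro ξ hξ
      refine (ToolV_rank I V hV rfl p hp hind (fun V' h h' => ?_) ξ hξ).trans ?_
      · exact hcon V' h h'
      · have := FiniteDimensional.span_of_finite K (Set.finite_range (fun i : Fin m =>
          ∑ k, C (ξ k) * ((z i k : S1 K n) : MvPolynomial (Fin n) K)))
        apply Submodule.finrank_mono
        rw [← hZ, ← hz, Submodule.map_span, ← Set.range_comp]
        refine Submodule.span_mono ?_
        rintro _ ⟨i, rfl⟩
        refine ⟨i, ?_⟩
        show ∑ k, C (ξ k) * _ = ∑ k, ξ k • _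
        refine Finset.sum_congr rfl fun k _ => ?_
        rw [MvPolynomial.smul_eq_C_mul]) hu
  have h0 := hind (fun k => if k = ⟨0, ha⟩ then 1 else 0) (by
    simp only [ite_smul, one_smul, zero_smul, Finset.sum_ite_eq', Finset.mem_univ, if_true]
    exact key _)
  have := congrFun h0 ⟨0, ha⟩
  simp at this

end Pool.Agent.EGH2
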